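import Pool.Agent.Helper53.SV.Defs

/-!
# Cauchy theorem outside finitely many discs
-/

set_option autoImplicit false

open Complex Filter Topology Metric
open scoped ComplexConjugate

namespace Pool.Agent.SV

variable {N : ℕ}

/-- The Cauchy integral over a circle. -/
noncomputable def cint (f : ℂ → ℂ) (p : ℂ) (s : ℝ) (z : ℂ) : ℂ :=
  ∮ w in C(p, s), (w - z)⁻¹ * f w

private theorem norm_cm {p : ℂ} {s : ℝ} (hs : 0 < s) (θ : ℝ) : ‖circleMap p s θ - p‖ = s := by
  rw [circleMap_sub_center, norm_circleMap_zero, abs_of_pos hs]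

private theorem sphere_bound {f : ℂ → ℂ} {p : ℂ} {s : ℝ} (hf : ContinuousOn f (sphere p s)) :
    ∃ M : ℝ, 0 ≤ M ∧ ∀ w ∈ sphere p s, ‖f w‖ ≤ M := by
  obtain ⟨M, hM⟩ := (isCompact_sphere p s).exists_bound_of_continuousOn hf
  exact ⟨max M 0, le_max_right _ _, fun w hw => (hM w hw).trans (le_max_left _ _)⟩

theorem cint_in_diff {f : ℂ → ℂ} {p : ℂ} {s : ℝ} (hs : 0 < s) (hf : ContinuousOn f (sphere p s))
    {z : ℂ} (hz : ‖z - p‖ < s) : DifferentiableAt ℂ (cint f p s) z := by
  have hz' : z ∈ ball p s := by rwa [mem_ball, dist_eq_norm]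
  lift s to NNReal using hs.le
  have h := hasFPowerSeriesOn_cauchy_integral (c := p) (R := s)
    (hf.circleIntegrable s.2) (by exact_mod_cast hs)
  have h2 := h.differentiableOn
  rw [Metric.eball_coe] at h2
  have h3 := (h2.differentiableAt (isOpen_ball.mem_nhds hz')).const_mul (2 * Real.pi * I : ℂ)
  refine h3.congr_of_eventuallyEq (Eventually.of_forall fun x => ?_)
  have hpi : (2 * Real.pi * I : ℂ) ≠ 0 := by simp [Complex.I_ne_zero, Real.pi_ne_zero]
  simp only [cint, smul_eq_mul]
  field_simp

theorem cint_out_diff {f : ℂ → ℂ} {p : ℂ} {s : ℝ} (hs : 0 < s) (hf : ContinuousOn f (sphere p s))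
    {z₀ : ℂ} (hz₀ : s < ‖z₀ - p‖) : DifferentiableAt ℂ (cint f p s) z₀ := by
  obtain ⟨M, hM0, hM⟩ := sphere_bound hf
  set ε := (‖z₀ - p‖ - s) / 2 with hε
  have hε0 : 0 < ε := by rw [hε]; linarith
  have hball : ∀ z ∈ ball z₀ ε, ∀ θ, ε ≤ ‖circleMap p s θ - z‖ := by
    intro z hz θ
    rw [mem_ball, dist_eq_norm] at hz
    have h1 := norm_cm (p := p) hs θ
    have h2 : ‖z₀ - p‖ ≤ ‖z - z₀‖ + ‖circleMap p s θ - z‖ + ‖circleMap p s θ - p‖ := by
      have : z₀ - p = -(z - z₀) - (circleMap p s θ - z) + (circleMap p s θ - p) := by ring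
      rw [this]
      refine (norm_add_le _ _).trans (add_le_add ((norm_sub_le _ _).trans ?_) le_rfl)
      rw [norm_neg]
    linarith
  have hne : ∀ z ∈ ball z₀ ε, ∀ θ, circleMap p s θ - z ≠ 0 := by
    intro z hz θ h
    have := hball z hz θ
    rw [h, norm_zero] at this
    linarith
  have hfc : Continuous fun θ => f (circleMap p s θ) :=
    hf.comp_continuous (continuous_circleMap p s) (fun θ => circleMap_mem_sphere p hs.le θ)
  have hcont : ∀ z ∈ ball z₀ ε,
      Continuous fun θ => deriv (circleMap p s) θ * ((circleMap p s θ - z)⁻¹ * f (circleMap p s θ)) := by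
    intro z hz
    refine Continuous.mul ?_ ((((continuous_circleMap p s).sub continuous_const).inv₀
      (hne z hz)).mul hfc)
    rw [show deriv (circleMap p s) = fun θ => circleMap 0 s θ * I from funext (deriv_circleMap p s)]
    exact ((continuous_circleMap 0 s).mul continuous_const)
  have h := (intervalIntegral.hasDerivAt_integral_of_dominated_loc_of_deriv_le
    (μ := MeasureTheory.volume) (a := 0) (b := 2 * Real.pi)
    (F := fun (z : ℂ) (θ : ℝ) =>
      deriv (circleMap p s) θ * ((circleMap p s θ - z)⁻¹ * f (circleMap p s θ)))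
    (F' := fun (z : ℂ) (θ : ℝ) =>
      deriv (circleMap p s) θ * (((circleMap p s θ - z) ^ 2)⁻¹ * f (circleMap p s θ)))
    (x₀ := z₀) (s := ball z₀ ε) (bound := fun _ => s * ((ε ^ 2)⁻¹ * M)) (ball_mem_nhds _ hε0)
    ?_ ?_ ?_ ?_ ?_ ?_).2
  · exact h.differentiableAt
  · filter_upwards [ball_mem_nhds z₀ hε0] with z hz
    exact (hcont z hz).aestronglyMeasurable
  · exact (hcont z₀ (mem_ball_self hε0)).intervalIntegrable _ _
  · refine Continuous.aestronglyMeasurable ?_
    refine Continuous.mul ?_ (((((continuous_circleMap p s).sub continuous_const).pow 2).inv₀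
      (fun θ => pow_ne_zero 2 (hne z₀ (mem_ball_self hε0) θ))).mul hfc)
    rw [show deriv (circleMap p s) = fun θ => circleMap 0 s θ * I from funext (deriv_circleMap p s)]
    exact ((continuous_circleMap 0 s).mul continuous_const)
  · refine Eventually.of_forall fun θ _ z hz => ?_
    have h1 := hball z hz θ
    rw [norm_mul, norm_mul, norm_inv, norm_pow, deriv_circleMap, norm_mul, norm_circleMap_zero,
      norm_I, mul_one, abs_of_pos hs]
    gcongr
    exact hM _ (circleMap_mem_sphere p hs.le θ)
  · exact intervalIntegrable_const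
  · refine Eventually.of_forall fun θ _ z hz => ?_
    have h1 : HasDerivAt (fun z : ℂ => circleMap p s θ - z) (-1) z := by
      simpa using (hasDerivAt_id z).const_sub (circleMap p s θ)
    have h2 := ((h1.inv (hne z hz θ)).mul_const (f (circleMap p s θ))).const_mul
      (deriv (circleMap p s) θ)
    refine h2.congr_deriv ?_ |>.congr_of_eventuallyEq ?_
    · have := hne z hz θ
      field_simp
    · refine Eventually.of_forall fun z => ?_
      simp only [Pi.inv_apply]

theorem cint_coeff {f : ℂ → ℂ} {p : ℂ} {s : ℝ} (hs : 0 < s) (hf : ContinuousOn f (sphere p s)) :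
    Tendsto (fun z => z * cint f p s z) (cocompact ℂ) (𝓝 (-∮ w in C(p, s), f w)) := by
  obtain ⟨M, hM0, hM⟩ := sphere_bound hf
  have hn : Tendsto (fun z : ℂ => ‖z‖) (cocompact ℂ) atTop := tendsto_norm_cocompact_atTop
  have h1 : Tendsto (fun z : ℂ => 2 * Real.pi * s * ((‖p‖ + s) * M) / (‖z‖ - (‖p‖ + s)))
      (cocompact ℂ) (𝓝 0) :=
    Tendsto.div_atTop tendsto_const_nhds (tendsto_atTop_add_const_right _ (-(‖p‖ + s)) hn)
  rw [tendsto_iff_norm_sub_tendsto_zero]
  refine squeeze_zero' (Eventually.of_forall fun z => norm_nonneg _) ?_ h1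
  filter_upwards [hn.eventually_gt_atTop (‖p‖ + s)] with z hz
  have hw1 : ∀ w ∈ sphere p s, ‖w‖ ≤ ‖p‖ + s := by
    intro w hw
    rw [mem_sphere, dist_eq_norm] at hw
    have := norm_add_le (w - p) p
    rw [sub_add_cancel] at this
    linarith
  have hw2 : ∀ w ∈ sphere p s, ‖z‖ - (‖p‖ + s) ≤ ‖w - z‖ := by
    intro w hw
    have := hw1 w hw
    have h3 := norm_sub_norm_le z w
    rw [norm_sub_rev] at h3
    linarith
  have hne : ∀ w ∈ sphere p s, w - z ≠ 0 := by
    intro w hw h
    have := hw2 w hw
    rw [h, norm_zero] at this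
    linarith
  have hc : ContinuousOn (fun w : ℂ => (w - z)⁻¹) (sphere p s) :=
    (continuousOn_id.sub continuousOn_const).inv₀ hne
  have e : z * cint f p s z - (-∮ w in C(p, s), f w)
      = ∮ w in C(p, s), w * ((w - z)⁻¹ * f w) := by
    rw [cint, sub_neg_eq_add, ← circleIntegral.integral_const_mul, ← circleIntegral.integral_add]
    · refine circleIntegral.integral_congr hs.le fun w hw => ?_
      have := hne w hw
      field_simp
      ring
    · exact (continuousOn_const.mul (hc.mul hf)).circleIntegrable hs.le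
    · exact hf.circleIntegrable hs.le
  rw [e]
  refine (circleIntegral.norm_integral_le_of_norm_le_const hs.le
    (C := (‖p‖ + s) * M / (‖z‖ - (‖p‖ + s))) fun w hw => ?_).trans (le_of_eq (by ring))
  have h3 := hw2 w hw
  have h4 : 0 < ‖z‖ - (‖p‖ + s) := by linarith
  rw [norm_mul, norm_mul, norm_inv]
  calc ‖w‖ * (‖w - z‖⁻¹ * ‖f w‖) ≤ (‖p‖ + s) * ((‖z‖ - (‖p‖ + s))⁻¹ * M) := by
        gcongr
        · exact hw1 w hw
        · exact hM w hw
    _ = _ := by ring

/-- Laurent decomposition in an annulus -/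
theorem laurent_cint {g : ℂ → ℂ} {p : ℂ} {s S : ℝ} (hs : 0 < s)
    (hc : ContinuousOn g (closedBall p S \ ball p s))
    (hd : ∀ w, s < ‖w - p‖ → ‖w - p‖ < S → DifferentiableAt ℂ g w) {z : ℂ} (hz : s < ‖z - p‖)
    (hzS : ‖z - p‖ < S) : 2 * Real.pi * I * g z = cint g p S z - cint g p s z := by
  have hS : 0 < S := hs.trans (hz.trans hzS)
  have hsS : s ≤ S := (hz.trans hzS).le
  have hmem : ball p S \ closedBall p s ∈ 𝓝 z := by
    refine (isOpen_ball.sdiff isClosed_closedBall).mem_nhds ⟨?_, ?_⟩
    · rwa [mem_ball, dist_eq_norm]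
    · rw [mem_closedBall, dist_eq_norm, not_le]; exact hz
  have hsub : ball p S \ closedBall p s ⊆ closedBall p S \ ball p s :=
    Set.sdiff_subset_sdiff ball_subset_closedBall ball_subset_closedBall
  have hcont : ContinuousOn (dslope g z) (closedBall p S \ ball p s) :=
    (continuousOn_dslope (mem_of_superset hmem hsub)).mpr ⟨hc, hd z hz hzS⟩
  have key : (∮ w in C(p, S), dslope g z w) = ∮ w in C(p, s), dslope g z w := by
    refine Complex.circleIntegral_eq_of_differentiable_on_annulus_off_countable hs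
      hsS (Set.countable_singleton z) hcont ?_
    rintro w ⟨⟨hw1, hw2⟩, hw3⟩
    rw [mem_ball, dist_eq_norm] at hw1
    rw [mem_closedBall, dist_eq_norm, not_le] at hw2
    exact (differentiableAt_dslope_of_ne hw3).mpr (hd w hw2 hw1)
  have hsplit : ∀ r : ℝ, 0 < r → ContinuousOn g (sphere p r) → (∀ w ∈ sphere p r, w ≠ z) →
      (∮ w in C(p, r), dslope g z w) = cint g p r z
        - (∮ w in C(p, r), (w - z)⁻¹) * g z := by
    intro r hr hgc hne
    have hc : ContinuousOn (fun w : ℂ => (w - z)⁻¹) (sphere p r) :=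
      (continuousOn_id.sub continuousOn_const).inv₀ fun w hw => sub_ne_zero.mpr (hne w hw)
    have i1 : CircleIntegrable (fun w => (w - z)⁻¹ * g w) p r :=
      (hc.mul hgc).circleIntegrable hr.le
    have i2 : CircleIntegrable (fun w => (w - z)⁻¹ * g z) p r :=
      (hc.mul continuousOn_const).circleIntegrable hr.le
    have h1 : (∮ w in C(p, r), (w - z)⁻¹) * g z = ∮ w in C(p, r), (w - z)⁻¹ * g z := by
      have := circleIntegral.integral_smul_const (fun w : ℂ => (w - z)⁻¹) (g z) p r
      simpa [smul_eq_mul] using this.symm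
    rw [h1, cint, ← circleIntegral.integral_sub i1 i2]
    refine circleIntegral.integral_congr hr.le fun w hw => ?_
    rw [dslope_of_ne _ (hne w hw), slope_def_module]
    simp only [smul_eq_mul]
    ring
  have hcS : ContinuousOn g (sphere p S) := hc.mono fun w hw => by
    rw [mem_sphere] at hw
    exact ⟨by rw [mem_closedBall, hw], by rw [mem_ball, hw]; exact not_lt.mpr hsS⟩
  have hcs : ContinuousOn g (sphere p s) := hc.mono fun w hw => by
    rw [mem_sphere] at hw
    exact ⟨by rw [mem_closedBall, hw]; exact hsS, by rw [mem_ball, hw]; exact lt_irrefl _⟩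
  rw [hsplit S hS hcS, hsplit s hs hcs, circleIntegral.integral_sub_inv_of_mem_ball] at key
  · have hout : (∮ w in C(p, s), (w - z)⁻¹) = 0 := by
      refine Complex.circleIntegral_eq_zero_of_differentiable_on_off_countable hs.le
        Set.countable_empty ?_ ?_
      · refine (continuousOn_id.sub continuousOn_const).inv₀ fun w hw => sub_ne_zero.mpr ?_
        rintro rfl
        rw [mem_closedBall, dist_eq_norm] at hw
        change ‖w - p‖ ≤ s at hw
        change s < ‖w - p‖ at hz
        linarith
      · rintro w ⟨hw, -⟩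
        refine (differentiableAt_id.sub_const z).inv (sub_ne_zero.mpr ?_)
        rintro rfl
        rw [mem_ball, dist_eq_norm] at hw
        change ‖w - p‖ < s at hw
        change s < ‖w - p‖ at hz
        linarith
    rw [hout, zero_mul, sub_zero] at key
    linear_combination -key
  · rw [mem_ball, dist_eq_norm]; exact hzS
  · intro w hw h
    rw [mem_sphere, h, dist_eq_norm] at hw
    exact hz.ne' hw
  · intro w hw h
    rw [mem_sphere, h, dist_eq_norm] at hw
    exact hzS.ne hw

private theorem sep_far (c : Config N) {k j : Fin N} (hjk : j ≠ k) {z : ℂ}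
    (hz : ‖z - c.p k‖ ≤ 4 * c.r k) : 4 * c.r j < ‖z - c.p j‖ := by
  have h1 := c.sep j k hjk
  have h2 : ‖c.p j - c.p k‖ ≤ ‖z - c.p k‖ + ‖z - c.p j‖ := by
    have : c.p j - c.p k = (z - c.p k) - (z - c.p j) := by ring
    rw [this]; exact norm_sub_le _ _
  have h3 := c.hr j
  have h4 := c.hr k
  linarith

private theorem annulus_Omc (c : Config N) {k : Fin N} {z : ℂ} (h1 : c.r k ≤ ‖z - c.p k‖)
    (h2 : ‖z - c.p k‖ ≤ 4 * c.r k) : z ∈ Omc c := by
  intro j
  by_cases hj : j = k
  · rw [hj]; exact h1
  · have := sep_far c hj h2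
    have h3 := c.hr j
    linarith

private theorem annulus_Om (c : Config N) {k : Fin N} {z : ℂ} (h1 : c.r k < ‖z - c.p k‖)
    (h2 : ‖z - c.p k‖ ≤ 4 * c.r k) : z ∈ Om c := by
  intro j
  by_cases hj : j = k
  · rw [hj]; exact h1
  · have := sep_far c hj h2
    have h3 := c.hr j
    linarith

private theorem isOpen_ext (c : Config N) (s : ℝ) : IsOpen {z : ℂ | ∀ k, s * c.r k < ‖z - c.p k‖} := by
  rw [Set.ofPred_forall]
  exact isOpen_iInter_of_finite fun k =>
    isOpen_lt continuous_const (continuous_id.sub continuous_const).norm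

open Classical in
/-- the entire function which is obtained by removing the parts from the discs -/
noncomputable def entF (c : Config N) (g : ℂ → ℂ) (z : ℂ) : ℂ :=
  if h : ∃ k, ‖z - c.p k‖ ≤ 2 * c.r k then
    cint g (c.p h.choose) (4 * c.r h.choose) z
      + ∑ j ∈ Finset.univ.erase h.choose, cint g (c.p j) (2 * c.r j) z
  else 2 * Real.pi * I * g z + ∑ j, cint g (c.p j) (2 * c.r j) z

theorem circ_cauchy (c : Config N) {g : ℂ → ℂ} {A : ℂ} (hd : DifferentiableOn ℂ g (Om c))
    (hc : ContinuousOn g (Omc c)) (hl : Tendsto (fun z => z * g z) (cocompact ℂ) (𝓝 A)) :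
    ∑ k, ∮ z in C(c.p k, c.r k), g z = 2 * Real.pi * I * A := by
  classical
  have hOm : IsOpen (Om c) := by
    have := isOpen_ext c 1
    simpa [Om] using this
  have hdat : ∀ z ∈ Om c, DifferentiableAt ℂ g z := fun z hz =>
    hd.differentiableAt (hOm.mem_nhds hz)
  have hsph : ∀ k (s : ℝ), c.r k ≤ s → s ≤ 4 * c.r k → ContinuousOn g (sphere (c.p k) s) := by
    intro k s h1 h2
    refine hc.mono fun w hw => ?_
    rw [mem_sphere, dist_eq_norm] at hw
    exact annulus_Omc c (by rw [hw]; exact h1) (by rw [hw]; exact h2)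
  have hr2 : ∀ k, 0 < 2 * c.r k := fun k => by have := c.hr k; linarith
  have hr4 : ∀ k, 0 < 4 * c.r k := fun k => by have := c.hr k; linarith
  have hsph2 : ∀ k, ContinuousOn g (sphere (c.p k) (2 * c.r k)) := fun k =>
    hsph k _ (by have := c.hr k; linarith) (by have := c.hr k; linarith)
  have hsph4 : ∀ k, ContinuousOn g (sphere (c.p k) (4 * c.r k)) := fun k =>
    hsph k _ (by have := c.hr k; linarith) le_rfl
  -- enlarging the circles
  have hstep : ∀ k, ∮ z in C(c.p k, c.r k), g z = ∮ z in C(c.p k, 2 * c.r k), g z := by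
    intro k
    have hk := c.hr k
    refine (Complex.circleIntegral_eq_of_differentiable_on_annulus_off_countable hk
      (by linarith) Set.countable_empty ?_ ?_).symm
    · refine hc.mono fun w hw => ?_
      obtain ⟨h1, h2⟩ := hw
      rw [mem_closedBall, dist_eq_norm] at h1
      rw [mem_ball, dist_eq_norm, not_lt] at h2
      exact annulus_Omc c h2 (by linarith)
    · rintro w ⟨⟨h1, h2⟩, -⟩
      rw [mem_ball, dist_eq_norm] at h1
      rw [mem_closedBall, dist_eq_norm, not_le] at h2
      exact hdat w (annulus_Om c h2 (by linarith))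
  rw [Finset.sum_congr rfl fun k _ => hstep k]
  -- the Laurent decomposition
  have hlau : ∀ k z, 2 * c.r k < ‖z - c.p k‖ → ‖z - c.p k‖ < 4 * c.r k →
      2 * Real.pi * I * g z = cint g (c.p k) (4 * c.r k) z - cint g (c.p k) (2 * c.r k) z := by
    intro k z h1 h2
    have hk := c.hr k
    refine laurent_cint (hr2 k) (hc.mono fun w hw => ?_) (fun w h3 h4 => ?_) h1 h2
    · obtain ⟨h1, h2⟩ := hw
      rw [mem_closedBall, dist_eq_norm] at h1
      rw [mem_ball, dist_eq_norm, not_lt] at h2
      exact annulus_Omc c (by linarith) h1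
    · exact hdat w (annulus_Om c (by linarith) h4.le)
  -- values of the entire function
  have hF1 : ∀ k z, ‖z - c.p k‖ < 4 * c.r k → entF c g z = cint g (c.p k) (4 * c.r k) z
      + ∑ j ∈ Finset.univ.erase k, cint g (c.p j) (2 * c.r j) z := by
    intro k z hz
    by_cases h : ∃ k, ‖z - c.p k‖ ≤ 2 * c.r k
    · have hch := h.choose_spec
      have : h.choose = k := by
        by_contra hne
        have := sep_far c hne hz.le
        have h3 := c.hr h.choose
        linarith
      rw [entF, dif_pos h, this]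
    · rw [entF, dif_neg h]
      push Not at h
      rw [hlau k z (h k) hz, ← Finset.add_sum_erase _ _ (Finset.mem_univ k)]
      ring
  have hF2 : ∀ z, (∀ k, 2 * c.r k < ‖z - c.p k‖) →
      entF c g z = 2 * Real.pi * I * g z + ∑ j, cint g (c.p j) (2 * c.r j) z := by
    intro z hz
    rw [entF, dif_neg]
    push Not
    exact hz
  have hext : ∀ᶠ z in cocompact ℂ, ∀ k, 2 * c.r k < ‖z - c.p k‖ := by
    rw [eventually_all]
    intro k
    filter_upwards [(tendsto_norm_cocompact_atTop (E := ℂ)).eventually_gt_atTop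
      (2 * c.r k + ‖c.p k‖)] with z hz
    have := norm_sub_norm_le z (c.p k)
    linarith
  have hdiff : Differentiable ℂ (entF c g) := by
    intro z
    by_cases h : ∃ k, ‖z - c.p k‖ < 4 * c.r k
    · obtain ⟨k, hk⟩ := h
      have hev : entF c g =ᶠ[𝓝 z] fun z => cint g (c.p k) (4 * c.r k) z
          + ∑ j ∈ Finset.univ.erase k, cint g (c.p j) (2 * c.r j) z := by
        filter_upwards [(isOpen_lt (continuous_id.sub continuous_const).norm
          continuous_const).mem_nhds hk] with w hw
        exact hF1 k w hw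
      refine DifferentiableAt.congr_of_eventuallyEq ?_ hev
      refine (cint_in_diff (hr4 k) (hsph4 k) hk).add ?_
      refine DifferentiableAt.fun_sum fun j hj => ?_
      have hjk : j ≠ k := Finset.ne_of_mem_erase hj
      refine cint_out_diff (hr2 j) (hsph2 j) ?_
      have := sep_far c hjk hk.le
      have h3 := c.hr j
      linarith
    · push Not at h
      have h2 : ∀ k, 2 * c.r k < ‖z - c.p k‖ := fun k => by
        have := h k; have h3 := c.hr k; linarith
      have hev : entF c g =ᶠ[𝓝 z] fun z => 2 * Real.pi * I * g z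
          + ∑ j, cint g (c.p j) (2 * c.r j) z := by
        filter_upwards [(isOpen_ext c 2).mem_nhds h2] with w hw
        exact hF2 w hw
      refine DifferentiableAt.congr_of_eventuallyEq ?_ hev
      refine ((hdat z fun k => ?_).const_mul _).add ?_
      · have := h k; have h3 := c.hr k; linarith
      · exact DifferentiableAt.fun_sum fun j _ => cint_out_diff (hr2 j) (hsph2 j) (h2 j)
  have hzF : Tendsto (fun z => z * entF c g z) (cocompact ℂ)
      (𝓝 (2 * Real.pi * I * A + ∑ j, -∮ w in C(c.p j, 2 * c.r j), g w)) := by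
    have h1 : Tendsto (fun z => 2 * Real.pi * I * (z * g z)
        + ∑ j, z * cint g (c.p j) (2 * c.r j) z) (cocompact ℂ)
        (𝓝 (2 * Real.pi * I * A + ∑ j, -∮ w in C(c.p j, 2 * c.r j), g w)) :=
      (hl.const_mul _).add (tendsto_finsetSum _ fun j _ => cint_coeff (hr2 j) (hsph2 j))
    refine h1.congr' ?_
    filter_upwards [hext] with z hz
    rw [hF2 z hz, mul_add, Finset.mul_sum]
    ring
  have hF0 : Tendsto (entF c g) (cocompact ℂ) (𝓝 0) := by
    have h1 : Tendsto (fun z : ℂ => z⁻¹) (cocompact ℂ) (𝓝 0) := by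
      rw [← Metric.cobounded_eq_cocompact]
      exact tendsto_inv₀_cobounded
    have h2 := h1.mul hzF
    rw [zero_mul] at h2
    refine h2.congr' ?_
    filter_upwards [(tendsto_norm_cocompact_atTop (E := ℂ)).eventually_gt_atTop 0] with z hz
    have : z ≠ 0 := norm_pos_iff.mp hz
    field_simp
  have hzero : ∀ z, entF c g z = 0 := fun z => hdiff.apply_eq_of_tendsto_cocompact z hF0
  simp only [hzero, mul_zero] at hzF
  have := tendsto_nhds_unique tendsto_const_nhds hzF
  rw [Finset.sum_neg_distrib] at this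
  linear_combination this

end Pool.Agent.SV
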