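import Pool.Agent.Helper53.SV.Reg
import Pool.Agent.Helper53.SV.H1

/-!
# Pairings and the uniqueness theorem (SV-H2)
-/

set_option autoImplicit false

open Complex Filter Topology Metric
open scoped ComplexConjugate

namespace Pool.Agent.SV

variable {N : ℕ}

/-- The circle integral as an average. -/
theorem h2_circ_eq_avg (p : ℂ) {r : ℝ} (hr : r ≠ 0) (F : ℂ → ℂ) :
    (∮ z in C(p, r), F z)
      = 2 * Real.pi * I * (r * Real.circleAverage (fun z => (z - p) / r * F z) p r) := by
  have hr' : (r : ℂ) ≠ 0 := by exact_mod_cast hr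
  rw [Real.circleAverage_def, circleIntegral, real_smul]
  have h1 : ∀ θ : ℝ, deriv (circleMap p r) θ • F (circleMap p r θ)
      = (I * r) * ((circleMap p r θ - p) / r * F (circleMap p r θ)) := by
    intro θ
    rw [deriv_circleMap, smul_eq_mul, circleMap_sub_center]
    field_simp
  simp only [h1]
  rw [intervalIntegral.integral_const_mul]
  push_cast
  have hpi : (Real.pi : ℂ) ≠ 0 := by exact_mod_cast Real.pi_ne_zero
  field_simp

theorem h2_avg_conj (p : ℂ) (r : ℝ) (F : ℂ → ℂ) :
    Real.circleAverage (fun z => conj (F z)) p r = conj (Real.circleAverage F p r) := by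
  rw [Real.circleAverage_def, Real.circleAverage_def, real_smul, real_smul, map_mul, conj_ofReal,
    ← intervalIntegral.intervalIntegral_conj]

/-- On the circle `dz = i τ |dz|`. -/
theorem h2_circ_conj (p : ℂ) {r : ℝ} (hr : 0 < r) {F G : ℂ → ℂ}
    (h : ∀ z, ‖z - p‖ = r → F z = conj (G z) * conj ((z - p) / r) ^ 2) :
    (∮ z in C(p, r), F z) = - conj (∮ z in C(p, r), G z) := by
  rw [h2_circ_eq_avg p hr.ne', h2_circ_eq_avg p hr.ne']
  have h1 : Real.circleAverage (fun z => (z - p) / r * F z) p r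
      = Real.circleAverage (fun z => conj ((z - p) / r * G z)) p r := by
    apply Real.circleAverage_congr_sphere
    intro z hz
    rw [abs_of_pos hr, mem_sphere_iff_norm] at hz
    have hr' : (r : ℂ) ≠ 0 := by exact_mod_cast hr.ne'
    have h2 : (z - p) / r * conj ((z - p) / r) = 1 := by
      rw [mul_conj, normSq_eq_norm_sq, norm_div, hz, norm_real, Real.norm_of_nonneg hr.le,
        div_self hr.ne']
      norm_num
    simp only
    rw [h z hz, map_mul]
    linear_combination (conj (G z) * conj ((z - p) / r)) * h2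
  rw [h1, h2_avg_conj]
  simp only [map_mul, conj_ofReal, conj_I, map_ofNat]
  ring

theorem h2_eventually_Om (c : Config N) : ∀ᶠ z in cocompact ℂ, z ∈ Om c := by
  have h : ∀ᶠ z in cocompact ℂ, ∀ k, c.r k < ‖z - c.p k‖ := by
    rw [eventually_all]
    intro k
    have h1 : ∀ᶠ z in cocompact ℂ, c.r k + ‖c.p k‖ < ‖z‖ :=
      (tendsto_norm_cocompact_atTop (E := ℂ)).eventually_gt_atTop _
    filter_upwards [h1] with z hz
    have h2 := norm_sub_norm_le z (c.p k)
    linarith
  exact h

theorem Reg.exists_coeff {c : Config N} {X : ℂ → ℂ} (hX : Reg c X 0) :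
    ∃ A, Tendsto (fun z => z * X z) (cocompact ℂ) (𝓝 A) := by
  classical
  set f : ℂ → ℂ := fun u => if u = 0 then 0 else X u⁻¹ with hf
  set s : Set ℂ := {u | u = 0 ∨ u⁻¹ ∈ Om c} with hs
  have hinv : Tendsto (fun u : ℂ => u⁻¹) (𝓝[≠] 0) (cocompact ℂ) := by
    rw [← Metric.cobounded_eq_cocompact]
    exact tendsto_inv₀_nhdsNE_zero
  have hs0 : s ∈ 𝓝 (0 : ℂ) := by
    have h1 : ∀ᶠ u in 𝓝[≠] (0 : ℂ), u⁻¹ ∈ Om c := hinv.eventually (h2_eventually_Om c)
    rw [eventually_nhdsWithin_iff] at h1
    filter_upwards [h1] with u hu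
    by_cases h : u = 0
    · exact Or.inl h
    · exact Or.inr (hu h)
  have hd : DifferentiableOn ℂ f (s \ {0}) := by
    have h1 : DifferentiableOn ℂ (fun u : ℂ => X u⁻¹) (s \ {0}) := by
      refine hX.diff.comp (t := Om c) (fun u hu => ?_) fun u hu => ?_
      · exact (differentiableAt_inv hu.2).differentiableWithinAt
      · exact hu.1.resolve_left hu.2
    refine h1.congr fun u hu => ?_
    have : u ≠ 0 := hu.2
    simp [hf, this]
  have hc : ContinuousAt f 0 := by
    have h1 : Tendsto f (𝓝[≠] 0) (𝓝 (f 0)) := by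
      have h2 : f 0 = 0 := by simp [hf]
      rw [h2]
      refine (hX.lim.comp hinv).congr' ?_
      filter_upwards [self_mem_nhdsWithin] with u hu
      have : u ≠ 0 := hu
      simp [hf, this]
    exact continuousAt_iff_punctured_nhds.2 h1
  have hd2 : DifferentiableAt ℂ f 0 :=
    ((differentiableOn_compl_singleton_and_continuousAt_iff hs0).1 ⟨hd, hc⟩).differentiableAt hs0
  refine ⟨deriv f 0, ?_⟩
  have h3 := hasDerivAt_iff_tendsto_slope_zero.1 hd2.hasDerivAt
  have h4 : Tendsto (fun z : ℂ => z⁻¹) (cocompact ℂ) (𝓝[≠] 0) := by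
    rw [← Metric.cobounded_eq_cocompact]
    exact tendsto_inv₀_cobounded'
  refine (h3.comp h4).congr' ?_
  have h5 : ∀ᶠ z in cocompact ℂ, z ≠ (0 : ℂ) := (isCompact_singleton (x := (0 : ℂ))).compl_mem_cocompact
  filter_upwards [h5] with z hz
  have : z⁻¹ ≠ 0 := inv_ne_zero hz
  simp [hf, hz]

theorem pair_zero (c : Config N) {X Y : ℂ → ℂ} (hX : Reg c X 0) (hY : Reg c Y 0) :
    ∑ k, ∮ z in C(c.p k, c.r k), X z * Y z = 0 := by
  obtain ⟨A, hA⟩ := hX.exists_coeff
  have h1 : Tendsto (fun z => z * (X z * Y z)) (cocompact ℂ) (𝓝 (A * 0)) := by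
    refine (hA.mul hY.lim).congr fun z => ?_
    ring
  have h2 := circ_cauchy c (hX.mul hY).diff (hX.mul hY).cont h1
  simpa using h2

theorem h2_contSphere (c : Config N) {f : ℂ → ℂ} (hf : ContinuousOn f (Omc c)) (k : Fin N) :
    ContinuousOn f (sphere (c.p k) (c.r k)) :=
  hf.mono fun z hz => circle_subset_Omc c k (by simpa [mem_sphere_iff_norm] using hz)

theorem h2_sub_inv_zero (c : Config N) {w : ℂ} (hw : w ∈ Om c) (k : Fin N) :
    (∮ z in C(c.p k, c.r k), (z - w)⁻¹) = 0 := by
  refine circleIntegral_eq_zero_of_differentiable_on_off_countable (c.hr k).le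
    Set.countable_empty ?_ ?_
  · refine ContinuousOn.inv₀ (by fun_prop) fun z hz => ?_
    rw [mem_closedBall_iff_norm] at hz
    have h1 := hw k
    intro h
    rw [sub_eq_zero] at h
    rw [← h] at h1
    linarith
  · intro z hz
    have hz1 := hz.1
    rw [mem_ball_iff_norm] at hz1
    have h1 := hw k
    refine DifferentiableAt.inv (by fun_prop) fun h => ?_
    rw [sub_eq_zero] at h
    rw [← h] at h1
    linarith

theorem h2_cont_sub_inv (c : Config N) {w : ℂ} (hw : w ∈ Om c) (k : Fin N) :
    ContinuousOn (fun z : ℂ => (z - w)⁻¹) (sphere (c.p k) (c.r k)) := by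
  refine ContinuousOn.inv₀ (by fun_prop) fun z hz => ?_
  rw [mem_sphere_iff_norm] at hz
  have h1 := hw k
  intro h
  rw [sub_eq_zero] at h
  rw [← h] at h1
  linarith

theorem pair_ker (c : Config N) {X l : ℂ → ℂ} (hX : Reg c X 0) (hl : Reg c l 0) {w : ℂ}
    (hw : w ∈ Om c) :
    ∑ k, ∮ z in C(c.p k, c.r k), X z * Lf w l z = - (2 * Real.pi * I * X w) := by
  have hD : Reg c (dslope X w) 0 := hX.dslope hw
  have hlim : Tendsto (fun z => z * dslope X w z) (cocompact ℂ) (𝓝 (- X w)) := by
    have h2 : Tendsto (fun z : ℂ => (z - w)⁻¹) (cocompact ℂ) (𝓝 0) := by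
      have h1 : Tendsto (fun z : ℂ => z - w) (cocompact ℂ) (cocompact ℂ) :=
        (Homeomorph.subRight w).isClosedEmbedding.tendsto_cocompact
      exact (tendsto_inv₀_cobounded (α := ℂ)).comp (by rwa [Metric.cobounded_eq_cocompact])
    have h3 : Tendsto (fun z : ℂ => (1 + w * (z - w)⁻¹) * (X z - X w)) (cocompact ℂ)
        (𝓝 ((1 + w * 0) * (0 - X w))) :=
      (tendsto_const_nhds.add (h2.const_mul w)).mul (hX.lim.sub_const _)
    have h4 : (1 + w * 0) * (0 - X w) = - X w := by ring
    rw [h4] at h3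
    refine h3.congr' ?_
    have h5 : ∀ᶠ z in cocompact ℂ, z ≠ w := (isCompact_singleton (x := w)).compl_mem_cocompact
    filter_upwards [h5] with z hz
    have hz' : z - w ≠ 0 := sub_ne_zero.mpr hz
    rw [dslope_of_ne _ hz, slope_def_field]
    field_simp
    ring
  have h6 := circ_cauchy c hD.diff hD.cont hlim
  have h7 : ∀ k, (∮ z in C(c.p k, c.r k), X z * Lf w l z)
      = (∮ z in C(c.p k, c.r k), dslope X w z) + ∮ z in C(c.p k, c.r k), X z * l z := by
    intro k
    have hr := c.hr k
    have e1 : (∮ z in C(c.p k, c.r k), X z * Lf w l z)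
        = ∮ z in C(c.p k, c.r k), ((dslope X w z + X z * l z) + X w * (z - w)⁻¹) := by
      refine circleIntegral.integral_congr hr.le fun z hz => ?_
      have hz' : z ≠ w := by
        intro h
        rw [mem_sphere_iff_norm, h] at hz
        exact absurd (hw k) (by linarith)
      have hz'' : z - w ≠ 0 := sub_ne_zero.mpr hz'
      simp only [Lf]
      rw [dslope_of_ne _ hz', slope_def_field]
      field_simp
      ring
    have i1 : CircleIntegrable (fun z => dslope X w z) (c.p k) (c.r k) :=
      (h2_contSphere c hD.cont k).circleIntegrable hr.le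
    have i2 : CircleIntegrable (fun z => X z * l z) (c.p k) (c.r k) :=
      (h2_contSphere c (hX.mul hl).cont k).circleIntegrable hr.le
    have i3 : CircleIntegrable (fun z => X w * (z - w)⁻¹) (c.p k) (c.r k) :=
      (continuousOn_const.mul (h2_cont_sub_inv c hw k)).circleIntegrable hr.le
    have i12 : CircleIntegrable (fun z => dslope X w z + X z * l z) (c.p k) (c.r k) := i1.add i2
    rw [e1, circleIntegral.integral_add i12 i3, circleIntegral.integral_add i1 i2,
      circleIntegral.integral_const_mul, h2_sub_inv_zero c hw k, mul_zero, add_zero]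
  rw [Finset.sum_congr rfl fun k _ => h7 k, Finset.sum_add_distrib, pair_zero c hX hl, add_zero,
    h6]
  ring

theorem h2_tau (c : Config N) {k : Fin N} {z : ℂ} (hz : ‖z - c.p k‖ = c.r k) :
    (z - c.p k) / c.r k * conj ((z - c.p k) / c.r k) = 1 := by
  have hr := c.hr k
  rw [mul_conj, normSq_eq_norm_sq, norm_div, hz, norm_real, Real.norm_of_nonneg hr.le,
    div_self hr.ne']
  norm_num

theorem h2_phase (t : ℝ) : exp (t * I) * conj (exp (t * I)) = 1 := by
  rw [mul_conj, normSq_eq_norm_sq, norm_exp_ofReal_mul_I]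
  norm_num

/-- The kernel in terms of the conjugate of its partner. -/
theorem h2_Lf_eq {c : Config N} {β : Fin N → ℝ} {w : ℂ} {S l : ℂ → ℂ} (hK : IsKer c β w S l)
    {k : Fin N} {z : ℂ} (hz : ‖z - c.p k‖ = c.r k) :
    Lf w l z = - conj (exp (β k * I)) * conj ((z - c.p k) / c.r k) * conj (S z) := by
  have h1 := hK.bd k z hz
  have h2 := h2_tau c hz
  have h3 := h2_phase (β k)
  rw [h1]
  linear_combination (- Lf w l z) * h3
    - (exp (β k * I) * conj (exp (β k * I)) * Lf w l z) * h2

/-- Uniqueness for the twisted homogeneous problem. -/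
theorem twisted_unique (c : Config N) {X Y : ℂ → ℂ} (hX : Reg c X 0) (hY : Reg c Y 0)
    {β : Fin N → ℝ}
    (hbd : ∀ k z, ‖z - c.p k‖ = c.r k →
      conj (X z) = - exp (β k * I) * ((z - c.p k) / c.r k) * Y z)
    {w : ℂ} (hw : w ∈ Om c) {S l : ℂ → ℂ} (hK : IsKer c (-β) w S l) : X w = 0 := by
  have h1 : ∀ k, (∮ z in C(c.p k, c.r k), X z * Lf w l z)
      = - conj (∮ z in C(c.p k, c.r k), Y z * S z) := by
    intro k
    refine h2_circ_conj (c.p k) (c.hr k) fun z hz => ?_
    have hb := hbd k z hz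
    have hX' : X z = - conj (exp (β k * I)) * conj ((z - c.p k) / c.r k) * conj (Y z) := by
      have := congrArg conj hb
      rw [conj_conj] at this
      rw [this]
      simp only [map_mul, map_neg]
    have hL := h2_Lf_eq hK hz
    have hp : conj (exp (((-β) k : ℝ) * I)) = exp (β k * I) := by
      rw [← exp_conj]
      congr 1
      simp
    rw [hp] at hL
    have h3 := h2_phase (β k)
    rw [hX', hL, map_mul]
    linear_combination (conj ((z - c.p k) / c.r k) ^ 2 * conj (Y z) * conj (S z)) * h3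
  have h2 := pair_ker c hX hK.hl hw
  rw [Finset.sum_congr rfl fun k _ => h1 k, Finset.sum_neg_distrib, ← map_sum,
    pair_zero c hY hK.hS, map_zero, neg_zero] at h2
  have hpi : (2 * Real.pi * I : ℂ) ≠ 0 := two_pi_I_ne_zero
  have h3 : 2 * Real.pi * I * X w = 0 := by
    linear_combination h2
  exact (mul_eq_zero.1 h3).resolve_left hpi

end Pool.Agent.SV
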