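import Pool.Agent.Helper53.SV.DDefs

/-!
# D10a: separation of the grid points, Riemann sums
-/

set_option autoImplicit false

open Complex Filter Topology Metric MeasureTheory
open scoped ComplexConjugate

namespace Pool.Agent.SV

theorem grid_sep (k : ℕ) (hk : 0 < k) {h : ℝ} (hh : 0 < h) {x y : Fin k × ℤ × ℤ} (hxy : x ≠ y) :
    h / k ≤ ‖gp k h x - gp k h y‖ := by
  have hkR : (0 : ℝ) < k := by exact_mod_cast hk
  have hk1 : (1 : ℝ) ≤ k := by exact_mod_cast hk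
  by_cases him : x.2.2 = y.2.2
  · -- the real parts differ by a nonzero multiple of h / k
    have hre : (gp k h x - gp k h y).re =
        (h / k) * (((k : ℤ) * (x.2.1 - y.2.1) + ((x.1 : ℕ) : ℤ) - ((y.1 : ℕ) : ℤ) : ℤ) : ℝ) := by
      simp only [gp, Complex.sub_re]
      push_cast
      field_simp
      ring
    have hne : ((k : ℤ) * (x.2.1 - y.2.1) + ((x.1 : ℕ) : ℤ) - ((y.1 : ℕ) : ℤ)) ≠ 0 := by
      intro h0
      have h1 : ((x.1 : ℕ) : ℤ) < k := by exact_mod_cast x.1.2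
      have h2 : ((y.1 : ℕ) : ℤ) < k := by exact_mod_cast y.1.2
      have h3 : (0 : ℤ) ≤ ((x.1 : ℕ) : ℤ) := by positivity
      have h4 : (0 : ℤ) ≤ ((y.1 : ℕ) : ℤ) := by positivity
      have h5 : x.2.1 - y.2.1 = 0 := by
        by_contra hc
        rcases lt_or_gt_of_ne hc with hlt | hgt
        · have : (k : ℤ) * (x.2.1 - y.2.1) ≤ -k := by nlinarith
          linarith
        · have : (k : ℤ) ≤ (k : ℤ) * (x.2.1 - y.2.1) := by nlinarith
          linarith
      rw [h5] at h0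
      have h6 : ((x.1 : ℕ) : ℤ) = ((y.1 : ℕ) : ℤ) := by linarith
      apply hxy
      have h7 : x.1 = y.1 := by
        apply Fin.ext
        exact_mod_cast h6
      have h8 : x.2.1 = y.2.1 := by linarith
      exact Prod.ext h7 (Prod.ext h8 him)
    have habs : (1 : ℝ) ≤ |(((k : ℤ) * (x.2.1 - y.2.1) + ((x.1 : ℕ) : ℤ) - ((y.1 : ℕ) : ℤ) : ℤ) : ℝ)| := by
      have := Int.one_le_abs hne
      exact_mod_cast this
    calc h / k = (h / k) * 1 := by ring
      _ ≤ (h / k) * |(((k : ℤ) * (x.2.1 - y.2.1) + ((x.1 : ℕ) : ℤ) - ((y.1 : ℕ) : ℤ) : ℤ) : ℝ)| := by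
          gcongr
      _ = |(gp k h x - gp k h y).re| := by
          rw [hre, abs_mul, abs_of_pos (by positivity : 0 < h / k)]
      _ ≤ _ := Complex.abs_re_le_norm _
  · have hi : (gp k h x - gp k h y).im = h * ((x.2.2 - y.2.2 : ℤ) : ℝ) := by
      simp only [gp, Complex.sub_im]
      push_cast
      ring
    have habs : (1 : ℝ) ≤ |((x.2.2 - y.2.2 : ℤ) : ℝ)| := by
      have := Int.one_le_abs (sub_ne_zero.mpr him)
      exact_mod_cast this
    calc h / k ≤ h := div_le_self hh.le hk1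
      _ = h * 1 := by ring
      _ ≤ h * |((x.2.2 - y.2.2 : ℤ) : ℝ)| := by gcongr
      _ = |(gp k h x - gp k h y).im| := by rw [hi, abs_mul, abs_of_pos hh]
      _ ≤ _ := Complex.abs_im_le_norm _

/-- the cell of a grid point -/
def d10cell (k : ℕ) (h : ℝ) (x : Fin k × ℤ × ℤ) : Set ℂ :=
  {ζ | (gp k h x).re ≤ ζ.re ∧ ζ.re < (gp k h x).re + h ∧
    (gp k h x).im ≤ ζ.im ∧ ζ.im < (gp k h x).im + h}

theorem d10cell_eq (k : ℕ) (h : ℝ) (x : Fin k × ℤ × ℤ) :
    d10cell k h x = Complex.measurableEquivRealProd ⁻¹'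
      (Set.Ico (gp k h x).re ((gp k h x).re + h) ×ˢ
        Set.Ico (gp k h x).im ((gp k h x).im + h)) := by
  ext ζ
  simp [d10cell, Complex.measurableEquivRealProd_apply, and_assoc]

theorem d10cell_meas (k : ℕ) (h : ℝ) (x : Fin k × ℤ × ℤ) : MeasurableSet (d10cell k h x) := by
  rw [d10cell_eq]
  exact Complex.measurableEquivRealProd.measurable (measurableSet_Ico.prod measurableSet_Ico)

theorem d10cell_vol (k : ℕ) {h : ℝ} (hh : 0 < h) (x : Fin k × ℤ × ℤ) :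
    volume (d10cell k h x) = ENNReal.ofReal (h ^ 2) := by
  rw [d10cell_eq, Complex.volume_preserving_equiv_real_prod.measure_preimage
    (measurableSet_Ico.prod measurableSet_Ico).nullMeasurableSet, Measure.volume_eq_prod,
    Measure.prod_prod, Real.volume_Ico, Real.volume_Ico]
  rw [← ENNReal.ofReal_mul (by linarith)]
  congr 1
  ring

theorem d10cell_dist (k : ℕ) {h : ℝ} (hh : 0 < h) (x : Fin k × ℤ × ℤ) {ζ : ℂ}
    (hζ : ζ ∈ d10cell k h x) : ‖gp k h x - ζ‖ ≤ 2 * h := by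
  obtain ⟨h1, h2, h3, h4⟩ := hζ
  refine (Complex.norm_le_abs_re_add_abs_im _).trans ?_
  rw [Complex.sub_re, Complex.sub_im]
  have e1 : |(gp k h x).re - ζ.re| ≤ h := by
    rw [abs_le]
    constructor <;> linarith
  have e2 : |(gp k h x).im - ζ.im| ≤ h := by
    rw [abs_le]
    constructor <;> linarith
  linarith

private theorem floor_cell {h : ℝ} (hh : 0 < h) (o t : ℝ) (a : ℤ) :
    (o + h * a ≤ t ∧ t < o + h * a + h) ↔ ⌊(t - o) / h⌋ = a := by
  rw [Int.floor_eq_iff, le_div_iff₀ hh, div_lt_iff₀ hh]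
  constructor
  · rintro ⟨h1, h2⟩
    constructor <;> nlinarith
  · rintro ⟨h1, h2⟩
    constructor <;> nlinarith

theorem d10cell_iff (k : ℕ) {h : ℝ} (hh : 0 < h) (c : Fin k) (p : ℤ × ℤ) (ζ : ℂ) :
    ζ ∈ d10cell k h (c, p) ↔
      (⌊(ζ.re - h * ((c : ℝ) / k)) / h⌋, ⌊(ζ.im - 0) / h⌋) = p := by
  have e1 := floor_cell hh (h * ((c : ℝ) / k)) ζ.re p.1
  have e2 := floor_cell hh 0 ζ.im p.2
  rw [Prod.ext_iff]
  simp only
  rw [← e1, ← e2]
  simp only [d10cell, gp, Set.mem_ofPred_eq]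
  constructor
  · rintro ⟨h1, h2, h3, h4⟩
    refine ⟨⟨?_, ?_⟩, ?_, ?_⟩ <;> linarith
  · rintro ⟨⟨h1, h2⟩, h3, h4⟩
    refine ⟨?_, ?_, ?_, ?_⟩ <;> linarith

theorem d10cell_disj (k : ℕ) {h : ℝ} (hh : 0 < h) (c : Fin k) :
    Pairwise (Function.onFun Disjoint (fun p : ℤ × ℤ => d10cell k h (c, p))) := by
  intro p q hpq
  rw [Function.onFun, Set.disjoint_left]
  intro ζ h1 h2
  rw [d10cell_iff k hh] at h1 h2
  exact hpq (h1.symm.trans h2)

theorem d10cell_union (k : ℕ) {h : ℝ} (hh : 0 < h) (c : Fin k) :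
    (⋃ p : ℤ × ℤ, d10cell k h (c, p)) = Set.univ := by
  ext ζ
  simp only [Set.mem_iUnion, Set.mem_univ, iff_true]
  exact ⟨_, (d10cell_iff k hh c _ ζ).mpr rfl⟩

theorem d10cell_bound_class (k : ℕ) {h : ℝ} (hh : 0 < h) (c : Fin k)
    (S : Finset (Fin k × ℤ × ℤ)) (v : Fin k × ℤ × ℤ → ℂ) (F : ℂ → ℂ) (B : ℂ → ℝ)
    (hF : Integrable F) (hB : Integrable B) (hv : ∀ x, x ∉ S → v x = 0)
    (hb : ∀ p : ℤ × ℤ, ∀ᵐ ζ, ζ ∈ d10cell k h (c, p) → ‖v (c, p) - F ζ‖ ≤ B ζ) :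
    ‖∑ x ∈ S.filter (fun x => x.1 = c), (h : ℂ) ^ 2 * v x - ∫ ζ, F ζ‖ ≤ ∫ ζ, B ζ := by
  classical
  have hF1 : HasSum (fun p : ℤ × ℤ => ∫ ζ in d10cell k h (c, p), F ζ) (∫ ζ, F ζ) := by
    have := hasSum_integral_iUnion (μ := volume) (f := F) (fun p : ℤ × ℤ => d10cell_meas k h (c, p))
      (d10cell_disj k hh c) hF.integrableOn
    rwa [d10cell_union k hh c, Measure.restrict_univ] at this
  have hB1 : HasSum (fun p : ℤ × ℤ => ∫ ζ in d10cell k h (c, p), B ζ) (∫ ζ, B ζ) := by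
    have := hasSum_integral_iUnion (μ := volume) (f := B) (fun p : ℤ × ℤ => d10cell_meas k h (c, p))
      (d10cell_disj k hh c) hB.integrableOn
    rwa [d10cell_union k hh c, Measure.restrict_univ] at this
  have hv1 : HasSum (fun p : ℤ × ℤ => (h : ℂ) ^ 2 * v (c, p))
      (∑ x ∈ S.filter (fun x => x.1 = c), (h : ℂ) ^ 2 * v x) := by
    have h1 : HasSum (fun x : Fin k × ℤ × ℤ => if x.1 = c then (h : ℂ) ^ 2 * v x else 0)
        (∑ x ∈ S, if x.1 = c then (h : ℂ) ^ 2 * v x else 0) := by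
      apply hasSum_sum_of_ne_finset_zero
      intro x hx
      rw [hv x hx]
      simp
    rw [← Finset.sum_filter] at h1
    have hinj : Function.Injective (fun p : ℤ × ℤ => ((c, p) : Fin k × ℤ × ℤ)) := by
      intro p q hpq
      exact (Prod.mk.inj hpq).2
    have h2 := (hinj.hasSum_iff (f := fun x : Fin k × ℤ × ℤ => if x.1 = c then (h : ℂ) ^ 2 * v x else 0)
      (a := ∑ x ∈ S.filter (fun x => x.1 = c), (h : ℂ) ^ 2 * v x) (by
        intro x hx
        have : x.1 ≠ c := by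
          intro hc
          apply hx
          exact ⟨x.2, by rw [← hc]⟩
        simp [this])).mpr h1
    convert h2 using 2 with p
    simp
  have hdiff := hv1.sub hF1
  refine hdiff.norm_le_of_bounded hB1 ?_
  intro p
  have hfin : volume (d10cell k h (c, p)) ≠ ⊤ := by
    rw [d10cell_vol k hh]
    exact ENNReal.ofReal_ne_top
  have hconst : (h : ℂ) ^ 2 * v (c, p) = ∫ _ζ in d10cell k h (c, p), v (c, p) := by
    rw [setIntegral_const, Measure.real, d10cell_vol k hh, ENNReal.toReal_ofReal (by positivity),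
      Complex.real_smul]
    push_cast
    rfl
  have hi1 : Integrable (fun _ : ℂ => v (c, p)) (volume.restrict (d10cell k h (c, p))) :=
    integrableOn_const hfin (by finiteness)
  have hi2 : Integrable F (volume.restrict (d10cell k h (c, p))) := hF.integrableOn
  rw [hconst, ← integral_sub hi1 hi2]
  refine norm_integral_le_of_norm_le hB.integrableOn ?_
  rw [ae_restrict_iff' (d10cell_meas k h (c, p))]
  exact hb p

theorem d10cell_bound (k : ℕ) {h : ℝ} (hh : 0 < h)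
    (S : Finset (Fin k × ℤ × ℤ)) (v : Fin k × ℤ × ℤ → ℂ) (F : Fin k → ℂ → ℂ) (B : Fin k → ℂ → ℝ)
    (hF : ∀ c, Integrable (F c)) (hB : ∀ c, Integrable (B c)) (hv : ∀ x, x ∉ S → v x = 0)
    (hb : ∀ x, ∀ᵐ ζ, ζ ∈ d10cell k h x → ‖v x - F x.1 ζ‖ ≤ B x.1 ζ) :
    ‖∑ x ∈ S, (h : ℂ) ^ 2 * v x - ∑ c, ∫ ζ, F c ζ‖ ≤ ∑ c, ∫ ζ, B c ζ := by
  classical
  have hsum : ∑ x ∈ S, (h : ℂ) ^ 2 * v x =
      ∑ c, ∑ x ∈ S.filter (fun x => x.1 = c), (h : ℂ) ^ 2 * v x := by
    rw [Finset.sum_fiberwise]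
  rw [hsum, ← Finset.sum_sub_distrib]
  refine (norm_sum_le _ _).trans (Finset.sum_le_sum fun c _ => ?_)
  exact d10cell_bound_class k hh c S v (F c) (B c) (hF c) (hB c) hv (fun p => hb (c, p))

/-- common data of finitely many continuous functions with compact support -/
theorem d10_data (k : ℕ) (g : Fin k → ℂ → ℂ) (hg : ∀ c, Continuous (g c))
    (hs : ∀ c, HasCompactSupport (g c)) :
    ∃ R G : ℝ, 0 < R ∧ 0 < G ∧ (∀ c ζ, R < ‖ζ‖ → g c ζ = 0) ∧ (∀ c ζ, ‖g c ζ‖ ≤ G) ∧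
      ∀ ε : ℝ, 0 < ε → ∃ δ : ℝ, 0 < δ ∧ ∀ c ζ ζ', ‖ζ - ζ'‖ < δ → ‖g c ζ - g c ζ'‖ ≤ ε := by
  classical
  have hR : ∀ c, ∃ R : ℝ, 0 < R ∧ ∀ ζ, R < ‖ζ‖ → g c ζ = 0 := by
    intro c
    obtain ⟨R, hR⟩ := (hs c).isCompact.isBounded.subset_closedBall 0
    refine ⟨max R 1, by positivity, fun ζ hζ => ?_⟩
    by_contra hne
    have : ζ ∈ tsupport (g c) := subset_tsupport _ hne
    have := hR this
    rw [mem_closedBall_zero_iff] at this
    have := le_max_left R 1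
    linarith
  have hG : ∀ c, ∃ G : ℝ, ∀ ζ, ‖g c ζ‖ ≤ G := fun c =>
    (hs c).exists_bound_of_continuous (hg c)
  choose R hR0 hR1 using hR
  choose G hG1 using hG
  refine ⟨1 + ∑ c, R c, 1 + ∑ c, |G c|, ?_, ?_, ?_, ?_, ?_⟩
  · have : 0 ≤ ∑ c, R c := Finset.sum_nonneg fun c _ => (hR0 c).le
    linarith
  · have : 0 ≤ ∑ c, |G c| := Finset.sum_nonneg fun c _ => abs_nonneg _
    linarith
  · intro c ζ hζ
    apply hR1 c ζ
    have : R c ≤ ∑ c, R c := Finset.single_le_sum (fun c _ => (hR0 c).le) (Finset.mem_univ c)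
    linarith
  · intro c ζ
    have : |G c| ≤ ∑ c, |G c| :=
      Finset.single_le_sum (f := fun c => |G c|) (fun c _ => abs_nonneg _) (Finset.mem_univ c)
    have := hG1 c ζ
    have := le_abs_self (G c)
    linarith
  · intro ε hε
    have hu : ∀ c, ∃ δ : ℝ, 0 < δ ∧ ∀ ζ ζ', ‖ζ - ζ'‖ < δ → ‖g c ζ - g c ζ'‖ ≤ ε := by
      intro c
      have huc := (hs c).uniformContinuous_of_continuous (hg c)
      rw [Metric.uniformContinuous_iff] at huc
      obtain ⟨δ, hδ, h1⟩ := huc ε hε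
      refine ⟨δ, hδ, fun ζ ζ' hd => ?_⟩
      have := h1 (a := ζ) (b := ζ') (by rwa [dist_eq_norm])
      rw [dist_eq_norm] at this
      exact this.le
    choose δ hδ0 hδ1 using hu
    by_cases hk : Nonempty (Fin k)
    · obtain ⟨c0, hc0⟩ := Finite.exists_min δ
      exact ⟨δ c0, hδ0 c0, fun c ζ ζ' hd => hδ1 c ζ ζ' (lt_of_lt_of_le hd (hc0 c))⟩
    · exact ⟨1, one_pos, fun c => absurd ⟨c⟩ hk⟩

theorem riemann_sum (k : ℕ) (hk : 0 < k) (g : Fin k → ℂ → ℂ) (hg : ∀ c, Continuous (g c))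
    (hs : ∀ c, HasCompactSupport (g c)) {η : ℝ} (hη : 0 < η) :
    ∀ᶠ h : ℝ in 𝓝[>] 0, ∀ I : Finset (Fin k × ℤ × ℤ), (∀ x, g x.1 (gp k h x) ≠ 0 → x ∈ I) →
      ‖∑ x ∈ I, (h : ℂ) ^ 2 * g x.1 (gp k h x) - ∑ c, ∫ ζ, g c ζ‖ ≤ η := by
  obtain ⟨R, G, hR, hG, hR1, hG1, hu⟩ := d10_data k g hg hs
  have hkR : (0 : ℝ) < k := by exact_mod_cast hk
  set V : ℝ := volume.real (closedBall (0 : ℂ) (R + 2)) with hV
  have hV0 : 0 ≤ V := measureReal_nonneg
  have hden : 0 < k * V + 1 := by positivity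
  obtain ⟨δ, hδ, hδ1⟩ := hu (η / (k * V + 1)) (by positivity)
  have hev : ∀ᶠ h : ℝ in 𝓝[>] 0, 0 < h ∧ h < 1 ∧ 2 * h < δ := by
    have h1 : ∀ᶠ h : ℝ in 𝓝[>] 0, h ∈ Set.Ioo (0 : ℝ) (min 1 (δ / 2)) :=
      Ioo_mem_nhdsGT (by positivity)
    filter_upwards [h1] with h hh
    have := min_le_left 1 (δ / 2)
    have := min_le_right 1 (δ / 2)
    refine ⟨hh.1, ?_, ?_⟩
    · linarith [hh.2]
    · linarith [hh.2]
  filter_upwards [hev] with h hh I hI
  obtain ⟨hh0, hh1, hh2⟩ := hh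
  have key := d10cell_bound k hh0 I (fun x => g x.1 (gp k h x)) g
    (fun _ => (closedBall (0 : ℂ) (R + 2)).indicator (fun _ => η / (k * V + 1)))
    (fun c => (hg c).integrable_of_hasCompactSupport (hs c))
    (fun _ => (integrable_indicator_iff measurableSet_closedBall).mpr
      (integrableOn_const (by exact (isCompact_closedBall _ _).measure_lt_top.ne)))
    (fun x hx => by
      by_contra hne
      exact hx (hI x hne))
    (fun x => Filter.Eventually.of_forall fun ζ hζ => by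
      have hd := d10cell_dist k hh0 x hζ
      by_cases hball : ζ ∈ closedBall (0 : ℂ) (R + 2)
      · rw [Set.indicator_of_mem hball]
        exact hδ1 _ _ _ (lt_of_le_of_lt hd hh2)
      · rw [Set.indicator_of_notMem hball]
        rw [mem_closedBall_zero_iff, not_le] at hball
        have h1 : g x.1 ζ = 0 := hR1 _ _ (by linarith)
        have h2 : g x.1 (gp k h x) = 0 := by
          apply hR1
          have : ‖ζ‖ ≤ ‖gp k h x‖ + ‖gp k h x - ζ‖ := by
            have := norm_sub_norm_le ζ (gp k h x)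
            rw [norm_sub_rev ζ] at this
            linarith
          linarith
        rw [h1, h2]
        simp)
  refine key.trans ?_
  rw [integral_indicator_const _ measurableSet_closedBall, ← hV, smul_eq_mul, Finset.sum_const,
    Finset.card_univ, Fintype.card_fin, nsmul_eq_mul]
  rw [show (k : ℝ) * (V * (η / (k * V + 1))) = η * (k * V / (k * V + 1)) by ring]
  have : k * V / (k * V + 1) ≤ 1 := by
    rw [div_le_one hden]
    linarith
  nlinarith

end Pool.Agent.SV
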