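import Mathlib

/-!
# D12: the derivative of a function holomorphic near infinity
-/

set_option autoImplicit false

open Complex Filter Topology Metric
open scoped ComplexConjugate

namespace Pool.Agent.SV

/-- Cauchy estimate for the derivative on a slightly smaller disc. -/
lemma d12_deriv_bound {g : ℂ → ℂ} {ρ ρ' C : ℝ} (hρ : ρ' < ρ)
    (hg : DifferentiableOn ℂ g (ball 0 ρ)) (hb : ∀ u ∈ ball (0 : ℂ) ρ, ‖g u‖ ≤ C) {u : ℂ}
    (hu : ‖u‖ < ρ') : ‖deriv g u‖ ≤ C / (ρ - ρ') := by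
  have hpos : 0 < ρ - ρ' := by linarith
  have hsub : closedBall u (ρ - ρ') ⊆ ball (0 : ℂ) ρ := by
    intro v hv
    rw [mem_closedBall, dist_eq_norm] at hv
    rw [mem_ball, dist_zero_right]
    calc ‖v‖ = ‖(v - u) + u‖ := by rw [sub_add_cancel]
      _ ≤ ‖v - u‖ + ‖u‖ := norm_add_le _ _
      _ < ρ := by linarith
  apply Complex.norm_deriv_le_of_forall_mem_sphere_norm_le hpos
  · constructor
    · exact hg.mono (ball_subset_closedBall.trans hsub)
    · rw [closure_ball u hpos.ne']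
      exact (hg.mono hsub).continuousOn
  · intro z hz
    exact hb z (hsub (sphere_subset_closedBall hz))

/-- D12.lean -/
theorem coeff_deriv {f : ℂ → ℂ} {R M : ℝ} (hR : 0 < R) (hM : 0 ≤ M)
    (hf : DifferentiableOn ℂ f {z | R < ‖z‖}) (hb : ∀ z, R < ‖z‖ → ‖f z‖ ≤ M) {c₀ a : ℂ}
    (hc : Tendsto f (cocompact ℂ) (𝓝 c₀))
    (ha : Tendsto (fun z => z * (f z - c₀)) (cocompact ℂ) (𝓝 a)) {w : ℂ} (hw : 2 * R < ‖w‖) :
    ‖w ^ 2 * deriv f w + a‖ ≤ 16 * M * R ^ 2 / ‖w‖ := by
  classical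
  set ρ : ℝ := R⁻¹ with hρ
  have hρ0 : 0 < ρ := inv_pos.mpr hR
  let g : ℂ → ℂ := Function.update (fun u => f u⁻¹) 0 c₀
  have hg0 : g 0 = c₀ := Function.update_self _ _ _
  have hgne : ∀ u, u ≠ 0 → g u = f u⁻¹ := fun u hu => Function.update_of_ne hu _ _
  have hinv : ∀ u ∈ ball (0 : ℂ) ρ, u ≠ 0 → R < ‖u⁻¹‖ := by
    intro u hu hu0
    rw [mem_ball, dist_zero_right] at hu
    rw [norm_inv]
    exact (lt_inv_comm₀ hR (norm_pos_iff.mpr hu0)).mpr hu
  have hinf : Tendsto (fun u : ℂ => u⁻¹) (𝓝[≠] 0) (cocompact ℂ) := by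
    rw [← Metric.cobounded_eq_cocompact]
    exact tendsto_inv₀_nhdsNE_zero
  have hcont : ContinuousAt g 0 := by
    rw [continuousAt_update_same]
    exact hc.comp hinf
  have hopen : IsOpen {z : ℂ | R < ‖z‖} := isOpen_lt continuous_const continuous_norm
  have hgd : DifferentiableOn ℂ g (ball 0 ρ) := by
    rw [← Complex.differentiableOn_compl_singleton_and_continuousAt_iff (ball_mem_nhds 0 hρ0)]
    refine ⟨?_, hcont⟩
    intro u hu
    have hu0 : u ≠ 0 := hu.2
    have h1 : DifferentiableAt ℂ (fun u => f u⁻¹) u := by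
      have h2 : DifferentiableAt ℂ f u⁻¹ :=
        hf.differentiableAt (hopen.mem_nhds (hinv u hu.1 hu0))
      exact h2.comp u (differentiableAt_inv hu0)
    have h3 : g =ᶠ[𝓝 u] (fun u => f u⁻¹) := by
      filter_upwards [isOpen_ne.mem_nhds hu0] with v hv
      exact hgne v hv
    exact (h3.differentiableAt_iff.mpr h1).differentiableWithinAt
  have hgb : ∀ u ∈ ball (0 : ℂ) ρ, ‖g u‖ ≤ M := by
    intro u hu
    by_cases hu0 : u = 0
    · rw [hu0, hg0]
      refine le_of_tendsto hc.norm ?_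
      have : ∀ᶠ z in cocompact ℂ, z ∉ closedBall (0 : ℂ) R :=
        (isCompact_closedBall (0 : ℂ) R).compl_mem_cocompact
      filter_upwards [this] with z hz
      rw [mem_closedBall, dist_zero_right, not_le] at hz
      exact hb z hz
    · rw [hgne u hu0]
      exact hb _ (hinv u hu hu0)
  -- the derivative at zero
  have hga : HasDerivAt g a 0 := by
    rw [hasDerivAt_iff_tendsto_slope]
    refine (ha.comp hinf).congr' ?_
    filter_upwards [self_mem_nhdsWithin] with u hu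
    have hu0 : u ≠ 0 := hu
    rw [slope_def_field, hg0, hgne u hu0, sub_zero]
    simp only [Function.comp_apply]
    rw [div_eq_inv_mul]
  -- the derivative of `f` at `w`
  have hw0 : w ≠ 0 := by
    rintro rfl
    rw [norm_zero] at hw
    linarith
  have hwn : 0 < ‖w‖ := norm_pos_iff.mpr hw0
  have hwin : ‖w⁻¹‖ < ρ / 2 := by
    rw [norm_inv, hρ, ← one_div, ← one_div, div_div]
    exact one_div_lt_one_div_of_lt (by linarith) (by linarith)
  have hwball : w⁻¹ ∈ ball (0 : ℂ) ρ := by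
    rw [mem_ball, dist_zero_right]
    linarith
  have hfw : deriv f w = deriv g w⁻¹ * (-(w ^ 2)⁻¹) := by
    have h1 : HasDerivAt g (deriv g w⁻¹) w⁻¹ :=
      (hgd.differentiableAt (isOpen_ball.mem_nhds hwball)).hasDerivAt
    have h2 : HasDerivAt (fun z => g z⁻¹) (deriv g w⁻¹ * (-(w ^ 2)⁻¹)) w :=
      h1.comp w (hasDerivAt_inv hw0)
    have h3 : f =ᶠ[𝓝 w] (fun z => g z⁻¹) := by
      filter_upwards [isOpen_ne.mem_nhds hw0] with z hz
      rw [hgne z⁻¹ (inv_ne_zero hz), inv_inv]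
    exact (h2.congr_of_eventuallyEq h3).deriv
  have hkey : w ^ 2 * deriv f w + a = -(deriv g w⁻¹ - deriv g 0) := by
    rw [hfw, hga.deriv]
    field_simp
    ring
  -- bound on the second derivative
  have hg1d : DifferentiableOn ℂ (deriv g) (ball 0 (3 * ρ / 4)) :=
    (hgd.deriv isOpen_ball).mono (ball_subset_ball (by linarith))
  have hg1b : ∀ u ∈ ball (0 : ℂ) (3 * ρ / 4), ‖deriv g u‖ ≤ 4 * M / ρ := by
    intro u hu
    rw [mem_ball, dist_zero_right] at hu
    have := d12_deriv_bound (ρ := ρ) (ρ' := 3 * ρ / 4) (by linarith) hgd hgb hu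
    refine this.trans (le_of_eq ?_)
    field_simp
    ring
  have hg2b : ∀ u ∈ ball (0 : ℂ) (ρ / 2), ‖deriv (deriv g) u‖ ≤ 16 * M / ρ ^ 2 := by
    intro u hu
    rw [mem_ball, dist_zero_right] at hu
    have := d12_deriv_bound (ρ := 3 * ρ / 4) (ρ' := ρ / 2) (by linarith) hg1d hg1b hu
    refine this.trans (le_of_eq ?_)
    field_simp
    ring
  have hmv : ‖deriv g w⁻¹ - deriv g 0‖ ≤ 16 * M / ρ ^ 2 * ‖w⁻¹ - 0‖ := by
    apply (convex_ball (0 : ℂ) (ρ / 2)).norm_image_sub_le_of_norm_deriv_le (f := deriv g)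
    · intro x hx
      exact hg1d.differentiableAt (isOpen_ball.mem_nhds (ball_subset_ball (by linarith) hx))
    · exact hg2b
    · exact mem_ball_self (by linarith)
    · rw [mem_ball, dist_zero_right]
      exact hwin
  rw [hkey, norm_neg]
  refine hmv.trans (le_of_eq ?_)
  rw [sub_zero, norm_inv, hρ]
  field_simp

end Pool.Agent.SV
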