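import Pool.Agent.Helper53.SV.H4
import Pool.Agent.Helper53.SV.D12

/-!
# D13: a function bounded by one with large leading coefficient

The quotient of the Szegő kernel and the Garabedian kernel of a dilute circle domain, composed with
a Moebius map, is bounded by one on the far domain, vanishes at infinity and its leading
coefficient controls the diagonal value of the Szegő kernel.
-/

set_option autoImplicit false

open Complex Filter Topology Metric
open scoped ComplexConjugate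

namespace Pool.Agent.SV

theorem d13_inv_tendsto : Tendsto (fun z : ℂ => z⁻¹) (cocompact ℂ) (𝓝 0) := by
  rw [← Metric.cobounded_eq_cocompact]
  exact tendsto_inv₀_cobounded

theorem d13_inv_tendsto_ne : Tendsto (fun z : ℂ => z⁻¹) (cocompact ℂ) (𝓝[≠] 0) := by
  rw [tendsto_nhdsWithin_iff]
  refine ⟨d13_inv_tendsto, ?_⟩
  have h1 : ∀ᶠ z : ℂ in cocompact ℂ, (0 : ℝ) < ‖z‖ :=
    (tendsto_norm_cocompact_atTop (E := ℂ)).eventually_gt_atTop _
  filter_upwards [h1] with z hz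
  simpa using hz

/-- Removable singularity at infinity. -/
theorem d13_inf {f : ℂ → ℂ} {R M : ℝ} (hR : 0 < R) (hf : DifferentiableOn ℂ f {z | R < ‖z‖})
    (hb : ∀ z, R < ‖z‖ → ‖f z‖ ≤ M) :
    ∃ g : ℂ → ℂ, DifferentiableOn ℂ g (ball 0 R⁻¹) ∧
      (∀ u ∈ ball (0 : ℂ) R⁻¹, u ≠ 0 → g u = f u⁻¹) ∧
      (∀ u ∈ ball (0 : ℂ) R⁻¹, ‖g u‖ ≤ M) ∧ Tendsto f (cocompact ℂ) (𝓝 (g 0)) ∧
      Tendsto (fun z => z * (f z - g 0)) (cocompact ℂ) (𝓝 (deriv g 0)) := by
  have hmem : ∀ u ∈ ball (0 : ℂ) R⁻¹, u ≠ 0 → R < ‖u⁻¹‖ := by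
    intro u hu h0
    rw [mem_ball_zero_iff] at hu
    rw [norm_inv]
    exact (lt_inv_comm₀ (norm_pos_iff.2 h0) hR).1 hu
  have h0b : (0 : ℂ) ∈ ball (0 : ℂ) R⁻¹ := by
    rw [mem_ball_zero_iff, norm_zero]
    exact inv_pos.2 hR
  have hnb : ball (0 : ℂ) R⁻¹ ∈ 𝓝 (0 : ℂ) := isOpen_ball.mem_nhds h0b
  have hopen : IsOpen {z : ℂ | R < ‖z‖} := isOpen_lt continuous_const continuous_norm
  set g : ℂ → ℂ := Function.update (fun u : ℂ => f u⁻¹) 0
    (limUnder (𝓝[≠] 0) (fun u : ℂ => f u⁻¹)) with hg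
  have hge : ∀ u, u ≠ 0 → g u = f u⁻¹ := by
    intro u hu
    rw [hg, Function.update_of_ne hu]
  have hgd : DifferentiableOn ℂ g (ball 0 R⁻¹) := by
    refine Complex.differentiableOn_update_limUnder_of_bddAbove hnb ?_ ?_
    · intro u hu
      have h2 : R < ‖u⁻¹‖ := hmem u hu.1 hu.2
      have h3 : DifferentiableAt ℂ f u⁻¹ := hf.differentiableAt (hopen.mem_nhds h2)
      have h4 : DifferentiableAt ℂ (fun u : ℂ => u⁻¹) u := differentiableAt_inv hu.2
      exact (h3.comp u h4).differentiableWithinAt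
    · refine ⟨M, ?_⟩
      rintro _ ⟨u, hu, rfl⟩
      exact hb _ (hmem u hu.1 hu.2)
  have hgc : ContinuousAt g 0 := (hgd.differentiableAt hnb).continuousAt
  have hgt : Tendsto (fun z => g z⁻¹) (cocompact ℂ) (𝓝 (g 0)) := hgc.tendsto.comp d13_inv_tendsto
  have hev : ∀ᶠ z : ℂ in cocompact ℂ, R < ‖z‖ :=
    (tendsto_norm_cocompact_atTop (E := ℂ)).eventually_gt_atTop _
  have hev0 : ∀ᶠ z : ℂ in cocompact ℂ, g z⁻¹ = f z := by
    filter_upwards [hev] with z hz
    have hz0 : z ≠ 0 := by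
      intro h
      rw [h, norm_zero] at hz
      linarith
    rw [hge _ (inv_ne_zero hz0), inv_inv]
  have hft : Tendsto f (cocompact ℂ) (𝓝 (g 0)) := hgt.congr' hev0
  refine ⟨g, hgd, fun u _ hu => hge u hu, ?_, hft, ?_⟩
  · intro u hu
    by_cases h : u = 0
    · rw [h]
      refine le_of_tendsto hft.norm ?_
      filter_upwards [hev] with z hz
      exact hb z hz
    · rw [hge u h]
      exact hb _ (hmem u hu h)
  · have h1 : HasDerivAt g (deriv g 0) 0 := (hgd.differentiableAt hnb).hasDerivAt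
    rw [hasDerivAt_iff_tendsto_slope] at h1
    have h2 := h1.comp d13_inv_tendsto_ne
    refine h2.congr' ?_
    filter_upwards [hev0] with z hz
    simp only [Function.comp_apply, slope_def_field]
    rw [hz, sub_zero, div_inv_eq_mul, mul_comm]

/-- the Moebius quotient is bounded by one -/
theorem d13_moeb {x y : ℂ} (hx : ‖x‖ ≤ 1) (hy : ‖y‖ < 1) :
    1 - conj y * x ≠ 0 ∧ ‖(x - y) / (1 - conj y * x)‖ ≤ 1 := by
  have h0 : 1 - conj y * x ≠ 0 := by
    intro h
    have h1 : conj y * x = 1 := (sub_eq_zero.1 h).symm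
    have h2 : ‖y‖ * ‖x‖ = 1 := by
      rw [← Complex.norm_conj y, ← norm_mul, h1, norm_one]
    nlinarith [norm_nonneg x, norm_nonneg y]
  refine ⟨h0, ?_⟩
  rw [norm_div, div_le_one (norm_pos_iff.2 h0)]
  have h1 : ‖x - y‖ ^ 2 ≤ ‖1 - conj y * x‖ ^ 2 := by
    have e1 : ‖1 - conj y * x‖ ^ 2 - ‖x - y‖ ^ 2 = (1 - ‖x‖ ^ 2) * (1 - ‖y‖ ^ 2) := by
      have : ((‖1 - conj y * x‖ ^ 2 - ‖x - y‖ ^ 2 : ℝ) : ℂ)
          = (((1 - ‖x‖ ^ 2) * (1 - ‖y‖ ^ 2) : ℝ) : ℂ) := by
        push_cast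
        rw [← Complex.mul_conj', ← Complex.mul_conj', ← Complex.mul_conj', ← Complex.mul_conj']
        simp only [map_sub, map_mul, map_one, conj_conj]
        ring
      exact_mod_cast this
    have e2 : 0 ≤ (1 - ‖x‖ ^ 2) * (1 - ‖y‖ ^ 2) := by
      refine mul_nonneg ?_ ?_
      · nlinarith [norm_nonneg x]
      · nlinarith [norm_nonneg y]
    linarith
  exact (sq_le_sq₀ (norm_nonneg _) (norm_nonneg _)).1 h1

theorem ahlfors_like {N : ℕ} (c : Config N) {w : ℂ} (hw : w ∈ Far c) {S l : ℂ → ℂ}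
    (hK : IsKer c 0 w S l) (hpos : ∀ a ∈ Far c, a ≠ w → ‖S a‖ < ‖Lf w l a‖) {R : ℝ} (hR : 0 < R)
    (hR1 : ∀ k, ‖c.p k‖ + 32 * c.r k ≤ R) (hwR : 2 * R < ‖w‖) :
    ∃ (F : ℂ → ℂ) (a : ℂ), DifferentiableOn ℂ F (Far c) ∧ (∀ z ∈ Far c, ‖F z‖ ≤ 1) ∧
      Tendsto F (cocompact ℂ) (𝓝 0) ∧ Tendsto (fun z => z * F z) (cocompact ℂ) (𝓝 a) ∧
      ‖w‖ ^ 2 * (S w).re ≤ ‖a‖ + 16 * R ^ 2 / ‖w‖ := by
  have hsub : {z : ℂ | R < ‖z‖} ⊆ Far c := by
    intro z hz k
    have h1 := hR1 k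
    have h2 := norm_sub_norm_le z (c.p k)
    have h3 : R < ‖z‖ := hz
    linarith
  have hopen : IsOpen {z : ℂ | R < ‖z‖} := isOpen_lt continuous_const continuous_norm
  have hwm : w ∈ {z : ℂ | R < ‖z‖} := by
    show R < ‖w‖
    linarith
  -- the denominator
  have hD : ∀ z ∈ Far c, 1 + (z - w) * l z ≠ 0 := by
    intro z hz
    by_cases h : z = w
    · rw [h]; simp
    · have h1 := hpos z hz h
      intro h2
      have h3 : z - w ≠ 0 := sub_ne_zero.2 h
      have h4 : Lf w l z = 0 := by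
        have h5 : (z - w) * Lf w l z = 1 + (z - w) * l z := by
          unfold Lf
          rw [mul_add, mul_inv_cancel₀ h3]
        rw [h2] at h5
        exact (mul_eq_zero.1 h5).resolve_left h3
      rw [h4, norm_zero] at h1
      linarith [norm_nonneg (S z)]
  have hdS : DifferentiableOn ℂ S (Far c) := hK.hS.diff.mono (Far_subset_Om c)
  have hdl : DifferentiableOn ℂ l (Far c) := hK.hl.diff.mono (Far_subset_Om c)
  set F0 : ℂ → ℂ := fun z => (z - w) * S z / (1 + (z - w) * l z) with hF0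
  have hF0d : DifferentiableOn ℂ F0 (Far c) := by
    refine DifferentiableOn.div ?_ ?_ hD
    · exact (differentiableOn_id.sub_const w).mul hdS
    · exact ((differentiableOn_id.sub_const w).mul hdl).const_add 1
  have hF0b : ∀ z ∈ Far c, ‖F0 z‖ ≤ 1 := by
    intro z hz
    by_cases h : z = w
    · rw [hF0, h]; simp
    · have h1 := hpos z hz h
      have h3 : z - w ≠ 0 := sub_ne_zero.2 h
      have h4 : 1 + (z - w) * l z = (z - w) * Lf w l z := by
        unfold Lf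
        rw [mul_add, mul_inv_cancel₀ h3]
      have h5 : F0 z = S z / Lf w l z := by
        rw [hF0]
        simp only
        rw [h4, mul_div_mul_left _ _ h3]
      rw [h5, norm_div]
      exact div_le_one_of_le₀ h1.le (norm_nonneg _)
  have hF0w : F0 w = 0 := by rw [hF0]; simp
  have hwn : Far c ∈ 𝓝 w := mem_of_superset (hopen.mem_nhds hwm) hsub
  have hdw : deriv F0 w = S w := by
    have h1 : HasDerivAt (fun z => (z - w) * (S z / (1 + (z - w) * l z)))
        (1 * (S w / (1 + (w - w) * l w)) + (w - w) *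
          deriv (fun z => S z / (1 + (z - w) * l z)) w) w := by
      refine ((hasDerivAt_id w).sub_const w).mul ?_
      refine DifferentiableAt.hasDerivAt ?_
      refine DifferentiableAt.div (hdS.differentiableAt hwn) ?_ (hD w hw)
      exact ((differentiableAt_id.sub_const w).mul (hdl.differentiableAt hwn)).const_add 1
    have h2 : F0 = fun z => (z - w) * (S z / (1 + (z - w) * l z)) := by
      funext z
      rw [hF0]
      simp only
      rw [mul_div_assoc]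
    rw [h2, h1.deriv]
    simp
  -- behaviour at infinity
  obtain ⟨g, hgd, hge, hgb, hgt, hga⟩ := d13_inf (M := 1) hR (hF0d.mono hsub)
    fun z hz => hF0b z (hsub hz)
  have h0b : (0 : ℂ) ∈ ball (0 : ℂ) R⁻¹ := by
    rw [mem_ball_zero_iff, norm_zero]
    exact inv_pos.2 hR
  have hw0 : w ≠ 0 := by
    intro h
    rw [h, norm_zero] at hwR
    linarith
  have hwb : w⁻¹ ∈ ball (0 : ℂ) R⁻¹ := by
    rw [mem_ball_zero_iff, norm_inv]
    exact (inv_lt_inv₀ (norm_pos_iff.2 hw0) hR).2 hwm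
  have hgw : g w⁻¹ = 0 := by
    rw [hge _ hwb (inv_ne_zero hw0), inv_inv, hF0w]
  have hc1 : ‖g 0‖ < 1 := by
    refine lt_of_le_of_ne (hgb 0 h0b) fun h => ?_
    have hmax : IsMaxOn (norm ∘ g) (ball (0 : ℂ) R⁻¹) 0 := by
      intro u hu
      show ‖g u‖ ≤ ‖g 0‖
      rw [h]
      exact hgb u hu
    have h1 := Complex.eqOn_of_isPreconnected_of_isMaxOn_norm
      (convex_ball (0 : ℂ) R⁻¹).isPreconnected isOpen_ball hgd h0b hmax hwb
    rw [hgw, Function.const_apply] at h1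
    rw [← h1, norm_zero] at h
    norm_num at h
  set c0 : ℂ := g 0 with hc0
  set a0 : ℂ := deriv g 0 with ha0
  have hcd := coeff_deriv hR zero_le_one (hF0d.mono hsub) (fun z hz => hF0b z (hsub hz)) hgt hga hwR
  rw [hdw] at hcd
  have hlim : Tendsto (fun z => 1 - conj c0 * F0 z) (cocompact ℂ) (𝓝 (1 - conj c0 * c0)) :=
    tendsto_const_nhds.sub (hgt.const_mul _)
  have hq : 1 - conj c0 * c0 = ((1 - ‖c0‖ ^ 2 : ℝ) : ℂ) := by
    push_cast
    rw [← Complex.conj_mul']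
  have hqpos : 0 < 1 - ‖c0‖ ^ 2 := by
    nlinarith [norm_nonneg c0]
  have hq0 : 1 - conj c0 * c0 ≠ 0 := by
    rw [hq]
    exact_mod_cast hqpos.ne'
  refine ⟨fun z => (F0 z - c0) / (1 - conj c0 * F0 z), a0 / (1 - conj c0 * c0), ?_, ?_, ?_, ?_, ?_⟩
  · refine DifferentiableOn.div (hF0d.sub_const c0) ?_ fun z hz => (d13_moeb (hF0b z hz) hc1).1
    exact (hF0d.const_mul _).const_sub 1
  · exact fun z hz => (d13_moeb (hF0b z hz) hc1).2
  · have h1 : Tendsto (fun z => F0 z - c0) (cocompact ℂ) (𝓝 (c0 - c0)) := hgt.sub_const c0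
    have h2 := h1.div hlim hq0
    rwa [sub_self, zero_div] at h2
  · refine (hga.div hlim hq0).congr fun z => ?_
    simp only [Pi.div_apply]
    rw [mul_div_assoc]
  · have h1 : ‖a0‖ ≤ ‖a0 / (1 - conj c0 * c0)‖ := by
      rw [hq, norm_div, norm_real, Real.norm_of_nonneg hqpos.le, le_div_iff₀ hqpos]
      nlinarith [norm_nonneg a0, sq_nonneg ‖c0‖]
    have h2 : ‖w‖ ^ 2 * ‖S w‖ ≤ ‖w ^ 2 * S w + a0‖ + ‖a0‖ := by
      rw [← norm_pow, ← norm_mul]
      calc ‖w ^ 2 * S w‖ = ‖(w ^ 2 * S w + a0) - a0‖ := by rw [add_sub_cancel_right]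
        _ ≤ _ := norm_sub_le _ _
    have h3 : ‖w‖ ^ 2 * (S w).re ≤ ‖w‖ ^ 2 * ‖S w‖ :=
      mul_le_mul_of_nonneg_left (re_le_norm _) (by positivity)
    rw [mul_one] at hcd
    linarith

end Pool.Agent.SV
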