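import Pool.Agent.Helper53.SV.DDefs
import Pool.Agent.Helper53.SV.D10a

/-!
# D10b: Riemann sums of Cauchy transforms, uniformly in the plane
-/

set_option autoImplicit false

open Complex Filter Topology Metric MeasureTheory
open scoped ComplexConjugate

namespace Pool.Agent.SV

/-- the truncated kernel -/
noncomputable def d10ker (δ : ℝ) (y : ℝ) : ℝ := (Set.Iio δ).indicator (fun y => y⁻¹) y

private theorem dim_two : Module.finrank ℝ ℂ = 2 := Complex.finrank_real_complex

private theorem ker_eq {δ : ℝ} {y : ℝ} (hy : y ∈ Set.Ioi (0 : ℝ)) :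
    y ^ (Module.finrank ℝ ℂ - 1) • d10ker δ y = (Set.Iio δ).indicator (fun _ => (1 : ℝ)) y := by
  rw [dim_two]
  unfold d10ker
  by_cases h : y ∈ Set.Iio δ
  · rw [Set.indicator_of_mem h, Set.indicator_of_mem h]
    have : y ≠ 0 := ne_of_gt hy
    simp [this]
  · rw [Set.indicator_of_notMem h, Set.indicator_of_notMem h]
    simp

theorem d10ker_integrable (δ : ℝ) (z : ℂ) : Integrable (fun ζ : ℂ => d10ker δ ‖z - ζ‖) := by
  have h1 : Integrable (fun ζ : ℂ => d10ker δ ‖ζ‖) := by
    rw [integrable_fun_norm_addHaar volume]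
    rw [integrableOn_congr_fun (fun y hy => ker_eq hy) measurableSet_Ioi]
    rw [IntegrableOn, integrable_indicator_iff measurableSet_Iio, IntegrableOn,
      Measure.restrict_restrict measurableSet_Iio]
    exact integrableOn_const (by
      refine ne_of_lt (lt_of_le_of_lt (measure_mono (t := Set.Icc 0 δ) ?_) ?_)
      · rintro y ⟨h1, h2⟩
        exact ⟨le_of_lt h2, le_of_lt h1⟩
      · rw [Real.volume_Icc]
        exact ENNReal.ofReal_lt_top) (by finiteness)
  exact h1.comp_sub_left z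

theorem d10ker_integral {δ : ℝ} (hδ : 0 < δ) (z : ℂ) :
    ∫ ζ : ℂ, d10ker δ ‖z - ζ‖ = 2 * volume.real (ball (0 : ℂ) 1) * δ := by
  rw [integral_sub_left_eq_self (fun ζ : ℂ => d10ker δ ‖ζ‖) volume z]
  rw [integral_fun_norm_addHaar volume]
  rw [setIntegral_congr_fun measurableSet_Ioi (fun y hy => ker_eq hy)]
  rw [integral_indicator measurableSet_Iio, Measure.restrict_restrict measurableSet_Iio]
  have : Set.Iio δ ∩ Set.Ioi (0 : ℝ) = Set.Ioo 0 δ := by
    ext y
    simp [and_comm]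
  have hv : volume.real (Set.Ioo 0 δ) = δ := by
    rw [Real.volume_real_Ioo_of_le hδ.le]
    ring
  rw [this, setIntegral_const, dim_two, hv]
  simp only [smul_eq_mul, nsmul_eq_mul]
  push_cast
  ring

theorem d10ker_of_lt {δ y : ℝ} (hy : y < δ) : d10ker δ y = y⁻¹ :=
  Set.indicator_of_mem (s := Set.Iio δ) hy _

theorem d10ker_of_ge {δ y : ℝ} (hy : δ ≤ y) : d10ker δ y = 0 :=
  Set.indicator_of_notMem (s := Set.Iio δ) (by simpa using hy) _

theorem d10ker_nonneg {δ y : ℝ} (hy : 0 ≤ y) : 0 ≤ d10ker δ y := by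
  rcases lt_or_ge y δ with h | h
  · rw [d10ker_of_lt h]
    positivity
  · rw [d10ker_of_ge h]

theorem riemann_cauchy (k : ℕ) (hk : 0 < k) (g : Fin k → ℂ → ℂ) (hg : ∀ c, Continuous (g c))
    (hs : ∀ c, HasCompactSupport (g c)) {η : ℝ} (hη : 0 < η) :
    ∀ᶠ h : ℝ in 𝓝[>] 0, ∀ I : Finset (Fin k × ℤ × ℤ), (∀ x, g x.1 (gp k h x) ≠ 0 → x ∈ I) →
      ∀ (z : ℂ) (x₀ : Fin k × ℤ × ℤ), (∀ x, x ≠ x₀ → h / (4 * k) ≤ ‖z - gp k h x‖) →
      ‖∑ x ∈ I.erase x₀, (h : ℂ) ^ 2 * g x.1 (gp k h x) / (z - gp k h x)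
        - ∑ c, ∫ ζ, g c ζ / (z - ζ)‖ ≤ η := by
  classical
  obtain ⟨R, G, hR, hG, hR1, hG1, hu⟩ := d10_data k g hg hs
  have hkR : (0 : ℝ) < k := by exact_mod_cast hk
  set V : ℝ := volume.real (closedBall (0 : ℂ) (R + 2)) with hV
  have hV0 : 0 ≤ V := measureReal_nonneg
  set V1 : ℝ := volume.real (ball (0 : ℂ) 1) with hV1
  have hV10 : 0 ≤ V1 := measureReal_nonneg
  set Ck : ℝ := 1 + 8 * k with hCk
  have hCk0 : 0 < Ck := by positivity
  set M1 : ℝ := G * (Ck + 1) with hM1
  have hM10 : 0 < M1 := by positivity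
  -- the radius of the near part
  obtain ⟨δ, hδ, hδ1⟩ : ∃ δ : ℝ, 0 < δ ∧ k * (M1 * (2 * V1 * δ)) ≤ η / 3 := by
    refine ⟨η / (3 * (k * M1 * 2 * V1 + 1)), by positivity, ?_⟩
    have hden : 0 < k * M1 * 2 * V1 + 1 := by positivity
    rw [show (k : ℝ) * (M1 * (2 * V1 * (η / (3 * (k * M1 * 2 * V1 + 1))))) =
      η / 3 * ((k * M1 * 2 * V1) / (k * M1 * 2 * V1 + 1)) by field_simp]
    have : (k * M1 * 2 * V1) / (k * M1 * 2 * V1 + 1) ≤ 1 := by
      rw [div_le_one hden]
      linarith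
    nlinarith
  obtain ⟨ε₂, hε₂, hε₂1⟩ : ∃ ε₂ : ℝ, 0 < ε₂ ∧ k * (ε₂ * V) ≤ η / 3 := by
    refine ⟨η / (3 * (k * V + 1)), by positivity, ?_⟩
    have hden : 0 < k * V + 1 := by positivity
    rw [show (k : ℝ) * (η / (3 * (k * V + 1)) * V) = η / 3 * ((k * V) / (k * V + 1)) by
      field_simp]
    have : (k * V) / (k * V + 1) ≤ 1 := by
      rw [div_le_one hden]
      linarith
    nlinarith
  obtain ⟨δ', hδ', hδ'1⟩ := hu (ε₂ * δ / 2) (by positivity)
  have hev : ∀ᶠ h : ℝ in 𝓝[>] 0, 0 < h ∧ h < 1 ∧ 2 * h < δ' ∧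
      2 * h * (G * Ck) / δ ^ 2 ≤ ε₂ / 2 ∧ k * (G / δ * h) ≤ η / 3 := by
    have h1 : ∀ᶠ h : ℝ in 𝓝[>] 0, h ∈ Set.Ioo (0 : ℝ)
        (min (min 1 (δ' / 2)) (min (ε₂ * δ ^ 2 / (4 * (G * Ck))) (η * δ / (3 * (k * G))))) :=
      Ioo_mem_nhdsGT (by positivity)
    filter_upwards [h1] with h hh
    obtain ⟨h0, h2⟩ := hh
    rw [lt_min_iff, lt_min_iff, lt_min_iff] at h2
    obtain ⟨⟨h3, h4⟩, h5, h6⟩ := h2
    refine ⟨h0, h3, by linarith, ?_, ?_⟩
    · rw [lt_div_iff₀ (by positivity)] at h5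
      rw [div_le_iff₀ (by positivity)]
      linarith
    · rw [lt_div_iff₀ (by positivity)] at h6
      rw [show (k : ℝ) * (G / δ * h) = (k * G * h) / δ by ring, div_le_iff₀ hδ]
      linarith
  filter_upwards [hev] with h hh I hI z x₀ hz
  obtain ⟨hh0, hh1, hh2, hh3, hh4⟩ := hh
  -- the comparison function
  set B : Fin k → ℂ → ℝ := fun c ζ => M1 * d10ker δ ‖z - ζ‖ +
    (closedBall (0 : ℂ) (R + 2)).indicator (fun _ => ε₂) ζ +
    (d10cell k h (c, x₀.2)).indicator (fun _ => G / δ) ζ with hBdef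
  set v : Fin k × ℤ × ℤ → ℂ := fun x => if x = x₀ then 0 else
    g x.1 (gp k h x) / (z - gp k h x) with hvdef
  have hker0 : ∀ ζ : ℂ, 0 ≤ d10ker δ ‖z - ζ‖ := fun ζ => d10ker_nonneg (norm_nonneg _)
  have hball0 : ∀ ζ : ℂ, 0 ≤ (closedBall (0 : ℂ) (R + 2)).indicator (fun _ => ε₂) ζ :=
    fun ζ => Set.indicator_nonneg (fun _ _ => hε₂.le) ζ
  have hcell0 : ∀ (c : Fin k) (ζ : ℂ), 0 ≤ (d10cell k h (c, x₀.2)).indicator (fun _ => G / δ) ζ :=
    fun c ζ => Set.indicator_nonneg (fun _ _ => by positivity) ζ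
  have hcellfin : ∀ c : Fin k, volume (d10cell k h (c, x₀.2)) ≠ ⊤ := by
    intro c
    rw [d10cell_vol k hh0]
    exact ENNReal.ofReal_ne_top
  have hBint1 : Integrable (fun ζ : ℂ => M1 * d10ker δ ‖z - ζ‖) := (d10ker_integrable δ z).const_mul _
  have hBint2 : ∀ r : ℝ, Integrable ((closedBall (0 : ℂ) (R + 2)).indicator (fun _ => r)) := fun r =>
    (integrable_indicator_iff measurableSet_closedBall).mpr
      (integrableOn_const (by exact (isCompact_closedBall _ _).measure_lt_top.ne) (by finiteness))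
  have hBint3 : ∀ c : Fin k, Integrable ((d10cell k h (c, x₀.2)).indicator (fun _ => G / δ)) := fun c =>
    (integrable_indicator_iff (d10cell_meas k h _)).mpr
      (integrableOn_const (hcellfin c) (by finiteness))
  have hBint12 : Integrable (fun ζ : ℂ => M1 * d10ker δ ‖z - ζ‖ +
    (closedBall (0 : ℂ) (R + 2)).indicator (fun _ => ε₂) ζ) := hBint1.add (hBint2 ε₂)
  have hBint : ∀ c, Integrable (B c) := fun c => hBint12.add (hBint3 c)
  have hBval : ∀ c, ∫ ζ, B c ζ = M1 * (2 * V1 * δ) + ε₂ * V + G / δ * h ^ 2 := by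
    intro c
    simp only [hBdef]
    rw [integral_add hBint12 (hBint3 c), integral_add hBint1 (hBint2 ε₂), integral_const_mul,
      d10ker_integral hδ, integral_indicator_const _ measurableSet_closedBall,
      integral_indicator_const _ (d10cell_meas k h _), ← hV, ← hV1, Measure.real,
      d10cell_vol k hh0, ENNReal.toReal_ofReal (by positivity)]
    simp only [smul_eq_mul]
    ring
  have hFint : ∀ c, Integrable (fun ζ => g c ζ / (z - ζ)) := by
    intro c
    have hdom : Integrable (fun ζ : ℂ => G * d10ker δ ‖z - ζ‖ +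
        (closedBall (0 : ℂ) (R + 2)).indicator (fun _ => G / δ) ζ) :=
      ((d10ker_integrable δ z).const_mul _).add (hBint2 _)
    refine hdom.mono' ?_ (Filter.Eventually.of_forall fun ζ => ?_)
    · exact ((hg c).measurable.div (measurable_const.sub measurable_id)).aestronglyMeasurable
    · have h0 : 0 ≤ (closedBall (0 : ℂ) (R + 2)).indicator (fun _ => G / δ) ζ :=
        Set.indicator_nonneg (fun _ _ => by positivity) ζ
      rw [norm_div]
      rcases lt_or_ge ‖z - ζ‖ δ with hlt | hge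
      · rw [d10ker_of_lt hlt]
        have : ‖g c ζ‖ / ‖z - ζ‖ ≤ G * ‖z - ζ‖⁻¹ := by
          rw [div_eq_mul_inv]
          exact mul_le_mul_of_nonneg_right (hG1 c ζ) (by positivity)
        linarith
      · rw [d10ker_of_ge hge, mul_zero, zero_add]
        by_cases hb : ζ ∈ closedBall (0 : ℂ) (R + 2)
        · rw [Set.indicator_of_mem hb]
          exact div_le_div₀ hG.le (hG1 c ζ) hδ hge
        · rw [Set.indicator_of_notMem hb]
          rw [mem_closedBall_zero_iff, not_le] at hb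
          rw [hR1 c ζ (by linarith)]
          simp
  have hmain : ∀ x, ∀ ζ, ζ ≠ z → ζ ∈ d10cell k h x →
      ‖v x - g x.1 ζ / (z - ζ)‖ ≤ B x.1 ζ := by
    intro x ζ hζz hζ
    have hzζ : 0 < ‖z - ζ‖ := norm_pos_iff.mpr (sub_ne_zero.mpr (Ne.symm hζz))
    have hFle : ‖g x.1 ζ / (z - ζ)‖ ≤ G * ‖z - ζ‖⁻¹ := by
      rw [norm_div, div_eq_mul_inv]
      exact mul_le_mul_of_nonneg_right (hG1 _ ζ) (by positivity)
    have hB1 := hker0 ζ
    have hB2 := hball0 ζ
    have hB3 := hcell0 x.1 ζ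
    by_cases hx : x = x₀
    · have hv0 : v x = 0 := by simp [hvdef, hx]
      rw [hv0, zero_sub, norm_neg]
      rcases lt_or_ge ‖z - ζ‖ δ with hlt | hge
      · have h1 : G * ‖z - ζ‖⁻¹ ≤ M1 * ‖z - ζ‖⁻¹ := by
          apply mul_le_mul_of_nonneg_right _ (by positivity)
          rw [hM1]
          nlinarith
        simp only [hBdef]
        rw [d10ker_of_lt hlt] at *
        linarith
      · have h1 : (d10cell k h (x.1, x₀.2)).indicator (fun _ => G / δ) ζ = G / δ := by
          apply Set.indicator_of_mem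
          rw [← hx]
          exact hζ
        have h2 : G * ‖z - ζ‖⁻¹ ≤ G / δ := by
          rw [div_eq_mul_inv]
          apply mul_le_mul_of_nonneg_left _ hG.le
          exact inv_anti₀ hδ hge
        simp only [hBdef]
        rw [h1]
        have := mul_nonneg hM10.le hB1
        linarith
    · have hvx : v x = g x.1 (gp k h x) / (z - gp k h x) := by simp [hvdef, hx]
      have hd := d10cell_dist k hh0 x hζ
      have hzx : h / (4 * k) ≤ ‖z - gp k h x‖ := hz x hx
      have hzx0 : 0 < ‖z - gp k h x‖ := lt_of_lt_of_le (by positivity) hzx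
      have hcomp : ‖z - ζ‖ ≤ Ck * ‖z - gp k h x‖ := by
        have h1 : ‖z - ζ‖ ≤ ‖z - gp k h x‖ + ‖gp k h x - ζ‖ := by
          have : z - ζ = (z - gp k h x) + (gp k h x - ζ) := by ring
          rw [this]
          exact norm_add_le _ _
        have h2 : h ≤ ‖z - gp k h x‖ * (4 * k) := by
          rwa [div_le_iff₀ (by positivity)] at hzx
        rw [hCk]
        nlinarith
      have hinv : ‖z - gp k h x‖⁻¹ ≤ Ck * ‖z - ζ‖⁻¹ := by
        rw [← div_eq_mul_inv, le_div_iff₀ hzζ, inv_mul_le_iff₀ hzx0]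
        linarith
      have hvle : ‖v x‖ ≤ G * (Ck * ‖z - ζ‖⁻¹) := by
        rw [hvx, norm_div, div_eq_mul_inv]
        exact mul_le_mul (hG1 _ _) hinv (by positivity) hG.le
      rcases lt_or_ge ‖z - ζ‖ δ with hlt | hge
      · have h1 : ‖v x - g x.1 ζ / (z - ζ)‖ ≤ M1 * ‖z - ζ‖⁻¹ := by
          refine (norm_sub_le _ _).trans ?_
          rw [hM1]
          linarith
        simp only [hBdef]
        rw [d10ker_of_lt hlt] at *
        linarith
      · by_cases hball : ζ ∈ closedBall (0 : ℂ) (R + 2)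
        · have h1 : (closedBall (0 : ℂ) (R + 2)).indicator (fun _ => ε₂) ζ = ε₂ :=
            Set.indicator_of_mem hball _
          have hsplit : v x - g x.1 ζ / (z - ζ) = (g x.1 (gp k h x) - g x.1 ζ) / (z - ζ) +
              g x.1 (gp k h x) * ((gp k h x - ζ) * ((z - gp k h x)⁻¹ * (z - ζ)⁻¹)) := by
            have e1 : z - gp k h x ≠ 0 := norm_pos_iff.mp hzx0
            have e2 : z - ζ ≠ 0 := norm_pos_iff.mp hzζ
            rw [hvx]
            field_simp
            ring
          have h2 : ‖(g x.1 (gp k h x) - g x.1 ζ) / (z - ζ)‖ ≤ ε₂ / 2 := by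
            rw [norm_div]
            have := hδ'1 x.1 (gp k h x) ζ (lt_of_le_of_lt hd hh2)
            calc _ ≤ (ε₂ * δ / 2) / δ := div_le_div₀ (by positivity) this hδ hge
              _ = ε₂ / 2 := by field_simp
          have hinvδ : ‖z - ζ‖⁻¹ ≤ δ⁻¹ := inv_anti₀ hδ hge
          have h3 : ‖g x.1 (gp k h x) * ((gp k h x - ζ) * ((z - gp k h x)⁻¹ * (z - ζ)⁻¹))‖ ≤
              ε₂ / 2 := by
            rw [norm_mul, norm_mul, norm_mul, norm_inv, norm_inv]
            calc ‖g x.1 (gp k h x)‖ * (‖gp k h x - ζ‖ * (‖z - gp k h x‖⁻¹ * ‖z - ζ‖⁻¹))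
                ≤ G * ((2 * h) * ((Ck * δ⁻¹) * δ⁻¹)) := by
                  have e1 : ‖z - gp k h x‖⁻¹ ≤ Ck * δ⁻¹ :=
                    hinv.trans (mul_le_mul_of_nonneg_left hinvδ hCk0.le)
                  gcongr
                  exact hG1 _ _
              _ = 2 * h * (G * Ck) / δ ^ 2 := by
                  field_simp
              _ ≤ ε₂ / 2 := hh3
          have h4 : ‖v x - g x.1 ζ / (z - ζ)‖ ≤ ε₂ := by
            rw [hsplit]
            refine (norm_add_le _ _).trans ?_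
            linarith
          simp only [hBdef]
          rw [h1]
          have := mul_nonneg hM10.le hB1
          linarith
        · rw [mem_closedBall_zero_iff, not_le] at hball
          have h1 : g x.1 ζ = 0 := hR1 _ _ (by linarith)
          have h2 : g x.1 (gp k h x) = 0 := by
            apply hR1
            have : ‖ζ‖ ≤ ‖gp k h x‖ + ‖gp k h x - ζ‖ := by
              have := norm_sub_norm_le ζ (gp k h x)
              rw [norm_sub_rev ζ] at this
              linarith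
            linarith
          rw [hvx, h1, h2]
          simp only [zero_div, sub_zero, norm_zero]
          simp only [hBdef]
          have := mul_nonneg hM10.le hB1
          linarith
  have hae : ∀ᵐ ζ : ℂ, ζ ≠ z := by
    rw [ae_iff]
    simp
  have key := d10cell_bound k hh0 (I.erase x₀) v (fun c ζ => g c ζ / (z - ζ)) B hFint hBint
    (fun x hx => by
      rw [Finset.mem_erase, not_and_or, not_not] at hx
      rcases hx with hx | hx
      · simp [hvdef, hx]
      · have : g x.1 (gp k h x) = 0 := by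
          by_contra hne
          exact hx (hI x hne)
        simp [hvdef, this])
    (fun x => by
      filter_upwards [hae] with ζ h1 h2
      exact hmain x ζ h1 h2)
  have hsum : ∑ x ∈ I.erase x₀, (h : ℂ) ^ 2 * g x.1 (gp k h x) / (z - gp k h x) =
      ∑ x ∈ I.erase x₀, (h : ℂ) ^ 2 * v x := by
    refine Finset.sum_congr rfl fun x hx => ?_
    have hne : x ≠ x₀ := (Finset.mem_erase.mp hx).1
    simp only [hvdef, hne, if_false]
    ring
  rw [hsum]
  refine key.trans ?_
  simp_rw [hBval]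
  rw [Finset.sum_const, Finset.card_univ, Fintype.card_fin, nsmul_eq_mul]
  have h5 : k * (G / δ * h ^ 2) ≤ η / 3 := by
    have : G / δ * h ^ 2 ≤ G / δ * h := by
      apply mul_le_mul_of_nonneg_left _ (by positivity)
      nlinarith
    exact (mul_le_mul_of_nonneg_left this hkR.le).trans hh4
  calc (k : ℝ) * (M1 * (2 * V1 * δ) + ε₂ * V + G / δ * h ^ 2)
      = k * (M1 * (2 * V1 * δ)) + k * (ε₂ * V) + k * (G / δ * h ^ 2) := by ring
    _ ≤ η / 3 + η / 3 + η / 3 := by linarith
    _ = η := by ring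

end Pool.Agent.SV
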