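import Pool.Agent.Helper53.SV.H2

/-!
# Kernel identities for trivial phases (SV-H4)
-/

set_option autoImplicit false

open Complex Filter Topology Metric
open scoped ComplexConjugate

namespace Pool.Agent.SV

variable {N : ℕ}

/-- The pairing `(1/2π) ∫ f conj g |dz|`. -/
noncomputable def h4ip (c : Config N) (f g : ℂ → ℂ) : ℂ :=
  ∑ k, (c.r k : ℂ) * Real.circleAverage (fun z => f z * conj (g z)) (c.p k) (c.r k)

theorem h4ip_conj (c : Config N) (f g : ℂ → ℂ) : h4ip c f g = conj (h4ip c g f) := by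
  unfold h4ip
  rw [map_sum]
  refine Finset.sum_congr rfl fun k _ => ?_
  rw [map_mul, conj_ofReal, ← h2_avg_conj]
  congr 2
  funext z
  rw [map_mul, conj_conj, mul_comm]

theorem h4_avg_ofReal (f : ℂ → ℝ) (p : ℂ) (r : ℝ) :
    Real.circleAverage (fun z => ((f z : ℝ) : ℂ)) p r = ((Real.circleAverage f p r : ℝ) : ℂ) := by
  rw [Real.circleAverage_def, Real.circleAverage_def, intervalIntegral.integral_ofReal]
  simp

theorem h4ip_self (c : Config N) (f : ℂ → ℂ) : h4ip c f f = (nsq c f : ℂ) := by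
  unfold h4ip nsq
  push_cast
  refine Finset.sum_congr rfl fun k _ => ?_
  rw [← h4_avg_ofReal]
  congr 2
  funext z
  rw [mul_conj, normSq_eq_norm_sq]

theorem h4_nsq_nonneg (c : Config N) (f : ℂ → ℂ) : 0 ≤ nsq c f := by
  unfold nsq
  refine Finset.sum_nonneg fun k _ => mul_nonneg (c.hr k).le ?_
  rw [Real.circleAverage_def]
  refine smul_nonneg (by positivity) ?_
  exact intervalIntegral.integral_nonneg (by positivity) fun θ _ => by positivity

/-- continuity on all circles -/
def H4Cont (c : Config N) (f : ℂ → ℂ) : Prop := ∀ k, ContinuousOn f (sphere (c.p k) (c.r k))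

theorem Reg.h4cont {c : Config N} {f : ℂ → ℂ} {A : ℂ} (hf : Reg c f A) : H4Cont c f :=
  fun k => h2_contSphere c hf.cont k

theorem h4ip_add (c : Config N) {f g h : ℂ → ℂ} (hf : H4Cont c f) (hg : H4Cont c g)
    (hh : H4Cont c h) : h4ip c (fun z => f z + g z) h = h4ip c f h + h4ip c g h := by
  unfold h4ip
  rw [← Finset.sum_add_distrib]
  refine Finset.sum_congr rfl fun k _ => ?_
  have i1 : CircleIntegrable (fun z => f z * conj (h z)) (c.p k) (c.r k) :=
    ((hf k).mul (continuous_conj.comp_continuousOn (hh k))).circleIntegrable (c.hr k).le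
  have i2 : CircleIntegrable (fun z => g z * conj (h z)) (c.p k) (c.r k) :=
    ((hg k).mul (continuous_conj.comp_continuousOn (hh k))).circleIntegrable (c.hr k).le
  rw [← mul_add, ← Real.circleAverage_fun_add i1 i2]
  congr 2
  funext z
  ring

theorem h4ip_smul (c : Config N) (t : ℂ) (f h : ℂ → ℂ) :
    h4ip c (fun z => t * f z) h = t * h4ip c f h := by
  unfold h4ip
  rw [Finset.mul_sum]
  refine Finset.sum_congr rfl fun k _ => ?_
  have h1 : Real.circleAverage (fun z => t * f z * conj (h z)) (c.p k) (c.r k)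
      = t * Real.circleAverage (fun z => f z * conj (h z)) (c.p k) (c.r k) := by
    rw [← smul_eq_mul t (Real.circleAverage _ _ _), ← Real.circleAverage_fun_smul]
    congr 1
    funext z
    rw [smul_eq_mul]
    ring
  rw [h1]
  ring

theorem h4_nsq_congr (c : Config N) {f g : ℂ → ℂ}
    (h : ∀ k z, ‖z - c.p k‖ = c.r k → ‖f z‖ = ‖g z‖) : nsq c f = nsq c g := by
  unfold nsq
  refine Finset.sum_congr rfl fun k _ => ?_
  congr 1
  apply Real.circleAverage_congr_sphere
  intro z hz
  rw [abs_of_pos (c.hr k), mem_sphere_iff_norm] at hz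
  simp only
  rw [h k z hz]

theorem h4_nsq_add (c : Config N) {f g : ℂ → ℂ} (hf : H4Cont c f) (hg : H4Cont c g) :
    nsq c (fun z => f z + g z) = nsq c f + nsq c g + 2 * (h4ip c f g).re := by
  have hfg : H4Cont c (fun z => f z + g z) := fun k => (hf k).add (hg k)
  have h1 : (nsq c (fun z => f z + g z) : ℂ)
      = nsq c f + nsq c g + (h4ip c f g + conj (h4ip c f g)) := by
    rw [← h4ip_self, h4ip_add c hf hg hfg, h4ip_conj c f (fun z => f z + g z),
      h4ip_conj c g (fun z => f z + g z), h4ip_add c hf hg hf, h4ip_add c hf hg hg,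
      map_add, map_add, ← h4ip_conj, ← h4ip_conj, ← h4ip_conj, ← h4ip_conj, h4ip_self,
      h4ip_self]
    ring
  have h2 := congrArg Complex.re h1
  rw [add_conj] at h2
  simpa using h2

theorem h4_phase_zero (c : Config N) {w : ℂ} {S l : ℂ → ℂ} (hK : IsKer c 0 w S l) {k : Fin N}
    {z : ℂ} (hz : ‖z - c.p k‖ = c.r k) :
    conj (S z) = - ((z - c.p k) / c.r k) * Lf w l z := by
  have h := hK.bd k z hz
  rw [h]
  simp

/-- the reproducing property -/
theorem h4_repr (c : Config N) {b : ℂ} (hb : b ∈ Om c) {Sb lb f : ℂ → ℂ}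
    (hKb : IsKer c 0 b Sb lb) (hf : Reg c f 0) : f b = h4ip c f Sb := by
  have h1 := pair_ker c hf hKb.hl hb
  have h2 : ∀ k, (∮ z in C(c.p k, c.r k), f z * Lf b lb z)
      = - (2 * Real.pi * I) *
        ((c.r k : ℂ) * Real.circleAverage (fun z => f z * conj (Sb z)) (c.p k) (c.r k)) := by
    intro k
    rw [h2_circ_eq_avg (c.p k) (c.hr k).ne']
    have h3 : Real.circleAverage (fun z => (z - c.p k) / c.r k * (f z * Lf b lb z)) (c.p k) (c.r k)
        = Real.circleAverage (fun z => (-1 : ℂ) • (f z * conj (Sb z))) (c.p k) (c.r k) := by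
      apply Real.circleAverage_congr_sphere
      intro z hz
      rw [abs_of_pos (c.hr k), mem_sphere_iff_norm] at hz
      simp only [smul_eq_mul]
      rw [h4_phase_zero c hKb hz]
      ring
    rw [h3, Real.circleAverage_fun_smul, smul_eq_mul]
    ring
  rw [Finset.sum_congr rfl fun k _ => h2 k, ← Finset.mul_sum] at h1
  have hpi : (2 * Real.pi * I : ℂ) ≠ 0 := two_pi_I_ne_zero
  have h3 : (2 * Real.pi * I) * (f b - h4ip c f Sb) = 0 := by
    unfold h4ip
    linear_combination h1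
  exact sub_eq_zero.1 ((mul_eq_zero.1 h3).resolve_left hpi)

theorem ker_herm (c : Config N) {a b : ℂ} (ha : a ∈ Om c) (hb : b ∈ Om c) {Sa la Sb lb : ℂ → ℂ}
    (hKa : IsKer c 0 a Sa la) (hKb : IsKer c 0 b Sb lb) : Sb a = conj (Sa b) := by
  rw [h4_repr c ha hKa hKb.hS, h4_repr c hb hKb hKa.hS]
  exact h4ip_conj c Sb Sa

theorem h4_two_inv (c : Config N) {a b : ℂ} (ha : a ∈ Om c) (hb : b ∈ Om c) (k : Fin N) :
    (∮ z in C(c.p k, c.r k), (z - a)⁻¹ * (z - b)⁻¹) = 0 := by
  have hne : ∀ w ∈ Om c, ∀ z, ‖z - c.p k‖ ≤ c.r k → z - w ≠ 0 := by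
    intro w hw z hz h
    rw [sub_eq_zero] at h
    have h1 := hw k
    rw [← h] at h1
    linarith
  refine circleIntegral_eq_zero_of_differentiable_on_off_countable (c.hr k).le
    Set.countable_empty ?_ ?_
  · refine ContinuousOn.mul (ContinuousOn.inv₀ (by fun_prop) fun z hz => ?_)
      (ContinuousOn.inv₀ (by fun_prop) fun z hz => ?_)
    · rw [mem_closedBall_iff_norm] at hz; exact hne a ha z hz
    · rw [mem_closedBall_iff_norm] at hz; exact hne b hb z hz
  · intro z hz
    have hz1 := hz.1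
    rw [mem_ball_iff_norm] at hz1
    have d1 : DifferentiableAt ℂ (fun z : ℂ => (z - a)⁻¹) z :=
      DifferentiableAt.inv (by fun_prop) (hne a ha z hz1.le)
    have d2 : DifferentiableAt ℂ (fun z : ℂ => (z - b)⁻¹) z :=
      DifferentiableAt.inv (by fun_prop) (hne b hb z hz1.le)
    exact d1.mul d2

theorem ker_antisymm (c : Config N) {a b : ℂ} (ha : a ∈ Om c) (hb : b ∈ Om c)
    {Sa la Sb lb : ℂ → ℂ} (hKa : IsKer c 0 a Sa la) (hKb : IsKer c 0 b Sb lb) :
    lb a = - la b := by
  -- the integral of the product of the partners vanishes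
  have h1 : ∀ k, (∮ z in C(c.p k, c.r k), Lf a la z * Lf b lb z)
      = - conj (∮ z in C(c.p k, c.r k), Sa z * Sb z) := by
    intro k
    refine h2_circ_conj (c.p k) (c.hr k) fun z hz => ?_
    have e1 := h2_Lf_eq hKa hz
    have e2 := h2_Lf_eq hKb hz
    rw [e1, e2, map_mul]
    simp
    ring
  have h2 : ∑ k, (∮ z in C(c.p k, c.r k), Lf a la z * Lf b lb z) = 0 := by
    rw [Finset.sum_congr rfl fun k _ => h1 k, Finset.sum_neg_distrib, ← map_sum,
      pair_zero c hKa.hS hKb.hS, map_zero, neg_zero]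
  have p1 := pair_ker c hKa.hl hKb.hl hb
  have p2 := pair_ker c hKb.hl hKa.hl ha
  have p3 := pair_zero c hKb.hl hKa.hl
  have h3 : ∀ k, (∮ z in C(c.p k, c.r k), Lf a la z * Lf b lb z)
      = (∮ z in C(c.p k, c.r k), la z * Lf b lb z) + (∮ z in C(c.p k, c.r k), lb z * Lf a la z)
        - (∮ z in C(c.p k, c.r k), lb z * la z) := by
    intro k
    have hr := (c.hr k).le
    have ca := h2_cont_sub_inv c ha k
    have cb := h2_cont_sub_inv c hb k
    have cla := h2_contSphere c hKa.hl.cont k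
    have clb := h2_contSphere c hKb.hl.cont k
    have cLa : ContinuousOn (Lf a la) (sphere (c.p k) (c.r k)) := ca.add cla
    have cLb : ContinuousOn (Lf b lb) (sphere (c.p k) (c.r k)) := cb.add clb
    have i1 : CircleIntegrable (fun z => la z * Lf b lb z) (c.p k) (c.r k) :=
      (cla.mul cLb).circleIntegrable hr
    have i2 : CircleIntegrable (fun z => lb z * Lf a la z) (c.p k) (c.r k) :=
      (clb.mul cLa).circleIntegrable hr
    have i3 : CircleIntegrable (fun z => lb z * la z) (c.p k) (c.r k) :=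
      (clb.mul cla).circleIntegrable hr
    have i4 : CircleIntegrable (fun z => (z - a)⁻¹ * (z - b)⁻¹) (c.p k) (c.r k) :=
      (ca.mul cb).circleIntegrable hr
    have i12 : CircleIntegrable (fun z => la z * Lf b lb z + lb z * Lf a la z) (c.p k) (c.r k) :=
      i1.add i2
    have i123 : CircleIntegrable
        (fun z => la z * Lf b lb z + lb z * Lf a la z - lb z * la z) (c.p k) (c.r k) :=
      i12.sub i3
    have e1 : (∮ z in C(c.p k, c.r k), Lf a la z * Lf b lb z)
        = ∮ z in C(c.p k, c.r k), ((la z * Lf b lb z + lb z * Lf a la z - lb z * la z)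
          + (z - a)⁻¹ * (z - b)⁻¹) := by
      refine circleIntegral.integral_congr hr fun z _ => ?_
      simp only [Lf]
      ring
    rw [e1, circleIntegral.integral_add i123 i4, circleIntegral.integral_sub i12 i3,
      circleIntegral.integral_add i1 i2, h4_two_inv c ha hb k, add_zero]
  rw [Finset.sum_congr rfl fun k _ => h3 k, Finset.sum_sub_distrib, Finset.sum_add_distrib,
    p1, p2, p3] at h2
  have hpi : (2 * Real.pi * I : ℂ) ≠ 0 := two_pi_I_ne_zero
  have h4 : (2 * Real.pi * I) * (lb a + la b) = 0 := by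
    linear_combination -h2
  exact eq_neg_of_add_eq_zero_left ((mul_eq_zero.1 h4).resolve_left hpi)

theorem ker_diag (c : Config N) {a : ℂ} (ha : a ∈ Om c) {Sa la : ℂ → ℂ}
    (hKa : IsKer c 0 a Sa la) : Sa a = (nsq c Sa : ℂ) := by
  rw [h4_repr c ha hKa hKa.hS, h4ip_self]

theorem ker_point (c : Config N) {b : ℂ} (hb : b ∈ Om c) {Sb lb f : ℂ → ℂ}
    (hKb : IsKer c 0 b Sb lb) (hf : Reg c f 0) : ‖f b‖ ^ 2 ≤ (Sb b).re * nsq c f := by
  have hK : (Sb b).re = nsq c Sb := by rw [ker_diag c hb hKb]; simp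
  rw [hK]
  have h1 : ∀ t : ℂ, 0 ≤ nsq c f + ‖t‖ ^ 2 * nsq c Sb + 2 * (conj t * f b).re := by
    intro t
    have h2 := h4_nsq_add c (f := f) (g := fun z => t * Sb z) hf.h4cont
      (fun k => continuousOn_const.mul (hKb.hS.h4cont k))
    have h3 : h4ip c f (fun z => t * Sb z) = conj t * f b := by
      rw [h4ip_conj, h4ip_smul, map_mul, ← h4ip_conj, ← h4_repr c hb hKb hf]
    have h4 : nsq c (fun z => t * Sb z) = ‖t‖ ^ 2 * nsq c Sb := by
      have : (nsq c (fun z => t * Sb z) : ℂ) = (‖t‖ ^ 2 * nsq c Sb : ℝ) := by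
        rw [← h4ip_self, h4ip_smul, h4ip_conj, h4ip_smul, map_mul, ← h4ip_conj, h4ip_self,
          ← mul_assoc, mul_conj, normSq_eq_norm_sq]
        push_cast
        rfl
      exact_mod_cast this
    have h5 := h4_nsq_nonneg c (fun z => f z + t * Sb z)
    rw [h2, h3, h4] at h5
    exact h5
  have h2 : ∀ s : ℝ, 0 ≤ (‖f b‖ ^ 2 * nsq c Sb) * (s * s) + (-2 * ‖f b‖ ^ 2) * s + nsq c f := by
    intro s
    have h3 := h1 (-(s : ℂ) * f b)
    have h4 : ‖-(s : ℂ) * f b‖ ^ 2 = s ^ 2 * ‖f b‖ ^ 2 := by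
      rw [norm_mul, norm_neg, norm_real, mul_pow, Real.norm_eq_abs, sq_abs]
    have h5 : (conj (-(s : ℂ) * f b) * f b).re = - s * ‖f b‖ ^ 2 := by
      rw [map_mul, mul_assoc, conj_mul', map_neg, conj_ofReal]
      norm_cast
    rw [h4, h5] at h3
    nlinarith [h3]
  have h3 := discrim_le_zero h2
  rw [discrim] at h3
  rcases (sq_nonneg ‖f b‖).eq_or_lt with h4 | h4
  · rw [← h4]
    exact mul_nonneg (h4_nsq_nonneg c Sb) (h4_nsq_nonneg c f)
  · have h5 : ‖f b‖ ^ 2 * (‖f b‖ ^ 2 - nsq c Sb * nsq c f) ≤ 0 := by nlinarith [h3]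
    have h6 := nonpos_of_mul_nonpos_right h5 h4
    linarith

theorem h4_orth (c : Config N) {a : ℂ} {Sa la h : ℂ → ℂ}
    (hKa : IsKer c 0 a Sa la) (hh : Reg c h 0) : h4ip c h (Lf a la) = 0 := by
  have h1 := pair_zero c hh hKa.hS
  have h2 : ∀ k, (∮ z in C(c.p k, c.r k), h z * Sa z)
      = - (2 * Real.pi * I) *
        ((c.r k : ℂ) * Real.circleAverage (fun z => h z * conj (Lf a la z)) (c.p k) (c.r k)) := by
    intro k
    rw [h2_circ_eq_avg (c.p k) (c.hr k).ne']
    have h3 : Real.circleAverage (fun z => (z - c.p k) / c.r k * (h z * Sa z)) (c.p k) (c.r k)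
        = Real.circleAverage (fun z => (-1 : ℂ) • (h z * conj (Lf a la z))) (c.p k) (c.r k) := by
      apply Real.circleAverage_congr_sphere
      intro z hz
      rw [abs_of_pos (c.hr k), mem_sphere_iff_norm] at hz
      simp only [smul_eq_mul]
      have e1 := h2_Lf_eq hKa hz
      rw [e1]
      simp only [map_mul, map_neg, conj_conj]
      simp
      ring
    rw [h3, Real.circleAverage_fun_smul, smul_eq_mul]
    ring
  rw [Finset.sum_congr rfl fun k _ => h2 k, ← Finset.mul_sum] at h1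
  have hpi : (-(2 * Real.pi * I) : ℂ) ≠ 0 := neg_ne_zero.mpr two_pi_I_ne_zero
  exact (mul_eq_zero.1 h1).resolve_left hpi

theorem h4_norm_Lf (c : Config N) {a : ℂ} {Sa la : ℂ → ℂ} (hKa : IsKer c 0 a Sa la) :
    nsq c (Lf a la) = nsq c Sa := by
  refine h4_nsq_congr c fun k z hz => ?_
  have h1 := congrArg norm (h4_phase_zero c hKa hz)
  rw [norm_mul, norm_neg, norm_div, hz, norm_real, Real.norm_of_nonneg (c.hr k).le,
    div_self (c.hr k).ne', one_mul, norm_conj] at h1
  exact h1.symm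

theorem h4_cont_Lf (c : Config N) {a : ℂ} (ha : a ∈ Om c) {l : ℂ → ℂ} {A : ℂ} (hl : Reg c l A) :
    H4Cont c (Lf a l) := fun k => (h2_cont_sub_inv c ha k).add (h2_contSphere c hl.cont k)

theorem h4_pyth (c : Config N) {a : ℂ} (ha : a ∈ Om c) {Sa la g : ℂ → ℂ}
    (hKa : IsKer c 0 a Sa la) (hg : Reg c g 0) :
    nsq c (Lf a g) = nsq c Sa + nsq c (fun z => g z - la z) := by
  have hd : Reg c (fun z => g z - la z) 0 := by simpa using hg.sub hKa.hl
  have h1 : Lf a g = fun z => (g z - la z) + Lf a la z := by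
    funext z; simp only [Lf]; ring
  rw [h1, h4_nsq_add c hd.h4cont (h4_cont_Lf c ha hKa.hl), h4_orth c hKa hd, h4_norm_Lf c hKa]
  simp only [zero_re, mul_zero, add_zero]
  ring

theorem ker_test (c : Config N) {a : ℂ} (ha : a ∈ Om c) {Sa la F g : ℂ → ℂ}
    (hKa : IsKer c 0 a Sa la) (hF : Reg c F 0) (hg : Reg c g 0) :
    nsq c (fun z => F z - Sa z) + nsq c (fun z => g z - la z)
      = nsq c F + nsq c (Lf a g) - 2 * (F a).re := by
  rw [h4_pyth c ha hKa hg]
  have h1 : (fun z => F z - Sa z) = fun z => F z + (-1) * Sa z := by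
    funext z; ring
  have h2 : nsq c (fun z => F z - Sa z) = nsq c F + nsq c Sa - 2 * (F a).re := by
    have hc : H4Cont c (fun z => (-1) * Sa z) :=
      fun k => continuousOn_const.mul (hKa.hS.h4cont k)
    rw [h1, h4_nsq_add c hF.h4cont hc, h4ip_conj c F, h4ip_smul, map_mul, ← h4ip_conj, ← h4_repr c ha hKa hF]
    have h3 : nsq c (fun z => (-1) * Sa z) = nsq c Sa :=
      h4_nsq_congr c fun k z _ => by simp
    rw [h3]
    simp
    ring
  rw [h2]
  ring

theorem ker_le (c : Config N) {a : ℂ} (ha : a ∈ Om c) {Sa la g : ℂ → ℂ}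
    (hKa : IsKer c 0 a Sa la) (hg : Reg c g 0) : (Sa a).re ≤ nsq c (Lf a g) := by
  rw [h4_pyth c ha hKa hg, ker_diag c ha hKa, ofReal_re]
  linarith [h4_nsq_nonneg c (fun z => g z - la z)]

end Pool.Agent.SV
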