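import Pool.Agent.Helper53.SV.DDefs
import Pool.Agent.Helper53.SV.H4

/-!
# Duality on the circle domain (SV-D11)
-/

set_option autoImplicit false

open Complex Filter Topology Metric
open scoped ComplexConjugate

namespace Pool.Agent.SV

theorem d11_norm_avg_le (F : ℂ → ℂ) (p : ℂ) (r : ℝ) :
    ‖Real.circleAverage F p r‖ ≤ Real.circleAverage (fun z => ‖F z‖) p r := by
  rw [Real.circleAverage_def, Real.circleAverage_def, norm_smul, smul_eq_mul, norm_inv,
    Real.norm_of_nonneg (by positivity : (0 : ℝ) ≤ 2 * Real.pi)]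
  refine mul_le_mul_of_nonneg_left ?_ (by positivity)
  exact intervalIntegral.norm_integral_le_integral_norm (by positivity)

/-- D11.lean -/
theorem dual_circ {N : ℕ} (c : Config N) {w : ℂ} (hw : w ∈ Om c) {S l : ℂ → ℂ}
    (hK : IsKer c 0 w S l) {f : ℂ → ℂ} (hf : Reg c f 0) {M : ℝ}
    (hM : ∀ z ∈ Omc c, ‖f z‖ ≤ M) : ‖deriv f w‖ ≤ M * (S w).re := by
  have hlw : l w = 0 := by
    have h := ker_antisymm c hw hw hK hK
    have h2 : (2 : ℂ) * l w = 0 := by linear_combination h
    exact (mul_eq_zero.1 h2).resolve_left two_ne_zero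
  have hD : Reg c (dslope f w) 0 := hf.dslope hw
  have hfl : Reg c (fun z => f z * l z) 0 := by simpa using hf.mul hK.hl
  have hG : Reg c (fun z => dslope f w z + f z * l z) 0 := by simpa using hD.add hfl
  have p1 := pair_ker c hG hK.hl hw
  have p2 := pair_ker c hK.hl hK.hl hw
  have p3 := pair_zero c hK.hl hK.hl
  rw [hlw, mul_zero, add_zero, dslope_same] at p1
  rw [hlw, mul_zero, neg_zero] at p2
  -- decomposition of the integrals
  have key : ∀ k, (∮ z in C(c.p k, c.r k), f z * (Lf w l z * Lf w l z))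
      = (∮ z in C(c.p k, c.r k), (dslope f w z + f z * l z) * Lf w l z)
        + f w * ((∮ z in C(c.p k, c.r k), l z * Lf w l z)
          - ∮ z in C(c.p k, c.r k), l z * l z) := by
    intro k
    have hr := (c.hr k).le
    have cw := h2_cont_sub_inv c hw k
    have cl := h2_contSphere c hK.hl.cont k
    have cG := h2_contSphere c hG.cont k
    have cL : ContinuousOn (Lf w l) (sphere (c.p k) (c.r k)) := cw.add cl
    have i1 : CircleIntegrable (fun z => (dslope f w z + f z * l z) * Lf w l z) (c.p k) (c.r k) :=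
      (cG.mul cL).circleIntegrable hr
    have i2 : CircleIntegrable (fun z => l z * Lf w l z) (c.p k) (c.r k) :=
      (cl.mul cL).circleIntegrable hr
    have i3 : CircleIntegrable (fun z => l z * l z) (c.p k) (c.r k) :=
      (cl.mul cl).circleIntegrable hr
    have i4 : CircleIntegrable (fun z => (z - w)⁻¹ * (z - w)⁻¹) (c.p k) (c.r k) :=
      (cw.mul cw).circleIntegrable hr
    have i23 : CircleIntegrable (fun z => l z * Lf w l z - l z * l z) (c.p k) (c.r k) := i2.sub i3
    have i234 : CircleIntegrable (fun z => (l z * Lf w l z - l z * l z)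
        + (z - w)⁻¹ * (z - w)⁻¹) (c.p k) (c.r k) := i23.add i4
    have i5 : CircleIntegrable (fun z => f w * ((l z * Lf w l z - l z * l z)
        + (z - w)⁻¹ * (z - w)⁻¹)) (c.p k) (c.r k) :=
      (continuousOn_const.mul (((cl.mul cL).sub (cl.mul cl)).add (cw.mul cw))).circleIntegrable hr
    have e1 : (∮ z in C(c.p k, c.r k), f z * (Lf w l z * Lf w l z))
        = ∮ z in C(c.p k, c.r k), ((dslope f w z + f z * l z) * Lf w l z
          + f w * ((l z * Lf w l z - l z * l z) + (z - w)⁻¹ * (z - w)⁻¹)) := by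
      refine circleIntegral.integral_congr hr fun z hz => ?_
      have hz' : z ≠ w := by
        intro h
        rw [mem_sphere_iff_norm, h] at hz
        exact absurd (hw k) (by linarith)
      have hz'' : z - w ≠ 0 := sub_ne_zero.mpr hz'
      simp only [Lf]
      rw [dslope_of_ne _ hz', slope_def_field]
      field_simp
      ring
    rw [e1, circleIntegral.integral_add i1 i5, circleIntegral.integral_const_mul,
      circleIntegral.integral_add i23 i4, circleIntegral.integral_sub i2 i3,
      h4_two_inv c hw hw k, add_zero]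
  have hsum : ∑ k, (∮ z in C(c.p k, c.r k), f z * (Lf w l z * Lf w l z))
      = - (2 * Real.pi * I * deriv f w) := by
    rw [Finset.sum_congr rfl fun k _ => key k, Finset.sum_add_distrib, ← Finset.mul_sum,
      Finset.sum_sub_distrib, p1, p2, p3]
    ring
  -- in terms of averages
  have havg : ∑ k, ((c.r k : ℂ) * Real.circleAverage
      (fun z => (z - c.p k) / c.r k * (f z * (Lf w l z * Lf w l z))) (c.p k) (c.r k))
      = - deriv f w := by
    have h1 : ∀ k, (∮ z in C(c.p k, c.r k), f z * (Lf w l z * Lf w l z))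
        = 2 * Real.pi * I * ((c.r k : ℂ) * Real.circleAverage
          (fun z => (z - c.p k) / c.r k * (f z * (Lf w l z * Lf w l z))) (c.p k) (c.r k)) :=
      fun k => h2_circ_eq_avg (c.p k) (c.hr k).ne' _
    rw [Finset.sum_congr rfl fun k _ => h1 k, ← Finset.mul_sum] at hsum
    have hpi : (2 * Real.pi * I : ℂ) ≠ 0 := two_pi_I_ne_zero
    apply mul_left_cancel₀ hpi
    rw [hsum]
    ring
  have hdiag : (S w).re = nsq c (Lf w l) := by
    rw [h4_norm_Lf c hK, ker_diag c hw hK, ofReal_re]
  rw [← norm_neg, ← havg, hdiag]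
  unfold nsq
  rw [Finset.mul_sum]
  refine (norm_sum_le _ _).trans (Finset.sum_le_sum fun k _ => ?_)
  have hr := c.hr k
  rw [norm_mul, norm_real, Real.norm_of_nonneg hr.le, mul_left_comm]
  refine mul_le_mul_of_nonneg_left ?_ hr.le
  refine (d11_norm_avg_le _ _ _).trans ?_
  have cL : ContinuousOn (Lf w l) (sphere (c.p k) (c.r k)) :=
    (h2_cont_sub_inv c hw k).add (h2_contSphere c hK.hl.cont k)
  have cf := h2_contSphere c hf.cont k
  have e2 : M * Real.circleAverage (fun z => ‖Lf w l z‖ ^ 2) (c.p k) (c.r k)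
      = Real.circleAverage (fun z => M * ‖Lf w l z‖ ^ 2) (c.p k) (c.r k) := by
    rw [← smul_eq_mul M (Real.circleAverage _ _ _), ← Real.circleAverage_fun_smul]
    rfl
  rw [e2]
  have hr' : (c.r k : ℂ) ≠ 0 := by exact_mod_cast hr.ne'
  apply Real.circleAverage_mono
  · refine ContinuousOn.circleIntegrable hr.le ?_
    exact (((continuousOn_id.sub continuousOn_const).div_const _).mul
      (cf.mul (cL.mul cL))).norm
  · refine ContinuousOn.circleIntegrable hr.le ?_
    exact continuousOn_const.mul (cL.norm.pow 2)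
  · intro z hz
    rw [abs_of_pos hr, mem_sphere_iff_norm] at hz
    have h3 : ‖(z - c.p k) / (c.r k : ℂ)‖ = 1 := by
      rw [norm_div, hz, norm_real, Real.norm_of_nonneg hr.le, div_self hr.ne']
    have h4 := hM z (circle_subset_Omc c k hz)
    show ‖(z - c.p k) / (c.r k : ℂ) * (f z * (Lf w l z * Lf w l z))‖ ≤ M * ‖Lf w l z‖ ^ 2
    rw [norm_mul, h3, one_mul, norm_mul, norm_mul, ← sq]
    exact mul_le_mul_of_nonneg_right h4 (sq_nonneg _)

end Pool.Agent.SV
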