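import Pool.Agent.Helper53.SV.DDefs
import Pool.Agent.Helper53.SV.D10a
import Pool.Agent.Helper53.SV.D10b
import Pool.Agent.Helper53.SV.D11
import Pool.Agent.Helper53.SV.D12

/-!
# D14a: the upper bound by the kernel of the full grid
-/

set_option autoImplicit false

open Complex Filter Topology Metric
open scoped ComplexConjugate

namespace Pool.Agent.SV

namespace D14a

/-- the rational function with simple poles `p x` and residues `G x` -/
noncomputable def Fh {ι : Type*} (p : ι → ℂ) (G : ι → ℂ) (I : Finset ι) (z : ℂ) : ℂ :=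
  ∑ x ∈ I, G x / (z - p x)

theorem Fh_diffAt {ι : Type*} (p G : ι → ℂ) (I : Finset ι) {z : ℂ} (hz : ∀ x ∈ I, z ≠ p x) :
    DifferentiableAt ℂ (Fh p G I) z := by
  unfold Fh
  refine DifferentiableAt.fun_sum fun x hx => ?_
  exact (differentiableAt_const _).div (differentiableAt_id.sub (differentiableAt_const _))
    (sub_ne_zero.2 (hz x hx))

theorem tendsto_inv_sub (a : ℂ) : Tendsto (fun z : ℂ => (z - a)⁻¹) (cocompact ℂ) (𝓝 0) := by
  have h1 : Tendsto (fun z : ℂ => z - a) (cocompact ℂ) (cocompact ℂ) :=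
    (Homeomorph.subRight a).isClosedEmbedding.tendsto_cocompact
  exact tendsto_inv₀_cobounded.comp (by rwa [Metric.cobounded_eq_cocompact])

theorem Fh_lim {ι : Type*} (p G : ι → ℂ) (I : Finset ι) :
    Tendsto (Fh p G I) (cocompact ℂ) (𝓝 0) := by
  have h1 : Tendsto (fun z : ℂ => ∑ x ∈ I, G x / (z - p x)) (cocompact ℂ)
      (𝓝 (∑ x ∈ I, G x * 0)) := by
    refine tendsto_finsetSum _ fun x _ => ?_
    simp only [div_eq_mul_inv]
    exact (tendsto_inv_sub (p x)).const_mul (G x)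
  have h2 : ∑ x ∈ I, G x * 0 = 0 := by simp
  rw [h2] at h1
  exact h1

theorem Fh_coeff {ι : Type*} (p G : ι → ℂ) (I : Finset ι) :
    Tendsto (fun z => z * (Fh p G I z - 0)) (cocompact ℂ) (𝓝 (∑ x ∈ I, G x)) := by
  have h1 : Tendsto (fun z : ℂ => ∑ x ∈ I, (G x + G x * p x * (z - p x)⁻¹)) (cocompact ℂ)
      (𝓝 (∑ x ∈ I, (G x + G x * p x * 0))) := by
    refine tendsto_finsetSum _ fun x _ => ?_
    exact tendsto_const_nhds.add ((tendsto_inv_sub (p x)).const_mul (G x * p x))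
  have h2 : ∀ᶠ z : ℂ in cocompact ℂ, ∑ x ∈ I, (G x + G x * p x * (z - p x)⁻¹) =
      z * (Fh p G I z - 0) := by
    have h3 : ∀ᶠ z : ℂ in cocompact ℂ, ∀ x ∈ I, z ≠ p x := by
      rw [Filter.eventually_all_finset]
      intro x _
      have : ({p x} : Set ℂ)ᶜ ∈ cocompact ℂ := isCompact_singleton.compl_mem_cocompact
      filter_upwards [this] with z hz
      exact hz
    filter_upwards [h3] with z hz
    rw [sub_zero, Fh, Finset.mul_sum]
    refine Finset.sum_congr rfl fun x hx => ?_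
    have h4 : z - p x ≠ 0 := sub_ne_zero.2 (hz x hx)
    field_simp
    ring
  have h3 := h1.congr' h2
  simpa using h3

theorem mem_enum {ι : Type*} [DecidableEq ι] {I : Finset ι} {x : ι} (hx : x ∈ I) :
    ∃ q : Fin I.card, enum I q = x := ⟨I.equivFin ⟨x, hx⟩, by simp [enum]⟩

theorem enum_mem {ι : Type*} [DecidableEq ι] (I : Finset ι) (q : Fin I.card) : enum I q ∈ I := by
  simp [enum]

end D14a

open D14a

theorem mt_upper (k : ℕ) (hk : 0 < k) (ρ : Fin k → ℂ → ℝ) (hρc : ∀ c, Continuous (ρ c))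
    (hρ0 : ∀ c z, 0 ≤ ρ c z) (g : Fin k → ℂ → ℂ) (hg : ∀ c, Continuous (g c)) {ε : ℝ}
    (hε : 0 < ε) (hε1 : ε ≤ 1) (hgρ : ∀ c z, ‖g c z‖ ≤ ε * Real.pi * ρ c z)
    (hF : ∀ z, ‖(Real.pi : ℂ)⁻¹ * ∑ c, ∫ ζ, g c ζ / (z - ζ)‖ ≤ 1) {R : ℝ} (hR : 1 ≤ R)
    (hsupp : ∀ c z, 0 < ρ c z → ‖z‖ ≤ R - 1) {w : ℂ} (hw : 2 * R < ‖w‖) {η : ℝ} (hη : 0 < η)
    (hη1 : η ≤ 1) :
    ∀ᶠ h : ℝ in 𝓝[>] 0, ∀ I : Finset (Fin k × ℤ × ℤ), (∀ x, x ∈ I ↔ 0 < ρ x.1 (gp k h x)) →
      ∀ c : Config I.card, c.p = gp k h ∘ enum I → c.r = gr k ρ h ∘ enum I →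
      ∀ S l : ℂ → ℂ, IsKer c 0 w S l →
      ‖(Real.pi : ℂ)⁻¹ * ∑ c, ∫ ζ, g c ζ‖
        ≤ (1 + ε + η) * (‖w‖ ^ 2 * (S w).re) + 48 * R ^ 2 / ‖w‖ + η := by
  have hπ : 0 < Real.pi := Real.pi_pos
  -- supports
  have hgs : ∀ c z, g c z ≠ 0 → 0 < ρ c z := by
    intro c z hz
    rcases (hρ0 c z).lt_or_eq with h | h
    · exact h
    · exfalso
      apply hz
      have h1 := hgρ c z
      rw [← h, mul_zero] at h1
      exact norm_le_zero_iff.1 h1
  have hgcs : ∀ c, HasCompactSupport (g c) := by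
    intro c
    refine HasCompactSupport.intro (isCompact_closedBall (0 : ℂ) (R - 1)) fun z hz => ?_
    by_contra h
    exact hz (mem_closedBall_zero_iff.2 (hsupp c z (hgs c z h)))
  -- bound for the densities
  obtain ⟨C, hC0, hC⟩ : ∃ C : ℝ, 0 < C ∧ ∀ c z, ρ c z ≤ C := by
    have h1 : ∀ c : Fin k, ∃ C : ℝ, ∀ z, ρ c z ≤ C := by
      intro c
      obtain ⟨C, hC⟩ := (isCompact_closedBall (0 : ℂ) (R - 1)).exists_bound_of_continuousOn
        (hρc c).continuousOn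
      refine ⟨max C 0, fun z => ?_⟩
      rcases (hρ0 c z).lt_or_eq with h | h
      · refine le_trans ?_ (le_max_left _ _)
        have := hC z (mem_closedBall_zero_iff.2 (hsupp c z h))
        rwa [Real.norm_of_nonneg (hρ0 c z)] at this
      · rw [← h]; exact le_max_right _ _
    choose C hC using h1
    refine ⟨∑ c, |C c| + 1, by positivity, fun c z => ?_⟩
    have h2 : |C c| ≤ ∑ c, |C c| :=
      Finset.single_le_sum (f := fun c => |C c|) (fun i _ => abs_nonneg _) (Finset.mem_univ c)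
    have h3 := hC c z
    have h4 := le_abs_self (C c)
    linarith
  have hsmall : ∀ᶠ h : ℝ in 𝓝[>] 0, C * h ^ 2 ≤ 1 / 2 := by
    have h1 : Tendsto (fun h : ℝ => C * h ^ 2) (𝓝[>] 0) (𝓝 (C * 0 ^ 2)) :=
      ((continuous_const.mul (continuous_pow 2)).tendsto _).mono_left nhdsWithin_le_nhds
    have h2 : C * (0 : ℝ) ^ 2 < 1 / 2 := by norm_num
    exact (h1.eventually_lt_const h2).mono fun _ h => h.le
  have hpos : ∀ᶠ h : ℝ in 𝓝[>] 0, 0 < h := self_mem_nhdsWithin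
  have hηπ : 0 < Real.pi * η := by positivity
  filter_upwards [hsmall, hpos, riemann_sum k hk g hg hgcs hηπ,
    riemann_cauchy k hk g hg hgcs hηπ] with h hh hh0 hrs hrc
  intro I hI c hcp hcr S l hK
  have hIg : ∀ x : Fin k × ℤ × ℤ, g x.1 (gp k h x) ≠ 0 → x ∈ I := fun x hx =>
    (hI x).2 (hgs _ _ hx)
  set p : Fin k × ℤ × ℤ → ℂ := gp k h with hp
  set G : Fin k × ℤ × ℤ → ℂ := fun x => (Real.pi : ℂ)⁻¹ * ((h : ℂ) ^ 2 * g x.1 (gp k h x)) with hG
  have hpR : ∀ x ∈ I, ‖p x‖ ≤ R - 1 := fun x hx => hsupp _ _ ((hI x).1 hx)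
  have hr : ∀ x ∈ I, 0 < gr k ρ h x ∧ gr k ρ h x ≤ 1 / 2 := by
    intro x hx
    have h1 := (hI x).1 hx
    refine ⟨by unfold gr; positivity, ?_⟩
    unfold gr
    exact le_trans (mul_le_mul_of_nonneg_right (hC _ _) (by positivity)) hh
  -- membership in the domains
  have hmemOm : ∀ z : ℂ, R < ‖z‖ → z ∈ Om c := by
    intro z hz q
    rw [hcp, hcr, Function.comp_apply, Function.comp_apply]
    have h1 := hpR _ (enum_mem I q)
    have h2 := (hr _ (enum_mem I q)).2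
    have h3 : ‖z‖ - ‖p (enum I q)‖ ≤ ‖z - p (enum I q)‖ := norm_sub_norm_le _ _
    change gr k ρ h (enum I q) < ‖z - p (enum I q)‖
    linarith
  have hOm_ne : ∀ z ∈ Omc c, ∀ x ∈ I, gr k ρ h x ≤ ‖z - p x‖ := by
    intro z hz x hx
    obtain ⟨q, rfl⟩ := mem_enum hx
    have h1 := hz q
    rwa [hcp, hcr, Function.comp_apply, Function.comp_apply] at h1
  have hOmc_ne : ∀ z ∈ Omc c, ∀ x ∈ I, z ≠ p x := by
    intro z hz x hx h1
    have h2 := hOm_ne z hz x hx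
    rw [h1, sub_self, norm_zero] at h2
    exact absurd (hr x hx).1 (not_lt.2 h2)
  have hOm_sub : Om c ⊆ Omc c := fun z hz q => (hz q).le
  have hReg : Reg c (Fh p G I) 0 :=
    { diff := fun z hz =>
        (Fh_diffAt p G I (hOmc_ne z (hOm_sub hz))).differentiableWithinAt
      cont := fun z hz =>
        (Fh_diffAt p G I (hOmc_ne z hz)).continuousAt.continuousWithinAt
      lim := Fh_lim p G I }
  -- the bound on the closed domain
  have hbd : ∀ z ∈ Omc c, ‖Fh p G I z‖ ≤ 1 + ε + η := by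
    intro z hz
    obtain ⟨x₀, hx₀⟩ : ∃ x₀ : Fin k × ℤ × ℤ, ∀ x, x ≠ x₀ → h / (4 * k) ≤ ‖z - p x‖ := by
      by_cases hex : ∃ x₀ : Fin k × ℤ × ℤ, ‖z - p x₀‖ < h / (4 * k)
      · obtain ⟨x₀, hx₀⟩ := hex
        refine ⟨x₀, fun x hx => ?_⟩
        have h1 := grid_sep k hk hh0 hx
        have h2 : ‖p x - p x₀‖ ≤ ‖z - p x‖ + ‖z - p x₀‖ := by
          have h3 : p x - p x₀ = -(z - p x) + (z - p x₀) := by ring
          rw [h3]
          exact (norm_add_le _ _).trans (by rw [norm_neg])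
        have hk' : (0 : ℝ) < k := by exact_mod_cast hk
        have h4 : h / (4 * k) = h / k / 4 := by field_simp
        have h5 : 0 < h / k := by positivity
        rw [h4] at hx₀ ⊢
        linarith
      · push Not at hex
        exact ⟨(⟨0, hk⟩, 0, 0), fun x _ => hex x⟩
    have h1 := hrc I hIg z x₀ hx₀
    -- the part without `x₀`
    have h2 : ‖∑ x ∈ I.erase x₀, G x / (z - p x)‖ ≤ 1 + η := by
      have h3 : ∑ x ∈ I.erase x₀, G x / (z - p x) = (Real.pi : ℂ)⁻¹ *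
          (∑ x ∈ I.erase x₀, (h : ℂ) ^ 2 * g x.1 (gp k h x) / (z - gp k h x)
            - ∑ c, ∫ ζ, g c ζ / (z - ζ)) + (Real.pi : ℂ)⁻¹ * ∑ c, ∫ ζ, g c ζ / (z - ζ) := by
        rw [mul_sub, sub_add_cancel, Finset.mul_sum]
        refine Finset.sum_congr rfl fun x _ => ?_
        simp only [hG, hp]
        ring
      rw [h3]
      refine (norm_add_le _ _).trans ?_
      rw [norm_mul, norm_inv, Complex.norm_real, Real.norm_of_nonneg hπ.le]
      have h4 : Real.pi⁻¹ * ‖∑ x ∈ I.erase x₀, (h : ℂ) ^ 2 * g x.1 (gp k h x) / (z - gp k h x)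
            - ∑ c, ∫ ζ, g c ζ / (z - ζ)‖ ≤ Real.pi⁻¹ * (Real.pi * η) :=
        mul_le_mul_of_nonneg_left h1 (by positivity)
      have h5 : Real.pi⁻¹ * (Real.pi * η) = η := by field_simp
      have h6 := hF z
      linarith
    by_cases hx₀I : x₀ ∈ I
    · have h3 : Fh p G I z = G x₀ / (z - p x₀) + ∑ x ∈ I.erase x₀, G x / (z - p x) :=
        (Finset.add_sum_erase I _ hx₀I).symm
      rw [h3]
      refine (norm_add_le _ _).trans ?_
      have h4 : ‖G x₀ / (z - p x₀)‖ ≤ ε := by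
        have h5 := hOm_ne z hz x₀ hx₀I
        have h6 := (hr x₀ hx₀I).1
        rw [norm_div, div_le_iff₀ (lt_of_lt_of_le h6 h5)]
        have h7 : ‖G x₀‖ = Real.pi⁻¹ * (h ^ 2 * ‖g x₀.1 (gp k h x₀)‖) := by
          simp only [hG]
          rw [norm_mul, norm_mul, norm_inv, norm_pow, Complex.norm_real, Complex.norm_real,
            Real.norm_of_nonneg hπ.le, Real.norm_of_nonneg hh0.le]
        rw [h7]
        have h8 := hgρ x₀.1 (gp k h x₀)
        calc Real.pi⁻¹ * (h ^ 2 * ‖g x₀.1 (gp k h x₀)‖)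
            ≤ Real.pi⁻¹ * (h ^ 2 * (ε * Real.pi * ρ x₀.1 (gp k h x₀))) := by gcongr
          _ = ε * gr k ρ h x₀ := by
              unfold gr
              field_simp
          _ ≤ ε * ‖z - p x₀‖ := mul_le_mul_of_nonneg_left h5 hε.le
      linarith
    · have h3 : Fh p G I z = ∑ x ∈ I.erase x₀, G x / (z - p x) := by
        rw [Finset.erase_eq_of_notMem hx₀I]; rfl
      rw [h3]
      linarith
  -- duality
  have hR0 : 0 < R := by linarith
  have hwR : R < ‖w‖ := by linarith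
  have hw0 : 0 < ‖w‖ := by linarith
  have hdual := dual_circ c (hmemOm w hwR) hK hReg hbd
  have hcoef := coeff_deriv (f := Fh p G I) (R := R) (M := 1 + ε + η) (c₀ := 0)
    (a := ∑ x ∈ I, G x) (w := w) hR0 (by positivity)
    (fun z hz => (Fh_diffAt p G I (hOmc_ne z (hOm_sub (hmemOm z hz)))).differentiableWithinAt)
    (fun z hz => hbd z (hOm_sub (hmemOm z hz))) (Fh_lim p G I) (Fh_coeff p G I) hw
  -- the coefficient
  have hsum := hrs I hIg
  have ha : ‖(Real.pi : ℂ)⁻¹ * ∑ c, ∫ ζ, g c ζ‖ ≤ ‖∑ x ∈ I, G x‖ + η := by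
    have h1 : (Real.pi : ℂ)⁻¹ * ∑ c, ∫ ζ, g c ζ = ∑ x ∈ I, G x - (Real.pi : ℂ)⁻¹ *
        (∑ x ∈ I, (h : ℂ) ^ 2 * g x.1 (gp k h x) - ∑ c, ∫ ζ, g c ζ) := by
      have h2 : ∑ x ∈ I, G x = (Real.pi : ℂ)⁻¹ * ∑ x ∈ I, (h : ℂ) ^ 2 * g x.1 (gp k h x) := by
        rw [Finset.mul_sum]
      rw [h2]
      ring
    rw [h1]
    refine (norm_sub_le _ _).trans ?_
    rw [norm_mul, norm_inv, Complex.norm_real, Real.norm_of_nonneg hπ.le]
    have h4 : Real.pi⁻¹ * ‖∑ x ∈ I, (h : ℂ) ^ 2 * g x.1 (gp k h x) - ∑ c, ∫ ζ, g c ζ‖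
        ≤ Real.pi⁻¹ * (Real.pi * η) :=
      mul_le_mul_of_nonneg_left hsum (by positivity)
    have h5 : Real.pi⁻¹ * (Real.pi * η) = η := by field_simp
    linarith
  have hnorm : ‖∑ x ∈ I, G x‖ ≤ ‖w‖ ^ 2 * ‖deriv (Fh p G I) w‖ + 16 * (1 + ε + η) * R ^ 2 / ‖w‖ := by
    have h1 : ∑ x ∈ I, G x = (w ^ 2 * deriv (Fh p G I) w + ∑ x ∈ I, G x) -
        w ^ 2 * deriv (Fh p G I) w := by ring
    rw [h1]
    refine (norm_sub_le _ _).trans ?_
    rw [norm_mul, norm_pow]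
    linarith
  have hM3 : 16 * (1 + ε + η) * R ^ 2 / ‖w‖ ≤ 48 * R ^ 2 / ‖w‖ := by
    apply div_le_div_of_nonneg_right _ hw0.le
    have : 0 ≤ R ^ 2 := sq_nonneg R
    nlinarith
  have hfin : ‖w‖ ^ 2 * ‖deriv (Fh p G I) w‖ ≤ (1 + ε + η) * (‖w‖ ^ 2 * (S w).re) := by
    have h1 := mul_le_mul_of_nonneg_left hdual (sq_nonneg ‖w‖)
    linarith
  linarith

end Pool.Agent.SV
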