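import Pool.Agent.Helper53.SV.D1

/-!
# Enumeration of a finite family and configurations from dilute families (SV-D6)
-/

set_option autoImplicit false

open Complex Filter Topology Metric
open scoped ComplexConjugate

namespace Pool.Agent.SV

variable {ι : Type*} [DecidableEq ι]

theorem d6_enum_mem (J : Finset ι) (k : Fin J.card) : enum J k ∈ J := (J.equivFin.symm k).2

theorem d6_enum_inj (J : Finset ι) {k m : Fin J.card} (h : enum J k = enum J m) : k = m := by
  have h1 : J.equivFin.symm k = J.equivFin.symm m := Subtype.ext h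
  exact J.equivFin.symm.injective h1

theorem d6_enum_sum {M : Type*} [AddCommMonoid M] (J : Finset ι) (f : ι → M) :
    ∑ k, f (enum J k) = ∑ m ∈ J, f m := by
  rw [← Finset.sum_coe_sort J f]
  exact Equiv.sum_comp J.equivFin.symm (fun x : J => f (x : ι))

theorem d6_enum_sum_erase {M : Type*} [AddCommGroup M] (J : Finset ι) (q : Fin J.card) (f : ι → M) :
    ∑ k ∈ Finset.univ.erase q, f (enum J k) = ∑ m ∈ J.erase (enum J q), f m := by
  rw [Finset.sum_erase_eq_sub (Finset.mem_univ q), Finset.sum_erase_eq_sub (d6_enum_mem J q),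
    d6_enum_sum J f]

theorem d6_dsol {p : ι → ℂ} {r : ι → ℝ} {J : Finset ι} {b : ℂ}
    (hp : ∀ i ∈ J, ∀ j ∈ J, i ≠ j → p i ≠ p j) (hr : ∀ i ∈ J, 0 < r i) (q : Fin J.card) :
    (dsol (p ∘ enum J) (r ∘ enum J) Finset.univ b).1 q = (dsol p r J b).1 (enum J q) ∧
      (dsol (p ∘ enum J) (r ∘ enum J) Finset.univ b).2 q = (dsol p r J b).2 (enum J q) := by
  have hp' : ∀ i ∈ (Finset.univ : Finset (Fin J.card)), ∀ j ∈ (Finset.univ : Finset (Fin J.card)),
      i ≠ j → (p ∘ enum J) i ≠ (p ∘ enum J) j := fun i _ j _ hij =>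
    hp _ (d6_enum_mem J i) _ (d6_enum_mem J j) fun h => hij (d6_enum_inj J h)
  have hr' : ∀ i ∈ (Finset.univ : Finset (Fin J.card)), 0 < (r ∘ enum J) i := fun i _ =>
    hr _ (d6_enum_mem J i)
  have h1 := dsol_spec b hp hr
  have h2 := dsol_spec b hp' hr'
  have h3 : DSol (p ∘ enum J) (r ∘ enum J) Finset.univ b ((dsol p r J b).1 ∘ enum J)
      ((dsol p r J b).2 ∘ enum J) := by
    constructor
    · intro q _
      have e1 := h1.hl (enum J q) (d6_enum_mem J q)
      simp only [Function.comp_apply]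
      rw [e1]
      congr 1
      exact (d6_enum_sum_erase J q (fun m => (r m : ℂ) * conj ((dsol p r J b).2 m)
        / (p (enum J q) - p m))).symm
    · intro q _
      have e1 := h1.hs (enum J q) (d6_enum_mem J q)
      simp only [Function.comp_apply]
      rw [e1]
      congr 1
      exact (d6_enum_sum_erase J q (fun m => (r m : ℂ) * conj ((dsol p r J b).1 m)
        / (p (enum J q) - p m))).symm
  exact dsol_unique hp' hr' h2 h3 q (Finset.mem_univ q)

theorem dS_enum {p : ι → ℂ} {r : ι → ℝ} {J : Finset ι}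
    (hp : ∀ i ∈ J, ∀ j ∈ J, i ≠ j → p i ≠ p j) (hr : ∀ i ∈ J, 0 < r i) (a b : ℂ) :
    dS (p ∘ enum J) (r ∘ enum J) Finset.univ a b = dS p r J a b ∧
      dL (p ∘ enum J) (r ∘ enum J) Finset.univ a b = dL p r J a b := by
  constructor
  · unfold dS
    rw [← d6_enum_sum J]
    congr 1
    refine Finset.sum_congr rfl fun q _ => ?_
    rw [(d6_dsol hp hr q).1]
    rfl
  · unfold dL
    rw [← d6_enum_sum J]
    congr 1
    refine Finset.sum_congr rfl fun q _ => ?_
    rw [(d6_dsol hp hr q).2]
    rfl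

theorem sg_enum (p : ι → ℂ) (r : ι → ℝ) (J : Finset ι) (a : ℂ) :
    sg (p ∘ enum J) (r ∘ enum J) Finset.univ a = sg p r J a := by
  unfold sg
  exact d6_enum_sum J (fun m => r m / ‖a - p m‖ ^ 2)

/-- the radii are small compared to the distances -/
theorem d6_rad {p : ι → ℂ} {r : ι → ℝ} {I : Finset ι} {w : ℂ} {δ A B Θ : ℝ}
    (hD : Dil p r I w δ A B Θ) {i : ι} (hi : i ∈ I) : 128 * r i ≤ δ := by
  have h1 := hD.r_le i hi
  have h2 := hD.small1
  have h3 := hD.δ_pos
  nlinarith

theorem d6_far_w {p : ι → ℂ} {r : ι → ℝ} {I : Finset ι} {w : ℂ} {δ A B Θ : ℝ}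
    (hD : Dil p r I w δ A B Θ) {J : Finset ι} (hJ : J ⊆ I) {c : Config J.card}
    (hcp : c.p = p ∘ enum J) (hcr : c.r = r ∘ enum J) : w ∈ Far c := by
  intro k
  rw [hcp, hcr]
  simp only [Function.comp_apply]
  have hk := hJ (d6_enum_mem J k)
  have h1 := d6_rad hD hk
  have h2 := hD.hw _ hk
  have h3 := hD.δ_le
  have h4 := hD.δ_pos
  linarith

theorem d6_far_p {p : ι → ℂ} {r : ι → ℝ} {I : Finset ι} {w : ℂ} {δ A B Θ : ℝ}
    (hD : Dil p r I w δ A B Θ) {J : Finset ι} (hJ : J ⊆ I) {c : Config J.card}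
    (hcp : c.p = p ∘ enum J) (hcr : c.r = r ∘ enum J) {i : ι} (hi : i ∈ I) (hiJ : i ∉ J) :
    p i ∈ Far c := by
  intro k
  rw [hcp, hcr]
  simp only [Function.comp_apply]
  have hk := hJ (d6_enum_mem J k)
  have h1 := d6_rad hD hk
  have h2 := hD.sep i hi _ hk (fun h => hiJ (h ▸ d6_enum_mem J k))
  have h4 := hD.δ_pos
  linarith

theorem dil_config {p : ι → ℂ} {r : ι → ℝ} {I : Finset ι} {w : ℂ} {δ A B Θ : ℝ}
    (hD : Dil p r I w δ A B Θ) {J : Finset ι} (hJ : J ⊆ I) :
    ∃ c : Config J.card, c.p = p ∘ enum J ∧ c.r = r ∘ enum J ∧ w ∈ Far c ∧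
      ∀ i ∈ I, i ∉ J → p i ∈ Far c := by
  let c : Config J.card :=
    { p := p ∘ enum J
      r := r ∘ enum J
      hr := fun i => hD.r_pos _ (hJ (d6_enum_mem J i))
      sep := by
        intro i j hij
        simp only [Function.comp_apply]
        have hi := hJ (d6_enum_mem J i)
        have hj := hJ (d6_enum_mem J j)
        have h1 := d6_rad hD hi
        have h2 := d6_rad hD hj
        have h3 := hD.sep _ hi _ hj fun h => hij (d6_enum_inj J h)
        linarith
      q := 1 / 2
      hq := by norm_num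
      small := by
        intro i
        have hi := hJ (d6_enum_mem J i)
        simp only [Function.comp_apply]
        have h1 : ∑ j ∈ Finset.univ.erase i, 4 * r (enum J i) * r (enum J j)
            / ‖p (enum J i) - p (enum J j)‖ ^ 2
            = ∑ m ∈ J.erase (enum J i), 4 * r (enum J i) * r m / ‖p (enum J i) - p m‖ ^ 2 :=
          d6_enum_sum_erase J i (fun m => 4 * r (enum J i) * r m / ‖p (enum J i) - p m‖ ^ 2)
        rw [h1]
        have h2 : ∑ m ∈ J.erase (enum J i), 4 * r (enum J i) * r m / ‖p (enum J i) - p m‖ ^ 2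
            ≤ 4 * r (enum J i) * sg p r (I.erase (enum J i)) (p (enum J i)) := by
          unfold sg
          rw [Finset.mul_sum]
          have h3 : ∑ m ∈ J.erase (enum J i), 4 * r (enum J i) * r m / ‖p (enum J i) - p m‖ ^ 2
              = ∑ m ∈ J.erase (enum J i),
                4 * r (enum J i) * (r m / ‖p (enum J i) - p m‖ ^ 2) :=
            Finset.sum_congr rfl fun m _ => by ring
          rw [h3]
          refine Finset.sum_le_sum_of_subset_of_nonneg (Finset.erase_subset_erase _ hJ)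
            fun m hm _ => ?_
          have h4 := hD.r_pos _ hi
          have h5 := hD.r_pos m (Finset.mem_of_mem_erase hm)
          positivity
        refine h2.trans ?_
        have h4 := hD.r_pos _ hi
        have h5 := hD.r_le _ hi
        have h6 := hD.theta _ hi
        have h7 := hD.Θ_ge
        have h8 := hD.small2
        calc 4 * r (enum J i) * sg p r (I.erase (enum J i)) (p (enum J i))
            ≤ 4 * r (enum J i) * Θ := mul_le_mul_of_nonneg_left h6 (by linarith)
          _ ≤ 4 * (A * δ ^ 2) * Θ :=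
            mul_le_mul_of_nonneg_right (by linarith) (by linarith)
          _ ≤ 1 / 2 := by linarith }
  exact ⟨c, rfl, rfl, d6_far_w hD hJ rfl rfl, fun i hi hiJ => d6_far_p hD hJ rfl rfl hi hiJ⟩

end Pool.Agent.SV
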