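import Pool.Agent.Helper53.SV.D5
import Pool.Agent.Helper53.SV.D6

/-!
# The discrete kernels of a dilute family are close to the circle kernels (SV-D7a)
-/

set_option autoImplicit false

open Complex Filter Topology Metric
open scoped ComplexConjugate

namespace Pool.Agent.SV

variable {ι : Type*} [DecidableEq ι]

/-- `a` is `w` or a point of `I` outside of `J` -/
theorem d7a_sg_le {p : ι → ℂ} {r : ι → ℝ} {I : Finset ι} {w : ℂ} {δ A B Θ : ℝ}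
    (hD : Dil p r I w δ A B Θ) {J : Finset ι} (hJ : J ⊆ I) {a : ℂ}
    (ha : a = w ∨ ∃ i ∈ I, i ∉ J ∧ a = p i) : sg p r J a ≤ Θ := by
  rcases ha with rfl | ⟨i, hi, hiJ, rfl⟩
  · refine le_trans ?_ hD.thetaw
    unfold sg
    refine Finset.sum_le_sum_of_subset_of_nonneg hJ fun m hm _ => ?_
    have := hD.r_pos m hm
    positivity
  · refine le_trans ?_ (hD.theta i hi)
    unfold sg
    refine Finset.sum_le_sum_of_subset_of_nonneg (fun m hm => ?_) fun m hm _ => ?_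
    · exact Finset.mem_erase.2 ⟨fun h => hiJ (h ▸ hm), hJ hm⟩
    · have := hD.r_pos m (Finset.mem_of_mem_erase hm)
      positivity

theorem d7a_dist {p : ι → ℂ} {r : ι → ℝ} {I : Finset ι} {w : ℂ} {δ A B Θ : ℝ}
    (hD : Dil p r I w δ A B Θ) {J : Finset ι} (hJ : J ⊆ I) {a : ℂ}
    (ha : a = w ∨ ∃ i ∈ I, i ∉ J ∧ a = p i) {m : ι} (hm : m ∈ J) : δ ≤ ‖a - p m‖ := by
  rcases ha with rfl | ⟨i, hi, hiJ, rfl⟩
  · exact hD.δ_le.trans (hD.hw m (hJ hm))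
  · exact hD.sep i hi m (hJ hm) fun h => hiJ (h ▸ hm)

theorem d7a_far {p : ι → ℂ} {r : ι → ℝ} {I : Finset ι} {w : ℂ} {δ A B Θ : ℝ}
    (hD : Dil p r I w δ A B Θ) {J : Finset ι} (hJ : J ⊆ I) {c : Config J.card}
    (hcp : c.p = p ∘ enum J) (hcr : c.r = r ∘ enum J) {a : ℂ}
    (ha : a = w ∨ ∃ i ∈ I, i ∉ J ∧ a = p i) : a ∈ Far c := by
  rcases ha with rfl | ⟨i, hi, hiJ, rfl⟩
  · exact d6_far_w hD hJ hcp hcr
  · exact d6_far_p hD hJ hcp hcr hi hiJ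

/-- the square of the mismatch -/
theorem d7a_mis_sq {p : ι → ℂ} {r : ι → ℝ} {I : Finset ι} {w : ℂ} {δ A B Θ : ℝ}
    (hD : Dil p r I w δ A B Θ) {J : Finset ι} (hJ : J ⊆ I) (c : Config J.card)
    (hcp : c.p = p ∘ enum J) (hcr : c.r = r ∘ enum J) {b : ℂ}
    (hb : b = w ∨ ∃ i ∈ I, i ∉ J ∧ b = p i) (k : Fin J.card) :
    mis c b k ^ 2 ≤ 32 * (A * δ ^ 2) ^ 2 * (Θ ^ 2 / δ ^ 2)
      + 32 * (A * δ ^ 2) ^ 2 / δ ^ 2 * (1 / ‖b - p (enum J k)‖ ^ 2) := by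
  have hkJ := d6_enum_mem J k
  have hδ := hD.δ_pos
  have hΘ := hD.Θ_ge
  have hrk := hD.r_pos _ (hJ hkJ)
  have hrk' := hD.r_le _ (hJ hkJ)
  have hA := hD.A_pos
  have hsgb : sg c.p c.r Finset.univ b ≤ Θ := by
    rw [hcp, hcr, sg_enum]
    exact d7a_sg_le hD hJ hb
  have hsgb0 : 0 ≤ sg c.p c.r Finset.univ b := by
    unfold sg
    exact Finset.sum_nonneg fun m _ => div_nonneg (c.hr m).le (by positivity)
  have hT : ∑ m ∈ Finset.univ.erase k, c.r m / ‖c.p k - c.p m‖ ^ 4 ≤ Θ / δ ^ 2 := by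
    rw [hcp, hcr]
    have e1 : ∑ m ∈ Finset.univ.erase k, (r ∘ enum J) m
        / ‖(p ∘ enum J) k - (p ∘ enum J) m‖ ^ 4
        = ∑ m ∈ J.erase (enum J k), r m / ‖p (enum J k) - p m‖ ^ 4 :=
      d6_enum_sum_erase J k (fun m => r m / ‖p (enum J k) - p m‖ ^ 4)
    rw [e1]
    have e2 : ∑ m ∈ J.erase (enum J k), r m / ‖p (enum J k) - p m‖ ^ 4
        ≤ ∑ m ∈ I.erase (enum J k), r m / ‖p (enum J k) - p m‖ ^ 4 := by
      refine Finset.sum_le_sum_of_subset_of_nonneg (Finset.erase_subset_erase _ hJ)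
        fun m hm _ => ?_
      have := hD.r_pos m (Finset.mem_of_mem_erase hm)
      positivity
    refine e2.trans ?_
    have e3 : ∑ m ∈ I.erase (enum J k), r m / ‖p (enum J k) - p m‖ ^ 4
        ≤ ∑ m ∈ I.erase (enum J k), (r m / ‖p (enum J k) - p m‖ ^ 2) / δ ^ 2 := by
      refine Finset.sum_le_sum fun m hm => ?_
      have h1 := hD.r_pos m (Finset.mem_of_mem_erase hm)
      have h2 := hD.sep _ (hJ hkJ) m (Finset.mem_of_mem_erase hm)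
        (Finset.ne_of_mem_erase hm).symm
      have h3 : 0 < ‖p (enum J k) - p m‖ := by linarith
      rw [div_div]
      refine div_le_div_of_nonneg_left h1.le (by positivity) ?_
      have h4 : δ ^ 2 ≤ ‖p (enum J k) - p m‖ ^ 2 := pow_le_pow_left₀ hδ.le h2 2
      calc ‖p (enum J k) - p m‖ ^ 2 * δ ^ 2
          ≤ ‖p (enum J k) - p m‖ ^ 2 * ‖p (enum J k) - p m‖ ^ 2 :=
            mul_le_mul_of_nonneg_left h4 (by positivity)
        _ = ‖p (enum J k) - p m‖ ^ 4 := by ring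
    refine e3.trans ?_
    rw [← Finset.sum_div]
    exact div_le_div_of_nonneg_right (hD.theta _ (hJ hkJ)) (by positivity)
  have hT0 : 0 ≤ ∑ m ∈ Finset.univ.erase k, c.r m / ‖c.p k - c.p m‖ ^ 4 :=
    Finset.sum_nonneg fun m _ => div_nonneg (c.hr m).le (by positivity)
  have hck : c.r k = r (enum J k) := by rw [hcr]; rfl
  have hpk : ‖c.p k - b‖ = ‖b - p (enum J k)‖ := by rw [hcp, norm_sub_rev]; rfl
  have hdb := d7a_dist hD hJ hb hkJ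
  have hdb0 : 0 < ‖b - p (enum J k)‖ := by linarith
  unfold mis
  rw [hck, hpk]
  set d := ‖b - p (enum J k)‖ with hd
  set u := 4 * r (enum J k) * Real.sqrt (sg c.p c.r Finset.univ b)
      * Real.sqrt (∑ m ∈ Finset.univ.erase k, c.r m / ‖c.p k - c.p m‖ ^ 4) with hu
  have h1 : (u + 4 * r (enum J k) / d ^ 2) ^ 2 ≤ 2 * u ^ 2 + 2 * (4 * r (enum J k) / d ^ 2) ^ 2 := by
    nlinarith [sq_nonneg (u - 4 * r (enum J k) / d ^ 2)]
  have hr2 : r (enum J k) ^ 2 ≤ (A * δ ^ 2) ^ 2 := pow_le_pow_left₀ hrk.le hrk' 2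
  have h2 : u ^ 2 ≤ 16 * (A * δ ^ 2) ^ 2 * (Θ ^ 2 / δ ^ 2) := by
    rw [hu, mul_pow, mul_pow, Real.sq_sqrt hsgb0, Real.sq_sqrt hT0]
    calc (4 * r (enum J k)) ^ 2 * sg c.p c.r Finset.univ b
          * ∑ m ∈ Finset.univ.erase k, c.r m / ‖c.p k - c.p m‖ ^ 4
        ≤ (16 * (A * δ ^ 2) ^ 2) * Θ * (Θ / δ ^ 2) := by
          refine mul_le_mul (mul_le_mul ?_ hsgb hsgb0 (by positivity)) hT hT0 (by positivity)
          rw [mul_pow]
          linarith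
      _ = 16 * (A * δ ^ 2) ^ 2 * (Θ ^ 2 / δ ^ 2) := by ring
  have h3 : (4 * r (enum J k) / d ^ 2) ^ 2 ≤ 16 * (A * δ ^ 2) ^ 2 / δ ^ 2 * (1 / d ^ 2) := by
    have e1 : (4 * r (enum J k) / d ^ 2) ^ 2 = 16 * r (enum J k) ^ 2 * (1 / d ^ 2 * (1 / d ^ 2)) := by
      field_simp
      norm_num
    have e2 : 1 / d ^ 2 ≤ 1 / δ ^ 2 :=
      one_div_le_one_div_of_le (by positivity) (pow_le_pow_left₀ hδ.le hdb 2)
    rw [e1]
    calc 16 * r (enum J k) ^ 2 * (1 / d ^ 2 * (1 / d ^ 2))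
        ≤ 16 * (A * δ ^ 2) ^ 2 * (1 / δ ^ 2 * (1 / d ^ 2)) := by
          refine mul_le_mul (by linarith) (mul_le_mul_of_nonneg_right e2 (by positivity))
            (by positivity) (by positivity)
      _ = 16 * (A * δ ^ 2) ^ 2 / δ ^ 2 * (1 / d ^ 2) := by ring
  calc (u + 4 * r (enum J k) / d ^ 2) ^ 2
      ≤ 2 * u ^ 2 + 2 * (4 * r (enum J k) / d ^ 2) ^ 2 := h1
    _ ≤ 2 * (16 * (A * δ ^ 2) ^ 2 * (Θ ^ 2 / δ ^ 2))
        + 2 * (16 * (A * δ ^ 2) ^ 2 / δ ^ 2 * (1 / d ^ 2)) := by linarith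
    _ = _ := by ring

theorem d7a_err {p : ι → ℂ} {r : ι → ℝ} {I : Finset ι} {w : ℂ} {δ A B Θ : ℝ}
    (hD : Dil p r I w δ A B Θ) {J : Finset ι} (hJ : J ⊆ I) (c : Config J.card)
    (hcp : c.p = p ∘ enum J) (hcr : c.r = r ∘ enum J) {b : ℂ}
    (hb : b = w ∨ ∃ i ∈ I, i ∉ J ∧ b = p i) :
    ∑ k, c.r k * mis c b k ^ 2 ≤ 32 * A ^ 2 * (B + 1) * Θ ^ 2 * δ ^ 2 := by
  have hδ := hD.δ_pos
  have hΘ := hD.Θ_ge
  have hA := hD.A_pos
  have hB := hD.B_pos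
  have h1 : ∑ k, c.r k * mis c b k ^ 2 ≤ ∑ k, (r (enum J k) * (32 * A ^ 2 * Θ ^ 2 * δ ^ 2)
      + 32 * A ^ 2 * δ ^ 2 * (r (enum J k) / ‖b - p (enum J k)‖ ^ 2)) := by
    refine Finset.sum_le_sum fun k _ => ?_
    have hck : c.r k = r (enum J k) := by rw [hcr]; rfl
    have hrk := hD.r_pos _ (hJ (d6_enum_mem J k))
    rw [hck]
    refine (mul_le_mul_of_nonneg_left (d7a_mis_sq hD hJ c hcp hcr hb k) hrk.le).trans (le_of_eq ?_)
    field_simp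
  refine h1.trans ?_
  rw [Finset.sum_add_distrib, ← Finset.sum_mul, ← Finset.mul_sum]
  have h2 : ∑ k, r (enum J k) ≤ B := by
    rw [d6_enum_sum J r]
    refine le_trans ?_ hD.sum
    exact Finset.sum_le_sum_of_subset_of_nonneg hJ fun m hm _ => (hD.r_pos m hm).le
  have h3 : ∑ k, r (enum J k) / ‖b - p (enum J k)‖ ^ 2 ≤ Θ := by
    rw [d6_enum_sum J (fun m => r m / ‖b - p m‖ ^ 2)]
    exact d7a_sg_le hD hJ hb
  have h4 : Θ ≤ Θ ^ 2 := by nlinarith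
  calc (∑ k, r (enum J k)) * (32 * A ^ 2 * Θ ^ 2 * δ ^ 2)
        + 32 * A ^ 2 * δ ^ 2 * ∑ k, r (enum J k) / ‖b - p (enum J k)‖ ^ 2
      ≤ B * (32 * A ^ 2 * Θ ^ 2 * δ ^ 2) + 32 * A ^ 2 * δ ^ 2 * Θ ^ 2 := by
        refine add_le_add (mul_le_mul_of_nonneg_right h2 (by positivity))
          (mul_le_mul_of_nonneg_left (h3.trans h4) (by positivity))
    _ = 32 * A ^ 2 * (B + 1) * Θ ^ 2 * δ ^ 2 := by ring

/-- comparison for a dilute family; `a, b` are `w` or points of `I \ J` -/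
theorem dil_compare {p : ι → ℂ} {r : ι → ℝ} {I : Finset ι} {w : ℂ} {δ A B Θ : ℝ}
    (hD : Dil p r I w δ A B Θ) {J : Finset ι} (hJ : J ⊆ I) (c : Config J.card)
    (hcp : c.p = p ∘ enum J) (hcr : c.r = r ∘ enum J) {a b : ℂ}
    (ha : a = w ∨ ∃ i ∈ I, i ∉ J ∧ a = p i) (hb : b = w ∨ ∃ i ∈ I, i ∉ J ∧ b = p i)
    {Sa la Sb lb : ℂ → ℂ} (hKa : IsKer c 0 a Sa la) (hKb : IsKer c 0 b Sb lb) :
    ‖Sb a - dS p r J a b‖ ≤ 50 * A * (B + 1) * Θ ^ 2 * δ ∧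
      ‖Lf b lb a - dL p r J a b‖ ≤ 50 * A * (B + 1) * Θ ^ 2 * δ := by
  have hδ := hD.δ_pos
  have hΘ := hD.Θ_ge
  have hA := hD.A_pos
  have hB := hD.B_pos
  have hfa := d7a_far hD hJ hcp hcr ha
  have hfb := d7a_far hD hJ hcp hcr hb
  have hp : ∀ i ∈ J, ∀ j ∈ J, i ≠ j → p i ≠ p j := by
    intro i hi j hj hij h
    have h1 := hD.sep i (hJ hi) j (hJ hj) hij
    rw [h, sub_self, norm_zero] at h1
    linarith
  have hr : ∀ i ∈ J, 0 < r i := fun i hi => hD.r_pos i (hJ hi)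
  have hcc := circ_compare c hfa hfb hKa hKb
  rw [hcp, hcr, (dS_enum hp hr a b).1, (dS_enum hp hr a b).2, sg_enum] at hcc
  have herr := d7a_err hD hJ c hcp hcr hb
  have hsga := d7a_sg_le hD hJ ha
  have hsga0 : 0 ≤ sg p r J a := by
    unfold sg
    exact Finset.sum_nonneg fun m hm => div_nonneg (hr m hm).le (by positivity)
  have he0 : 0 ≤ 32 * A ^ 2 * (B + 1) * Θ ^ 2 * δ ^ 2 := by positivity
  have hkey : ∀ (C : ℝ), 0 ≤ C → C ≤ 16 → ∀ x : ℝ, 0 ≤ x →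
      x ^ 2 ≤ C * sg p r J a * ∑ k, (r ∘ enum J) k * mis c b k ^ 2 →
      x ≤ 50 * A * (B + 1) * Θ ^ 2 * δ := by
    intro C hC hC16 x hx h
    have herr' : ∑ k, (r ∘ enum J) k * mis c b k ^ 2 ≤ 32 * A ^ 2 * (B + 1) * Θ ^ 2 * δ ^ 2 := by
      rw [← hcr]; exact herr
    have h1 : x ^ 2 ≤ 16 * Θ * (32 * A ^ 2 * (B + 1) * Θ ^ 2 * δ ^ 2) := by
      refine h.trans ?_
      refine (mul_le_mul_of_nonneg_left herr' (mul_nonneg hC hsga0)).trans ?_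
      refine mul_le_mul_of_nonneg_right ?_ he0
      exact mul_le_mul hC16 hsga hsga0 (by norm_num)
    have h2 : 16 * Θ * (32 * A ^ 2 * (B + 1) * Θ ^ 2 * δ ^ 2)
        ≤ (50 * A * (B + 1) * Θ ^ 2 * δ) ^ 2 := by
      have e1 : (50 * A * (B + 1) * Θ ^ 2 * δ) ^ 2
          = 2500 * (B + 1) * Θ * (A ^ 2 * (B + 1) * Θ ^ 3 * δ ^ 2) := by ring
      have e2 : 16 * Θ * (32 * A ^ 2 * (B + 1) * Θ ^ 2 * δ ^ 2)
          = 512 * (A ^ 2 * (B + 1) * Θ ^ 3 * δ ^ 2) := by ring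
      rw [e1, e2]
      refine mul_le_mul_of_nonneg_right ?_ (by positivity)
      nlinarith
    exact le_of_sq_le_sq (h1.trans h2) (by positivity)
  exact ⟨hkey 4 (by norm_num) (by norm_num) _ (norm_nonneg _) hcc.1,
    hkey 16 (by norm_num) le_rfl _ (norm_nonneg _) hcc.2⟩

end Pool.Agent.SV
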