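import Pool.Agent.Helper53.SV.D2
import Pool.Agent.Helper53.SV.D6
import Pool.Agent.Helper53.SV.D7a

/-!
# D7b: the second variation of the discrete model of a dilute family is almost nonpositive
-/

set_option autoImplicit false

open Complex Filter Topology Metric
open scoped ComplexConjugate

namespace Pool.Agent.SV

/-- existence of kernels with nonpositive second variation (this is `P1_main`) -/
def P1Stmt : Prop := ∀ (N : ℕ) (c : Config N), ∃ S l : ℂ → ℂ → ℂ,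
    (∀ w ∈ Far c, IsKer c 0 w (S w) (l w)) ∧
    (∀ a ∈ Far c, ∀ b ∈ Far c, a ≠ b → ‖S b a‖ < ‖Lf b (l b) a‖) ∧
    (∀ a ∈ Far c, ∀ b ∈ Far c, ∀ w ∈ Far c, a ≠ b → a ≠ w → b ≠ w →
      D2 (S b a) (S w a) (S w b) (Lf b (l b) a) (Lf w (l w) a) (Lf w (l w) b) ≤ 0)

/-- difference of products of three numbers -/
theorem d7b_prod3 {x y z x' y' z' : ℂ} {E P Q : ℝ} (hE : 0 ≤ E) (hQ : P ≤ Q)
    (hx : ‖x‖ ≤ P) (hy' : ‖y'‖ ≤ P) (hx' : ‖x'‖ ≤ P) (hy : ‖y‖ ≤ P) (hz : ‖z‖ ≤ Q)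
    (ex : ‖x - x'‖ ≤ E) (ey : ‖y - y'‖ ≤ E) (ez : ‖z - z'‖ ≤ E) :
    ‖x * y * z - x' * y' * z'‖ ≤ 3 * E * P * Q := by
  have hP : 0 ≤ P := (norm_nonneg _).trans hx
  have h : x * y * z - x' * y' * z'
      = (x - x') * y * z + x' * (y - y') * z + x' * y' * (z - z') := by ring
  rw [h]
  have h1 : ‖(x - x') * y * z‖ ≤ E * P * Q := by
    rw [norm_mul, norm_mul]
    gcongr
  have h2 : ‖x' * (y - y') * z‖ ≤ P * E * Q := by
    rw [norm_mul, norm_mul]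
    gcongr
  have h3 : ‖x' * y' * (z - z')‖ ≤ P * P * E := by
    rw [norm_mul, norm_mul]
    gcongr
  have h4 : P * P * E ≤ E * P * Q := by
    have : P * E * P ≤ P * E * Q := mul_le_mul_of_nonneg_left hQ (mul_nonneg hP hE)
    nlinarith
  calc _ ≤ ‖(x - x') * y * z‖ + ‖x' * (y - y') * z‖ + ‖x' * y' * (z - z')‖ :=
        norm_add₃_le
    _ ≤ E * P * Q + P * E * Q + E * P * Q := by linarith
    _ = _ := by ring

/-- stability of the expression `D2` -/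
theorem d7b_stab {k1 k2 k3 l1 l2 l3 k1' k2' k3' l1' l2' l3' : ℂ} {E P Q : ℝ} (hE : 0 ≤ E)
    (hQ : P ≤ Q) (hk1 : ‖k1‖ ≤ P) (hk2 : ‖k2‖ ≤ P) (hk3 : ‖k3‖ ≤ P) (hl1 : ‖l1‖ ≤ P)
    (hl2 : ‖l2‖ ≤ P) (hl3 : ‖l3‖ ≤ Q) (hk1' : ‖k1'‖ ≤ P) (hk2' : ‖k2'‖ ≤ P)
    (hl1' : ‖l1'‖ ≤ P) (hl2' : ‖l2'‖ ≤ P)
    (e1 : ‖k1 - k1'‖ ≤ E) (e2 : ‖k2 - k2'‖ ≤ E) (e3 : ‖k3 - k3'‖ ≤ E) (f1 : ‖l1 - l1'‖ ≤ E)
    (f2 : ‖l2 - l2'‖ ≤ E) (f3 : ‖l3 - l3'‖ ≤ E) :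
    D2 k1 k2 k3 l1 l2 l3 ≤ D2 k1' k2' k3' l1' l2' l3' + 12 * E * P * Q := by
  have cj : ∀ x y : ℂ, ‖x - y‖ ≤ E → ‖conj x - conj y‖ ≤ E := by
    intro x y h
    rw [← map_sub, Complex.norm_conj]
    exact h
  have cn : ∀ (x : ℂ) (t : ℝ), ‖x‖ ≤ t → ‖conj x‖ ≤ t := by
    intro x t h
    rw [Complex.norm_conj]
    exact h
  have t1 := d7b_prod3 hE hQ hl1 (cn _ _ hk2') hl1' (cn _ _ hk2) (cn _ _ hl3) f1 (cj _ _ e2)
    (cj _ _ f3)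
  have t2 := d7b_prod3 hE hQ (cn _ _ hk1) hl2' (cn _ _ hk1') hl2 (cn _ _ hl3) (cj _ _ e1) f2
    (cj _ _ f3)
  have t3 := d7b_prod3 hE hQ hl1 (cn _ _ hl2') hl1' (cn _ _ hl2) (cn _ _ (hk3.trans hQ)) f1
    (cj _ _ f2) (cj _ _ e3)
  have t4 := d7b_prod3 hE hQ (cn _ _ hk1) hk2' (cn _ _ hk1') hk2 (cn _ _ (hk3.trans hQ))
    (cj _ _ e1) e2 (cj _ _ e3)
  have r1 := (re_le_norm _).trans t1
  have r2 := (re_le_norm _).trans ((norm_sub_rev _ _).le.trans t2)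
  have r3 := (re_le_norm _).trans ((norm_sub_rev _ _).le.trans t3)
  have r4 := (re_le_norm _).trans t4
  have h : D2 k1 k2 k3 l1 l2 l3 - D2 k1' k2' k3' l1' l2' l3'
      = (l1 * conj k2 * conj l3 - l1' * conj k2' * conj l3').re
        + (conj k1' * l2' * conj l3' - conj k1 * l2 * conj l3).re
        + (l1' * conj l2' * conj k3' - l1 * conj l2 * conj k3).re
        + (conj k1 * k2 * conj k3 - conj k1' * k2' * conj k3').re := by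
    unfold D2
    rw [← sub_re, ← add_re, ← add_re, ← add_re]
    congr 1
    ring
  linarith

section

variable {ι : Type*} [DecidableEq ι]

omit [DecidableEq ι] in
theorem d7b_sg_mono {p : ι → ℂ} {r : ι → ℝ} {J I : Finset ι} (hJ : J ⊆ I)
    (hr : ∀ i ∈ I, 0 < r i) (a : ℂ) : sg p r J a ≤ sg p r I a := by
  unfold sg
  refine Finset.sum_le_sum_of_subset_of_nonneg hJ fun i hi _ => ?_
  have := hr i hi
  positivity

theorem dil_D2 (hP1 : P1Stmt) : ∃ C : ℝ → ℝ → ℝ, (∀ A B, 0 ≤ C A B) ∧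
    ∀ (p : ι → ℂ) (r : ι → ℝ) (I : Finset ι) (w : ℂ) (δ A B Θ : ℝ),
      Dil p r I w δ A B Θ → ∀ J ⊆ I, ∀ i ∈ I, ∀ j ∈ I, i ∉ J → j ∉ J → i ≠ j →
      D2 (dS p r J w (p i)) (dS p r J w (p j)) (dS p r J (p i) (p j))
          (dL p r J w (p i)) (dL p r J w (p j)) (dL p r J (p i) (p j))
        ≤ C A B * Θ ^ 6 * δ * (1 + 1 / ‖p i - p j‖) := by
  refine ⟨fun A B => 600 * |A| * (|B| + 1) * (|B| + 3) ^ 2, fun A B => by positivity, ?_⟩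
  intro p r I w δ A B Θ hD J hJ i hi j hj hiJ hjJ hij
  have hA := hD.A_pos
  have hB := hD.B_pos
  have hδ := hD.δ_pos
  have hΘ := hD.Θ_ge
  obtain ⟨c, hcp, hcr, hwF, hF⟩ := dil_config hD hJ
  obtain ⟨S, l, hK, -, hD2⟩ := hP1 _ c
  -- the points are different
  have hpp : ∀ x ∈ I, ∀ y ∈ I, x ≠ y → p x ≠ p y := by
    intro x hx y hy hxy h
    have h1 := hD.sep x hx y hy hxy
    rw [h, sub_self, norm_zero] at h1
    linarith
  have hwp : ∀ x ∈ I, w ≠ p x := by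
    intro x hx h
    have h1 := hD.hw x hx
    rw [h, sub_self, norm_zero] at h1
    linarith
  have hp : ∀ x ∈ J, ∀ y ∈ J, x ≠ y → p x ≠ p y := fun x hx y hy => hpp x (hJ hx) y (hJ hy)
  have hr : ∀ x ∈ J, 0 < r x := fun x hx => hD.r_pos x (hJ hx)
  have hwJ : ∀ x ∈ J, w ≠ p x := fun x hx => hwp x (hJ hx)
  have hne : ∀ y ∈ I, y ∉ J → ∀ x ∈ J, p y ≠ p x := by
    intro y hy hyJ x hx
    refine hpp y hy x (hJ hx) fun h => hyJ ?_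
    rwa [h]
  -- the bounds of the sums
  have sgw : sg p r J w ≤ Θ := (d7b_sg_mono hJ hD.r_pos w).trans hD.thetaw
  have sgp : ∀ y ∈ I, y ∉ J → sg p r J (p y) ≤ Θ := by
    intro y hy hyJ
    refine le_trans (d7b_sg_mono (I := I.erase y) ?_ ?_ _) (hD.theta y hy)
    · intro x hx
      exact Finset.mem_erase.2 ⟨fun h => hyJ (h ▸ hx), hJ hx⟩
    · exact fun x hx => hD.r_pos x (Finset.mem_of_mem_erase hx)
  have sg0 : ∀ a, 0 ≤ sg p r J a := by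
    intro a
    unfold sg
    refine Finset.sum_nonneg fun x hx => ?_
    have := hr x hx
    positivity
  have key : ∀ (x : ℂ) (s t : ℝ), 0 ≤ s → 0 ≤ t → s ≤ Θ → t ≤ Θ → ‖x‖ ^ 2 ≤ s * t → ‖x‖ ≤ Θ := by
    intro x s t hs ht h1 h2 h3
    have h4 : s * t ≤ Θ * Θ := mul_le_mul h1 h2 ht (by linarith)
    have h5 : ‖x‖ ^ 2 ≤ Θ ^ 2 := by nlinarith
    exact (sq_le_sq₀ (norm_nonneg _) (by linarith)).1 h5
  set E : ℝ := 50 * A * (B + 1) * Θ ^ 2 * δ with hE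
  have hE0 : 0 ≤ E := by positivity
  have hEle : E ≤ (B + 1) * Θ ^ 2 := by
    have h1 := hD.small1
    have h2 : 50 * A * δ ≤ 1 := by nlinarith [mul_pos hA hδ]
    have h3 : E = (B + 1) * Θ ^ 2 * (50 * A * δ) := by rw [hE]; ring
    rw [h3]
    exact mul_le_of_le_one_right (by positivity) h2
  -- the discrete values
  have hΘ2 : Θ ≤ Θ ^ 2 := by nlinarith
  have kS : ∀ a b : ℂ, (∀ x ∈ J, a ≠ p x) → (∀ x ∈ J, b ≠ p x) → sg p r J a ≤ Θ →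
      sg p r J b ≤ Θ → ‖dS p r J a b‖ ≤ Θ := fun a b ha hb h1 h2 =>
    key _ _ _ (sg0 a) (sg0 b) h1 h2 (dS_bound hp hr ha hb)
  have kL : ∀ a b : ℂ, (∀ x ∈ J, a ≠ p x) → (∀ x ∈ J, b ≠ p x) → sg p r J a ≤ Θ →
      sg p r J b ≤ Θ → ‖dL p r J a b‖ ≤ ‖a - b‖⁻¹ + Θ := by
    intro a b ha hb h1 h2
    have h3 := key _ _ _ (sg0 a) (sg0 b) h1 h2 (dL_bound hp hr ha hb)
    have h4 : dL p r J a b = (a - b)⁻¹ + (dL p r J a b - (a - b)⁻¹) := by ring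
    rw [h4]
    refine (norm_add_le _ _).trans ?_
    rw [norm_inv]
    linarith
  have hwi : ‖w - p i‖⁻¹ ≤ 1 := inv_le_one_of_one_le₀ (hD.hw i hi)
  have hwj : ‖w - p j‖⁻¹ ≤ 1 := inv_le_one_of_one_le₀ (hD.hw j hj)
  have hiw : ∀ x ∈ J, p i ≠ p x := hne i hi hiJ
  have hjw : ∀ x ∈ J, p j ≠ p x := hne j hj hjJ
  have si := sgp i hi hiJ
  have sj := sgp j hj hjJ
  have b1 := kS w (p i) hwJ hiw sgw si
  have b2 := kS w (p j) hwJ hjw sgw sj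
  have b3 := kS (p i) (p j) hiw hjw si sj
  have c1 := kL w (p i) hwJ hiw sgw si
  have c2 := kL w (p j) hwJ hjw sgw sj
  have c3 := kL (p i) (p j) hiw hjw si sj
  -- comparison
  have ei := dil_compare hD hJ c hcp hcr (a := w) (b := p i) (Or.inl rfl)
    (Or.inr ⟨i, hi, hiJ, rfl⟩) (hK w hwF) (hK (p i) (hF i hi hiJ))
  have ej := dil_compare hD hJ c hcp hcr (a := w) (b := p j) (Or.inl rfl)
    (Or.inr ⟨j, hj, hjJ, rfl⟩) (hK w hwF) (hK (p j) (hF j hj hjJ))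
  have eij := dil_compare hD hJ c hcp hcr (a := p i) (b := p j) (Or.inr ⟨i, hi, hiJ, rfl⟩)
    (Or.inr ⟨j, hj, hjJ, rfl⟩) (hK (p i) (hF i hi hiJ)) (hK (p j) (hF j hj hjJ))
  rw [← hE] at ei ej eij
  have hneg := hD2 w hwF (p i) (hF i hi hiJ) (p j) (hF j hj hjJ) (hwp i hi) (hwp j hj)
    (hpp i hi j hj hij)
  set ρ : ℝ := ‖p i - p j‖⁻¹ with hρ
  have hρ0 : 0 ≤ ρ := by positivity
  set P : ℝ := (B + 3) * Θ ^ 2 with hP
  set Q : ℝ := (B + 3) * Θ ^ 2 * (1 + ρ) with hQ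
  have hPQ : P ≤ Q := by
    rw [hP, hQ]
    exact le_mul_of_one_le_right (by positivity) (by linarith)
  have hP1 : 1 + Θ + E ≤ P := by
    rw [hP]
    nlinarith
  have hQ1 : ρ + Θ ≤ Q := by
    rw [hQ]
    have h1 : 1 ≤ (B + 3) * Θ ^ 2 := by nlinarith
    have h2 : ρ * 1 ≤ ρ * ((B + 3) * Θ ^ 2) := mul_le_mul_of_nonneg_left h1 hρ0
    nlinarith
  have tri : ∀ x y : ℂ, ‖x - y‖ ≤ E → ∀ t, ‖y‖ ≤ t → ‖x‖ ≤ t + E := by
    intro x y h t ht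
    have : x = y + (x - y) := by ring
    rw [this]
    exact (norm_add_le _ _).trans (by linarith)
  have rv : ∀ x y : ℂ, ‖x - y‖ ≤ E → ‖y - x‖ ≤ E := by
    intro x y h
    rwa [norm_sub_rev]
  have hst := d7b_stab (k1 := dS p r J w (p i)) (k2 := dS p r J w (p j))
    (k3 := dS p r J (p i) (p j)) (l1 := dL p r J w (p i)) (l2 := dL p r J w (p j))
    (l3 := dL p r J (p i) (p j)) (k1' := S (p i) w) (k2' := S (p j) w) (k3' := S (p j) (p i))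
    (l1' := Lf (p i) (l (p i)) w) (l2' := Lf (p j) (l (p j)) w)
    (l3' := Lf (p j) (l (p j)) (p i)) hE0 hPQ (by linarith) (by linarith) (by linarith)
    (by linarith) (by linarith) (by linarith)
    ((tri _ _ ei.1 _ b1).trans (by linarith)) ((tri _ _ ej.1 _ b2).trans (by linarith))
    ((tri _ _ ei.2 _ c1).trans (by linarith)) ((tri _ _ ej.2 _ c2).trans (by linarith))
    (rv _ _ ei.1) (rv _ _ ej.1) (rv _ _ eij.1) (rv _ _ ei.2) (rv _ _ ej.2) (rv _ _ eij.2)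
  have hfin : 12 * E * P * Q
      = 600 * |A| * (|B| + 1) * (|B| + 3) ^ 2 * Θ ^ 6 * δ * (1 + 1 / ‖p i - p j‖) := by
    rw [abs_of_pos hA, abs_of_pos hB, hQ, hP, hE, hρ, one_div]
    ring
  linarith

end

end Pool.Agent.SV
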