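import Pool.Agent.Helper53.SV.D3

/-!
# D4: second differences of the discrete kernel
-/

set_option autoImplicit false

open Complex Filter Topology Metric
open scoped ComplexConjugate

namespace Pool.Agent.SV

variable {ι : Type*} [DecidableEq ι]

theorem kap_bounds {p : ι → ℂ} {r : ι → ℝ} {J : Finset ι} {i : ι} (hi : i ∉ J)
    (hp : ∀ x ∈ insert i J, ∀ y ∈ insert i J, x ≠ y → p x ≠ p y)
    (hr : ∀ x ∈ insert i J, 0 < r x) : 0 < kap p r J i ∧ kap p r J i ≤ r i := by
  have hpJ : ∀ x ∈ J, ∀ y ∈ J, x ≠ y → p x ≠ p y := fun x hx y hy =>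
    hp x (Finset.mem_insert_of_mem hx) y (Finset.mem_insert_of_mem hy)
  have hrJ : ∀ x ∈ J, 0 < r x := fun x hx => hr x (Finset.mem_insert_of_mem hx)
  have hri : 0 < r i := hr i (Finset.mem_insert_self _ _)
  have hpi : ∀ x ∈ J, p i ≠ p x := fun x hx => hp i (Finset.mem_insert_self _ _) x
    (Finset.mem_insert_of_mem hx) (fun h => hi (h ▸ hx))
  have hS0 := (dS_diag_le hpJ hrJ hpi).1
  have h1 : 1 ≤ 1 + r i * (dS p r J (p i) (p i)).re := by
    have := mul_nonneg hri.le hS0
    linarith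
  unfold kap
  exact ⟨div_pos hri (by linarith), div_le_self hri.le h1⟩

theorem dSw_insert {p : ι → ℂ} {r : ι → ℝ} {J : Finset ι} {i : ι} {w : ℂ} (hi : i ∉ J)
    (hp : ∀ x ∈ insert i J, ∀ y ∈ insert i J, x ≠ y → p x ≠ p y)
    (hr : ∀ x ∈ insert i J, 0 < r x) (hw : ∀ x ∈ insert i J, w ≠ p x) :
    (dS p r (insert i J) w w).re = (dS p r J w w).re + kap p r J i * dD p r J (p i) w := by
  have hpJ : ∀ x ∈ J, ∀ y ∈ J, x ≠ y → p x ≠ p y := fun x hx y hy =>
    hp x (Finset.mem_insert_of_mem hx) y (Finset.mem_insert_of_mem hy)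
  have hrJ : ∀ x ∈ J, 0 < r x := fun x hx => hr x (Finset.mem_insert_of_mem hx)
  have hpi : ∀ x ∈ J, p i ≠ p x := fun x hx => hp i (Finset.mem_insert_self _ _) x
    (Finset.mem_insert_of_mem hx) (fun h => hi (h ▸ hx))
  have hwJ : ∀ x ∈ J, w ≠ p x := fun x hx => hw x (Finset.mem_insert_of_mem hx)
  rw [dS_insert hi hp hr hw hw]
  have h1 : dS p r J w (p i) = conj (dS p r J (p i) w) := dS_herm hpJ hrJ hwJ hpi
  have h2 : dL p r J w (p i) = - dL p r J (p i) w := dL_antisymm hpJ hrJ hpi hwJ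
  rw [h1, h2]
  unfold dD
  rw [Complex.sq_norm, Complex.sq_norm, Complex.normSq_apply, Complex.normSq_apply]
  simp only [Complex.sub_re, Complex.mul_re, Complex.ofReal_re, Complex.ofReal_im, Complex.conj_re,
    Complex.conj_im, Complex.neg_re, Complex.neg_im, map_neg, Complex.sub_im, Complex.mul_im]
  ring

theorem dD_insert {p : ι → ℂ} {r : ι → ℝ} {J : Finset ι} {i j : ι} {w : ℂ} (hi : i ∉ J)
    (hj : j ∉ J) (hij : i ≠ j)
    (hp : ∀ x ∈ insert i (insert j J), ∀ y ∈ insert i (insert j J), x ≠ y → p x ≠ p y)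
    (hr : ∀ x ∈ insert i (insert j J), 0 < r x)
    (hw : ∀ x ∈ insert i (insert j J), w ≠ p x) :
    dD p r (insert j J) (p i) w = dD p r J (p i) w
      + kap p r J j * (2 * D2 (dS p r J w (p i)) (dS p r J w (p j)) (dS p r J (p i) (p j))
          (dL p r J w (p i)) (dL p r J w (p j)) (dL p r J (p i) (p j)))
      - kap p r J j ^ 2 * dD p r J (p i) (p j) * dD p r J (p j) w := by
  have hpj : ∀ x ∈ insert j J, ∀ y ∈ insert j J, x ≠ y → p x ≠ p y := fun x hx y hy =>
    hp x (Finset.mem_insert_of_mem hx) y (Finset.mem_insert_of_mem hy)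
  have hrj : ∀ x ∈ insert j J, 0 < r x := fun x hx => hr x (Finset.mem_insert_of_mem hx)
  have hwj : ∀ x ∈ insert j J, w ≠ p x := fun x hx => hw x (Finset.mem_insert_of_mem hx)
  have hpJ : ∀ x ∈ J, ∀ y ∈ J, x ≠ y → p x ≠ p y := fun x hx y hy =>
    hpj x (Finset.mem_insert_of_mem hx) y (Finset.mem_insert_of_mem hy)
  have hrJ : ∀ x ∈ J, 0 < r x := fun x hx => hrj x (Finset.mem_insert_of_mem hx)
  have hwJ : ∀ x ∈ J, w ≠ p x := fun x hx => hwj x (Finset.mem_insert_of_mem hx)
  have hpij : ∀ x ∈ insert j J, p i ≠ p x := fun x hx => hp i (Finset.mem_insert_self _ _) x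
    (Finset.mem_insert_of_mem hx) (fun h => by
      rw [← h] at hx
      rcases Finset.mem_insert.mp hx with h' | h'
      · exact hij h'
      · exact hi h')
  have hpiJ : ∀ x ∈ J, p i ≠ p x := fun x hx => hpij x (Finset.mem_insert_of_mem hx)
  have hpjJ : ∀ x ∈ J, p j ≠ p x := fun x hx => hpj j (Finset.mem_insert_self _ _) x
    (Finset.mem_insert_of_mem hx) (fun h => hj (h ▸ hx))
  unfold dD
  rw [dS_insert hj hpj hrj hpij hwj, dL_insert hj hpj hrj hpij hwj]
  have h1 : dS p r J (p i) w = conj (dS p r J w (p i)) := dS_herm hpJ hrJ hpiJ hwJ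
  have h2 : dS p r J (p j) w = conj (dS p r J w (p j)) := dS_herm hpJ hrJ hpjJ hwJ
  have h3 : dL p r J (p i) w = - dL p r J w (p i) := dL_antisymm hpJ hrJ hwJ hpiJ
  have h4 : dL p r J (p j) w = - dL p r J w (p j) := dL_antisymm hpJ hrJ hwJ hpjJ
  rw [h1, h2, h3, h4]
  generalize dS p r J w (p i) = A
  generalize dS p r J w (p j) = B
  generalize dS p r J (p i) (p j) = C
  generalize dL p r J w (p i) = X
  generalize dL p r J w (p j) = Y
  generalize dL p r J (p i) (p j) = Z
  generalize kap p r J j = k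
  unfold D2
  simp only [Complex.sq_norm, Complex.normSq_apply]
  simp only [Complex.sub_re, Complex.mul_re, Complex.ofReal_re, Complex.ofReal_im, Complex.conj_re,
    Complex.conj_im, Complex.neg_re, Complex.neg_im, map_neg, Complex.sub_im, Complex.mul_im]
  ring

theorem second_diff {p : ι → ℂ} {r : ι → ℝ} {J : Finset ι} {i j : ι} {w : ℂ} (hi : i ∉ J)
    (hj : j ∉ J) (hij : i ≠ j)
    (hp : ∀ x ∈ insert i (insert j J), ∀ y ∈ insert i (insert j J), x ≠ y → p x ≠ p y)
    (hr : ∀ x ∈ insert i (insert j J), 0 < r x)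
    (hw : ∀ x ∈ insert i (insert j J), w ≠ p x) :
    ((dS p r (insert i (insert j J)) w w).re - (dS p r (insert j J) w w).re)
      - ((dS p r (insert i J) w w).re - (dS p r J w w).re)
    ≤ r i * r j * (2 * max 0 (D2 (dS p r J w (p i)) (dS p r J w (p j)) (dS p r J (p i) (p j))
          (dL p r J w (p i)) (dL p r J w (p j)) (dL p r J (p i) (p j))))
      + r i * r j ^ 2 * |dD p r J (p i) (p j)| * |dD p r J (p j) w|
      + r i ^ 2 * r j * |dD p r J (p i) (p j)| * |dD p r J (p i) w| := by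
  have hpj : ∀ x ∈ insert j J, ∀ y ∈ insert j J, x ≠ y → p x ≠ p y := fun x hx y hy =>
    hp x (Finset.mem_insert_of_mem hx) y (Finset.mem_insert_of_mem hy)
  have hrj : ∀ x ∈ insert j J, 0 < r x := fun x hx => hr x (Finset.mem_insert_of_mem hx)
  have hwj : ∀ x ∈ insert j J, w ≠ p x := fun x hx => hw x (Finset.mem_insert_of_mem hx)
  have hsub : insert i J ⊆ insert i (insert j J) :=
    Finset.insert_subset_insert i (Finset.subset_insert j J)
  have hpi' : ∀ x ∈ insert i J, ∀ y ∈ insert i J, x ≠ y → p x ≠ p y := fun x hx y hy =>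
    hp x (hsub hx) y (hsub hy)
  have hri' : ∀ x ∈ insert i J, 0 < r x := fun x hx => hr x (hsub hx)
  have hwi' : ∀ x ∈ insert i J, w ≠ p x := fun x hx => hw x (hsub hx)
  have hinj : i ∉ insert j J := fun h => by
    rcases Finset.mem_insert.mp h with h' | h'
    · exact hij h'
    · exact hi h'
  have hpij : ∀ x ∈ insert j J, p i ≠ p x := fun x hx => hp i (Finset.mem_insert_self _ _) x
    (Finset.mem_insert_of_mem hx) (fun h => hinj (h ▸ hx))
  have hpJ : ∀ x ∈ J, ∀ y ∈ J, x ≠ y → p x ≠ p y := fun x hx y hy =>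
    hpj x (Finset.mem_insert_of_mem hx) y (Finset.mem_insert_of_mem hy)
  have hrJ : ∀ x ∈ J, 0 < r x := fun x hx => hrj x (Finset.mem_insert_of_mem hx)
  have hpiJ : ∀ x ∈ J, p i ≠ p x := fun x hx => hpij x (Finset.mem_insert_of_mem hx)
  have hpjJ : ∀ x ∈ J, p j ≠ p x := fun x hx => hpj j (Finset.mem_insert_self _ _) x
    (Finset.mem_insert_of_mem hx) (fun h => hj (h ▸ hx))
  obtain ⟨hk1, hk1'⟩ := kap_bounds hinj hp hr
  obtain ⟨hk2, hk2'⟩ := kap_bounds hi hpi' hri'
  obtain ⟨hk3, hk3'⟩ := kap_bounds hj hpj hrj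
  have e1 := dSw_insert hinj hp hr hw
  have e2 := dSw_insert hi hpi' hri' hwi'
  have e3 := dSw_insert hj hpj hrj hpij
  have e4 := dD_insert hi hj hij hp hr hw
  have hsymm : dD p r J (p j) (p i) = dD p r J (p i) (p j) := by
    unfold dD
    rw [dS_herm hpJ hrJ hpjJ hpiJ, dL_antisymm hpJ hrJ hpiJ hpjJ, norm_neg, RCLike.norm_conj]
  rw [hsymm] at e3
  -- the change of the effective weight
  have hri0 : 0 < r i := hr i (Finset.mem_insert_self _ _)
  have hrj0 : 0 < r j := hrj j (Finset.mem_insert_self _ _)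
  have hS0 := (dS_diag_le hpJ hrJ hpiJ).1
  have hS0' := (dS_diag_le hpj hrj hpij).1
  have e5 : kap p r (insert j J) i - kap p r J i =
      - (kap p r J i * kap p r (insert j J) i * (kap p r J j * dD p r J (p i) (p j))) := by
    have h1 : (0 : ℝ) < 1 + r i * (dS p r J (p i) (p i)).re := by positivity
    have h2 : (0 : ℝ) < 1 + r i * (dS p r (insert j J) (p i) (p i)).re := by positivity
    have h3 : kap p r J j * dD p r J (p i) (p j) =
        (dS p r (insert j J) (p i) (p i)).re - (dS p r J (p i) (p i)).re := by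
      rw [e3]; ring
    rw [h3]
    unfold kap
    field_simp
    ring
  set D := D2 (dS p r J w (p i)) (dS p r J w (p j)) (dS p r J (p i) (p j))
          (dL p r J w (p i)) (dL p r J w (p j)) (dL p r J (p i) (p j)) with hD
  set a := dD p r J (p i) (p j) with ha
  set b := dD p r J (p j) w with hb
  set c := dD p r J (p i) w with hc
  set k1 := kap p r (insert j J) i with hk1e
  set k2 := kap p r J i with hk2e
  set k3 := kap p r J j with hk3e
  have e6 : ((dS p r (insert i (insert j J)) w w).re - (dS p r (insert j J) w w).re)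
      - ((dS p r (insert i J) w w).re - (dS p r J w w).re) =
      k1 * k3 * (2 * D) - k1 * k3 ^ 2 * (a * b) - k2 * k1 * k3 * (a * c) := by
    rw [e1, e2, e4]
    linear_combination c * e5
  rw [e6]
  have t1 : k1 * k3 * (2 * D) ≤ r i * r j * (2 * max 0 D) := by
    have h1 : k1 * k3 * (2 * D) ≤ k1 * k3 * (2 * max 0 D) := by
      have := le_max_right 0 D
      have h0 : 0 ≤ k1 * k3 := by positivity
      nlinarith
    refine h1.trans ?_
    have h2 : k1 * k3 ≤ r i * r j := mul_le_mul hk1' hk3' hk3.le hri0.le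
    have h3 : 0 ≤ 2 * max 0 D := by positivity
    exact mul_le_mul_of_nonneg_right h2 h3
  have t2 : - (k1 * k3 ^ 2 * (a * b)) ≤ r i * r j ^ 2 * |a| * |b| := by
    have h1 : - (k1 * k3 ^ 2 * (a * b)) ≤ k1 * k3 ^ 2 * (|a| * |b|) := by
      rw [← abs_mul, ← mul_neg]
      exact mul_le_mul_of_nonneg_left (neg_le_abs _) (by positivity)
    have h2 : k1 * k3 ^ 2 ≤ r i * r j ^ 2 :=
      mul_le_mul hk1' (pow_le_pow_left₀ hk3.le hk3' 2) (by positivity) hri0.le
    calc _ ≤ _ := h1
      _ ≤ r i * r j ^ 2 * (|a| * |b|) := mul_le_mul_of_nonneg_right h2 (by positivity)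
      _ = _ := by ring
  have t3 : - (k2 * k1 * k3 * (a * c)) ≤ r i ^ 2 * r j * |a| * |c| := by
    have h1 : - (k2 * k1 * k3 * (a * c)) ≤ k2 * k1 * k3 * (|a| * |c|) := by
      rw [← abs_mul, ← mul_neg]
      exact mul_le_mul_of_nonneg_left (neg_le_abs _) (by positivity)
    have h2 : k2 * k1 * k3 ≤ r i ^ 2 * r j := by
      rw [sq]
      exact mul_le_mul (mul_le_mul hk2' hk1' hk1.le hri0.le) hk3' hk3.le (by positivity)
    calc _ ≤ _ := h1
      _ ≤ r i ^ 2 * r j * (|a| * |c|) := mul_le_mul_of_nonneg_right h2 (by positivity)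
      _ = _ := by ring
  linarith

end Pool.Agent.SV
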