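import Pool.Agent.Helper53.SV.DDefs

/-!
# Telescoping of second differences
-/

set_option autoImplicit false

namespace Pool.Agent.SV

section discrete

variable {ι : Type*} [DecidableEq ι]

/-- telescoping in the second set only -/
theorem telescope_aux (v : Finset ι → ℝ) (e : ι → ι → ℝ) (I : Finset ι)
    (h : ∀ J ⊆ I, ∀ i ∈ I, ∀ j ∈ I, i ∉ J → j ∉ J → i ≠ j →
      (v (insert i (insert j J)) - v (insert j J)) - (v (insert i J) - v J) ≤ e i j)
    {i : ι} (hi : i ∈ I) {J : Finset ι} (hJ : J ⊆ I) (hiJ : i ∉ J) (J₂ : Finset ι) :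
    J₂ ⊆ I → i ∉ J₂ → Disjoint J J₂ →
    (v (insert i (J ∪ J₂)) - v (J ∪ J₂)) - (v (insert i J) - v J) ≤ ∑ j ∈ J₂, e i j := by
  induction J₂ using Finset.induction_on with
  | empty =>
    intro _ _ _
    simp
  | insert j K hjK ih =>
    intro h2 hi2 hd
    have hjI : j ∈ I := h2 (Finset.mem_insert_self j K)
    have hKI : K ⊆ I := (Finset.subset_insert j K).trans h2
    have hij : i ≠ j := fun hh => hi2 (hh ▸ Finset.mem_insert_self j K)
    have hiK : i ∉ K := fun hh => hi2 (Finset.mem_insert_of_mem hh)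
    have hjJ : j ∉ J := fun hh =>
      Finset.disjoint_left.mp hd hh (Finset.mem_insert_self j K)
    have hdK : Disjoint J K :=
      Finset.disjoint_of_subset_right (Finset.subset_insert j K) hd
    have h1 := ih hKI hiK hdK
    have h3 := h (J ∪ K) (Finset.union_subset hJ hKI) i hi j hjI
      (by simp [hiJ, hiK]) (by simp [hjJ, hjK]) hij
    rw [Finset.sum_insert hjK, Finset.union_insert]
    linarith

/-- telescoping of second differences -/
theorem telescope (v : Finset ι → ℝ) (e : ι → ι → ℝ) (I : Finset ι)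
    (h : ∀ J ⊆ I, ∀ i ∈ I, ∀ j ∈ I, i ∉ J → j ∉ J → i ≠ j →
      (v (insert i (insert j J)) - v (insert j J)) - (v (insert i J) - v J) ≤ e i j)
    {J₁ J₂ : Finset ι} (h1 : J₁ ⊆ I) (h2 : J₂ ⊆ I) (h12 : Disjoint J₁ J₂) :
    v (J₁ ∪ J₂) + v ∅ ≤ v J₁ + v J₂ + ∑ i ∈ J₁, ∑ j ∈ J₂, e i j := by
  induction J₁ using Finset.induction_on with
  | empty =>
    simp [add_comm]
  | insert i K hiK ih =>
    have hiI : i ∈ I := h1 (Finset.mem_insert_self i K)
    have hKI : K ⊆ I := (Finset.subset_insert i K).trans h1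
    have hi2 : i ∉ J₂ := fun hh =>
      Finset.disjoint_left.mp h12 (Finset.mem_insert_self i K) hh
    have hdK : Disjoint K J₂ :=
      Finset.disjoint_of_subset_left (Finset.subset_insert i K) h12
    have h3 := ih hKI hdK
    have h4 := telescope_aux v e I h hiI hKI hiK J₂ h2 hi2 hdK
    rw [Finset.sum_insert hiK, Finset.insert_union]
    linarith

end discrete

end Pool.Agent.SV
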