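import Pool.Agent.Helper53.SV.D2
import Pool.Agent.Helper53.SV.D4
import Pool.Agent.Helper53.SV.D7b
import Pool.Agent.Helper53.SV.D8a

/-!
# Submodularity of the discrete kernel on dilute families (SV-D8b)
-/

set_option autoImplicit false

open Complex Filter Topology Metric
open scoped ComplexConjugate

namespace Pool.Agent.SV

section discrete

variable {ι : Type*} [DecidableEq ι]

lemma dS_empty (p : ι → ℂ) (r : ι → ℝ) (a b : ℂ) : dS p r ∅ a b = 0 := by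
  simp [dS]

namespace Dil

variable {p : ι → ℂ} {r : ι → ℝ} {I : Finset ι} {w : ℂ} {δ A B Θ : ℝ}

lemma inj (hD : Dil p r I w δ A B Θ) : ∀ i ∈ I, ∀ j ∈ I, i ≠ j → p i ≠ p j := by
  intro i hi j hj hij h
  have h1 := hD.sep i hi j hj hij
  rw [h, sub_self, norm_zero] at h1
  exact absurd hD.δ_pos (not_lt.2 h1)

lemma w_ne (hD : Dil p r I w δ A B Θ) : ∀ i ∈ I, w ≠ p i := by
  intro i hi h
  have h1 := hD.hw i hi
  rw [h, sub_self, norm_zero] at h1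
  linarith

lemma sg_nonneg' (hD : Dil p r I w δ A B Θ) {J : Finset ι} (hJ : J ⊆ I) (a : ℂ) :
    0 ≤ sg p r J a :=
  Finset.sum_nonneg fun m hm => div_nonneg (hD.r_pos m (hJ hm)).le (by positivity)

lemma sg_le (hD : Dil p r I w δ A B Θ) {J : Finset ι} (hJ : J ⊆ I) {i : ι} (hi : i ∈ I)
    (hiJ : i ∉ J) : sg p r J (p i) ≤ Θ := by
  refine le_trans ?_ (hD.theta i hi)
  refine Finset.sum_le_sum_of_subset_of_nonneg ?_ ?_
  · intro m hm
    exact Finset.mem_erase.2 ⟨fun h => hiJ (h ▸ hm), hJ hm⟩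
  · intro m hm _
    exact div_nonneg (hD.r_pos m (Finset.mem_of_mem_erase hm)).le (by positivity)

lemma sg_w_le (hD : Dil p r I w δ A B Θ) {J : Finset ι} (hJ : J ⊆ I) : sg p r J w ≤ Θ := by
  refine le_trans ?_ hD.thetaw
  refine Finset.sum_le_sum_of_subset_of_nonneg hJ ?_
  intro m hm _
  exact div_nonneg (hD.r_pos m hm).le (by positivity)

lemma dD_abs_le (hD : Dil p r I w δ A B Θ) {J : Finset ι} (hJ : J ⊆ I) {a b : ℂ}
    (ha : ∀ i ∈ J, a ≠ p i) (hb : ∀ i ∈ J, b ≠ p i) (hsa : sg p r J a ≤ Θ)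
    (hsb : sg p r J b ≤ Θ) : |dD p r J a b| ≤ 2 * (1 / ‖a - b‖ ^ 2) + 3 * Θ ^ 2 := by
  have hp : ∀ i ∈ J, ∀ j ∈ J, i ≠ j → p i ≠ p j := fun i hi j hj => hD.inj i (hJ hi) j (hJ hj)
  have hr : ∀ i ∈ J, 0 < r i := fun i hi => hD.r_pos i (hJ hi)
  have hΘ := hD.Θ_ge
  have hprod : sg p r J a * sg p r J b ≤ Θ ^ 2 := by
    rw [pow_two]
    exact mul_le_mul hsa hsb (hD.sg_nonneg' hJ b) (by linarith)
  have h1 : ‖dS p r J a b‖ ^ 2 ≤ Θ ^ 2 := (dS_bound hp hr ha hb).trans hprod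
  have h2 : ‖dL p r J a b - (a - b)⁻¹‖ ^ 2 ≤ Θ ^ 2 := (dL_bound hp hr ha hb).trans hprod
  have h3 : ‖dL p r J a b‖ ≤ ‖dL p r J a b - (a - b)⁻¹‖ + ‖(a - b)⁻¹‖ := by
    have := norm_add_le (dL p r J a b - (a - b)⁻¹) (a - b)⁻¹
    rwa [sub_add_cancel] at this
  have h4 : ‖dL p r J a b‖ ^ 2 ≤
      2 * ‖dL p r J a b - (a - b)⁻¹‖ ^ 2 + 2 * ‖(a - b)⁻¹‖ ^ 2 := by
    have h5 := pow_le_pow_left₀ (norm_nonneg _) h3 2
    nlinarith [sq_nonneg (‖dL p r J a b - (a - b)⁻¹‖ - ‖(a - b)⁻¹‖)]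
  have h6 : ‖(a - b)⁻¹‖ ^ 2 = 1 / ‖a - b‖ ^ 2 := by
    rw [norm_inv, inv_pow, one_div]
  rw [h6] at h4
  have h7 := sq_nonneg ‖dL p r J a b‖
  have h8 := sq_nonneg ‖dS p r J a b‖
  have h9 : 0 ≤ 1 / ‖a - b‖ ^ 2 := by positivity
  unfold dD
  rw [abs_le]
  constructor <;> linarith

end Dil

/-- the bound of the second difference -/
noncomputable def eB (K : ℝ) (p : ι → ℂ) (r : ι → ℝ) (δ Θ : ℝ) (i j : ι) : ℝ :=
  r i * r j * (2 * (K * Θ ^ 6 * δ * (1 + 1 / ‖p i - p j‖)))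
    + (r i * r j ^ 2 + r i ^ 2 * r j) * ((2 * (1 / ‖p i - p j‖ ^ 2) + 3 * Θ ^ 2) * (5 * Θ ^ 2))

lemma second_le {p : ι → ℂ} {r : ι → ℝ} {I : Finset ι} {w : ℂ} {δ A B Θ K : ℝ}
    (hD : Dil p r I w δ A B Θ) (hK : 0 ≤ K)
    (hd2 : ∀ J ⊆ I, ∀ i ∈ I, ∀ j ∈ I, i ∉ J → j ∉ J → i ≠ j →
      D2 (dS p r J w (p i)) (dS p r J w (p j)) (dS p r J (p i) (p j))
          (dL p r J w (p i)) (dL p r J w (p j)) (dL p r J (p i) (p j))
        ≤ K * Θ ^ 6 * δ * (1 + 1 / ‖p i - p j‖))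
    {J : Finset ι} (hJ : J ⊆ I) {i : ι} (hi : i ∈ I) {j : ι} (hj : j ∈ I) (hiJ : i ∉ J)
    (hjJ : j ∉ J) (hij : i ≠ j) :
    ((dS p r (insert i (insert j J)) w w).re - (dS p r (insert j J) w w).re)
      - ((dS p r (insert i J) w w).re - (dS p r J w w).re) ≤ eB K p r δ Θ i j := by
  have hsub : insert i (insert j J) ⊆ I := by
    intro x hx
    rw [Finset.mem_insert, Finset.mem_insert] at hx
    rcases hx with rfl | rfl | hx
    · exact hi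
    · exact hj
    · exact hJ hx
  have hΘ := hD.Θ_ge
  have hδ := hD.δ_pos
  have hri := hD.r_pos i hi
  have hrj := hD.r_pos j hj
  have hΘ1 : (1 : ℝ) ≤ Θ ^ 2 := one_le_pow₀ hΘ
  have h1 := second_diff (p := p) (r := r) (w := w) hiJ hjJ hij
    (fun x hx y hy => hD.inj x (hsub hx) y (hsub hy)) (fun x hx => hD.r_pos x (hsub hx))
    (fun x hx => hD.w_ne x (hsub hx))
  refine h1.trans ?_
  have hne : ∀ {x : ι}, x ∈ I → x ∉ J → ∀ y ∈ J, p x ≠ p y := by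
    intro x hx hxJ y hy
    exact hD.inj x hx y (hJ hy) fun h => hxJ (h ▸ hy)
  have hwne : ∀ y ∈ J, w ≠ p y := fun y hy => hD.w_ne y (hJ hy)
  have a1 := hD.dD_abs_le hJ (hne hi hiJ) (hne hj hjJ) (hD.sg_le hJ hi hiJ) (hD.sg_le hJ hj hjJ)
  have aw : ∀ {x : ι}, x ∈ I → x ∉ J → |dD p r J (p x) w| ≤ 5 * Θ ^ 2 := by
    intro x hx hxJ
    have h2 := hD.dD_abs_le hJ (hne hx hxJ) hwne (hD.sg_le hJ hx hxJ) (hD.sg_w_le hJ)
    have h3 : 1 ≤ ‖p x - w‖ := by rw [norm_sub_rev]; exact hD.hw x hx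
    have h4 : 1 / ‖p x - w‖ ^ 2 ≤ 1 := by
      rw [div_le_one (by positivity)]
      exact one_le_pow₀ h3
    linarith
  have ai := aw hi hiJ
  have aj := aw hj hjJ
  have hd := hd2 J hJ i hi j hj hiJ hjJ hij
  have hpos : 0 ≤ K * Θ ^ 6 * δ * (1 + 1 / ‖p i - p j‖) := by positivity
  have hmax := max_le hpos hd
  have hdd : 0 ≤ 2 * (1 / ‖p i - p j‖ ^ 2) + 3 * Θ ^ 2 := by positivity
  have t1 : r i * r j ^ 2 * |dD p r J (p i) (p j)| * |dD p r J (p j) w| ≤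
      r i * r j ^ 2 * ((2 * (1 / ‖p i - p j‖ ^ 2) + 3 * Θ ^ 2) * (5 * Θ ^ 2)) := by
    rw [mul_assoc]
    apply mul_le_mul_of_nonneg_left _ (by positivity)
    exact mul_le_mul a1 aj (abs_nonneg _) hdd
  have t2 : r i ^ 2 * r j * |dD p r J (p i) (p j)| * |dD p r J (p i) w| ≤
      r i ^ 2 * r j * ((2 * (1 / ‖p i - p j‖ ^ 2) + 3 * Θ ^ 2) * (5 * Θ ^ 2)) := by
    rw [mul_assoc]
    apply mul_le_mul_of_nonneg_left _ (by positivity)
    exact mul_le_mul a1 ai (abs_nonneg _) hdd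
  have t3 : r i * r j * (2 * max 0 (D2 (dS p r J w (p i)) (dS p r J w (p j))
      (dS p r J (p i) (p j)) (dL p r J w (p i)) (dL p r J w (p j)) (dL p r J (p i) (p j)))) ≤
      r i * r j * (2 * (K * Θ ^ 6 * δ * (1 + 1 / ‖p i - p j‖))) := by
    apply mul_le_mul_of_nonneg_left _ (by positivity)
    exact mul_le_mul_of_nonneg_left hmax (by norm_num)
  unfold eB
  rw [add_mul]
  linarith

/-- summation of the bounds -/
lemma sum_eB_le {p : ι → ℂ} {r : ι → ℝ} {I : Finset ι} {w : ℂ} {δ A B Θ K : ℝ}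
    (hD : Dil p r I w δ A B Θ) (hK : 0 ≤ K) {J₁ J₂ : Finset ι} (h1 : J₁ ⊆ I) (h2 : J₂ ⊆ I)
    (h12 : Disjoint J₁ J₂) :
    ∑ i ∈ J₁, ∑ j ∈ J₂, eB K p r δ Θ i j ≤
      (2 * K * (2 * B ^ 2 + B) + 10 * A * (2 * B + 3 * B ^ 2)) * Θ ^ 8 * δ := by
  have hΘ := hD.Θ_ge
  have hΘ0 : 0 < Θ := by linarith
  have hδ := hD.δ_pos
  have hδ1 := hD.δ_le
  have hA := hD.A_pos
  have hB := hD.B_pos
  -- pointwise bound
  have hpt : ∀ i ∈ J₁, ∀ j ∈ J₂, eB K p r δ Θ i j ≤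
      r i * ((4 * K * Θ ^ 6 * δ + 30 * A * δ * Θ ^ 4) * r j +
        (2 * K * Θ ^ 6 * δ + 20 * A * δ * Θ ^ 2) * (r j / ‖p i - p j‖ ^ 2)) := by
    intro i hi j hj
    have hri := hD.r_pos i (h1 hi)
    have hrj := hD.r_pos j (h2 hj)
    have hri2 : r i ≤ A * δ := (hD.r_le i (h1 hi)).trans (by
      apply mul_le_mul_of_nonneg_left _ hA.le
      nlinarith)
    have hrj2 : r j ≤ A * δ := (hD.r_le j (h2 hj)).trans (by
      apply mul_le_mul_of_nonneg_left _ hA.le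
      nlinarith)
    set x : ℝ := 1 / ‖p i - p j‖ with hx
    have hx0 : 0 ≤ x := by positivity
    have hx2 : 1 / ‖p i - p j‖ ^ 2 = x ^ 2 := by rw [hx, div_pow, one_pow]
    have hx3 : r j / ‖p i - p j‖ ^ 2 = r j * x ^ 2 := by
      rw [← hx2]; ring
    rw [hx3]
    unfold eB
    rw [hx2, ← hx]
    have hx4 : x ≤ 1 + x ^ 2 := by nlinarith [sq_nonneg (x - 1)]
    have e1 : r i * r j * (2 * (K * Θ ^ 6 * δ * (1 + x))) ≤
        r i * r j * (2 * (K * Θ ^ 6 * δ * (2 + x ^ 2))) := by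
      apply mul_le_mul_of_nonneg_left _ (by positivity)
      apply mul_le_mul_of_nonneg_left _ (by norm_num)
      apply mul_le_mul_of_nonneg_left _ (by positivity)
      linarith
    have e2 : r i * r j ^ 2 + r i ^ 2 * r j ≤ r i * r j * (2 * (A * δ)) := by
      have : r i * r j ^ 2 + r i ^ 2 * r j = r i * r j * (r j + r i) := by ring
      rw [this]
      apply mul_le_mul_of_nonneg_left _ (by positivity)
      linarith
    have e3 : (r i * r j ^ 2 + r i ^ 2 * r j) * ((2 * x ^ 2 + 3 * Θ ^ 2) * (5 * Θ ^ 2)) ≤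
        r i * r j * (2 * (A * δ)) * ((2 * x ^ 2 + 3 * Θ ^ 2) * (5 * Θ ^ 2)) :=
      mul_le_mul_of_nonneg_right e2 (by positivity)
    refine (add_le_add e1 e3).trans (le_of_eq ?_)
    ring
  have hsum : ∑ i ∈ J₁, ∑ j ∈ J₂, eB K p r δ Θ i j ≤
      ∑ i ∈ J₁, ∑ j ∈ J₂, r i * ((4 * K * Θ ^ 6 * δ + 30 * A * δ * Θ ^ 4) * r j +
        (2 * K * Θ ^ 6 * δ + 20 * A * δ * Θ ^ 2) * (r j / ‖p i - p j‖ ^ 2)) :=
    Finset.sum_le_sum fun i hi => Finset.sum_le_sum fun j hj => hpt i hi j hj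
  refine hsum.trans ?_
  have hin : ∀ i ∈ J₁, ∑ j ∈ J₂, r i * ((4 * K * Θ ^ 6 * δ + 30 * A * δ * Θ ^ 4) * r j +
        (2 * K * Θ ^ 6 * δ + 20 * A * δ * Θ ^ 2) * (r j / ‖p i - p j‖ ^ 2)) ≤
      r i * ((4 * K * Θ ^ 6 * δ + 30 * A * δ * Θ ^ 4) * B +
        (2 * K * Θ ^ 6 * δ + 20 * A * δ * Θ ^ 2) * Θ) := by
    intro i hi
    have hri := hD.r_pos i (h1 hi)
    rw [← Finset.mul_sum, Finset.sum_add_distrib, ← Finset.mul_sum, ← Finset.mul_sum]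
    apply mul_le_mul_of_nonneg_left _ hri.le
    have b1 : ∑ j ∈ J₂, r j ≤ B := by
      refine le_trans ?_ hD.sum
      exact Finset.sum_le_sum_of_subset_of_nonneg h2 fun m hm _ => (hD.r_pos m hm).le
    have b2 : ∑ j ∈ J₂, r j / ‖p i - p j‖ ^ 2 ≤ Θ :=
      hD.sg_le h2 (h1 hi) fun h => Finset.disjoint_left.1 h12 hi h
    exact add_le_add (mul_le_mul_of_nonneg_left b1 (by positivity))
      (mul_le_mul_of_nonneg_left b2 (by positivity))
  refine (Finset.sum_le_sum hin).trans ?_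
  rw [← Finset.sum_mul]
  have b1 : ∑ i ∈ J₁, r i ≤ B := by
    refine le_trans ?_ hD.sum
    exact Finset.sum_le_sum_of_subset_of_nonneg h1 fun m hm _ => (hD.r_pos m hm).le
  have hmono : ∀ n ≤ 8, Θ ^ n ≤ Θ ^ 8 := fun n hn => pow_le_pow_right₀ hΘ hn
  have p6 := hmono 6 (by norm_num)
  have p7 := hmono 7 (by norm_num)
  have p4 := hmono 4 (by norm_num)
  have p3 := hmono 3 (by norm_num)
  calc (∑ i ∈ J₁, r i) * ((4 * K * Θ ^ 6 * δ + 30 * A * δ * Θ ^ 4) * B +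
        (2 * K * Θ ^ 6 * δ + 20 * A * δ * Θ ^ 2) * Θ)
      ≤ B * ((4 * K * Θ ^ 6 * δ + 30 * A * δ * Θ ^ 4) * B +
        (2 * K * Θ ^ 6 * δ + 20 * A * δ * Θ ^ 2) * Θ) :=
        mul_le_mul_of_nonneg_right b1 (by positivity)
    _ = (4 * K * δ * B ^ 2) * Θ ^ 6 + (30 * A * δ * B ^ 2) * Θ ^ 4 +
        (2 * K * δ * B) * Θ ^ 7 + (20 * A * δ * B) * Θ ^ 3 := by ring
    _ ≤ (4 * K * δ * B ^ 2) * Θ ^ 8 + (30 * A * δ * B ^ 2) * Θ ^ 8 +
        (2 * K * δ * B) * Θ ^ 8 + (20 * A * δ * B) * Θ ^ 8 := by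
        gcongr
    _ = (2 * K * (2 * B ^ 2 + B) + 10 * A * (2 * B + 3 * B ^ 2)) * Θ ^ 8 * δ := by ring

theorem sub_dil (hP1 : P1Stmt) : ∃ C : ℝ → ℝ → ℝ, (∀ A B, 0 ≤ C A B) ∧
    ∀ (p : ι → ℂ) (r : ι → ℝ) (I : Finset ι) (w : ℂ) (δ A B Θ : ℝ),
      Dil p r I w δ A B Θ → ∀ J₁ ⊆ I, ∀ J₂ ⊆ I, Disjoint J₁ J₂ →
      (dS p r (J₁ ∪ J₂) w w).re
        ≤ (dS p r J₁ w w).re + (dS p r J₂ w w).re + C A B * Θ ^ 8 * δ := by
  obtain ⟨C, hC, hd⟩ := dil_D2 (ι := ι) hP1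
  refine ⟨fun A B => 2 * C A B * (2 * |B| ^ 2 + |B|) + 10 * |A| * (2 * |B| + 3 * |B| ^ 2), ?_, ?_⟩
  · intro A B
    have := hC A B
    positivity
  · intro p r I w δ A B Θ hD J₁ h1 J₂ h2 h12
    have ht := telescope (fun J => (dS p r J w w).re) (eB (C A B) p r δ Θ) I (by
      intro J hJ i hi j hj hiJ hjJ hij
      exact second_le hD (hC A B) (hd p r I w δ A B Θ hD) hJ hi hj hiJ hjJ hij) h1 h2 h12
    have hs := sum_eB_le hD (hC A B) h1 h2 h12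
    simp only [dS_empty, zero_re, add_zero] at ht
    dsimp only
    rw [abs_of_pos hD.A_pos, abs_of_pos hD.B_pos]
    linarith

/-- several groups -/
theorem sub_dil_many (hP1 : P1Stmt) (m : ℕ) : ∃ C : ℝ → ℝ → ℝ, (∀ A B, 0 ≤ C A B) ∧
    ∀ (p : ι → ℂ) (r : ι → ℝ) (I : Finset ι) (w : ℂ) (δ A B Θ : ℝ),
      Dil p r I w δ A B Θ → ∀ grp : ι → Fin m,
      (dS p r I w w).re
        ≤ ∑ i, (dS p r (I.filter (fun x => grp x = i)) w w).re + C A B * Θ ^ 8 * δ := by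
  obtain ⟨C, hC, hsub⟩ := sub_dil (ι := ι) hP1
  refine ⟨fun A B => m * C A B, fun A B => by have := hC A B; positivity, ?_⟩
  intro p r I w δ A B Θ hD grp
  have hstep : ∀ T : Finset (Fin m), (dS p r (I.filter (fun x => grp x ∈ T)) w w).re ≤
      ∑ i ∈ T, (dS p r (I.filter (fun x => grp x = i)) w w).re +
        T.card * (C A B * Θ ^ 8 * δ) := by
    intro T
    induction T using Finset.induction_on with
    | empty =>
      simp [dS_empty]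
    | insert a T ha ih =>
      have hun : I.filter (fun x => grp x ∈ insert a T) =
          I.filter (fun x => grp x = a) ∪ I.filter (fun x => grp x ∈ T) := by
        ext x
        simp only [Finset.mem_filter, Finset.mem_union, Finset.mem_insert]
        tauto
      have hdis : Disjoint (I.filter (fun x => grp x = a)) (I.filter (fun x => grp x ∈ T)) := by
        rw [Finset.disjoint_left]
        intro x hx hx2
        rw [Finset.mem_filter] at hx hx2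
        exact ha (hx.2 ▸ hx2.2)
      have h1 := hsub p r I w δ A B Θ hD _ (Finset.filter_subset _ _) _
        (Finset.filter_subset _ _) hdis
      rw [hun, Finset.sum_insert ha, Finset.card_insert_of_notMem ha]
      push_cast
      linarith
  have h := hstep Finset.univ
  have e : I.filter (fun x => grp x ∈ (Finset.univ : Finset (Fin m))) = I := by
    ext x; simp
  rw [e, Finset.card_univ, Fintype.card_fin] at h
  refine h.trans (le_of_eq ?_)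
  ring

end discrete

end Pool.Agent.SV
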