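import Pool.Agent.Helper53.SV.DDefs

/-!
# D9: the grid is a dilute family
-/

set_option autoImplicit false

open Complex Filter Topology Metric
open scoped ComplexConjugate

namespace Pool.Agent.SV

/-- the sup distance of two grid points, at least `1` -/
private def dd {k : ℕ} (x y : Fin k × ℤ × ℤ) : ℤ :=
  max 1 (max |x.2.1 - y.2.1| |x.2.2 - y.2.2|)

private lemma dd_pos {k : ℕ} (x y : Fin k × ℤ × ℤ) : (1 : ℝ) ≤ (dd x y : ℝ) := by
  have : (1 : ℤ) ≤ dd x y := le_max_left _ _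
  exact_mod_cast this

private lemma int_aux {k : ℤ} (hk : 1 ≤ k) {u c : ℤ} (hc : |c| ≤ k - 1) : |u| ≤ |u * k + c| := by
  obtain ⟨hc1, hc2⟩ := abs_le.1 hc
  rcases lt_trichotomy u 0 with hu | hu | hu
  · rw [abs_of_neg hu]
    have h1 : -u ≤ -(u * k + c) := by nlinarith
    exact h1.trans (neg_le_abs _)
  · rw [hu]; simp
  · rw [abs_of_pos hu]
    have h1 : u ≤ u * k + c := by nlinarith
    exact h1.trans (le_abs_self _)

private lemma key_sep (k : ℕ) (hk : 0 < k) {h : ℝ} (hh : 0 < h) {x y : Fin k × ℤ × ℤ}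
    (hxy : x ≠ y) : h / k * (dd x y : ℝ) ≤ ‖gp k h x - gp k h y‖ := by
  obtain ⟨cx, ax, bx⟩ := x
  obtain ⟨cy, ay, b_y⟩ := y
  have hk0 : (0 : ℝ) < k := by exact_mod_cast hk
  have hk1 : (1 : ℤ) ≤ k := by exact_mod_cast hk
  obtain ⟨u, hu⟩ : ∃ u : ℤ, u = ax - ay := ⟨_, rfl⟩
  obtain ⟨s, hs⟩ : ∃ s : ℤ, s = bx - b_y := ⟨_, rfl⟩
  obtain ⟨c, hc⟩ : ∃ c : ℤ, c = (cx : ℤ) - (cy : ℤ) := ⟨_, rfl⟩
  obtain ⟨t, ht⟩ : ∃ t : ℤ, t = u * k + c := ⟨_, rfl⟩
  have hcx := cx.isLt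
  have hcy := cy.isLt
  have hcb : |c| ≤ k - 1 := by
    rw [abs_le]
    constructor <;> omega
  have hre : (gp k h (cx, ax, bx) - gp k h (cy, ay, b_y)).re = h / k * (t : ℝ) := by
    rw [ht, hu, hc]
    simp only [gp, Complex.sub_re]
    push_cast
    field_simp
    ring
  have him : (gp k h (cx, ax, bx) - gp k h (cy, ay, b_y)).im = h * (s : ℝ) := by
    rw [hs]
    simp only [gp, Complex.sub_im]
    push_cast
    ring
  have h1 : h / k * |(t : ℝ)| ≤ ‖gp k h (cx, ax, bx) - gp k h (cy, ay, b_y)‖ := by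
    have := Complex.abs_re_le_norm (gp k h (cx, ax, bx) - gp k h (cy, ay, b_y))
    rwa [hre, abs_mul, abs_of_pos (div_pos hh hk0)] at this
  have h2 : h / k * |(s : ℝ)| ≤ ‖gp k h (cx, ax, bx) - gp k h (cy, ay, b_y)‖ := by
    have h3 := Complex.abs_im_le_norm (gp k h (cx, ax, bx) - gp k h (cy, ay, b_y))
    rw [him, abs_mul, abs_of_pos hh] at h3
    refine le_trans (mul_le_mul_of_nonneg_right ?_ (abs_nonneg _)) h3
    rw [div_le_iff₀ hk0]
    have : (1 : ℝ) ≤ k := by exact_mod_cast hk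
    nlinarith
  have hut : |u| ≤ |t| := by rw [ht]; exact int_aux hk1 hcb
  have hmax : dd (cx, ax, bx) (cy, ay, b_y) ≤ max |t| |s| := by
    unfold dd
    simp only
    rw [← hu, ← hs]
    refine max_le ?_ (max_le (hut.trans (le_max_left _ _)) (le_max_right _ _))
    by_contra hcon
    push Not at hcon
    obtain ⟨ht1, hs1⟩ := max_lt_iff.1 hcon
    have ht0 : t = 0 := Int.abs_lt_one_iff.1 ht1
    have hs0 : s = 0 := Int.abs_lt_one_iff.1 hs1
    have hu0 : u = 0 := by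
      rw [ht0, abs_zero] at hut
      exact abs_eq_zero.1 (le_antisymm hut (abs_nonneg _))
    have hc0 : c = 0 := by
      rw [hu0, zero_mul, zero_add] at ht
      rw [← ht, ht0]
    apply hxy
    have e1 : cx = cy := by
      apply Fin.ext
      omega
    have e2 : ax = ay := by omega
    have e3 : bx = b_y := by omega
    rw [e1, e2, e3]
  have hmax' : (dd (cx, ax, bx) (cy, ay, b_y) : ℝ) ≤ max |(t : ℝ)| |(s : ℝ)| := by
    have : ((dd (cx, ax, bx) (cy, ay, b_y) : ℤ) : ℝ) ≤ ((max |t| |s| : ℤ) : ℝ) := by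
      exact_mod_cast hmax
    rw [Int.cast_max, Int.cast_abs, Int.cast_abs] at this
    exact this
  calc h / k * (dd (cx, ax, bx) (cy, ay, b_y) : ℝ) ≤ h / k * max |(t : ℝ)| |(s : ℝ)| :=
        mul_le_mul_of_nonneg_left hmax' (div_pos hh hk0).le
    _ = max (h / k * |(t : ℝ)|) (h / k * |(s : ℝ)|) := by
        rw [mul_max_of_nonneg _ _ (div_pos hh hk0).le]
    _ ≤ _ := max_le h1 h2

/-- the square box -/
private noncomputable def bx (L : ℕ) : Finset (ℤ × ℤ) := Finset.Icc (-(L : ℤ)) L ×ˢ Finset.Icc (-(L : ℤ)) L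

private lemma card_bx (L : ℕ) : (bx L).card = (2 * L + 1) ^ 2 := by
  unfold bx
  rw [Finset.card_product, Int.card_Icc]
  have : ((L : ℤ) + 1 - -(L : ℤ)).toNat = 2 * L + 1 := by omega
  rw [this]; ring

private lemma bx_mono (L : ℕ) : bx L ⊆ bx (L + 1) := by
  unfold bx
  intro z hz
  rw [Finset.mem_product, Finset.mem_Icc, Finset.mem_Icc] at hz ⊢
  push_cast
  omega

private noncomputable def wt (z : ℤ × ℤ) : ℝ := 1 / (((max 1 (max |z.1| |z.2|) : ℤ)) : ℝ) ^ 2

private lemma wt_nonneg (z : ℤ × ℤ) : 0 ≤ wt z := by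
  unfold wt; positivity

private lemma shell (L : ℕ) : ∑ z ∈ bx L, wt z ≤ 1 + 8 * (harmonic L : ℝ) := by
  induction L with
  | zero =>
    have : bx 0 = {(0, 0)} := by
      unfold bx
      simp
    rw [this]
    simp [wt]
  | succ L ih =>
    rw [← Finset.sum_sdiff (bx_mono L)]
    have h1 : ∑ z ∈ bx (L + 1) \ bx L, wt z ≤
        ∑ z ∈ bx (L + 1) \ bx L, 1 / ((L : ℝ) + 1) ^ 2 := by
      apply Finset.sum_le_sum
      intro z hz
      rw [Finset.mem_sdiff] at hz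
      have h2 : (L : ℤ) + 1 ≤ max 1 (max |z.1| |z.2|) := by
        by_contra hcon
        push Not at hcon
        apply hz.2
        obtain ⟨_, h3⟩ := max_lt_iff.1 hcon
        obtain ⟨h4, h5⟩ := max_lt_iff.1 h3
        unfold bx
        rw [Finset.mem_product, Finset.mem_Icc, Finset.mem_Icc]
        rw [abs_lt] at h4 h5
        omega
      have h3 : (L : ℝ) + 1 ≤ (((max 1 (max |z.1| |z.2|) : ℤ)) : ℝ) := by exact_mod_cast h2
      exact one_div_le_one_div_of_le (by positivity) (pow_le_pow_left₀ (by positivity) h3 2)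
    have h2 : ((bx (L + 1) \ bx L).card : ℝ) = 8 * ((L : ℝ) + 1) := by
      rw [Finset.card_sdiff_of_subset (bx_mono L), card_bx, card_bx]
      have : (2 * (L + 1) + 1) ^ 2 - (2 * L + 1) ^ 2 = 8 * (L + 1) := by
        have : (2 * (L + 1) + 1) ^ 2 = (2 * L + 1) ^ 2 + 8 * (L + 1) := by ring
        omega
      rw [this]; push_cast; ring
    rw [Finset.sum_const, nsmul_eq_mul, h2] at h1
    have h3 : 8 * ((L : ℝ) + 1) * (1 / ((L : ℝ) + 1) ^ 2) = 8 * (1 / ((L : ℝ) + 1)) := by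
      field_simp
    rw [h3] at h1
    have h4 : ((harmonic (L + 1) : ℚ) : ℝ) = (harmonic L : ℝ) + 1 / ((L : ℝ) + 1) := by
      rw [harmonic_succ]
      push_cast
      rw [one_div]
    rw [h4]
    linarith

private lemma shell_log (L : ℕ) : ∑ z ∈ bx L, wt z ≤ 9 + 8 * Real.log L := by
  have h1 := shell L
  have h2 := harmonic_le_one_add_log L
  linarith

/-- sums over shells around a grid point -/
private lemma theta_sum (k : ℕ) (N : ℕ) (I : Finset (Fin k × ℤ × ℤ))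
    (hI : ∀ x ∈ I, x.2 ∈ bx N) {i : Fin k × ℤ × ℤ} (hi : i ∈ I) :
    ∑ m ∈ I.erase i, 1 / (dd i m : ℝ) ^ 2 ≤ k * (9 + 8 * Real.log (2 * N)) := by
  classical
  let f : Fin k × ℤ × ℤ → ℝ := fun y => wt y.2
  let φ : Fin k × ℤ × ℤ → Fin k × ℤ × ℤ := fun m => (m.1, (i.2.1 - m.2.1, i.2.2 - m.2.2))
  have hφ : Set.InjOn φ (I.erase i : Finset (Fin k × ℤ × ℤ)) := by
    rintro ⟨c, a, b⟩ _ ⟨c', a', b'⟩ _ h
    simp only [φ, Prod.mk.injEq] at h
    obtain ⟨h1, h2, h3⟩ := h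
    rw [Prod.mk.injEq, Prod.mk.injEq]
    exact ⟨h1, by omega, by omega⟩
  have h1 : ∑ m ∈ I.erase i, 1 / (dd i m : ℝ) ^ 2 = ∑ y ∈ (I.erase i).image φ, f y := by
    rw [Finset.sum_image hφ]
    rfl
  have h2 : (I.erase i).image φ ⊆ (Finset.univ : Finset (Fin k)) ×ˢ bx (2 * N) := by
    intro y hy
    rw [Finset.mem_image] at hy
    obtain ⟨m, hm, rfl⟩ := hy
    have hm1 := hI m (Finset.mem_of_mem_erase hm)
    have hi1 := hI i hi
    unfold bx at hm1 hi1 ⊢
    simp only [φ, Finset.mem_product, Finset.mem_univ, Finset.mem_Icc, true_and] at hm1 hi1 ⊢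
    push_cast
    omega
  have h3 : ∑ y ∈ (Finset.univ : Finset (Fin k)) ×ˢ bx (2 * N), f y =
      k * ∑ z ∈ bx (2 * N), wt z := by
    rw [Finset.sum_product]
    simp only [f]
    rw [Finset.sum_const, Finset.card_univ, Fintype.card_fin, nsmul_eq_mul]
  rw [h1]
  calc ∑ y ∈ (I.erase i).image φ, f y
      ≤ ∑ y ∈ (Finset.univ : Finset (Fin k)) ×ˢ bx (2 * N), f y :=
        Finset.sum_le_sum_of_subset_of_nonneg h2 fun y _ _ => wt_nonneg _
    _ = k * ∑ z ∈ bx (2 * N), wt z := h3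
    _ ≤ k * (9 + 8 * Real.log (2 * N)) := by
        have h4 := shell_log (2 * N)
        push_cast at h4
        exact mul_le_mul_of_nonneg_left h4 (Nat.cast_nonneg k)

/-- the grid points in a bounded set -/
private lemma in_box (k : ℕ) (hk : 0 < k) {h R : ℝ} (hh : 0 < h) (N : ℕ) (hN : R / h + 1 ≤ N)
    (x : Fin k × ℤ × ℤ) (hx : ‖gp k h x‖ ≤ R) : x.2 ∈ bx N := by
  obtain ⟨c, a, b⟩ := x
  have hk0 : (0 : ℝ) < k := by exact_mod_cast hk
  have h1 := (Complex.abs_re_le_norm (gp k h (c, a, b))).trans hx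
  have h2 := (Complex.abs_im_le_norm (gp k h (c, a, b))).trans hx
  have e1 : (gp k h (c, a, b)).re = h * ((a : ℝ) + (c : ℝ) / k) := rfl
  have e2 : (gp k h (c, a, b)).im = h * (b : ℝ) := rfl
  rw [e1, abs_mul, abs_of_pos hh, mul_comm, ← le_div_iff₀ hh] at h1
  rw [e2, abs_mul, abs_of_pos hh, mul_comm, ← le_div_iff₀ hh] at h2
  have hc0 : 0 ≤ (c : ℝ) / k := by positivity
  have hc1 : (c : ℝ) / k ≤ 1 := by
    rw [div_le_one hk0]
    exact_mod_cast c.isLt.le
  obtain ⟨h3, h4⟩ := abs_le.1 h1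
  obtain ⟨h5, h6⟩ := abs_le.1 h2
  unfold bx
  rw [Finset.mem_product, Finset.mem_Icc, Finset.mem_Icc]
  refine ⟨⟨?_, ?_⟩, ⟨?_, ?_⟩⟩
  · have : (-(N : ℝ)) ≤ (a : ℝ) := by linarith
    exact_mod_cast this
  · have : (a : ℝ) ≤ N := by linarith
    exact_mod_cast this
  · have : (-(N : ℝ)) ≤ (b : ℝ) := by linarith
    exact_mod_cast this
  · have : (b : ℝ) ≤ N := by linarith
    exact_mod_cast this

theorem grid_dil (k : ℕ) (hk : 0 < k) (ρ : Fin k → ℂ → ℝ) (hρc : ∀ c, Continuous (ρ c))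
    (hρ0 : ∀ c z, 0 ≤ ρ c z) (hρs : ∀ c, HasCompactSupport (ρ c)) (w : ℂ)
    (hw : ∀ c z, 0 < ρ c z → 1 ≤ ‖w - z‖) :
    ∃ A B C₀ : ℝ, 0 < C₀ ∧ ∀ᶠ h : ℝ in 𝓝[>] 0,
      ∃ I : Finset (Fin k × ℤ × ℤ), (∀ x, x ∈ I ↔ 0 < ρ x.1 (gp k h x)) ∧
        Dil (gp k h) (gr k ρ h) I w (h / k) A B (C₀ * (1 + Real.log (1 / h))) := by
  classical
  have hk0 : (0 : ℝ) < k := by exact_mod_cast hk
  have hk1 : (1 : ℝ) ≤ k := by exact_mod_cast hk
  -- bounds of the densities
  have hb : ∀ c, ∃ M : ℝ, ∀ z, ‖ρ c z‖ ≤ M := fun c =>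
    (hρs c).exists_bound_of_continuous (hρc c)
  choose Mc hMc using hb
  obtain ⟨M, hM0, hM⟩ : ∃ M : ℝ, 1 ≤ M ∧ ∀ c z, ρ c z ≤ M := by
    refine ⟨1 + ∑ c, |Mc c|, ?_, fun c z => ?_⟩
    · have : 0 ≤ ∑ c, |Mc c| := Finset.sum_nonneg fun _ _ => abs_nonneg _
      linarith
    · have h1 := (le_abs_self _).trans (hMc c z)
      have h2 : |Mc c| ≤ ∑ c, |Mc c| :=
        Finset.single_le_sum (f := fun c => |Mc c|) (fun _ _ => abs_nonneg _) (Finset.mem_univ c)
      have h3 := le_abs_self (Mc c)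
      linarith
  -- bounded support
  have hr : ∀ c, ∃ R : ℝ, ∀ z, 0 < ρ c z → ‖z‖ ≤ R := by
    intro c
    obtain ⟨R, hR⟩ := (hρs c).isBounded.subset_closedBall 0
    refine ⟨R, fun z hz => ?_⟩
    have := hR (subset_tsupport _ (Function.mem_support.2 hz.ne'))
    rwa [mem_closedBall_zero_iff] at this
  choose Rc hRc using hr
  obtain ⟨R, hR0, hR⟩ : ∃ R : ℝ, 1 ≤ R ∧ ∀ c z, 0 < ρ c z → ‖z‖ ≤ R := by
    refine ⟨1 + ∑ c, |Rc c|, ?_, fun c z hz => ?_⟩
    · have : 0 ≤ ∑ c, |Rc c| := Finset.sum_nonneg fun _ _ => abs_nonneg _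
      linarith
    · have h1 := hRc c z hz
      have h2 : |Rc c| ≤ ∑ c, |Rc c| :=
        Finset.single_le_sum (f := fun c => |Rc c|) (fun _ _ => abs_nonneg _) (Finset.mem_univ c)
      have h3 := le_abs_self (Rc c)
      linarith
  -- the constants
  set A : ℝ := M * k ^ 2 with hA
  set B : ℝ := M * k * (2 * R + 5) ^ 2 with hB
  set C₀ : ℝ := 1 + B + M * k ^ 3 * (9 + 8 * Real.log (2 * R + 4)) + 8 * (M * k ^ 3) with hC
  have hlogR : 0 ≤ Real.log (2 * R + 4) := Real.log_nonneg (by linarith)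
  have hApos : 0 < A := by positivity
  have hBpos : 0 < B := by positivity
  have hC1 : 1 ≤ C₀ := by
    have : 0 ≤ M * k ^ 3 * (9 + 8 * Real.log (2 * R + 4)) + 8 * (M * k ^ 3) := by positivity
    linarith
  refine ⟨A, B, C₀, by linarith, ?_⟩
  -- a small threshold
  set h0 : ℝ := min 1 (min (1 / (128 * A)) (1 / (8 * A * C₀))) with hh0
  have hh0pos : 0 < h0 := by
    rw [hh0]
    have : 0 < C₀ := by linarith
    exact lt_min one_pos (lt_min (by positivity) (by positivity))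
  filter_upwards [Ioo_mem_nhdsGT hh0pos] with h hh
  obtain ⟨hh1, hh2⟩ := hh
  have b1 : h ≤ 1 := hh2.le.trans (min_le_left _ _)
  have b2 : h ≤ 1 / (128 * A) := hh2.le.trans ((min_le_right _ _).trans (min_le_left _ _))
  have b3 : h ≤ 1 / (8 * A * C₀) := hh2.le.trans ((min_le_right _ _).trans (min_le_right _ _))
  -- the box
  obtain ⟨N, hN⟩ : ∃ N : ℕ, N = ⌈R / h⌉₊ + 1 := ⟨_, rfl⟩
  have hRh : 0 ≤ R / h := by positivity
  have hN1 : R / h + 1 ≤ N := by
    rw [hN]; push_cast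
    have := Nat.le_ceil (R / h)
    linarith
  have hN2 : (N : ℝ) ≤ R / h + 2 := by
    rw [hN]; push_cast
    have := (Nat.ceil_lt_add_one hRh).le
    linarith
  let I : Finset (Fin k × ℤ × ℤ) :=
    (Finset.univ ×ˢ bx N).filter fun x => 0 < ρ x.1 (gp k h x)
  have hI : ∀ x, x ∈ I ↔ 0 < ρ x.1 (gp k h x) := by
    intro x
    simp only [I, Finset.mem_filter, Finset.mem_product, Finset.mem_univ, true_and]
    exact ⟨fun h => h.2, fun hx => ⟨in_box k hk hh1 N hN1 x (hR _ _ hx), hx⟩⟩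
  have hIb : ∀ x ∈ I, x.2 ∈ bx N := fun x hx =>
    in_box k hk hh1 N hN1 x (hR _ _ ((hI x).1 hx))
  -- the logarithm
  have hlog0 : 0 ≤ Real.log (1 / h) := Real.log_nonneg (by rw [le_div_iff₀ hh1]; linarith)
  have hlog1 : 1 + Real.log (1 / h) ≤ 1 / h := by
    have := Real.log_le_sub_one_of_pos (show 0 < 1 / h by positivity)
    linarith
  have hlogN : Real.log (2 * N) ≤ Real.log (2 * R + 4) + Real.log (1 / h) := by
    rw [← Real.log_mul (by positivity) (by positivity)]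
    apply Real.log_le_log
    · have : (1 : ℝ) ≤ N := by linarith
      linarith
    · have h1 : 2 * (N : ℝ) ≤ 2 * (R / h) + 4 := by linarith
      have h2 : (4 : ℝ) ≤ 4 * (1 / h) := by
        have : 1 ≤ 1 / h := by rw [le_div_iff₀ hh1]; linarith
        linarith
      calc 2 * (N : ℝ) ≤ 2 * (R / h) + 4 * (1 / h) := by linarith
        _ = (2 * R + 4) * (1 / h) := by ring
  have hgr : ∀ x, gr k ρ h x ≤ M * h ^ 2 := fun x =>
    mul_le_mul_of_nonneg_right (hM _ _) (by positivity)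
  have hgr0 : ∀ x, 0 ≤ gr k ρ h x := fun x => mul_nonneg (hρ0 _ _) (by positivity)
  have hsum : ∑ i ∈ I, gr k ρ h i ≤ B := by
    have h1 : (I.card : ℝ) ≤ k * (2 * (N : ℝ) + 1) ^ 2 := by
      have : I.card ≤ k * (2 * N + 1) ^ 2 := by
        calc I.card ≤ ((Finset.univ : Finset (Fin k)) ×ˢ bx N).card := Finset.card_filter_le _ _
          _ = k * (2 * N + 1) ^ 2 := by
              rw [Finset.card_product, card_bx, Finset.card_univ, Fintype.card_fin]
      exact_mod_cast this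
    have h2 : h * (2 * (N : ℝ) + 1) ≤ 2 * R + 5 := by
      have : h * (2 * (N : ℝ) + 1) ≤ h * (2 * (R / h + 2) + 1) :=
        mul_le_mul_of_nonneg_left (by linarith) hh1.le
      have h3 : h * (2 * (R / h + 2) + 1) = 2 * R + 5 * h := by field_simp; ring
      linarith
    calc ∑ i ∈ I, gr k ρ h i ≤ ∑ _i ∈ I, M * h ^ 2 := Finset.sum_le_sum fun x _ => hgr x
      _ = I.card * (M * h ^ 2) := by rw [Finset.sum_const, nsmul_eq_mul]
      _ ≤ (k * (2 * (N : ℝ) + 1) ^ 2) * (M * h ^ 2) :=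
          mul_le_mul_of_nonneg_right h1 (by positivity)
      _ = M * k * (h * (2 * (N : ℝ) + 1)) ^ 2 := by ring
      _ ≤ M * k * (2 * R + 5) ^ 2 := by
          apply mul_le_mul_of_nonneg_left _ (by positivity)
          exact pow_le_pow_left₀ (by positivity) h2 2
  have hΘB : B ≤ C₀ * (1 + Real.log (1 / h)) := by
    have h1 : B ≤ C₀ := by
      have : 0 ≤ M * k ^ 3 * (9 + 8 * Real.log (2 * R + 4)) + 8 * (M * k ^ 3) := by positivity
      linarith
    nlinarith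
  refine ⟨I, hI, ?_⟩
  constructor
  · positivity
  · rw [div_le_one hk0]; linarith
  · exact hApos
  · exact hBpos
  · nlinarith
  · intro i hi
    exact mul_pos ((hI i).1 hi) (by positivity)
  · intro i _
    have : A * (h / k) ^ 2 = M * h ^ 2 := by rw [hA]; field_simp
    rw [this]
    exact hgr i
  · intro i _ j _ hij
    have h1 := key_sep k hk hh1 hij
    have h2 : h / k * 1 ≤ h / k * (dd i j : ℝ) :=
      mul_le_mul_of_nonneg_left (dd_pos i j) (by positivity)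
    linarith
  · intro i hi
    have h1 : sg (gp k h) (gr k ρ h) (I.erase i) (gp k h i) ≤
        ∑ m ∈ I.erase i, (M * k ^ 2) * (1 / (dd i m : ℝ) ^ 2) := by
      unfold sg
      apply Finset.sum_le_sum
      intro m hm
      have hne : i ≠ m := (Finset.ne_of_mem_erase hm).symm
      have h2 := key_sep k hk hh1 hne
      have h3 : 0 < h / k * (dd i m : ℝ) :=
        mul_pos (by positivity) (lt_of_lt_of_le one_pos (dd_pos i m))
      have h4 : (h / k * (dd i m : ℝ)) ^ 2 ≤ ‖gp k h i - gp k h m‖ ^ 2 :=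
        pow_le_pow_left₀ h3.le h2 2
      calc gr k ρ h m / ‖gp k h i - gp k h m‖ ^ 2 ≤ (M * h ^ 2) / (h / k * (dd i m : ℝ)) ^ 2 :=
            div_le_div₀ (by positivity) (hgr m) (by positivity) h4
        _ = (M * k ^ 2) * (1 / (dd i m : ℝ) ^ 2) := by
            have : (dd i m : ℝ) ≠ 0 := (lt_of_lt_of_le one_pos (dd_pos i m)).ne'
            field_simp
    rw [← Finset.mul_sum] at h1
    have h2 := theta_sum k N I hIb hi
    have h3 : (M * k ^ 2) * ∑ m ∈ I.erase i, (1 / (dd i m : ℝ) ^ 2) ≤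
        (M * k ^ 2) * (k * (9 + 8 * Real.log (2 * N))) :=
      mul_le_mul_of_nonneg_left h2 (by positivity)
    have h4 : (M * k ^ 2) * (k * (9 + 8 * Real.log (2 * N))) ≤
        (M * k ^ 2) * (k * (9 + 8 * (Real.log (2 * R + 4) + Real.log (1 / h)))) := by
      gcongr
    have h5 : (M * k ^ 2) * (k * (9 + 8 * (Real.log (2 * R + 4) + Real.log (1 / h)))) =
        M * k ^ 3 * (9 + 8 * Real.log (2 * R + 4)) + 8 * (M * k ^ 3) * Real.log (1 / h) := by
      ring
    have h6 : M * k ^ 3 * (9 + 8 * Real.log (2 * R + 4)) + 8 * (M * k ^ 3) * Real.log (1 / h) ≤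
        C₀ * (1 + Real.log (1 / h)) := by
      have e : C₀ * (1 + Real.log (1 / h)) =
          (M * k ^ 3 * (9 + 8 * Real.log (2 * R + 4)) + 8 * (M * k ^ 3) * Real.log (1 / h)) +
          ((1 + B + 8 * (M * k ^ 3)) + (1 + B + M * k ^ 3 * (9 + 8 * Real.log (2 * R + 4))) *
            Real.log (1 / h)) := by
        rw [hC]; ring
      rw [e]
      have : 0 ≤ (1 + B + 8 * (M * k ^ 3)) +
          (1 + B + M * k ^ 3 * (9 + 8 * Real.log (2 * R + 4))) * Real.log (1 / h) := by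
        positivity
      linarith
    linarith
  · have h1 : sg (gp k h) (gr k ρ h) I w ≤ ∑ i ∈ I, gr k ρ h i := by
      unfold sg
      apply Finset.sum_le_sum
      intro m hm
      have h2 := hw _ _ ((hI m).1 hm)
      exact div_le_self (hgr0 m) (one_le_pow₀ h2)
    linarith
  · exact hsum
  · intro i hi
    exact hw _ _ ((hI i).1 hi)
  · calc 128 * A * (h / k) ≤ 128 * A * h := by
          apply mul_le_mul_of_nonneg_left _ (by positivity)
          exact div_le_self hh1.le hk1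
      _ ≤ 1 := by
          rw [le_div_iff₀ (by positivity)] at b2
          linarith
  · have hC0 : 0 < C₀ := by linarith
    have h1 : (h / k) ^ 2 ≤ h ^ 2 :=
      pow_le_pow_left₀ (by positivity) (div_le_self hh1.le hk1) 2
    calc 8 * A * (C₀ * (1 + Real.log (1 / h))) * (h / k) ^ 2
        ≤ 8 * A * (C₀ * (1 / h)) * h ^ 2 := by gcongr
      _ = 8 * A * C₀ * h := by field_simp
      _ ≤ 1 := by
          rw [le_div_iff₀ (by positivity)] at b3
          linarith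

end Pool.Agent.SV
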