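import Pool.Agent.Helper53.SV.D6
import Pool.Agent.Helper53.SV.D7a
import Pool.Agent.Helper53.SV.D7b
import Pool.Agent.Helper53.SV.D8b
import Pool.Agent.Helper53.SV.D9
import Pool.Agent.Helper53.SV.D13
import Pool.Agent.Helper53.SV.D14a

/-!
# SV-D14: the main transfer theorem
-/

set_option autoImplicit false

open Complex Filter Topology Metric
open scoped ComplexConjugate

namespace Pool.Agent.SV

/-- the complement of the discs of the group `i` -/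
def grpDom (k m : ℕ) (ρ : Fin k → ℂ → ℝ) (grp : Fin k → Fin m) (i : Fin m) (h : ℝ) : Set ℂ :=
  {z | ∀ x : Fin k × ℤ × ℤ, grp x.1 = i → 0 < ρ x.1 (gp k h x) →
    32 * gr k ρ h x < ‖z - gp k h x‖}

private theorem D14_radius {k : ℕ} (ρ : Fin k → ℂ → ℝ) (hρs : ∀ c, HasCompactSupport (ρ c)) :
    ∃ R : ℝ, 1 ≤ R ∧ ∀ c z, 0 < ρ c z → ‖z‖ ≤ R - 1 := by
  have h1 : IsCompact (⋃ c, tsupport (ρ c)) := isCompact_iUnion (fun c => hρs c)
  obtain ⟨C, hC⟩ := h1.isBounded.exists_norm_le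
  refine ⟨max C 0 + 1, by linarith [le_max_right C 0], ?_⟩
  intro c z hz
  have h2 : z ∈ ⋃ c, tsupport (ρ c) :=
    Set.mem_iUnion.2 ⟨c, subset_tsupport _ (Function.mem_support.2 (ne_of_gt hz))⟩
  have h3 := hC z h2
  linarith [le_max_left C 0]

private theorem D14_lim (k : ℕ) (C₀ : ℝ) :
    Tendsto (fun h : ℝ => (C₀ * (1 + Real.log (1 / h))) ^ 8 * (h / k)) (𝓝[>] 0) (𝓝 0) := by
  have h1 : Tendsto (fun h : ℝ => 1 + Real.log (1 / h)) (𝓝[>] 0) atTop := by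
    have h2 : Tendsto (fun h : ℝ => - Real.log h) (𝓝[>] 0) atTop :=
      tendsto_neg_atBot_atTop.comp Real.tendsto_log_nhdsGT_zero
    refine tendsto_atTop_add_const_left _ 1 (h2.congr (fun h => ?_))
    rw [one_div, Real.log_inv]
  have h3 := (Real.tendsto_pow_mul_exp_neg_atTop_nhds_zero 8).comp h1
  have h4 := h3.const_mul (C₀ ^ 8 * Real.exp 1 / k)
  rw [mul_zero] at h4
  refine h4.congr' ?_
  filter_upwards [self_mem_nhdsWithin] with h hh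
  have hh0 : (0 : ℝ) < h := hh
  have h5 : Real.exp (-(1 + Real.log (1 / h))) = Real.exp (-1) * h := by
    rw [neg_add, Real.exp_add, one_div, Real.log_inv, neg_neg, Real.exp_log hh0]
  simp only [Function.comp_apply]
  rw [h5, mul_pow]
  have h6 : Real.exp 1 * Real.exp (-1) = 1 := by rw [← Real.exp_add]; simp
  calc C₀ ^ 8 * Real.exp 1 / k * ((1 + Real.log (1 / h)) ^ 8 * (Real.exp (-1) * h))
      = C₀ ^ 8 * (1 + Real.log (1 / h)) ^ 8 * (h / k) * (Real.exp 1 * Real.exp (-1)) := by ring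
    _ = _ := by rw [h6, mul_one]

theorem MT (hP1 : P1Stmt) (k m : ℕ) (hk : 0 < k) (ρ : Fin k → ℂ → ℝ)
    (hρc : ∀ c, Continuous (ρ c)) (hρ0 : ∀ c z, 0 ≤ ρ c z) (hρs : ∀ c, HasCompactSupport (ρ c))
    (g : Fin k → ℂ → ℂ) (hg : ∀ c, Continuous (g c)) {ε : ℝ} (hε : 0 < ε) (hε1 : ε ≤ 1)
    (hgρ : ∀ c z, ‖g c z‖ ≤ ε * Real.pi * ρ c z)
    (hF : ∀ z, ‖(Real.pi : ℂ)⁻¹ * ∑ c, ∫ ζ, g c ζ / (z - ζ)‖ ≤ 1) (grp : Fin k → Fin m)
    {η : ℝ} (hη : 0 < η) :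
    ∀ᶠ h : ℝ in 𝓝[>] 0, ∃ (F : Fin m → ℂ → ℂ) (a : Fin m → ℂ),
      (∀ i, DifferentiableOn ℂ (F i) (grpDom k m ρ grp i h)) ∧
      (∀ i, ∀ z ∈ grpDom k m ρ grp i h, ‖F i z‖ ≤ 1) ∧
      (∀ i, Tendsto (F i) (cocompact ℂ) (𝓝 0)) ∧
      (∀ i, Tendsto (fun z => z * F i z) (cocompact ℂ) (𝓝 (a i))) ∧
      ‖(Real.pi : ℂ)⁻¹ * ∑ c, ∫ ζ, g c ζ‖ ≤ (1 + ε) * ∑ i, ‖a i‖ + η := by
  obtain ⟨R, hR1, hsupp⟩ := D14_radius ρ hρs
  have hR0 : 0 < R := by linarith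
  set G0 : ℝ := ‖(Real.pi : ℂ)⁻¹ * ∑ c, ∫ ζ, g c ζ‖ with hG0
  have hG00 : 0 ≤ G0 := norm_nonneg _
  -- the small parameter of the upper bound
  obtain ⟨η', hη'0, hη'1, hη'2⟩ : ∃ η' : ℝ, 0 < η' ∧ η' ≤ 1 ∧ η' * (G0 + 1) ≤ η / 4 := by
    refine ⟨min 1 (η / (4 * (G0 + 1))), lt_min one_pos (by positivity), min_le_left _ _, ?_⟩
    have h1 : min 1 (η / (4 * (G0 + 1))) ≤ η / (4 * (G0 + 1)) := min_le_right _ _
    calc min 1 (η / (4 * (G0 + 1))) * (G0 + 1) ≤ η / (4 * (G0 + 1)) * (G0 + 1) :=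
          mul_le_mul_of_nonneg_right h1 (by linarith)
      _ = η / 4 := by field_simp
  -- the point w
  obtain ⟨W, hW1, hW2⟩ : ∃ W : ℝ, 2 * R < W ∧ 48 * ((m : ℝ) + 1) * R ^ 2 / W ≤ η / 4 := by
    refine ⟨max (2 * R + 1) (192 * ((m : ℝ) + 1) * R ^ 2 / η), ?_, ?_⟩
    · linarith [le_max_left (2 * R + 1) (192 * ((m : ℝ) + 1) * R ^ 2 / η)]
    · have hpos : 0 < 192 * ((m : ℝ) + 1) * R ^ 2 / η := by positivity
      rw [div_le_iff₀ (lt_of_lt_of_le hpos (le_max_right _ _))]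
      calc 48 * ((m : ℝ) + 1) * R ^ 2 = η / 4 * (192 * ((m : ℝ) + 1) * R ^ 2 / η) := by
            field_simp
            ring
        _ ≤ _ := mul_le_mul_of_nonneg_left (le_max_right _ _) (by positivity)
  have hW0 : 0 < W := by linarith
  set w : ℂ := (W : ℂ) with hw
  have hnw : ‖w‖ = W := by rw [hw, Complex.norm_real, Real.norm_of_nonneg hW0.le]
  have hwsupp : ∀ c z, 0 < ρ c z → 1 ≤ ‖w - z‖ := by
    intro c z hz
    have h1 := hsupp c z hz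
    have h2 := norm_sub_norm_le w z
    rw [hnw] at h2
    linarith
  obtain ⟨A, B, C₀, hC₀, hdil⟩ := grid_dil k hk ρ hρc hρ0 hρs w hwsupp
  have hup := mt_upper k hk ρ hρc hρ0 g hg hε hε1 hgρ hF hR1 hsupp
    (w := w) (by rw [hnw]; exact hW1) hη'0 hη'1
  obtain ⟨Cs, hCs0, hsub⟩ := sub_dil_many (ι := Fin k × ℤ × ℤ) hP1 m
  set K : ℝ := 3 * (W ^ 2 * (((m : ℝ) + 1) * (50 * A * (B + 1)) + Cs A B)) with hK
  have hlim := (D14_lim k C₀).const_mul K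
  rw [mul_zero] at hlim
  have hlim' : ∀ᶠ h : ℝ in 𝓝[>] 0,
      K * ((C₀ * (1 + Real.log (1 / h))) ^ 8 * (h / k)) ≤ η / 4 :=
    hlim.eventually (ge_mem_nhds (by linarith))
  filter_upwards [hdil, hup, hlim'] with h hdilh huph hlimh
  obtain ⟨I, hI, hD⟩ := hdilh
  set Θ : ℝ := C₀ * (1 + Real.log (1 / h)) with hΘ
  have hδ0 := hD.δ_pos
  have hδ1 := hD.δ_le
  have hA0 := hD.A_pos
  have hB0 := hD.B_pos
  have hΘ1 := hD.Θ_ge
  have herr : 50 * A * (B + 1) * Θ ^ 2 * (h / k) ≤ 50 * A * (B + 1) * (Θ ^ 8 * (h / k)) := by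
    have h1 : Θ ^ 2 ≤ Θ ^ 8 := pow_le_pow_right₀ hΘ1 (by norm_num)
    calc 50 * A * (B + 1) * Θ ^ 2 * (h / k) = 50 * A * (B + 1) * (Θ ^ 2 * (h / k)) := by ring
      _ ≤ _ := mul_le_mul_of_nonneg_left (mul_le_mul_of_nonneg_right h1 hδ0.le) (by positivity)
  -- comparison for a subfamily
  have hcmp : ∀ J ⊆ I, ∃ (c : Config J.card) (S l : ℂ → ℂ),
      c.p = gp k h ∘ enum J ∧ c.r = gr k ρ h ∘ enum J ∧ w ∈ Far c ∧ IsKer c 0 w S l ∧
      (∀ a ∈ Far c, a ≠ w → ‖S a‖ < ‖Lf w l a‖) ∧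
      |(S w).re - (dS (gp k h) (gr k ρ h) J w w).re| ≤
        50 * A * (B + 1) * (Θ ^ 8 * (h / k)) := by
    intro J hJ
    obtain ⟨c, hcp, hcr, hcw, -⟩ := dil_config hD hJ
    obtain ⟨S, l, hS, hSl, -⟩ := hP1 J.card c
    refine ⟨c, S w, l w, hcp, hcr, hcw, hS w hcw, fun a ha haw => hSl a ha w hcw haw, ?_⟩
    have h1 := (dil_compare hD hJ c hcp hcr (a := w) (b := w) (Or.inl rfl) (Or.inl rfl)
      (hS w hcw) (hS w hcw)).1
    have h2 : |(S w w).re - (dS (gp k h) (gr k ρ h) J w w).re| ≤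
        ‖S w w - dS (gp k h) (gr k ρ h) J w w‖ := by
      rw [← Complex.sub_re]
      exact Complex.abs_re_le_norm _
    exact h2.trans (h1.trans herr)
  obtain ⟨cI, SI, lI, hcIp, hcIr, -, hKI, -, hcI⟩ := hcmp I (Finset.Subset.refl I)
  have hupper := huph I hI cI hcIp hcIr SI lI hKI
  have hgroup : ∀ i : Fin m, ∃ (F : ℂ → ℂ) (a : ℂ),
      DifferentiableOn ℂ F (grpDom k m ρ grp i h) ∧
      (∀ z ∈ grpDom k m ρ grp i h, ‖F z‖ ≤ 1) ∧ Tendsto F (cocompact ℂ) (𝓝 0) ∧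
      Tendsto (fun z => z * F z) (cocompact ℂ) (𝓝 a) ∧
      W ^ 2 * (dS (gp k h) (gr k ρ h) (I.filter (fun x => grp x.1 = i)) w w).re ≤
        ‖a‖ + 16 * R ^ 2 / W + W ^ 2 * (50 * A * (B + 1) * (Θ ^ 8 * (h / k))) := by
    intro i
    obtain ⟨c, S, l, hcp, hcr, hcw, hKer, hpos, hc⟩ :=
      hcmp (I.filter (fun x => grp x.1 = i)) (Finset.filter_subset _ _)
    have hmem : ∀ j, enum (I.filter (fun x => grp x.1 = i)) j ∈ I ∧
        grp (enum (I.filter (fun x => grp x.1 = i)) j).1 = i := by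
      intro j
      have h1 : enum (I.filter (fun x => grp x.1 = i)) j ∈ I.filter (fun x => grp x.1 = i) :=
        ((I.filter (fun x => grp x.1 = i)).equivFin.symm j).2
      exact Finset.mem_filter.1 h1
    have hR' : ∀ j, ‖c.p j‖ + 32 * c.r j ≤ R := by
      intro j
      rw [hcp, hcr]
      simp only [Function.comp_apply]
      have h1 := (hmem j).1
      have h2 := hsupp _ _ ((hI _).1 h1)
      have h3 := hD.r_le _ h1
      have h4 := hD.small1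
      have h5 : A * (h / k) ^ 2 ≤ A * (h / k) := by
        have h6 : (h / k) ^ 2 ≤ h / k := by nlinarith
        exact mul_le_mul_of_nonneg_left h6 hA0.le
      linarith
    obtain ⟨F, a, hF1, hF2, hF3, hF4, hF5⟩ := ahlfors_like c hcw hKer hpos hR0 hR'
      (by rw [hnw]; exact hW1)
    have hdom : grpDom k m ρ grp i h ⊆ Far c := by
      intro z hz j
      rw [hcp, hcr]
      simp only [Function.comp_apply]
      exact hz _ (hmem j).2 ((hI _).1 (hmem j).1)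
    refine ⟨F, a, hF1.mono hdom, fun z hz => hF2 z (hdom hz), hF3, hF4, ?_⟩
    rw [hnw] at hF5
    have h7 := (abs_le.1 hc).1
    have h8 : W ^ 2 * (dS (gp k h) (gr k ρ h) (I.filter (fun x => grp x.1 = i)) w w).re ≤
        W ^ 2 * ((S w).re + 50 * A * (B + 1) * (Θ ^ 8 * (h / k))) :=
      mul_le_mul_of_nonneg_left (by linarith) (by positivity)
    linarith
  choose F a hF1 hF2 hF3 hF4 hF5 using hgroup
  refine ⟨F, a, hF1, hF2, hF3, hF4, ?_⟩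
  by_cases hcase : G0 ≤ ∑ i, ‖a i‖
  · have h1 : 0 ≤ ε * ∑ i, ‖a i‖ := mul_nonneg hε.le (Finset.sum_nonneg fun i _ => norm_nonneg _)
    linarith
  push Not at hcase
  have hsubI := hsub (gp k h) (gr k ρ h) I w (h / k) A B Θ hD (fun x => grp x.1)
  have hsum : W ^ 2 * ∑ i, (dS (gp k h) (gr k ρ h) (I.filter (fun x => grp x.1 = i)) w w).re ≤
      ∑ i, ‖a i‖ + (m : ℝ) * (16 * R ^ 2 / W) +
        (m : ℝ) * (W ^ 2 * (50 * A * (B + 1) * (Θ ^ 8 * (h / k)))) := by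
    rw [Finset.mul_sum]
    refine (Finset.sum_le_sum fun i _ => hF5 i).trans (le_of_eq ?_)
    rw [Finset.sum_add_distrib, Finset.sum_add_distrib]
    simp
  have hSI : W ^ 2 * (SI w).re ≤ W ^ 2 * ((dS (gp k h) (gr k ρ h) I w w).re +
      50 * A * (B + 1) * (Θ ^ 8 * (h / k))) :=
    mul_le_mul_of_nonneg_left (by linarith [(abs_le.1 hcI).2]) (by positivity)
  have hsubI' : W ^ 2 * (dS (gp k h) (gr k ρ h) I w w).re ≤ W ^ 2 *
      (∑ i, (dS (gp k h) (gr k ρ h) (I.filter (fun x => grp x.1 = i)) w w).re +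
        Cs A B * Θ ^ 8 * (h / k)) :=
    mul_le_mul_of_nonneg_left hsubI (by positivity)
  have hX : W ^ 2 * (SI w).re ≤ ∑ i, ‖a i‖ + (m : ℝ) * (16 * R ^ 2 / W) +
      W ^ 2 * (((m : ℝ) + 1) * (50 * A * (B + 1)) + Cs A B) * (Θ ^ 8 * (h / k)) := by
    linarith [hsum, hSI, hsubI']
  rw [hnw] at hupper
  have hcoef : 0 < 1 + ε + η' := by linarith
  have h9 : (1 + ε + η') * (W ^ 2 * (SI w).re) ≤ (1 + ε + η') * (∑ i, ‖a i‖ +
      (m : ℝ) * (16 * R ^ 2 / W) +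
      W ^ 2 * (((m : ℝ) + 1) * (50 * A * (B + 1)) + Cs A B) * (Θ ^ 8 * (h / k))) :=
    mul_le_mul_of_nonneg_left hX hcoef.le
  have hY0 : 0 ≤ (m : ℝ) * (16 * R ^ 2 / W) +
      W ^ 2 * (((m : ℝ) + 1) * (50 * A * (B + 1)) + Cs A B) * (Θ ^ 8 * (h / k)) := by
    have := hCs0 A B
    positivity
  have h10 : (1 + ε + η') * ((m : ℝ) * (16 * R ^ 2 / W) +
      W ^ 2 * (((m : ℝ) + 1) * (50 * A * (B + 1)) + Cs A B) * (Θ ^ 8 * (h / k))) ≤
      3 * ((m : ℝ) * (16 * R ^ 2 / W) +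
      W ^ 2 * (((m : ℝ) + 1) * (50 * A * (B + 1)) + Cs A B) * (Θ ^ 8 * (h / k))) :=
    mul_le_mul_of_nonneg_right (by linarith) hY0
  have h11 : 3 * ((m : ℝ) * (16 * R ^ 2 / W)) + 48 * R ^ 2 / W ≤ η / 4 := by
    refine le_trans (le_of_eq ?_) hW2
    field_simp
    ring
  have h12 : 3 * (W ^ 2 * (((m : ℝ) + 1) * (50 * A * (B + 1)) + Cs A B) * (Θ ^ 8 * (h / k)))
      ≤ η / 4 := by
    refine le_trans (le_of_eq ?_) hlimh
    rw [hK]
    ring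
  have h13 : η' * ∑ i, ‖a i‖ ≤ η' * G0 := mul_le_mul_of_nonneg_left hcase.le hη'0.le
  linarith [h9, h10, h11, h12, h13, hupper, hη'2]

end Pool.Agent.SV
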