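import Pool.Agent.Helper53.SV.Defs

/-!
The complement of finitely many disjoint discs (and of one more point) is connected.
-/

set_option autoImplicit false

open Complex Filter Topology Metric

namespace Pool.Agent.SV

variable {N : ℕ}

/-- radial push -/
private noncomputable def push (c : Config N) (s : Fin N → ℝ) (z : ℂ) : ℂ :=
  z + ∑ i, ((((max ‖z - c.p i‖ (s i) - ‖z - c.p i‖) / ‖z - c.p i‖ : ℝ)) : ℂ) * (z - c.p i)

private lemma push_outside (c : Config N) (s : Fin N → ℝ) (z : ℂ)
    (hz : ∀ i, s i ≤ ‖z - c.p i‖) : push c s z = z := by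
  unfold push
  rw [Finset.sum_eq_zero, add_zero]
  intro i _
  rw [max_eq_left (hz i)]
  simp

private lemma other_disc (c : Config N) (s : Fin N → ℝ) (hs2 : ∀ i, s i < 64 * c.r i)
    {i k : Fin N} (hik : i ≠ k) (z : ℂ) (hz : ‖z - c.p k‖ ≤ s k) : s i < ‖z - c.p i‖ := by
  have h1 := c.sep i k hik
  have h2 : ‖c.p i - c.p k‖ ≤ ‖z - c.p i‖ + ‖z - c.p k‖ := by
    have : c.p i - c.p k = (z - c.p k) - (z - c.p i) := by ring
    rw [this]
    linarith [norm_sub_le (z - c.p k) (z - c.p i)]
  have h3 := hs2 i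
  have h4 := hs2 k
  linarith

private lemma push_inside (c : Config N) (s : Fin N → ℝ) (hs2 : ∀ i, s i < 64 * c.r i) (k : Fin N)
    (z : ℂ) (hz : ‖z - c.p k‖ < s k) (hz0 : z ≠ c.p k) : ‖push c s z - c.p k‖ = s k := by
  have hne : z - c.p k ≠ 0 := sub_ne_zero.mpr hz0
  have hpos : 0 < ‖z - c.p k‖ := norm_pos_iff.mpr hne
  have h1 : push c s z = z + ((((s k - ‖z - c.p k‖) / ‖z - c.p k‖ : ℝ)) : ℂ) * (z - c.p k) := by
    unfold push
    rw [Finset.sum_eq_single k]
    · rw [max_eq_right hz.le]
    · intro i _ hik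
      have := other_disc c s hs2 hik z hz.le
      rw [max_eq_left this.le]
      simp
    · intro h; exact absurd (Finset.mem_univ k) h
  have h2 : push c s z - c.p k = ((s k / ‖z - c.p k‖ : ℝ) : ℂ) * (z - c.p k) := by
    rw [h1]
    have : ((s k / ‖z - c.p k‖ : ℝ) : ℂ)
        = 1 + ((((s k - ‖z - c.p k‖) / ‖z - c.p k‖ : ℝ)) : ℂ) := by
      rw [← Complex.ofReal_one, ← Complex.ofReal_add]
      congr 1
      field_simp
      ring
    rw [this]
    ring
  rw [h2, norm_mul, Complex.norm_real, Real.norm_eq_abs, abs_of_pos (div_pos (by linarith) hpos)]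
  field_simp

private lemma push_continuousOn (c : Config N) (s : Fin N → ℝ) :
    ContinuousOn (push c s) {z | ∀ i, z ≠ c.p i} := by
  unfold push
  refine continuousOn_id.add (continuousOn_finsetSum _ fun i _ => ?_)
  have h1 : ContinuousOn (fun z : ℂ => ‖z - c.p i‖) {z | ∀ i, z ≠ c.p i} :=
    (continuous_norm.comp (continuous_id.sub continuous_const)).continuousOn
  refine ContinuousOn.mul ?_ (continuous_id.sub continuous_const).continuousOn
  refine Complex.continuous_ofReal.comp_continuousOn ?_
  refine ContinuousOn.div ?_ h1 ?_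
  · exact (h1.sup continuousOn_const).sub h1
  · intro z hz
    exact (norm_pos_iff.mpr (sub_ne_zero.mpr (hz i))).ne'

theorem far_connected (c : Config N) (b : ℂ) : IsPreconnected (Far c \ {b}) := by
  classical
  refine isPreconnected_of_forall_pair fun x hx y hy => ?_
  -- the radii
  have hm : ∀ i, 32 * c.r i < min (min (64 * c.r i) (min ‖x - c.p i‖ ‖y - c.p i‖))
      (if b ∈ Far c then ‖b - c.p i‖ else 64 * c.r i) := by
    intro i
    have h0 := c.hr i
    refine lt_min (lt_min (by linarith) (lt_min (hx.1 i) (hy.1 i))) ?_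
    split_ifs with hb
    · exact hb i
    · linarith
  choose s hs1 hs using fun i => exists_between (hm i)
  have hs2 : ∀ i, s i < 64 * c.r i := fun i =>
    lt_of_lt_of_le (hs i) (le_trans (min_le_left _ _) (min_le_left _ _))
  have hsx : ∀ i, s i ≤ ‖x - c.p i‖ := fun i =>
    (lt_of_lt_of_le (hs i) (le_trans (min_le_left _ _)
      (le_trans (min_le_right _ _) (min_le_left _ _)))).le
  have hsy : ∀ i, s i ≤ ‖y - c.p i‖ := fun i =>
    (lt_of_lt_of_le (hs i) (le_trans (min_le_left _ _)
      (le_trans (min_le_right _ _) (min_le_right _ _)))).le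
  have hsb : b ∈ Far c → ∀ i, s i < ‖b - c.p i‖ := by
    intro hb i
    have := lt_of_lt_of_le (hs i) (min_le_right _ _)
    rwa [if_pos hb] at this
  have hspos : ∀ i, 0 < s i := fun i => by
    have := hs1 i
    have := c.hr i
    linarith
  set F : Set ℂ := Set.range c.p ∪ {b} with hF
  have hFc : F.Countable := ((Set.finite_range c.p).union (Set.finite_singleton b)).countable
  have hconn : IsPreconnected Fᶜ := by
    have hrank : 1 < Module.rank ℝ ℂ := by
      rw [Complex.rank_real_complex]
      exact Nat.one_lt_ofNat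
    exact (hFc.isPathConnected_compl_of_one_lt_rank hrank).isConnected.isPreconnected
  have hsub : Fᶜ ⊆ {z | ∀ i, z ≠ c.p i} := by
    intro z hz i hcon
    exact hz (Or.inl ⟨i, hcon.symm⟩)
  have himage := hconn.image (push c s) ((push_continuousOn c s).mono hsub)
  have hmem : ∀ z, z ∉ F → push c s z ∈ {w | ∀ i, s i ≤ ‖w - c.p i‖} \ {b} := by
    intro z hz
    have hz0 : ∀ i, z ≠ c.p i := hsub hz
    have hzb : z ≠ b := fun hcon => hz (Or.inr hcon)
    by_cases hin : ∃ k, ‖z - c.p k‖ < s k
    · obtain ⟨k, hk⟩ := hin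
      have h1 := push_inside c s hs2 k z hk (hz0 k)
      refine ⟨fun i => ?_, fun hcon => ?_⟩
      · by_cases hik : i = k
        · rw [hik]; exact h1.ge
        · exact (other_disc c s hs2 hik _ h1.le).le
      · have hcon' : push c s z = b := hcon
        rw [hcon'] at h1
        have hbFar : b ∈ Far c := by
          intro i
          by_cases hik : i = k
          · rw [hik, h1]; exact hs1 k
          · exact lt_trans (hs1 i) (other_disc c s hs2 hik _ h1.le)
        have := hsb hbFar k
        linarith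
    · push Not at hin
      rw [push_outside c s z hin]
      exact ⟨hin, hzb⟩
  refine ⟨push c s '' Fᶜ, ?_, ?_, ?_, himage⟩
  · rintro w ⟨z, hz, rfl⟩
    obtain ⟨h1, h2⟩ := hmem z hz
    exact ⟨fun i => lt_of_lt_of_le (hs1 i) (h1 i), h2⟩
  · refine ⟨x, ?_, push_outside c s x hsx⟩
    rintro (⟨i, hi⟩ | hb)
    · have := hsx i
      rw [← hi, sub_self, norm_zero] at this
      linarith [hspos i]
    · exact hx.2 hb
  · refine ⟨y, ?_, push_outside c s y hsy⟩
    rintro (⟨i, hi⟩ | hb)
    · have := hsy i
      rw [← hi, sub_self, norm_zero] at this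
      linarith [hspos i]
    · exact hy.2 hb

end Pool.Agent.SV
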