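import Pool.Agent.Helper53.SV.Defs

/-!
# SV-TH1: summability of the theta series
-/

set_option autoImplicit false

open Complex Filter Topology Metric
open scoped ComplexConjugate

namespace Pool.Agent.SV

variable {N : ℕ}

private lemma th1_one {κ : ℝ} (hκ : 0 < κ) (C : ℝ) :
    Summable (fun n : ℤ => Real.exp (-κ * (n : ℝ) ^ 2 + C * |(n : ℝ)|)) := by
  have hg : Summable (fun n : ℕ => Real.exp (-1) ^ n) :=
    summable_geometric_of_lt_one (Real.exp_pos _).le (by rw [Real.exp_lt_one_iff]; norm_num)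
  have hexp : Summable (fun n : ℤ => Real.exp ((C + 1) ^ 2 / (4 * κ)) * Real.exp (-|(n : ℝ)|)) := by
    apply Summable.mul_left
    apply Summable.of_nat_of_neg
    · refine hg.congr fun n => ?_
      rw [← Real.exp_nat_mul]
      congr 1
      simp
    · refine hg.congr fun n => ?_
      rw [← Real.exp_nat_mul]
      congr 1
      simp
  refine Summable.of_nonneg_of_le (fun _ => (Real.exp_pos _).le) (fun n => ?_) hexp
  rw [← Real.exp_add, Real.exp_le_exp]
  set t := |(n : ℝ)| with ht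
  have h1 : (n : ℝ) ^ 2 = t ^ 2 := by rw [ht, sq_abs]
  rw [h1]
  have h2 : 0 ≤ (2 * κ * t - (C + 1)) ^ 2 / (4 * κ) := by positivity
  have h3 : (2 * κ * t - (C + 1)) ^ 2 / (4 * κ) =
      κ * t ^ 2 - (C + 1) * t + (C + 1) ^ 2 / (4 * κ) := by
    field_simp
    ring
  rw [h3] at h2
  linarith

private lemma th1_prod {f : ℤ → ℝ} (hf0 : ∀ n, 0 ≤ f n) (hf : Summable f) (N : ℕ) :
    Summable (fun m : Fin N → ℤ => ∏ j, f (m j)) := by
  classical
  refine summable_of_sum_le (c := (∑' n, f n) ^ N) (fun m => Finset.prod_nonneg fun j _ => hf0 _)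
    fun u => ?_
  have hsub : u ⊆ Fintype.piFinset (fun j : Fin N => u.image (fun m => m j)) := by
    intro m hm
    rw [Fintype.mem_piFinset]
    intro j
    exact Finset.mem_image_of_mem _ hm
  calc ∑ m ∈ u, ∏ j, f (m j)
      ≤ ∑ m ∈ Fintype.piFinset (fun j : Fin N => u.image (fun m => m j)), ∏ j, f (m j) :=
        Finset.sum_le_sum_of_subset_of_nonneg hsub fun m _ _ =>
          Finset.prod_nonneg fun j _ => hf0 _
    _ = ∏ j : Fin N, ∑ n ∈ u.image (fun m => m j), f n := (Finset.prod_univ_sum _ _).symm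
    _ ≤ ∏ _j : Fin N, ∑' n, f n := by
        apply Finset.prod_le_prod
        · intro j _
          exact Finset.sum_nonneg fun n _ => hf0 n
        · intro j _
          exact hf.sum_le_tsum _ fun n _ => hf0 n
    _ = _ := by simp

private lemma th1_bound {b : Fin N → Fin N → ℝ} {κ : ℝ}
    (hκ : ∀ v : Fin N → ℝ, ∑ j, v j = 0 → qf b v ≤ - κ * ∑ j, v j ^ 2) (hκ0 : 0 < κ) (i : Fin N)
    (s : ℤ) : ∃ C : ℝ, ∀ m : Fin N → ℤ, ∑ j, m j = s →
      qz b m ≤ - κ * ∑ j, (m j : ℝ) ^ 2 + C * absz m + C := by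
  classical
  set B : ℝ := ∑ k, (|b i k| + |b k i|) with hB
  have hB0 : 0 ≤ B := Finset.sum_nonneg fun k _ => by positivity
  have hBk : ∀ k, |b i k| + |b k i| ≤ B := fun k =>
    Finset.single_le_sum (f := fun k => |b i k| + |b k i|) (fun k _ => by positivity)
      (Finset.mem_univ k)
  refine ⟨|(s : ℝ)| * B + 2 * κ * |(s : ℝ)| + (s : ℝ) ^ 2 * (|b i i| + B), fun m hm => ?_⟩
  set e : Fin N → ℝ := Pi.single i 1 with he
  set v : Fin N → ℝ := fun j => (m j : ℝ) - s * e j with hv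
  have hesum : ∑ j, e j = 1 := by
    rw [he]
    simp [Finset.sum_pi_single']
  have hmR : ∑ j, (m j : ℝ) = s := by exact_mod_cast congrArg (Int.cast (R := ℝ)) hm
  have hvsum : ∑ j, v j = 0 := by
    rw [hv]
    rw [Finset.sum_sub_distrib, ← Finset.mul_sum, hesum, hmR]
    ring
  have h1 := hκ v hvsum
  -- expand the quadratic form
  have hexp : qz b m = qf b v + s * (∑ k, (m k : ℝ) * (b i k + b k i)) / 2 -
      (s : ℝ) ^ 2 * b i i / 2 := by
    have hq1 : ∑ j, ∑ k, v j * v k * b j k = ∑ j, ∑ k, (m j : ℝ) * m k * b j k -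
        s * (∑ k, (m k : ℝ) * b i k) - s * (∑ j, (m j : ℝ) * b j i) + (s : ℝ) ^ 2 * b i i := by
      have t1 : ∀ j, ∑ k, v j * v k * b j k = ∑ k, (m j : ℝ) * m k * b j k -
          s * e j * ∑ k, (m k : ℝ) * b j k - s * (m j : ℝ) * b j i + (s : ℝ) ^ 2 * e j * b j i := by
        intro j
        have t2 : ∑ k, v j * v k * b j k = ∑ k, ((m j : ℝ) * m k * b j k -
            s * e j * ((m k : ℝ) * b j k) - s * (m j : ℝ) * (e k * b j k) +
            (s : ℝ) ^ 2 * e j * (e k * b j k)) := by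
          refine Finset.sum_congr rfl fun k _ => ?_
          rw [hv]
          ring
        rw [t2, Finset.sum_add_distrib, Finset.sum_sub_distrib, Finset.sum_sub_distrib,
          ← Finset.mul_sum, ← Finset.mul_sum, ← Finset.mul_sum]
        have t3 : ∑ k, e k * b j k = b j i := by
          rw [he]
          simp [Pi.single_apply]
        rw [t3]
      rw [Finset.sum_congr rfl fun j _ => t1 j, Finset.sum_add_distrib, Finset.sum_sub_distrib,
        Finset.sum_sub_distrib]
      have t4 : ∑ j, s * e j * ∑ k, (m k : ℝ) * b j k = s * ∑ k, (m k : ℝ) * b i k := by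
        rw [he]
        simp [Pi.single_apply]
      have t5 : ∑ j, (s : ℝ) ^ 2 * e j * b j i = (s : ℝ) ^ 2 * b i i := by
        rw [he]
        simp [Pi.single_apply]
      have t6 : ∑ j, (s : ℝ) * (m j : ℝ) * b j i = s * ∑ j, (m j : ℝ) * b j i := by
        rw [Finset.mul_sum]
        exact Finset.sum_congr rfl fun j _ => by ring
      rw [t4, t5, t6]
    unfold qz qf
    rw [hq1]
    have : ∑ k, (m k : ℝ) * (b i k + b k i) =
        ∑ k, (m k : ℝ) * b i k + ∑ k, (m k : ℝ) * b k i := by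
      rw [← Finset.sum_add_distrib]
      exact Finset.sum_congr rfl fun k _ => by ring
    rw [this]
    ring
  have hsq : ∑ j, v j ^ 2 = ∑ j, (m j : ℝ) ^ 2 - 2 * s * m i + (s : ℝ) ^ 2 := by
    have t1 : ∑ j, v j ^ 2 = ∑ j, ((m j : ℝ) ^ 2 - 2 * s * (e j * m j) +
        (s : ℝ) ^ 2 * (e j * e j)) := by
      refine Finset.sum_congr rfl fun k _ => ?_
      rw [hv]
      ring
    rw [t1, Finset.sum_add_distrib, Finset.sum_sub_distrib, ← Finset.mul_sum, ← Finset.mul_sum]
    have t2 : ∑ k, e k * (m k : ℝ) = m i := by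
      rw [he]
      simp [Pi.single_apply]
    have t3 : ∑ k, e k * e k = 1 := by
      rw [he]
      simp [Pi.single_apply]
    rw [t2, t3]
    ring
  have habs : |(m i : ℝ)| ≤ absz m := by
    unfold absz
    exact Finset.single_le_sum (f := fun j => |(m j : ℝ)|) (fun _ _ => abs_nonneg _)
      (Finset.mem_univ i)
  have habs0 : 0 ≤ absz m := Finset.sum_nonneg fun _ _ => abs_nonneg _
  have hcross : |∑ k, (m k : ℝ) * (b i k + b k i)| ≤ B * absz m := by
    refine (Finset.abs_sum_le_sum_abs _ _).trans ?_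
    unfold absz
    rw [Finset.mul_sum]
    refine Finset.sum_le_sum fun k _ => ?_
    rw [abs_mul, mul_comm]
    refine mul_le_mul_of_nonneg_right ?_ (abs_nonneg _)
    exact (abs_add_le _ _).trans (hBk k)
  have hc2 : s * (∑ k, (m k : ℝ) * (b i k + b k i)) / 2 ≤ |(s : ℝ)| * B * absz m := by
    have h3 : (s : ℝ) * (∑ k, (m k : ℝ) * (b i k + b k i)) ≤
        |(s : ℝ)| * |∑ k, (m k : ℝ) * (b i k + b k i)| := by
      rw [← abs_mul]
      exact le_abs_self _
    have h4 : |(s : ℝ)| * |∑ k, (m k : ℝ) * (b i k + b k i)| ≤ |(s : ℝ)| * (B * absz m) :=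
      mul_le_mul_of_nonneg_left hcross (abs_nonneg _)
    have h5 : 0 ≤ |(s : ℝ)| * (B * absz m) := by positivity
    nlinarith
  have hc3 : -((s : ℝ) ^ 2 * b i i / 2) ≤ (s : ℝ) ^ 2 * (|b i i| + B) := by
    have h3 : -(b i i) ≤ |b i i| := neg_le_abs _
    have h4 : 0 ≤ (s : ℝ) ^ 2 := sq_nonneg _
    have h5 : 0 ≤ |b i i| := abs_nonneg _
    nlinarith [mul_nonneg h4 hB0, mul_nonneg h4 h5, mul_le_mul_of_nonneg_left h3 h4]
  have hc4 : 2 * (s : ℝ) * m i ≤ 2 * |(s : ℝ)| * absz m := by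
    have h3 : (s : ℝ) * m i ≤ |(s : ℝ)| * |(m i : ℝ)| := by
      rw [← abs_mul]; exact le_abs_self _
    have h4 : |(s : ℝ)| * |(m i : ℝ)| ≤ |(s : ℝ)| * absz m :=
      mul_le_mul_of_nonneg_left habs (abs_nonneg _)
    linarith
  rw [hexp]
  rw [hsq] at h1
  have h6 : κ * (2 * (s : ℝ) * m i) ≤ κ * (2 * |(s : ℝ)| * absz m) :=
    mul_le_mul_of_nonneg_left hc4 hκ0.le
  have h7 : 0 ≤ κ * (s : ℝ) ^ 2 := by positivity
  have h8 : 0 ≤ |(s : ℝ)| * B + 2 * κ * |(s : ℝ)| := by positivity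
  have h9 : 0 ≤ (s : ℝ) ^ 2 * (|b i i| + B) * absz m := by positivity
  nlinarith

theorem theta_summable {b : Fin N → Fin N → ℝ} (hb : NegDef b) (s : ℤ) (C : ℝ) :
    Summable (fun m : Lam N s => Real.exp (qz b m.1 + C * absz m.1)) := by
  classical
  obtain ⟨κ, hκ0, hκ⟩ := hb
  rcases Nat.eq_zero_or_pos N with hN | hN
  · subst hN
    have : Subsingleton (Lam 0 s) := ⟨fun a b => Subtype.ext (Subsingleton.elim _ _)⟩
    have : Finite (Lam 0 s) := Finite.of_subsingleton
    exact Summable.of_finite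
  · obtain ⟨C1, hC1⟩ := th1_bound hκ hκ0 (⟨0, hN⟩ : Fin N) s
    have h1 := (th1_prod (fun n => (Real.exp_pos _).le) (th1_one hκ0 (C + C1)) N).mul_left
      (Real.exp C1)
    have h2 := h1.comp_injective (i := fun m : Lam N s => m.1) Subtype.val_injective
    refine Summable.of_nonneg_of_le (fun _ => (Real.exp_pos _).le) (fun m => ?_) h2
    have h3 := hC1 m.1 m.2
    simp only [Function.comp_def]
    rw [← Real.exp_sum, ← Real.exp_add, Real.exp_le_exp, Finset.sum_add_distrib,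
      ← Finset.mul_sum, ← Finset.mul_sum]
    have : absz m.1 = ∑ j, |(m.1 j : ℝ)| := rfl
    rw [← this]
    linarith

end Pool.Agent.SV
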