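import Pool.Agent.Helper53.SV.Reg
import Pool.Agent.Helper53.SV.TH1

/-!
# SV-K1a: regularity of the series of functions
-/

set_option autoImplicit false

open Complex Filter Topology Metric
open scoped ComplexConjugate

namespace Pool.Agent.SV

variable {N : ℕ}

theorem reg_const (c : Config N) (a : ℂ) : Reg c (fun _ => a) a :=
  ⟨differentiableOn_const a, continuousOn_const, tendsto_const_nhds⟩

private lemma k1a_sub_ne {c : Config N} {z : ℂ} (hz : z ∈ Omc c) (k : Fin N) : z - c.p k ≠ 0 := by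
  have h1 := hz k
  have h2 := c.hr k
  rw [← norm_pos_iff]
  linarith

/-- `1 / (z - p_k)` is regular and tends to zero -/
theorem reg_inv (c : Config N) (k : Fin N) : Reg c (fun z => (z - c.p k)⁻¹) 0 := by
  have hne : ∀ z ∈ Omc c, z - c.p k ≠ 0 := fun z hz => k1a_sub_ne hz k
  refine ⟨?_, ?_, ?_⟩
  · intro z hz
    have h1 : DifferentiableAt ℂ (fun z : ℂ => z - c.p k) z := by fun_prop
    exact (h1.inv (hne z (Om_subset_Omc c hz))).differentiableWithinAt
  · intro z hz
    exact ((continuousAt_id.sub continuousAt_const).inv₀ (hne z hz)).continuousWithinAt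
  · have h1 : Tendsto (fun z : ℂ => z - c.p k) (cocompact ℂ) (cocompact ℂ) := by
      have := (Homeomorph.subRight (c.p k)).isClosedEmbedding.tendsto_cocompact
      exact this
    rw [← Metric.cobounded_eq_cocompact] at h1 ⊢
    exact Filter.tendsto_inv₀_cobounded.comp h1

private lemma reg_pow {c : Config N} {f : ℂ → ℂ} (hf : Reg c f 1) (n : ℕ) :
    Reg c (fun z => f z ^ n) 1 := by
  induction n with
  | zero => simpa using reg_const c 1
  | succ n ih =>
    have := ih.mul hf
    rw [one_mul] at this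
    refine this.congr fun z _ => ?_
    rw [pow_succ]

private lemma reg_zpow {c : Config N} {f g : ℂ → ℂ} (hf : Reg c f 1) (hg : Reg c g 1)
    (hfg : ∀ z ∈ Omc c, f z * g z = 1) (n : ℤ) : Reg c (fun z => f z ^ n) 1 := by
  rcases Int.eq_nat_or_neg n with ⟨k, rfl | rfl⟩
  · refine (reg_pow hf k).congr fun z _ => ?_
    rw [zpow_natCast]
  · refine (reg_pow hg k).congr fun z hz => ?_
    rw [zpow_neg, zpow_natCast, ← inv_pow, inv_eq_of_mul_eq_one_right (hfg z hz)]

private lemma reg_prod {c : Config N} {ι : Type*} (s : Finset ι) {f : ι → ℂ → ℂ}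
    (hf : ∀ i, Reg c (f i) 1) : Reg c (fun z => ∏ i ∈ s, f i z) 1 := by
  classical
  induction s using Finset.induction_on with
  | empty => simpa using reg_const c 1
  | insert i s hi ih =>
    have := (hf i).mul ih
    rw [one_mul] at this
    refine this.congr fun z _ => ?_
    rw [Finset.prod_insert hi]

/-- the normalised function `φ_j(z) / (z - p_k)` -/
private noncomputable def chi {c : Config N} (D : FunData c) (k j : Fin N) (z : ℂ) : ℂ :=
  (1 + (c.p k - c.p j) * (z - c.p k)⁻¹) * exp (D.E j z)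

private noncomputable def chi' {c : Config N} (D : FunData c) (k j : Fin N) (z : ℂ) : ℂ :=
  (1 + (c.p j - c.p k) * (z - c.p j)⁻¹) * exp (-1 * D.E j z)

private lemma chi_reg {c : Config N} (D : FunData c) (k j : Fin N) : Reg c (chi D k j) 1 := by
  have h1 := (reg_inv c k).const_mul (c.p k - c.p j)
  have h2 := ((reg_const c 1).add h1).mul (D.hE j).exp
  have e : (1 + (c.p k - c.p j) * 0) * Complex.exp 0 = 1 := by simp
  rw [e] at h2
  exact h2

private lemma chi'_reg {c : Config N} (D : FunData c) (k j : Fin N) : Reg c (chi' D k j) 1 := by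
  have h1 := (reg_inv c j).const_mul (c.p j - c.p k)
  have h2 := ((reg_const c 1).add h1).mul ((D.hE j).const_mul (-1)).exp
  have e : (1 + (c.p j - c.p k) * 0) * Complex.exp (-1 * 0) = 1 := by simp
  rw [e] at h2
  exact h2

private lemma chi_mul {c : Config N} (D : FunData c) (k j : Fin N) {z : ℂ} (hz : z ∈ Omc c) :
    chi D k j z * chi' D k j z = 1 := by
  have h1 := k1a_sub_ne hz k
  have h2 := k1a_sub_ne hz j
  have h3 : exp (D.E j z) * exp (-1 * D.E j z) = 1 := by
    rw [← Complex.exp_add]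
    simp
  have h4 : (1 + (c.p k - c.p j) * (z - c.p k)⁻¹) * (1 + (c.p j - c.p k) * (z - c.p j)⁻¹) = 1 := by
    field_simp
    ring
  unfold chi chi'
  calc _ = ((1 + (c.p k - c.p j) * (z - c.p k)⁻¹) * (1 + (c.p j - c.p k) * (z - c.p j)⁻¹)) *
      (exp (D.E j z) * exp (-1 * D.E j z)) := by ring
    _ = 1 := by rw [h3, h4, mul_one]

private lemma phi_eq {c : Config N} (D : FunData c) (k j : Fin N) {z : ℂ} (hz : z ∈ Omc c) :
    phi D j z = (z - c.p k) * chi D k j z := by
  have h1 := k1a_sub_ne hz k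
  unfold phi chi
  field_simp
  ring

/-- the function `Φ_m`, factored -/
private lemma Phi_eq {c : Config N} (D : FunData c) (k : Fin N) (m : Fin N → ℤ) {z : ℂ}
    (hz : z ∈ Omc c) :
    Phi D m z = (z - c.p k) ^ (∑ j, m j) * ∏ j, chi D k j z ^ m j := by
  have h1 := k1a_sub_ne hz k
  unfold Phi
  have h2 : ∀ s : Finset (Fin N), (z - c.p k) ^ (∑ j ∈ s, m j) =
      ∏ j ∈ s, (z - c.p k) ^ m j := by
    classical
    intro s
    induction s using Finset.induction_on with
    | empty => simp
    | insert i s hi ih => rw [Finset.sum_insert hi, Finset.prod_insert hi, zpow_add₀ h1, ih]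
  rw [h2, ← Finset.prod_mul_distrib]
  refine Finset.prod_congr rfl fun j _ => ?_
  rw [phi_eq D k j hz, mul_zpow]

private lemma chi_prod_reg {c : Config N} (D : FunData c) (k : Fin N) (m : Fin N → ℤ) :
    Reg c (fun z => ∏ j, chi D k j z ^ m j) 1 :=
  reg_prod _ fun j => reg_zpow (chi_reg D k j) (chi'_reg D k j) (fun _ hz => chi_mul D k j hz) _

private lemma chi_bound {c : Config N} (D : FunData c) (k : Fin N) : ∃ C : ℝ, 0 ≤ C ∧
    ∀ (m : Fin N → ℤ), ∀ z ∈ Omc c, ‖∏ j, chi D k j z ^ m j‖ ≤ Real.exp (C * absz m) := by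
  classical
  choose M hM0 hM using fun j => (chi_reg D k j).bounded
  choose M' hM'0 hM' using fun j => (chi'_reg D k j).bounded
  set B : ℝ := 1 + ∑ j, (M j + M' j) with hB
  have hBj : ∀ j, M j + M' j ≤ ∑ j, (M j + M' j) := fun j =>
    Finset.single_le_sum (f := fun j => M j + M' j) (fun i _ => by
      have := hM0 i; have := hM'0 i; linarith) (Finset.mem_univ j)
  have hS : 0 ≤ ∑ j, (M j + M' j) := Finset.sum_nonneg fun i _ => by
      have := hM0 i; have := hM'0 i; linarith
  have hB1 : 1 ≤ B := by rw [hB]; linarith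
  have hB0 : 0 < B := by linarith
  refine ⟨Real.log B, Real.log_nonneg hB1, fun m z hz => ?_⟩
  have hone : ∀ j, ‖chi D k j z ^ m j‖ ≤ Real.exp (Real.log B * |(m j : ℝ)|) := by
    intro j
    have e1 : Real.exp (Real.log B * |(m j : ℝ)|) = B ^ (m j).natAbs := by
      have : |(m j : ℝ)| = ((m j).natAbs : ℝ) := by
        rw [← Int.cast_abs, Int.abs_eq_natAbs]
        simp
      rw [this, mul_comm, Real.exp_nat_mul, Real.exp_log hB0]
    rw [e1]
    have hm0 := hM0 j
    have hm'0 := hM'0 j
    have hbj := hBj j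
    have a1 : ‖chi D k j z‖ ≤ B := by
      have := hM j z hz
      rw [hB]; linarith
    have a2 : ‖chi' D k j z‖ ≤ B := by
      have := hM' j z hz
      rw [hB]; linarith
    rcases Int.eq_nat_or_neg (m j) with ⟨n, h | h⟩
    · rw [h, zpow_natCast, norm_pow, Int.natAbs_natCast]
      exact pow_le_pow_left₀ (norm_nonneg _) a1 n
    · have a3 : (chi D k j z)⁻¹ = chi' D k j z := inv_eq_of_mul_eq_one_right (chi_mul D k j hz)
      rw [h, zpow_neg, zpow_natCast, ← inv_pow, a3, norm_pow, Int.natAbs_neg,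
        Int.natAbs_natCast]
      exact pow_le_pow_left₀ (norm_nonneg _) a2 n
  rw [norm_prod]
  calc ∏ j, ‖chi D k j z ^ m j‖ ≤ ∏ j, Real.exp (Real.log B * |(m j : ℝ)|) :=
        Finset.prod_le_prod (fun _ _ => norm_nonneg _) fun j _ => hone j
    _ = Real.exp (Real.log B * absz m) := by
        rw [← Real.exp_sum]
        unfold absz
        rw [Finset.mul_sum]

theorem series_reg (c : Config N) (D : FunData c) (hb : NegDef D.b) (a : (Fin N → ℤ) → ℂ) (C : ℝ)
    (ha : ∀ m, ‖a m‖ ≤ Real.exp (qz D.b m + C * absz m)) :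
    (∃ A, Reg c (fun z => ∑' m : Lam N 0, a m.1 * Phi D m.1 z) A) ∧
      Reg c (fun z => ∑' m : Lam N (-1), a m.1 * Phi D m.1 z) 0 := by
  classical
  rcases Nat.eq_zero_or_pos N with hN | hN
  · subst hN
    constructor
    · refine ⟨∑' m : Lam 0 0, a m.1, ?_⟩
      refine (reg_const c _).congr fun z _ => ?_
      refine tsum_congr fun m => ?_
      simp [Phi]
    · have he : IsEmpty (Lam 0 (-1)) := ⟨fun m => by
        have := m.2
        simp at this⟩
      refine (reg_const c _).congr fun z _ => ?_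
      exact tsum_empty
  · set k : Fin N := ⟨0, hN⟩ with hk
    obtain ⟨C1, hC10, hC1⟩ := chi_bound D k
    constructor
    · refine ⟨∑' m : Lam N 0, a m.1 * 1, ?_⟩
      refine Reg.tsum (u := fun m : Lam N 0 => Real.exp (qz D.b m.1 + (C + C1) * absz m.1))
        (theta_summable hb 0 (C + C1)) (fun m => ?_) (fun m z hz => ?_)
      · refine ((chi_prod_reg D k m.1).const_mul (a m.1)).congr fun z hz => ?_
        rw [Phi_eq D k m.1 hz, m.2, zpow_zero, one_mul]
      · rw [Phi_eq D k m.1 hz, m.2, zpow_zero, one_mul, norm_mul]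
        refine (mul_le_mul (ha m.1) (hC1 m.1 z hz) (norm_nonneg _) (Real.exp_pos _).le).trans ?_
        rw [← Real.exp_add, Real.exp_le_exp]
        linarith
    · have h0 : (0 : ℂ) = ∑' m : Lam N (-1), a m.1 * (0 * 1) := by simp
      rw [h0]
      refine Reg.tsum (u := fun m : Lam N (-1) => (c.r k)⁻¹ *
          Real.exp (qz D.b m.1 + (C + C1) * absz m.1))
        ((theta_summable hb (-1) (C + C1)).mul_left _) (fun m => ?_) (fun m z hz => ?_)
      · refine (((reg_inv c k).mul (chi_prod_reg D k m.1)).const_mul (a m.1)).congr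
          fun z hz => ?_
        rw [Phi_eq D k m.1 hz, m.2, zpow_neg_one]
      · rw [Phi_eq D k m.1 hz, m.2, zpow_neg_one, norm_mul, norm_mul, norm_inv]
        have h1 : ‖z - c.p k‖⁻¹ ≤ (c.r k)⁻¹ := inv_anti₀ (c.hr k) (hz k)
        have h2 := (mul_le_mul (ha m.1) (hC1 m.1 z hz) (norm_nonneg _) (Real.exp_pos _).le)
        have h3 : Real.exp (qz D.b m.1 + C * absz m.1) * Real.exp (C1 * absz m.1) =
            Real.exp (qz D.b m.1 + (C + C1) * absz m.1) := by
          rw [← Real.exp_add]
          congr 1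
          ring
        rw [h3] at h2
        calc ‖a m.1‖ * (‖z - c.p k‖⁻¹ * ‖∏ j, chi D k j z ^ m.1 j‖)
            = ‖z - c.p k‖⁻¹ * (‖a m.1‖ * ‖∏ j, chi D k j z ^ m.1 j‖) := by ring
          _ ≤ (c.r k)⁻¹ * Real.exp (qz D.b m.1 + (C + C1) * absz m.1) :=
            mul_le_mul h1 h2 (by positivity) (inv_nonneg.2 (c.hr k).le)

end Pool.Agent.SV
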