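import Pool.Agent.Helper53.SV.Defs

/-!
# Boundary values of the theta series of functions
-/

set_option autoImplicit false

open Complex Filter Topology Metric
open scoped ComplexConjugate

namespace Pool.Agent.SV

variable {N : ℕ}

/-- a point of a circle is not a centre -/
theorem circle_ne_center (c : Config N) (i j : Fin N) {z : ℂ} (hz : ‖z - c.p i‖ = c.r i) :
    z - c.p j ≠ 0 := by
  intro h
  have h1 : z = c.p j := sub_eq_zero.1 h
  by_cases hij : j = i
  · rw [h1, hij, sub_self, norm_zero] at hz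
    have := c.hr i
    linarith
  · have h2 := c.sep j i hij
    rw [h1] at hz
    have h3 := c.hr i
    have h4 := c.hr j
    nlinarith

theorem far_ne_center (c : Config N) (j : Fin N) {w : ℂ} (hw : w ∈ Far c) : w - c.p j ≠ 0 := by
  intro h
  have h1 := hw j
  rw [h, norm_zero] at h1
  have := c.hr j
  linarith

theorem phi_ne_zero {c : Config N} (D : FunData c) (j : Fin N) {z : ℂ} (hz : z - c.p j ≠ 0) :
    phi D j z ≠ 0 := mul_ne_zero hz (exp_ne_zero _)

/-- conjugation on a circle -/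
theorem conj_phi {c : Config N} (D : FunData c) (i j : Fin N) {z : ℂ}
    (hz : ‖z - c.p i‖ = c.r i) :
    conj (phi D j z) = (Real.exp (D.b j i) : ℂ) * (phi D j z)⁻¹ := by
  have h0 := circle_ne_center c i j hz
  have h1 := phi_ne_zero D j h0
  rw [eq_mul_inv_iff_mul_eq₀ h1, mul_comm, mul_conj, normSq_eq_norm_sq]
  congr 1
  rw [phi, norm_mul, norm_exp, mul_pow, ← D.bdE j i z hz, Real.exp_add, mul_comm]
  have h2 : 0 < ‖z - c.p j‖ := norm_pos_iff.2 h0
  congr 1
  · rw [← Real.exp_nat_mul]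
    norm_num
  · have h3 : 2 * Real.log ‖z - c.p j‖ = Real.log (‖z - c.p j‖ ^ 2) := by
      rw [Real.log_pow]
      norm_num
    rw [h3, Real.exp_log (by positivity)]

/-- products of powers of real exponentials -/
private theorem prod_exp_zpow (x : Fin N → ℝ) (m : Fin N → ℤ) :
    ∏ j, ((Real.exp (x j) : ℝ) : ℂ) ^ m j = ((Real.exp (∑ j, (m j : ℝ) * x j) : ℝ) : ℂ) := by
  rw [Real.exp_sum, ofReal_prod]
  refine Finset.prod_congr rfl fun j _ => ?_
  rw [ofReal_exp, ofReal_exp, ofReal_mul, ofReal_intCast, exp_int_mul]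

theorem conj_Phi {c : Config N} (D : FunData c) (i : Fin N) (m : Fin N → ℤ) {z : ℂ}
    (hz : ‖z - c.p i‖ = c.r i) :
    conj (Phi D m z) = (Real.exp (∑ j, (m j : ℝ) * D.b j i) : ℂ) * (Phi D m z)⁻¹ := by
  rw [Phi, map_prod, ← prod_exp_zpow, ← Finset.prod_inv_distrib, ← Finset.prod_mul_distrib]
  refine Finset.prod_congr rfl fun j _ => ?_
  rw [map_zpow₀, conj_phi D i j hz, mul_zpow, inv_zpow]

/-- shift by a unit vector and reflection -/
theorem Phi_shift {c : Config N} (D : FunData c) (i : Fin N) (n : Fin N → ℤ) {z : ℂ}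
    (hz : ∀ j, z - c.p j ≠ 0) :
    Phi D (fun j => - n j - if j = i then 1 else 0) z = (Phi D n z)⁻¹ * (phi D i z)⁻¹ := by
  classical
  have h1 : ∏ j, phi D j z ^ (if j = i then (1 : ℤ) else 0) = phi D i z := by
    rw [Finset.prod_eq_single i]
    · simp
    · intro j _ hj
      simp [hj]
    · intro h
      exact absurd (Finset.mem_univ i) h
  rw [← h1, Phi, Phi, ← mul_inv, ← Finset.prod_mul_distrib, ← Finset.prod_inv_distrib]
  refine Finset.prod_congr rfl fun j _ => ?_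
  rw [← zpow_add₀ (phi_ne_zero D j (hz j)), ← zpow_neg]
  congr 1
  ring

/-- the quadratic form at a shifted vector -/
theorem qz_shift {b : Fin N → Fin N → ℝ} (hs : ∀ j k, b j k = b k j) (i : Fin N)
    (n : Fin N → ℤ) :
    qz b (fun j => - n j - if j = i then 1 else 0) =
      qz b n + ∑ j, (n j : ℝ) * b j i + b i i / 2 := by
  classical
  set δ : Fin N → ℝ := fun j => if j = i then 1 else 0 with hδ
  have hd : ∀ f : Fin N → ℝ, ∑ j, δ j * f j = f i := by
    intro f
    rw [Finset.sum_eq_single i]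
    · simp [hδ]
    · intro j _ hj
      simp [hδ, hj]
    · intro h
      exact absurd (Finset.mem_univ i) h
  have h1 : ∀ j, ((- n j - if j = i then (1 : ℤ) else 0 : ℤ) : ℝ) = -(n j : ℝ) - δ j := by
    intro j
    rw [hδ]
    push_cast
    rfl
  rw [qz, qz, qf, qf]
  simp only [h1]
  have h2 : ∑ j, ∑ k, (-(n j : ℝ) - δ j) * (-(n k : ℝ) - δ k) * b j k =
      (∑ j, ∑ k, (n j : ℝ) * (n k : ℝ) * b j k) + (∑ j, (n j : ℝ) * (∑ k, δ k * b j k)) +
      (∑ j, δ j * (∑ k, (n k : ℝ) * b k j)) + ∑ j, δ j * (∑ k, δ k * b j k) := by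
    rw [← Finset.sum_add_distrib, ← Finset.sum_add_distrib, ← Finset.sum_add_distrib]
    refine Finset.sum_congr rfl fun j _ => ?_
    rw [Finset.mul_sum, Finset.mul_sum, Finset.mul_sum, ← Finset.sum_add_distrib,
      ← Finset.sum_add_distrib, ← Finset.sum_add_distrib]
    refine Finset.sum_congr rfl fun k _ => ?_
    rw [hs k j]
    ring
  rw [h2, hd, hd]
  have h3 : ∑ j, (n j : ℝ) * (∑ k, δ k * b j k) = ∑ j, (n j : ℝ) * b j i :=
    Finset.sum_congr rfl fun j _ => by rw [hd]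
  rw [h3, hd]
  ring

theorem dotz_shift (i : Fin N) (n : Fin N → ℤ) (x : Fin N → ℝ) :
    dotz (fun j => - n j - if j = i then 1 else 0) x = - dotz n x - x i := by
  classical
  rw [dotz, dotz]
  have h1 : ∀ j, ((- n j - if j = i then (1 : ℤ) else 0 : ℤ) : ℝ) * x j =
      -((n j : ℝ) * x j) - if j = i then x j else 0 := by
    intro j
    by_cases hj : j = i
    · simp [hj]
      ring
    · simp [hj]
  rw [Finset.sum_congr rfl fun j _ => h1 j, Finset.sum_sub_distrib, Finset.sum_neg_distrib,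
    Finset.sum_ite_eq' Finset.univ i, if_pos (Finset.mem_univ i)]

/-- the reindexing `m = - n - e_i` -/
def shiftEquiv (i : Fin N) : Lam N 0 ≃ Lam N (-1) where
  toFun n := ⟨fun j => - n.1 j - if j = i then 1 else 0, by
    rw [Finset.sum_sub_distrib, Finset.sum_neg_distrib, n.2, Finset.sum_ite_eq' Finset.univ i,
      if_pos (Finset.mem_univ i)]
    ring⟩
  invFun m := ⟨fun j => - m.1 j - if j = i then 1 else 0, by
    rw [Finset.sum_sub_distrib, Finset.sum_neg_distrib, m.2, Finset.sum_ite_eq' Finset.univ i,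
      if_pos (Finset.mem_univ i)]
    ring⟩
  left_inv n := by
    apply Subtype.ext
    funext j
    show - (- n.1 j - if j = i then 1 else 0) - (if j = i then 1 else 0) = n.1 j
    ring
  right_inv m := by
    apply Subtype.ext
    funext j
    show - (- m.1 j - if j = i then 1 else 0) - (if j = i then 1 else 0) = m.1 j
    ring

theorem series_bd (c : Config N) (D : FunData c) (β : Fin N → ℝ) {w : ℂ} (hw : w ∈ Far c)
    (i : Fin N) (z : ℂ) (hz : ‖z - c.p i‖ = c.r i) :
    conj (∑' m : Lam N (-1), (exp ((qz D.b m.1 : ℝ) + (dotz m.1 β : ℝ) * I)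
        * conj (Phi D m.1 w)) * Phi D m.1 z)
      = exp (β i * I) * Real.exp (- D.b i i / 2) * (phi D i z / phi D i w)
        * ∑' m : Lam N 0, (exp ((qz D.b m.1 : ℝ) + (dotz m.1 β : ℝ) * I)
          * (Phi D m.1 w)⁻¹) * Phi D m.1 z := by
  rw [conj_tsum, ← tsum_mul_left, ← (shiftEquiv i).tsum_eq]
  refine tsum_congr fun n => ?_
  have hzc : ∀ j, z - c.p j ≠ 0 := fun j => circle_ne_center c i j hz
  have hwc : ∀ j, w - c.p j ≠ 0 := fun j => far_ne_center c j hw
  have hm : ((shiftEquiv i) n).1 = fun j => - n.1 j - if j = i then 1 else 0 := rfl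
  rw [map_mul, map_mul, conj_conj, conj_Phi D i _ hz, hm, qz_shift D.hb, dotz_shift,
    Phi_shift D i n.1 hzc, Phi_shift D i n.1 hwc]
  have hsum : ∑ j, ((- n.1 j - if j = i then (1 : ℤ) else 0 : ℤ) : ℝ) * D.b j i =
      - (∑ j, (n.1 j : ℝ) * D.b j i) - D.b i i := dotz_shift i n.1 (fun j => D.b j i)
  rw [hsum, ← exp_conj]
  have h1 : conj ((((qz D.b n.1 + ∑ j, (n.1 j : ℝ) * D.b j i + D.b i i / 2 : ℝ) : ℂ)) +
      ((- dotz n.1 β - β i : ℝ) : ℂ) * I) =
      (((qz D.b n.1 + ∑ j, (n.1 j : ℝ) * D.b j i + D.b i i / 2 : ℝ) : ℂ)) +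
      ((dotz n.1 β + β i : ℝ) : ℂ) * I := by
    rw [map_add, conj_ofReal, map_mul, conj_ofReal, conj_I]
    push_cast
    ring
  rw [h1]
  have h2 : exp ((((qz D.b n.1 + ∑ j, (n.1 j : ℝ) * D.b j i + D.b i i / 2 : ℝ) : ℂ)) +
      ((dotz n.1 β + β i : ℝ) : ℂ) * I) *
      ((Real.exp (- (∑ j, (n.1 j : ℝ) * D.b j i) - D.b i i) : ℝ) : ℂ) =
      exp (β i * I) * ((Real.exp (- D.b i i / 2) : ℝ) : ℂ) *
        exp ((qz D.b n.1 : ℝ) + (dotz n.1 β : ℝ) * I) := by
    rw [ofReal_exp, ofReal_exp, ← Complex.exp_add, ← Complex.exp_add, ← Complex.exp_add]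
    congr 1
    push_cast
    ring
  have hpz := phi_ne_zero D i (hzc i)
  have hpw := phi_ne_zero D i (hwc i)
  calc _ = (exp ((((qz D.b n.1 + ∑ j, (n.1 j : ℝ) * D.b j i + D.b i i / 2 : ℝ) : ℂ)) +
      ((dotz n.1 β + β i : ℝ) : ℂ) * I) *
      ((Real.exp (- (∑ j, (n.1 j : ℝ) * D.b j i) - D.b i i) : ℝ) : ℂ)) *
      ((Phi D n.1 w)⁻¹ * (phi D i w)⁻¹) * ((Phi D n.1 z)⁻¹ * (phi D i z)⁻¹)⁻¹ := by ring
    _ = _ := by
      rw [h2, mul_inv, inv_inv, inv_inv]
      field_simp

end Pool.Agent.SV
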