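import Pool.Agent.Helper53.SV.Defs

/-!
# SV-PDa: the sign of the flux at a boundary component where the potential is maximal
-/

set_option autoImplicit false

open Complex Filter Topology Metric
open scoped ComplexConjugate

namespace Pool.Agent.SV

variable {N : ℕ}

private theorem pda_isOpen_Om (c : Config N) : IsOpen (Om c) := by
  have : Om c = ⋂ k, {z | c.r k < ‖z - c.p k‖} := by
    ext z
    simp [Om]
  rw [this]
  exact isOpen_iInter_of_finite fun k =>
    isOpen_lt continuous_const (continuous_id.sub continuous_const).norm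

private theorem pda_isClosed_Omc (c : Config N) : IsClosed (Omc c) := by
  have : Omc c = ⋂ k, {z | c.r k ≤ ‖z - c.p k‖} := by
    ext z
    simp [Omc]
  rw [this]
  exact isClosed_iInter fun k =>
    isClosed_le continuous_const (continuous_id.sub continuous_const).norm

/-- the annulus around a disc: distance to the other discs -/
private theorem pda_ann (c : Config N) {k j : Fin N} (hj : j ≠ k) {z : ℂ}
    (hz : ‖z - c.p k‖ ≤ 2 * c.r k) : c.r j < ‖z - c.p j‖ ∧ 2 * ‖z - c.p k‖ < ‖c.p k - c.p j‖ := by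
  have h1 := c.sep k j (Ne.symm hj)
  have h2 := c.hr k
  have h3 := c.hr j
  have h4 : ‖c.p k - c.p j‖ ≤ ‖z - c.p j‖ + ‖z - c.p k‖ := by
    have e : c.p k - c.p j = (z - c.p j) - (z - c.p k) := by ring
    rw [e]
    exact norm_sub_le _ _
  constructor <;> linarith

private theorem pda_mem_Omc (c : Config N) {k : Fin N} {z : ℂ} (h1 : c.r k ≤ ‖z - c.p k‖)
    (h2 : ‖z - c.p k‖ ≤ 2 * c.r k) : z ∈ Omc c := by
  intro j
  by_cases hj : j = k
  · rw [hj]; exact h1
  · exact (pda_ann c hj h2).1.le

private theorem pda_mem_Om (c : Config N) {k : Fin N} {z : ℂ} (h1 : c.r k < ‖z - c.p k‖)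
    (h2 : ‖z - c.p k‖ ≤ 2 * c.r k) : z ∈ Om c := by
  intro j
  by_cases hj : j = k
  · rw [hj]; exact h1
  · exact (pda_ann c hj h2).1

/-- the potential -/
private noncomputable def uu {c : Config N} (D : FunData c) (v : Fin N → ℝ) (z : ℂ) : ℝ :=
  ∑ j, v j * (Real.log ‖z - c.p j‖ + (D.E j z).re)

private theorem uu_cont {c : Config N} (D : FunData c) (v : Fin N → ℝ) :
    ContinuousOn (uu D v) (Omc c) := by
  unfold uu
  refine continuousOn_finsetSum _ fun j _ => continuousOn_const.mul (ContinuousOn.add ?_ ?_)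
  · refine ContinuousOn.log (continuous_id.sub continuous_const).norm.continuousOn fun z hz => ?_
    have h1 := hz j
    have h2 := c.hr j
    exact ne_of_gt (lt_of_lt_of_le h2 h1)
  · exact Complex.continuous_re.comp_continuousOn (D.hE j).cont

/-- the boundary value -/
private theorem uu_bd {c : Config N} (D : FunData c) (v : Fin N → ℝ) (l : Fin N) (z : ℂ)
    (hz : ‖z - c.p l‖ = c.r l) : uu D v z = (∑ j, v j * D.b j l) / 2 := by
  unfold uu
  rw [Finset.sum_div]
  refine Finset.sum_congr rfl fun j _ => ?_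
  have h := D.bdE j l z hz
  rw [← h]
  ring

/-- behaviour at infinity -/
private theorem uu_lim {c : Config N} (D : FunData c) (v : Fin N → ℝ) (hv : ∑ j, v j < 0) :
    Tendsto (uu D v) (cocompact ℂ) atBot := by
  have h1 : ∀ j, ∀ᶠ z in cocompact ℂ,
      |Real.log ‖z - c.p j‖ + (D.E j z).re - Real.log ‖z‖| ≤ 2 := by
    intro j
    have hE : ∀ᶠ z in cocompact ℂ, ‖D.E j z‖ < 1 := by
      have := (D.hE j).lim.norm
      rw [norm_zero] at this
      exact this.eventually (gt_mem_nhds zero_lt_one)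
    have hz : ∀ᶠ z : ℂ in cocompact ℂ, 2 * ‖c.p j‖ + 1 ≤ ‖z‖ :=
      (tendsto_norm_cocompact_atTop (E := ℂ)).eventually_ge_atTop _
    filter_upwards [hE, hz] with z h2 h3
    have h4 := norm_nonneg (c.p j)
    have h5 : ‖z‖ - ‖c.p j‖ ≤ ‖z - c.p j‖ := norm_sub_norm_le _ _
    have h6 : ‖z - c.p j‖ ≤ ‖z‖ + ‖c.p j‖ := norm_sub_le _ _
    have hz0 : 0 < ‖z‖ := by linarith
    have hzp : 0 < ‖z - c.p j‖ := by linarith
    have h7 : Real.log ‖z - c.p j‖ ≤ Real.log 2 + Real.log ‖z‖ := by
      rw [← Real.log_mul two_ne_zero hz0.ne']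
      exact Real.log_le_log hzp (by linarith)
    have h8 : Real.log ‖z‖ ≤ Real.log 2 + Real.log ‖z - c.p j‖ := by
      rw [← Real.log_mul two_ne_zero hzp.ne']
      exact Real.log_le_log hz0 (by linarith)
    have h9 : Real.log 2 ≤ 1 := by
      have := Real.log_two_lt_d9
      linarith
    have h10 : |(D.E j z).re| ≤ 1 := (Complex.abs_re_le_norm _).trans h2.le
    rw [abs_le] at h10 ⊢
    constructor <;> linarith [h10.1, h10.2]
  have h2 : ∀ᶠ z in cocompact ℂ, uu D v z ≤
      (∑ j, v j) * Real.log ‖z‖ + ∑ j, |v j| * 2 := by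
    filter_upwards [Filter.eventually_all.2 h1] with z hz
    unfold uu
    rw [Finset.sum_mul, ← Finset.sum_add_distrib]
    refine Finset.sum_le_sum fun j _ => ?_
    have h3 : v j * (Real.log ‖z - c.p j‖ + (D.E j z).re - Real.log ‖z‖) ≤ |v j| * 2 := by
      refine (le_abs_self _).trans ?_
      rw [abs_mul]
      exact mul_le_mul_of_nonneg_left (hz j) (abs_nonneg _)
    linarith
  refine tendsto_atBot_mono' _ h2 ?_
  refine tendsto_atBot_add_const_right _ _ ?_
  refine Tendsto.const_mul_atTop_of_neg hv ?_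
  exact Real.tendsto_log_atTop.comp (tendsto_norm_cocompact_atTop (E := ℂ))

/-- near a local maximum the potential is constant -/
private theorem uu_locmax {c : Config N} (D : FunData c) (v : Fin N → ℝ) {z : ℂ} (hz : z ∈ Om c)
    (hmax : ∀ᶠ y in 𝓝 z, uu D v y ≤ uu D v z) : ∀ᶠ y in 𝓝 z, uu D v y = uu D v z := by
  have hopen := pda_isOpen_Om c
  have hpos : ∀ j, 0 < ‖z - c.p j‖ := fun j => (c.hr j).trans (hz j)
  have hne : ∀ j, z - c.p j ≠ 0 := fun j => norm_pos_iff.1 (hpos j)
  let f : ℂ → ℂ := fun y => exp (∑ j, (v j : ℂ) * (log ((y - c.p j) / (z - c.p j)) + D.E j y))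
  have hsl : ∀ᶠ y in 𝓝 z, ∀ j, (y - c.p j) / (z - c.p j) ∈ slitPlane := by
    refine Filter.eventually_all.2 fun j => ?_
    have hc : ContinuousAt (fun y : ℂ => (y - c.p j) / (z - c.p j)) z := by fun_prop
    refine hc.eventually_mem (isOpen_slitPlane.mem_nhds ?_)
    rw [div_self (hne j)]
    exact one_mem_slitPlane
  have hOm : ∀ᶠ y in 𝓝 z, y ∈ Om c := hopen.mem_nhds hz
  have hd : ∀ᶠ y in 𝓝 z, DifferentiableAt ℂ f y := by
    filter_upwards [hsl, hOm] with y h1 h2
    refine DifferentiableAt.cexp ?_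
    refine DifferentiableAt.fun_sum fun j _ => ?_
    refine (differentiableAt_const _).mul (DifferentiableAt.add ?_ ?_)
    · refine DifferentiableAt.clog ?_ (h1 j)
      fun_prop
    · exact ((D.hE j).diff y h2).differentiableAt (hopen.mem_nhds h2)
  have hnorm : ∀ᶠ y in 𝓝 z, ‖f y‖ = Real.exp (uu D v y - ∑ j, v j * Real.log ‖z - c.p j‖) := by
    filter_upwards [hOm] with y h2
    change ‖exp (∑ j, (v j : ℂ) * (log ((y - c.p j) / (z - c.p j)) + D.E j y))‖ = _
    rw [Complex.norm_exp]
    congr 1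
    rw [Complex.re_sum]
    unfold uu
    rw [← Finset.sum_sub_distrib]
    refine Finset.sum_congr rfl fun j _ => ?_
    have hy : 0 < ‖y - c.p j‖ := (c.hr j).trans (h2 j)
    rw [Complex.re_ofReal_mul, Complex.add_re, Complex.log_re, norm_div,
      Real.log_div hy.ne' (hpos j).ne']
    ring
  have hz' := hnorm.self_of_nhds
  have hloc : IsLocalMax (norm ∘ f) z := by
    change ∀ᶠ y in 𝓝 z, ‖f y‖ ≤ ‖f z‖
    filter_upwards [hmax, hnorm] with y h1 h2
    rw [h2, hz']
    exact Real.exp_le_exp.2 (by linarith)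
  have hconst := Complex.eventually_eq_of_isLocalMax_norm hd hloc
  filter_upwards [hconst, hnorm] with y h1 h2
  rw [h1, hz', Real.exp_eq_exp] at h2
  linarith

/-- the maximum principle for charges of negative sum -/
private theorem uu_max {c : Config N} (D : FunData c) (v : Fin N → ℝ) (hv : ∑ j, v j < 0)
    (k : Fin N) (z : ℂ) (hz : z ∈ Omc c) : ∃ l, uu D v z ≤ (∑ j, v j * D.b j l) / 2 := by
  obtain ⟨z0, hz0, hmax⟩ := (uu_cont D v).exists_isMaxOn' (pda_isClosed_Omc c) hz (by
    have h := (uu_lim D v hv).eventually_le_atBot (uu D v z)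
    exact h.filter_mono inf_le_left)
  suffices h : ∃ l, uu D v z0 ≤ (∑ j, v j * D.b j l) / 2 by
    obtain ⟨l, hl⟩ := h
    exact ⟨l, (hmax hz).trans hl⟩
  by_contra hcon
  push Not at hcon
  set A : Set ℂ := {y | y ∈ Omc c ∧ uu D v y = uu D v z0} with hA
  have hcl : IsClosed A := by
    have : A = Omc c ∩ (uu D v) ⁻¹' {uu D v z0} := rfl
    rw [this]
    exact (uu_cont D v).preimage_isClosed_of_isClosed (pda_isClosed_Omc c) isClosed_singleton
  have hnot : ∀ l y, ‖y - c.p l‖ = c.r l → y ∉ A := by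
    intro l y hy hyA
    have h1 := uu_bd D v l y hy
    have h2 := hcon l
    rw [← h1, hyA.2] at h2
    exact lt_irrefl _ h2
  have hop : IsOpen A := by
    rw [isOpen_iff_mem_nhds]
    intro y hy
    have hyOm : y ∈ Om c := fun l => lt_of_le_of_ne (hy.1 l) fun h => hnot l y h.symm hy
    have hOm : ∀ᶠ x in 𝓝 y, x ∈ Om c := (pda_isOpen_Om c).mem_nhds hyOm
    have h1 : ∀ᶠ x in 𝓝 y, uu D v x ≤ uu D v y := by
      filter_upwards [hOm] with x hx
      rw [hy.2]
      exact hmax (fun l => (hx l).le)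
    filter_upwards [hOm, uu_locmax D v hyOm h1] with x hx h2
    exact ⟨fun l => (hx l).le, h2.trans hy.2⟩
  have huniv : A = Set.univ := IsClopen.eq_univ ⟨hcl, hop⟩ ⟨z0, hz0, rfl⟩
  have h1 : c.p k + c.r k ∉ A := by
    refine hnot k _ ?_
    rw [add_sub_cancel_left, Complex.norm_real, Real.norm_of_nonneg (c.hr k).le]
  rw [huniv] at h1
  exact h1 trivial

/-- the maximum principle for neutral charges -/
private theorem uu_le {c : Config N} (D : FunData c) (v : Fin N → ℝ) (hv : ∑ j, v j = 0)
    (k : Fin N) (hk : ∀ l, ∑ j, v j * D.b j l ≤ ∑ j, v j * D.b j k) (z : ℂ) (hz : z ∈ Omc c) :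
    uu D v z ≤ (∑ j, v j * D.b j k) / 2 := by
  classical
  set a : ℝ := Real.log ‖z - c.p k‖ + (D.E k z).re with ha
  set B : ℝ := ∑ l, |D.b k l| with hB
  have h1 : ∀ δ : ℝ, 0 < δ → uu D v z ≤ (∑ j, v j * D.b j k) / 2 + δ * (|a| + B) := by
    intro δ hδ
    have hsum : ∑ j, (v j - if j = k then δ else 0) < 0 := by
      rw [Finset.sum_sub_distrib, hv, Finset.sum_ite_eq' Finset.univ k, if_pos (Finset.mem_univ k)]
      linarith
    obtain ⟨l, hl⟩ := uu_max D (fun j => v j - if j = k then δ else 0) hsum k z hz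
    have e1 : uu D (fun j => v j - if j = k then δ else 0) z = uu D v z - δ * a := by
      unfold uu
      have : ∀ j, (v j - if j = k then δ else 0) * (Real.log ‖z - c.p j‖ + (D.E j z).re) =
          v j * (Real.log ‖z - c.p j‖ + (D.E j z).re) -
            if j = k then δ * (Real.log ‖z - c.p j‖ + (D.E j z).re) else 0 := by
        intro j
        split_ifs <;> ring
      rw [Finset.sum_congr rfl fun j _ => this j, Finset.sum_sub_distrib,
        Finset.sum_ite_eq' Finset.univ k, if_pos (Finset.mem_univ k)]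
    have e2 : ∑ j, (v j - if j = k then δ else 0) * D.b j l = ∑ j, v j * D.b j l - δ * D.b k l := by
      have : ∀ j, (v j - if j = k then δ else 0) * D.b j l =
          v j * D.b j l - if j = k then δ * D.b j l else 0 := by
        intro j
        split_ifs <;> ring
      rw [Finset.sum_congr rfl fun j _ => this j, Finset.sum_sub_distrib,
        Finset.sum_ite_eq' Finset.univ k, if_pos (Finset.mem_univ k)]
    rw [e1, e2] at hl
    have h2 := hk l
    have h3 : -(D.b k l) ≤ B := by
      refine (neg_le_abs _).trans ?_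
      exact Finset.single_le_sum (f := fun l => |D.b k l|) (fun l _ => abs_nonneg _)
        (Finset.mem_univ l)
    have hB0 : 0 ≤ B := Finset.sum_nonneg fun l _ => abs_nonneg _
    have h4 : a ≤ |a| := le_abs_self a
    nlinarith
  by_contra hcon
  push Not at hcon
  set d := uu D v z - (∑ j, v j * D.b j k) / 2 with hd
  have hd0 : 0 < d := by linarith
  have hB0 : 0 ≤ B := Finset.sum_nonneg fun l _ => abs_nonneg _
  have hM : 0 < |a| + B + 1 := by positivity
  have h2 := h1 (d / (2 * (|a| + B + 1))) (by positivity)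
  have h3 : d / (2 * (|a| + B + 1)) * (|a| + B) ≤ d / 2 := by
    rw [div_mul_eq_mul_div, div_le_div_iff₀ (by positivity) two_pos]
    nlinarith [abs_nonneg a]
  linarith

/-- the sign of the flux at a boundary component where the potential is maximal -/
theorem flux_sign (c : Config N) (D : FunData c) (v : Fin N → ℝ) (hv : ∑ j, v j = 0) (k : Fin N)
    (hk : ∀ l, ∑ j, v j * D.b j l ≤ ∑ j, v j * D.b j k) : v k ≤ 0 := by
  classical
  have hr := c.hr k
  set K : ℝ := ∑ j ∈ Finset.univ.erase k, v j * Real.log ‖c.p k - c.p j‖ with hK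
  let G : ℂ → ℂ := fun z => ∑ j, (v j : ℂ) * D.E j z +
    ∑ j ∈ Finset.univ.erase k, (v j : ℂ) * log ((z - c.p j) / (c.p k - c.p j))
  have hsl : ∀ z, ‖z - c.p k‖ ≤ 2 * c.r k → ∀ j, j ≠ k →
      (z - c.p j) / (c.p k - c.p j) ∈ slitPlane := by
    intro z hz j hj
    have h1 := (pda_ann c hj hz).2
    have h2 : 0 < ‖c.p k - c.p j‖ := by
      have := norm_nonneg (z - c.p k)
      linarith
    have h3 : c.p k - c.p j ≠ 0 := norm_pos_iff.1 h2
    have e : (z - c.p j) / (c.p k - c.p j) = 1 + (z - c.p k) / (c.p k - c.p j) := by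
      field_simp
      ring
    rw [e]
    refine mem_slitPlane_of_norm_lt_one ?_
    rw [norm_div, div_lt_one h2]
    have := norm_nonneg (z - c.p k)
    linarith
  have hG : ∀ z, c.r k ≤ ‖z - c.p k‖ → ‖z - c.p k‖ ≤ 2 * c.r k →
      (G z).re = uu D v z - v k * Real.log ‖z - c.p k‖ - K := by
    intro z h1 h2
    change (∑ j, (v j : ℂ) * D.E j z +
      ∑ j ∈ Finset.univ.erase k, (v j : ℂ) * log ((z - c.p j) / (c.p k - c.p j))).re = _
    rw [Complex.add_re, Complex.re_sum, Complex.re_sum]
    unfold uu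
    have e1 : ∑ j, v j * (Real.log ‖z - c.p j‖ + (D.E j z).re) =
        ∑ j, v j * Real.log ‖z - c.p j‖ + ∑ j, v j * (D.E j z).re := by
      rw [← Finset.sum_add_distrib]
      exact Finset.sum_congr rfl fun j _ => by ring
    have e2 : ∑ j, v j * Real.log ‖z - c.p j‖ = v k * Real.log ‖z - c.p k‖ +
        ∑ j ∈ Finset.univ.erase k, v j * Real.log ‖z - c.p j‖ :=
      (Finset.add_sum_erase _ _ (Finset.mem_univ k)).symm
    have e3 : ∑ j ∈ Finset.univ.erase k, ((v j : ℂ) * log ((z - c.p j) / (c.p k - c.p j))).re =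
        ∑ j ∈ Finset.univ.erase k, v j * Real.log ‖z - c.p j‖ - K := by
      rw [hK, ← Finset.sum_sub_distrib]
      refine Finset.sum_congr rfl fun j hj => ?_
      have hjk := Finset.ne_of_mem_erase hj
      have h3 := pda_ann c hjk h2
      have h4 : 0 < ‖z - c.p j‖ := (c.hr j).trans h3.1
      have h5 : 0 < ‖c.p k - c.p j‖ := by
        have := norm_nonneg (z - c.p k)
        linarith
      rw [Complex.re_ofReal_mul, Complex.log_re, norm_div, Real.log_div h4.ne' h5.ne']
      ring
    rw [e1, e2, e3]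
    have e4 : ∀ j, ((v j : ℂ) * D.E j z).re = v j * (D.E j z).re := fun j =>
      Complex.re_ofReal_mul _ _
    rw [Finset.sum_congr rfl fun j _ => e4 j]
    ring
  have hcont : ContinuousOn G (closedBall (c.p k) (2 * c.r k) \ ball (c.p k) (c.r k)) := by
    have hsub : closedBall (c.p k) (2 * c.r k) \ ball (c.p k) (c.r k) ⊆ Omc c := by
      intro z hz
      rw [Set.mem_sdiff, mem_closedBall, mem_ball, dist_eq_norm, not_lt] at hz
      exact pda_mem_Omc c hz.2 hz.1
    refine ContinuousOn.add ?_ ?_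
    · exact continuousOn_finsetSum _ fun j _ =>
        continuousOn_const.mul ((D.hE j).cont.mono hsub)
    · refine continuousOn_finsetSum _ fun j hj => continuousOn_const.mul ?_
      refine ContinuousOn.clog ?_ fun z hz => ?_
      · exact ((continuous_id.sub continuous_const).div_const _).continuousOn
      · rw [Set.mem_sdiff, mem_closedBall, dist_eq_norm] at hz
        exact hsl z hz.1 j (Finset.ne_of_mem_erase hj)
  have hdiff : ∀ z ∈ (ball (c.p k) (2 * c.r k) \ closedBall (c.p k) (c.r k)) \ (∅ : Set ℂ),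
      DifferentiableAt ℂ G z := by
    intro z hz
    rw [Set.sdiff_empty, Set.mem_sdiff, mem_ball, mem_closedBall, dist_eq_norm, not_le] at hz
    have hzOm := pda_mem_Om c hz.2 hz.1.le
    refine DifferentiableAt.add ?_ ?_
    · refine DifferentiableAt.fun_sum fun j _ => (differentiableAt_const _).mul ?_
      exact ((D.hE j).diff z hzOm).differentiableAt ((pda_isOpen_Om c).mem_nhds hzOm)
    · refine DifferentiableAt.fun_sum fun j hj => (differentiableAt_const _).mul ?_
      refine DifferentiableAt.clog ?_ (hsl z hz.1.le j (Finset.ne_of_mem_erase hj))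
      exact (differentiableAt_id.sub (differentiableAt_const _)).div_const _
  have hint := circleIntegral_sub_center_inv_smul_eq_of_differentiable_on_annulus_off_countable
    hr (by linarith : c.r k ≤ 2 * c.r k) Set.countable_empty hcont hdiff
  have hav : Real.circleAverage G (c.p k) (2 * c.r k) = Real.circleAverage G (c.p k) (c.r k) := by
    rw [Real.circleAverage_eq_circleIntegral (by positivity),
      Real.circleAverage_eq_circleIntegral hr.ne', hint]
  have hmap : ∀ s : ℝ, 0 ≤ s → ∀ θ, ‖circleMap (c.p k) s θ - c.p k‖ = s := by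
    intro s hs θ
    rw [← dist_eq_norm]
    simp [circleMap, abs_of_nonneg hs]
  have hGi : ∀ s : ℝ, c.r k ≤ s → s ≤ 2 * c.r k →
      Continuous (fun θ => G (circleMap (c.p k) s θ)) := by
    intro s h1 h2
    refine hcont.comp_continuous (continuous_circleMap _ _) fun θ => ?_
    rw [Set.mem_sdiff, mem_closedBall, mem_ball, dist_eq_norm, hmap s (by linarith) θ, not_lt]
    exact ⟨h2, h1⟩
  have hre : ∀ s : ℝ, c.r k ≤ s → s ≤ 2 * c.r k →
      (Real.circleAverage G (c.p k) s).re =
        (2 * Real.pi)⁻¹ * ∫ θ in (0 : ℝ)..2 * Real.pi, (G (circleMap (c.p k) s θ)).re := by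
    intro s h1 h2
    unfold Real.circleAverage
    rw [Complex.real_smul, Complex.re_ofReal_mul]
    congr 1
    have := Complex.reCLM.intervalIntegral_comp_comm
      (f := fun θ => G (circleMap (c.p k) s θ)) (μ := MeasureTheory.volume) (a := 0)
      (b := 2 * Real.pi) ((hGi s h1 h2).intervalIntegrable _ _)
    exact this.symm
  have h1 := hre (c.r k) le_rfl (by linarith)
  have h2 := hre (2 * c.r k) (by linarith) le_rfl
  rw [hav, h1] at h2
  have hpi : 0 < (2 * Real.pi)⁻¹ := by positivity
  have h3 := mul_left_cancel₀ hpi.ne' h2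
  set uk : ℝ := (∑ j, v j * D.b j k) / 2 with huk
  have h4 : ∫ θ in (0 : ℝ)..2 * Real.pi, (G (circleMap (c.p k) (c.r k) θ)).re =
      ∫ θ in (0 : ℝ)..2 * Real.pi, (uk - v k * Real.log (c.r k) - K) := by
    refine intervalIntegral.integral_congr fun θ _ => ?_
    have h5 := hmap (c.r k) hr.le θ
    change (G (circleMap (c.p k) (c.r k) θ)).re = _
    rw [hG _ h5.ge (by linarith), uu_bd D v k _ h5, h5]
  have h5 : ∫ θ in (0 : ℝ)..2 * Real.pi, (G (circleMap (c.p k) (2 * c.r k) θ)).re ≤
      ∫ θ in (0 : ℝ)..2 * Real.pi, (uk - v k * Real.log (2 * c.r k) - K) := by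
    refine intervalIntegral.integral_mono_on (by positivity) ?_ ?_ fun θ _ => ?_
    · exact (Complex.continuous_re.comp (hGi (2 * c.r k) (by linarith) le_rfl)).intervalIntegrable
        _ _
    · exact continuous_const.intervalIntegrable _ _
    · have h6 := hmap (2 * c.r k) (by linarith) θ
      rw [hG _ (by linarith) h6.le, h6]
      have h7 := uu_le D v hv k hk (circleMap (c.p k) (2 * c.r k) θ)
        (pda_mem_Omc c (by linarith) h6.le)
      linarith
  rw [← h3, h4, intervalIntegral.integral_const, intervalIntegral.integral_const, smul_eq_mul,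
    smul_eq_mul, sub_zero] at h5
  have h6 := le_of_mul_le_mul_left h5 (by positivity : 0 < 2 * Real.pi)
  rw [Real.log_mul two_ne_zero hr.ne'] at h6
  have h7 : 0 < Real.log 2 := Real.log_pos (by norm_num)
  have h8 : v k * Real.log 2 ≤ 0 := by linarith
  by_contra hcon
  push Not at hcon
  have := mul_pos hcon h7
  linarith

end Pool.Agent.SV
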