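import Pool.Agent.Helper53.SV.Defs

/-!
# Negative definiteness from the sign of the flux
-/

set_option autoImplicit false

open Complex Filter Topology Metric
open scoped ComplexConjugate

namespace Pool.Agent.SV

variable {N : ℕ}

/-- twice the polar form -/
private theorem qf_add_smul {b : Fin N → Fin N → ℝ} (hs : ∀ j k, b j k = b k j)
    (v w : Fin N → ℝ) (t : ℝ) :
    2 * qf b (fun j => v j + t * w j) =
      2 * qf b v + 2 * t * (∑ k, (∑ j, v j * b j k) * w k) + t ^ 2 * (2 * qf b w) := by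
  have h1 : ∀ u : Fin N → ℝ, 2 * qf b u = ∑ j, ∑ k, u j * u k * b j k := by
    intro u
    rw [qf]
    ring
  rw [h1, h1, h1]
  have h2 : ∑ k, (∑ j, v j * b j k) * w k = ∑ j, ∑ k, v j * w k * b j k := by
    rw [Finset.sum_comm]
    refine Finset.sum_congr rfl fun k _ => ?_
    rw [Finset.sum_mul]
    exact Finset.sum_congr rfl fun j _ => by ring
  have h3 : ∑ k, (∑ j, v j * b j k) * w k = ∑ j, ∑ k, w j * v k * b j k := by
    refine Finset.sum_congr rfl fun k _ => ?_
    rw [Finset.sum_mul]
    exact Finset.sum_congr rfl fun j _ => by rw [hs j k]; ring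
  have h4 : 2 * t * (∑ k, (∑ j, v j * b j k) * w k) =
      t * (∑ j, ∑ k, v j * w k * b j k) + t * (∑ j, ∑ k, w j * v k * b j k) := by
    rw [← h2, ← h3]
    ring
  rw [h4, Finset.mul_sum, Finset.mul_sum, Finset.mul_sum, ← Finset.sum_add_distrib,
    ← Finset.sum_add_distrib, ← Finset.sum_add_distrib]
  refine Finset.sum_congr rfl fun j _ => ?_
  rw [Finset.mul_sum, Finset.mul_sum, Finset.mul_sum, ← Finset.sum_add_distrib,
    ← Finset.sum_add_distrib, ← Finset.sum_add_distrib]
  exact Finset.sum_congr rfl fun k _ => by ring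

private theorem sq_add_smul (v w : Fin N → ℝ) (t : ℝ) :
    ∑ j, (v j + t * w j) ^ 2 = ∑ j, v j ^ 2 + 2 * t * (∑ j, v j * w j) + t ^ 2 * ∑ j, w j ^ 2 := by
  rw [Finset.mul_sum, Finset.mul_sum, ← Finset.sum_add_distrib, ← Finset.sum_add_distrib]
  exact Finset.sum_congr rfl fun j _ => by ring

private theorem qf_smul {b : Fin N → Fin N → ℝ} (v : Fin N → ℝ) (t : ℝ) :
    qf b (fun j => t * v j) = t ^ 2 * qf b v := by
  rw [qf, qf, ← mul_div_assoc, Finset.mul_sum]
  congr 1
  refine Finset.sum_congr rfl fun j _ => ?_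
  rw [Finset.mul_sum]
  exact Finset.sum_congr rfl fun k _ => by ring

/-- a quadratic polynomial in one variable which is nonnegative and vanishes at zero has no
linear term -/
private theorem lin_zero {A B : ℝ} (h : ∀ t : ℝ, 0 ≤ 2 * t * A + t ^ 2 * B) : A = 0 := by
  by_contra hA
  by_cases hB : B ≤ 0
  · have h1 := h (-A)
    have h2 : 0 < A ^ 2 := by positivity
    nlinarith
  · push Not at hB
    have h1 := h (-(A / B))
    have h2 : 2 * (-(A / B)) * A + (-(A / B)) ^ 2 * B = - (A ^ 2 / B) := by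
      field_simp
      ring
    rw [h2] at h1
    have h3 : 0 < A ^ 2 / B := by positivity
    linarith

theorem negDef_of_flux {b : Fin N → Fin N → ℝ} (hs : ∀ j k, b j k = b k j)
    (h : ∀ (v : Fin N → ℝ) (k : Fin N), ∑ j, v j = 0 →
      (∀ l, ∑ j, v j * b j l ≤ ∑ j, v j * b j k) → v k ≤ 0) : NegDef b := by
  set S : Set (Fin N → ℝ) := {v | ∑ j, v j = 0 ∧ ∑ j, v j ^ 2 = 1} with hS
  have hqc : Continuous (qf b) := by
    unfold qf
    fun_prop
  -- normalisation
  have hnorm : ∀ v : Fin N → ℝ, ∑ j, v j = 0 → ∑ j, v j ^ 2 ≠ 0 →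
      (fun j => (Real.sqrt (∑ j, v j ^ 2))⁻¹ * v j) ∈ S := by
    intro v hv hv0
    have h0 : 0 ≤ ∑ j, v j ^ 2 := Finset.sum_nonneg fun j _ => sq_nonneg _
    refine ⟨?_, ?_⟩
    · rw [← Finset.mul_sum, hv, mul_zero]
    · have h1 : ∀ j, ((Real.sqrt (∑ j, v j ^ 2))⁻¹ * v j) ^ 2 = (∑ j, v j ^ 2)⁻¹ * v j ^ 2 := by
        intro j
        rw [mul_pow, inv_pow, Real.sq_sqrt h0]
      rw [Finset.sum_congr rfl fun j _ => h1 j, ← Finset.mul_sum, inv_mul_cancel₀ hv0]
  have hzero : ∀ v : Fin N → ℝ, ∑ j, v j ^ 2 = 0 → ∀ j, v j = 0 := by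
    intro v hv j
    have h1 := (Finset.sum_eq_zero_iff_of_nonneg (fun j _ => sq_nonneg (v j))).1 hv j
      (Finset.mem_univ j)
    exact pow_eq_zero_iff two_ne_zero |>.1 h1
  by_cases hne : S.Nonempty
  swap
  · refine ⟨1, one_pos, fun v hv => ?_⟩
    have h0 : ∑ j, v j ^ 2 = 0 := by
      by_contra hc
      exact hne ⟨_, hnorm v hv hc⟩
    have h1 : v = fun _ => 0 := funext (hzero v h0)
    rw [h0, h1]
    simp [qf]
  -- a maximum
  have hcomp : IsCompact S := by
    refine Metric.isCompact_of_isClosed_isBounded ?_ ?_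
    · have h1 : IsClosed {v : Fin N → ℝ | ∑ j, v j = 0} :=
        isClosed_eq (by fun_prop) continuous_const
      have h2 : IsClosed {v : Fin N → ℝ | ∑ j, v j ^ 2 = 1} :=
        isClosed_eq (by fun_prop) continuous_const
      exact h1.inter h2
    · refine (Metric.isBounded_closedBall (x := (0 : Fin N → ℝ)) (r := 1)).subset ?_
      intro v hv
      rw [mem_closedBall, dist_zero_right, pi_norm_le_iff_of_nonneg zero_le_one]
      intro j
      have h1 : v j ^ 2 ≤ 1 := by
        rw [← hv.2]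
        exact Finset.single_le_sum (fun j _ => sq_nonneg (v j)) (Finset.mem_univ j)
      rw [Real.norm_eq_abs]
      exact (sq_le_one_iff_abs_le_one _).1 h1
  obtain ⟨v, hvS, hvmax⟩ := hcomp.exists_isMaxOn hne hqc.continuousOn
  set μ : ℝ := 2 * qf b v with hμ
  have hle : ∀ w : Fin N → ℝ, ∑ j, w j = 0 → 2 * qf b w ≤ μ * ∑ j, w j ^ 2 := by
    intro w hw
    by_cases h0 : ∑ j, w j ^ 2 = 0
    · have h1 : w = fun _ => 0 := funext (hzero w h0)
      rw [h0, h1]
      simp [qf]
    · have h1 := hvmax (hnorm w hw h0)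
      have hnn : 0 ≤ ∑ j, w j ^ 2 := Finset.sum_nonneg fun j _ => sq_nonneg _
      have hpos : 0 < ∑ j, w j ^ 2 := lt_of_le_of_ne hnn (Ne.symm h0)
      have h2 : qf b (fun j => (Real.sqrt (∑ j, w j ^ 2))⁻¹ * w j) =
          (∑ j, w j ^ 2)⁻¹ * qf b w := by
        rw [qf_smul, inv_pow, Real.sq_sqrt hnn]
      have h3 : (∑ j, w j ^ 2)⁻¹ * qf b w ≤ qf b v := by
        rw [← h2]
        exact h1
      rw [inv_mul_le_iff₀ hpos] at h3
      rw [hμ]
      linarith
  -- the first order condition
  have hcrit : ∀ w : Fin N → ℝ, ∑ j, w j = 0 →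
      μ * (∑ j, v j * w j) - ∑ k, (∑ j, v j * b j k) * w k = 0 := by
    intro w hw
    apply lin_zero (B := μ * ∑ j, w j ^ 2 - 2 * qf b w)
    intro t
    have h1 := hle (fun j => v j + t * w j) (by
      rw [Finset.sum_add_distrib, ← Finset.mul_sum, hw, hvS.1]
      ring)
    rw [qf_add_smul hs, sq_add_smul, hvS.2] at h1
    linarith
  have hconst : ∀ k l, μ * v k - ∑ j, v j * b j k = μ * v l - ∑ j, v j * b j l := by
    intro k l
    by_cases hkl : k = l
    · rw [hkl]
    have h1 := hcrit (Pi.single k 1 - Pi.single l 1) (by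
      simp [Finset.sum_sub_distrib, Finset.sum_pi_single'])
    have h2 : ∀ u : Fin N → ℝ, ∑ j, u j * (Pi.single k 1 - Pi.single l 1 : Fin N → ℝ) j =
        u k - u l := by
      intro u
      simp only [Pi.sub_apply, mul_sub, Finset.sum_sub_distrib]
      rw [Finset.sum_eq_single k, Finset.sum_eq_single l]
      · simp
      · intro j _ hj
        simp [hj]
      · intro h'
        exact absurd (Finset.mem_univ l) h'
      · intro j _ hj
        simp [hj]
      · intro h'
        exact absurd (Finset.mem_univ k) h'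
    rw [h2, h2 (fun k => ∑ j, v j * b j k)] at h1
    linarith
  -- the sign
  have hμneg : μ < 0 := by
    by_contra hc
    push Not at hc
    have hNe : Nonempty (Fin N) := by
      by_contra hemp
      rw [not_nonempty_iff] at hemp
      have := hvS.2
      simp at this
    have hall : ∀ l, v l ≤ 0 := by
      obtain ⟨k, hk⟩ := Finite.exists_max (fun k => ∑ j, v j * b j k)
      have hvk := h v k hvS.1 hk
      intro l
      rcases hc.lt_or_eq with hpos | hzero'
      · have h1 := hconst k l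
        have h2 := hk l
        have h3 : μ * v l ≤ μ * v k := by linarith
        exact (le_of_mul_le_mul_left h3 hpos).trans hvk
      · apply h v l hvS.1
        intro l'
        have h1 := hconst l l'
        rw [← hzero', zero_mul, zero_mul] at h1
        linarith
    have h0 : ∀ j, v j = 0 := by
      intro j
      have h1 : ∑ j, (- v j) = 0 := by
        rw [Finset.sum_neg_distrib, hvS.1, neg_zero]
      have h2 := (Finset.sum_eq_zero_iff_of_nonneg
        (fun j _ => neg_nonneg.2 (hall j))).1 h1 j (Finset.mem_univ j)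
      linarith
    have h3 := hvS.2
    simp [h0] at h3
  refine ⟨-μ / 2, by linarith, fun w hw => ?_⟩
  have := hle w hw
  linarith

end Pool.Agent.SV
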