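import Pool.Agent.Helper53.SV.TH1

/-!
# The duplication identity and the inequality for theta series
-/

set_option autoImplicit false

open Complex Filter Topology Metric
open scoped ComplexConjugate

namespace Pool.Agent.SV

variable {N : ℕ}

/-- the parity class of an integer vector -/
def par2 (p : Fin N → ℤ) : Fin N → ZMod 2 := fun j => ((p j : ℤ) : ZMod 2)

private theorem par2_eq_iff (p q : Fin N → ℤ) :
    par2 p = par2 q ↔ ∀ j, (2 : ℤ) ∣ q j - p j := by
  constructor
  · intro h j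
    have h1 : ((p j : ℤ) : ZMod 2) = ((q j : ℤ) : ZMod 2) := congrFun h j
    exact (ZMod.intCast_eq_intCast_iff_dvd_sub (p j) (q j) 2).1 h1
  · intro h
    funext j
    exact (ZMod.intCast_eq_intCast_iff_dvd_sub (p j) (q j) 2).2 (h j)

/-- the map `(m, n) ↦ (m + n, m - n)` -/
def dupMap (a : ℤ) (x : Lam N a × Lam N 0) : Lam N a × Lam N a :=
  (⟨x.1.1 + x.2.1, by simp [Finset.sum_add_distrib, x.1.2, x.2.2]⟩,
    ⟨x.1.1 - x.2.1, by simp [Finset.sum_sub_distrib, x.1.2, x.2.2]⟩)

theorem dupMap_injective (a : ℤ) : Function.Injective (dupMap (N := N) a) := by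
  rintro ⟨m, n⟩ ⟨m', n'⟩ h
  have h1 : ∀ j, m.1 j + n.1 j = m'.1 j + n'.1 j := fun j =>
    congrFun (congrArg (fun y : Lam N a × Lam N a => y.1.1) h) j
  have h2 : ∀ j, m.1 j - n.1 j = m'.1 j - n'.1 j := fun j =>
    congrFun (congrArg (fun y : Lam N a × Lam N a => y.2.1) h) j
  have h3 : m = m' := Subtype.ext (funext fun j => by have := h1 j; have := h2 j; omega)
  have h4 : n = n' := Subtype.ext (funext fun j => by have := h1 j; have := h2 j; omega)
  rw [h3, h4]

theorem mem_range_dupMap (a : ℤ) (y : Lam N a × Lam N a) (h : par2 y.1.1 = par2 y.2.1) :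
    y ∈ Set.range (dupMap (N := N) a) := by
  rw [par2_eq_iff] at h
  choose t ht using h
  have hts : ∑ j, t j = 0 := by
    have h1 : 2 * ∑ j, t j = 0 := by
      rw [Finset.mul_sum, ← Finset.sum_congr rfl fun j _ => ht j, Finset.sum_sub_distrib,
        y.1.2, y.2.2, sub_self]
    omega
  refine ⟨(⟨fun j => y.1.1 j + t j, ?_⟩, ⟨fun j => - t j, ?_⟩), ?_⟩
  · rw [Finset.sum_add_distrib, y.1.2, hts, add_zero]
  · rw [Finset.sum_neg_distrib, hts, neg_zero]
  · apply Prod.ext
    · apply Subtype.ext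
      funext j
      show y.1.1 j + t j + - t j = y.1.1 j
      ring
    · apply Subtype.ext
      funext j
      show y.1.1 j + t j - - t j = y.2.1 j
      have := ht j
      omega

/-- the duplication identity for sums over pairs, all neutral classes -/
theorem dup_sum_gen (a : ℤ) {g h : Lam N a → ℂ} (hg : Summable (fun p => ‖g p‖))
    (hh : Summable (fun p => ‖h p‖)) :
    ∑' x : Lam N a × Lam N 0, g (dupMap a x).1 * h (dupMap a x).2
      = ∑ s : Fin N → ZMod 2,
        (∑' p : Lam N a, if par2 p.1 = s then g p else 0)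
          * (∑' p : Lam N a, if par2 p.1 = s then h p else 0) := by
  classical
  set F : Lam N a × Lam N a → ℂ := fun y =>
    if par2 y.1.1 = par2 y.2.1 then g y.1 * h y.2 else 0 with hF
  have h1 : ∀ x : Lam N a × Lam N 0, g (dupMap a x).1 * h (dupMap a x).2 = F (dupMap a x) := by
    intro x
    have h2 : par2 (dupMap a x).1.1 = par2 (dupMap a x).2.1 := by
      rw [par2_eq_iff]
      intro j
      refine ⟨- x.2.1 j, ?_⟩
      show x.1.1 j - x.2.1 j - (x.1.1 j + x.2.1 j) = 2 * - x.2.1 j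
      ring
    rw [hF]
    simp only [h2, if_true]
  rw [tsum_congr h1, (dupMap_injective a).tsum_eq (f := F)]
  swap
  · intro y hy
    apply mem_range_dupMap
    by_contra hc
    apply hy
    rw [hF]
    simp only [hc, if_false]
  have hgs : ∀ s : Fin N → ZMod 2,
      Summable (fun p : Lam N a => ‖if par2 p.1 = s then g p else 0‖) := by
    intro s
    refine Summable.of_nonneg_of_le (fun _ => norm_nonneg _) (fun p => ?_) hg
    by_cases hp : par2 p.1 = s
    · simp [hp]
    · simp [hp]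
  have hhs : ∀ s : Fin N → ZMod 2,
      Summable (fun p : Lam N a => ‖if par2 p.1 = s then h p else 0‖) := by
    intro s
    refine Summable.of_nonneg_of_le (fun _ => norm_nonneg _) (fun p => ?_) hh
    by_cases hp : par2 p.1 = s
    · simp [hp]
    · simp [hp]
  rw [Finset.sum_congr rfl fun s _ => tsum_mul_tsum_of_summable_norm (hgs s) (hhs s),
    ← Summable.tsum_finsetSum fun s _ => summable_mul_of_summable_norm (hgs s) (hhs s)]
  refine tsum_congr fun y => ?_
  rw [Finset.sum_eq_single (par2 y.1.1)]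
  · rw [hF]
    by_cases hy : par2 y.1.1 = par2 y.2.1
    · simp [hy]
    · have hy' : ¬ par2 y.2.1 = par2 y.1.1 := fun h => hy h.symm
      simp [hy, hy']
  · intro s _ hs
    have hs' : ¬ par2 y.1.1 = s := fun h => hs h.symm
    simp [hs']
  · intro h'
    exact absurd (Finset.mem_univ _) h'

/-- the duplication identity for sums over pairs -/
theorem dup_sum {g h : Lam N (-1) → ℂ} (hg : Summable (fun p => ‖g p‖))
    (hh : Summable (fun p => ‖h p‖)) :
    ∑' x : Lam N (-1) × Lam N 0,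
        g ⟨x.1.1 + x.2.1, by simp [Finset.sum_add_distrib, x.1.2, x.2.2]⟩
          * h ⟨x.1.1 - x.2.1, by simp [Finset.sum_sub_distrib, x.1.2, x.2.2]⟩
      = ∑ s : Fin N → ZMod 2,
        (∑' p : Lam N (-1), if (fun j => ((p.1 j : ℤ) : ZMod 2)) = s then g p else 0)
          * (∑' p : Lam N (-1), if (fun j => ((p.1 j : ℤ) : ZMod 2)) = s then h p else 0) :=
  dup_sum_gen (-1) hg hh

/-! ### The half exponent functions -/

/-- the functions which appear after duplication -/
noncomputable def gfun (b : Fin N → Fin N → ℝ) (β x : Fin N → ℝ) (p : Fin N → ℤ) : ℂ :=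
  exp (((qz b p / 2 + dotz p x / 2 : ℝ) : ℂ) + ((dotz p β / 2 : ℝ) : ℂ) * I)

theorem norm_gfun (b : Fin N → Fin N → ℝ) (β x : Fin N → ℝ) (p : Fin N → ℤ) :
    ‖gfun b β x p‖ = Real.exp (qz b p / 2 + dotz p x / 2) := by
  rw [gfun, norm_exp]
  congr 1
  simp

theorem dotz_le (m : Fin N → ℤ) (x : Fin N → ℝ) : |dotz m x| ≤ (∑ j, |x j|) * absz m := by
  rw [dotz, absz, Finset.mul_sum]
  refine (Finset.abs_sum_le_sum_abs _ _).trans (Finset.sum_le_sum fun j _ => ?_)
  rw [abs_mul, mul_comm]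
  exact mul_le_mul_of_nonneg_right
    (Finset.single_le_sum (fun j _ => abs_nonneg (x j)) (Finset.mem_univ j)) (abs_nonneg _)

theorem absz_nonneg' (m : Fin N → ℤ) : 0 ≤ absz m := Finset.sum_nonneg fun _ _ => abs_nonneg _

theorem dotz_add (m n : Fin N → ℤ) (x : Fin N → ℝ) : dotz (m + n) x = dotz m x + dotz n x := by
  rw [dotz, dotz, dotz, ← Finset.sum_add_distrib]
  refine Finset.sum_congr rfl fun j _ => ?_
  rw [Pi.add_apply]
  push_cast
  ring

theorem dotz_sub (m n : Fin N → ℤ) (x : Fin N → ℝ) : dotz (m - n) x = dotz m x - dotz n x := by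
  rw [dotz, dotz, dotz, ← Finset.sum_sub_distrib]
  refine Finset.sum_congr rfl fun j _ => ?_
  rw [Pi.sub_apply]
  push_cast
  ring

theorem qz_parallelogram (b : Fin N → Fin N → ℝ) (m n : Fin N → ℤ) :
    qz b (m + n) + qz b (m - n) = 2 * qz b m + 2 * qz b n := by
  simp only [qz, qf]
  rw [← add_div, ← mul_div_assoc, ← mul_div_assoc, ← add_div]
  congr 1
  rw [Finset.mul_sum, Finset.mul_sum, ← Finset.sum_add_distrib, ← Finset.sum_add_distrib]
  refine Finset.sum_congr rfl fun j _ => ?_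
  rw [Finset.mul_sum, Finset.mul_sum, ← Finset.sum_add_distrib, ← Finset.sum_add_distrib]
  refine Finset.sum_congr rfl fun k _ => ?_
  simp only [Pi.add_apply, Pi.sub_apply]
  push_cast
  ring

theorem theta_summable_x {b : Fin N → Fin N → ℝ} (hb : NegDef b) (a : ℤ) (x : Fin N → ℝ) :
    Summable (fun m : Lam N a => Real.exp (qz b m.1 + dotz m.1 x)) := by
  refine Summable.of_nonneg_of_le (fun _ => (Real.exp_pos _).le) (fun m => ?_)
    (theta_summable hb a (∑ j, |x j|))
  apply Real.exp_le_exp.2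
  have := (le_abs_self _).trans (dotz_le m.1 x)
  linarith

theorem negDef_half {b : Fin N → Fin N → ℝ} (hb : NegDef b) : NegDef (fun j k => b j k / 2) := by
  obtain ⟨κ, hκ, h⟩ := hb
  refine ⟨κ / 2, by linarith, fun v hv => ?_⟩
  have h1 := h v hv
  have h2 : qf (fun j k => b j k / 2) v = qf b v / 2 := by
    rw [qf, qf]
    congr 1
    rw [Finset.sum_div]
    refine Finset.sum_congr rfl fun j _ => ?_
    rw [Finset.sum_div]
    exact Finset.sum_congr rfl fun k _ => by ring
  rw [h2]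
  linarith

theorem qz_half (b : Fin N → Fin N → ℝ) (m : Fin N → ℤ) :
    qz (fun j k => b j k / 2) m = qz b m / 2 := by
  rw [qz, qz, qf, qf]
  congr 1
  rw [Finset.sum_div]
  refine Finset.sum_congr rfl fun j _ => ?_
  rw [Finset.sum_div]
  exact Finset.sum_congr rfl fun k _ => by ring

theorem gfun_summable {b : Fin N → Fin N → ℝ} (hb : NegDef b) (a : ℤ) (β x : Fin N → ℝ) :
    Summable (fun m : Lam N a => ‖gfun b β x m.1‖) := by
  refine (theta_summable_x (negDef_half hb) a (fun j => x j / 2)).congr fun m => ?_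
  rw [norm_gfun, qz_half]
  congr 2
  rw [dotz, dotz, Finset.sum_div]
  exact Finset.sum_congr rfl fun j _ => by ring

/-- the class sums -/
noncomputable def Tsum (b : Fin N → Fin N → ℝ) (β x : Fin N → ℝ) (a : ℤ)
    (s : Fin N → ZMod 2) : ℂ :=
  ∑' p : Lam N a, if par2 p.1 = s then gfun b β x p.1 else 0

theorem term_summable {b : Fin N → Fin N → ℝ} (hb : NegDef b) (a : ℤ) (β x : Fin N → ℝ) :
    Summable (fun m : Lam N a =>
      ‖exp (((qz b m.1 + dotz m.1 x : ℝ) : ℂ) + (dotz m.1 β : ℝ) * I)‖) := by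
  refine (theta_summable_x hb a x).congr fun m => ?_
  rw [norm_exp]
  congr 1
  simp

/-- first duplication formula -/
theorem dup_first {b : Fin N → Fin N → ℝ} (hb : NegDef b) (a : ℤ) (β x : Fin N → ℝ) :
    (∑' m : Lam N a, exp (((qz b m.1 + dotz m.1 x : ℝ) : ℂ) + (dotz m.1 β : ℝ) * I))
        * theta b 0 = ∑ s, Tsum b β x a s * Tsum b β x a s := by
  have h0 : theta b 0 = ∑' n : Lam N 0, exp (((qz b n.1 + dotz n.1 0 : ℝ) : ℂ) +
      (dotz n.1 0 : ℝ) * I) := by
    rw [theta]
    refine tsum_congr fun n => ?_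
    have h1 : dotz n.1 0 = 0 := by simp [dotz]
    rw [h1, add_zero]
  rw [h0, tsum_mul_tsum_of_summable_norm (term_summable hb a β x) (term_summable hb 0 0 0)]
  unfold Tsum
  rw [← dup_sum_gen a (g := fun p => gfun b β x p.1) (h := fun p => gfun b β x p.1)
    (gfun_summable hb a β x) (gfun_summable hb a β x)]
  refine tsum_congr fun y => ?_
  have h2 : dotz y.2.1 0 = 0 := by simp [dotz]
  show _ = gfun b β x (y.1.1 + y.2.1) * gfun b β x (y.1.1 - y.2.1)
  rw [gfun, gfun, h2, ← Complex.exp_add, ← Complex.exp_add, dotz_add, dotz_add, dotz_sub, dotz_sub]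
  congr 1
  have h3 := qz_parallelogram b y.1.1 y.2.1
  have h4 : qz b (y.1.1 + y.2.1) = 2 * qz b y.1.1 + 2 * qz b y.2.1 - qz b (y.1.1 - y.2.1) := by
    linarith
  rw [h4]
  push_cast
  ring

/-- second duplication formula -/
theorem dup_second {b : Fin N → Fin N → ℝ} (hb : NegDef b) (a : ℤ) (β x : Fin N → ℝ) :
    theta b β * ((∑' m : Lam N a, Real.exp (qz b m.1 + dotz m.1 x) : ℝ) : ℂ) =
      ((∑ s, ‖Tsum b β x a s‖ ^ 2 : ℝ) : ℂ) := by
  have h0 : theta b β = ∑' n : Lam N 0, exp (((qz b n.1 + dotz n.1 0 : ℝ) : ℂ) +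
      (dotz n.1 β : ℝ) * I) := by
    rw [theta]
    refine tsum_congr fun n => ?_
    have h1 : dotz n.1 0 = 0 := by simp [dotz]
    rw [h1, add_zero]
  have h1 : ((∑' m : Lam N a, Real.exp (qz b m.1 + dotz m.1 x) : ℝ) : ℂ) =
      ∑' m : Lam N a, exp (((qz b m.1 + dotz m.1 x : ℝ) : ℂ) + (dotz m.1 0 : ℝ) * I) := by
    rw [ofReal_tsum]
    refine tsum_congr fun n => ?_
    have h1 : dotz n.1 0 = 0 := by simp [dotz]
    rw [h1, ofReal_exp]
    simp
  have h2 : ∀ s, ((‖Tsum b β x a s‖ ^ 2 : ℝ) : ℂ) = Tsum b β x a s *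
      (∑' p : Lam N a, if par2 p.1 = s then conj (gfun b β x p.1) else 0) := by
    intro s
    have h3 : (∑' p : Lam N a, if par2 p.1 = s then conj (gfun b β x p.1) else 0) =
        conj (Tsum b β x a s) := by
      rw [Tsum, conj_tsum]
      refine tsum_congr fun p => ?_
      by_cases hp : par2 p.1 = s
      · simp [hp]
      · simp [hp]
    rw [h3, mul_conj, normSq_eq_norm_sq]
  rw [ofReal_sum, Finset.sum_congr rfl fun s _ => h2 s]
  unfold Tsum
  have hconj : Summable (fun m : Lam N a => ‖conj (gfun b β x m.1)‖) := by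
    refine (gfun_summable hb a β x).congr fun m => ?_
    rw [norm_conj]
  rw [← dup_sum_gen a (g := fun p => gfun b β x p.1) (h := fun p => conj (gfun b β x p.1))
    (gfun_summable hb a β x) hconj, h0, h1, mul_comm,
    tsum_mul_tsum_of_summable_norm (term_summable hb a 0 x) (term_summable hb 0 β 0)]
  refine tsum_congr fun y => ?_
  have h5 : dotz y.2.1 0 = 0 := by simp [dotz]
  have h6 : dotz y.1.1 0 = 0 := by simp [dotz]
  show _ = gfun b β x (y.1.1 + y.2.1) * conj (gfun b β x (y.1.1 - y.2.1))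
  rw [gfun, gfun, h5, h6, ← exp_conj, ← Complex.exp_add, ← Complex.exp_add, dotz_add, dotz_add,
    dotz_sub, dotz_sub]
  congr 1
  have h3 := qz_parallelogram b y.1.1 y.2.1
  have h4 : qz b (y.1.1 + y.2.1) = 2 * qz b y.1.1 + 2 * qz b y.2.1 - qz b (y.1.1 - y.2.1) := by
    linarith
  rw [h4, map_add, map_mul, conj_ofReal, conj_ofReal, conj_I]
  push_cast
  ring

/-- the inequality for all classes -/
theorem theta_ineq_gen {b : Fin N → Fin N → ℝ} (hb : NegDef b) (a : ℤ) (β x : Fin N → ℝ) :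
    ‖∑' m : Lam N a, exp (((qz b m.1 + dotz m.1 x : ℝ) : ℂ) + (dotz m.1 β : ℝ) * I)‖
        * ‖theta b 0‖
      ≤ ‖theta b β‖ * ∑' m : Lam N a, Real.exp (qz b m.1 + dotz m.1 x) := by
  have hnn : 0 ≤ ∑' m : Lam N a, Real.exp (qz b m.1 + dotz m.1 x) :=
    tsum_nonneg fun _ => (Real.exp_pos _).le
  have h1 : ‖theta b β‖ * ∑' m : Lam N a, Real.exp (qz b m.1 + dotz m.1 x) =
      ∑ s, ‖Tsum b β x a s‖ ^ 2 := by
    have h2 := congrArg norm (dup_second hb a β x)
    rw [norm_mul, norm_real, norm_real, Real.norm_of_nonneg hnn,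
      Real.norm_of_nonneg (Finset.sum_nonneg fun s _ => sq_nonneg _)] at h2
    exact h2
  rw [h1, ← norm_mul, dup_first hb a β x]
  refine (norm_sum_le _ _).trans (Finset.sum_le_sum fun s _ => ?_)
  rw [norm_mul, sq]

theorem theta_ineq {b : Fin N → Fin N → ℝ} (hb : NegDef b) (β x : Fin N → ℝ) :
    ‖∑' m : Lam N (-1), exp (((qz b m.1 + dotz m.1 x : ℝ) : ℂ) + (dotz m.1 β : ℝ) * I)‖
        * ‖theta b 0‖
      ≤ ‖theta b β‖ * ∑' m : Lam N (-1), Real.exp (qz b m.1 + dotz m.1 x) :=
  theta_ineq_gen hb (-1) β x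

end Pool.Agent.SV
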