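import Pool.Agent.Helper53.SV.TH2

/-!
# Positivity of the theta series
-/

set_option autoImplicit false

open Complex Filter Topology Metric
open scoped ComplexConjugate

namespace Pool.Agent.SV

variable {N : ℕ}

/-- the real sum over neutral vectors -/
private theorem theta_zero_eq {b : Fin N → Fin N → ℝ} :
    theta b 0 = ((∑' m : Lam N 0, Real.exp (qz b m.1 + dotz m.1 0) : ℝ) : ℂ) := by
  rw [theta, ofReal_tsum]
  refine tsum_congr fun m => ?_
  have h1 : dotz m.1 0 = 0 := by simp [dotz]
  rw [h1, ofReal_exp]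
  simp

private theorem theta_zero_pos {b : Fin N → Fin N → ℝ} (hb : NegDef b) :
    0 < ∑' m : Lam N 0, Real.exp (qz b m.1 + dotz m.1 0) :=
  (theta_summable_x hb 0 0).tsum_pos (fun _ => (Real.exp_pos _).le)
    (⟨0, by simp⟩ : Lam N 0) (Real.exp_pos _)

/-- the entire function on the complex line through `β` -/
private noncomputable def Gf (b : Fin N → Fin N → ℝ) (β : Fin N → ℝ) (z : ℂ) : ℂ :=
  ∑' m : Lam N 0, exp (((qz b m.1 : ℝ) : ℂ) + z * (dotz m.1 β : ℝ))

private theorem Gf_diff {b : Fin N → Fin N → ℝ} (hb : NegDef b) (β : Fin N → ℝ) :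
    DifferentiableOn ℂ (Gf b β) (ball 0 2) := by
  unfold Gf
  refine differentiableOn_tsum_of_summable_norm
    (theta_summable hb 0 (2 * ∑ j, |β j|)) (fun m => ?_) isOpen_ball (fun m z hz => ?_)
  · fun_prop
  · rw [norm_exp]
    apply Real.exp_le_exp.2
    have h1 : (((qz b m.1 : ℝ) : ℂ) + z * (dotz m.1 β : ℝ)).re =
        qz b m.1 + z.re * dotz m.1 β := by
      simp
    rw [h1]
    have h2 : z.re * dotz m.1 β ≤ 2 * (∑ j, |β j|) * absz m.1 := by
      refine (le_abs_self _).trans ?_
      rw [abs_mul, mul_assoc]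
      have h3 : |z.re| ≤ 2 := by
        refine (Complex.abs_re_le_norm z).trans ?_
        rw [mem_ball, dist_zero_right] at hz
        exact hz.le
      exact mul_le_mul h3 (dotz_le m.1 β) (abs_nonneg _) (by norm_num)
    linarith

theorem theta_pos {b : Fin N → Fin N → ℝ} (hb : NegDef b) (β : Fin N → ℝ) :
    ∃ t : ℝ, 0 < t ∧ theta b β = (t : ℂ) := by
  set P : ℝ := ∑' m : Lam N 0, Real.exp (qz b m.1 + dotz m.1 0) with hP
  have hP0 : 0 < P := theta_zero_pos hb
  set R : ℝ := ∑ s, ‖Tsum b β 0 0 s‖ ^ 2 with hR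
  have hR0 : 0 ≤ R := Finset.sum_nonneg fun s _ => sq_nonneg _
  have h1 : theta b β * (P : ℂ) = (R : ℂ) := dup_second hb 0 β 0
  have hPc : (P : ℂ) ≠ 0 := ofReal_ne_zero.2 hP0.ne'
  have h2 : theta b β = ((R / P : ℝ) : ℂ) := by
    rw [ofReal_div, eq_div_iff hPc]
    exact h1
  refine ⟨R / P, ?_, h2⟩
  refine lt_of_le_of_ne (div_nonneg hR0 hP0.le) (fun h0 => ?_)
  have hθ : theta b β = 0 := by rw [h2, ← h0, ofReal_zero]
  -- vanishing on a line
  have hline : ∀ t : ℝ, Gf b β (I - t) = 0 := by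
    intro t
    have h3 := theta_ineq_gen hb 0 β (fun j => - t * β j)
    rw [hθ, norm_zero, zero_mul] at h3
    have h4 : 0 < ‖theta b 0‖ := by
      rw [theta_zero_eq, norm_real, Real.norm_of_nonneg hP0.le]
      exact hP0
    have h5 : ‖∑' m : Lam N 0, exp (((qz b m.1 + dotz m.1 (fun j => - t * β j) : ℝ) : ℂ) +
        (dotz m.1 β : ℝ) * I)‖ = 0 := by
      by_contra hc
      have h6 := lt_of_le_of_ne (norm_nonneg _) (Ne.symm hc)
      have h7 := mul_pos h6 h4
      linarith
    rw [norm_eq_zero] at h5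
    rw [Gf, ← h5]
    refine tsum_congr fun m => ?_
    have h8 : dotz m.1 (fun j => - t * β j) = - t * dotz m.1 β := by
      rw [dotz, dotz, Finset.mul_sum]
      exact Finset.sum_congr rfl fun j _ => by ring
    rw [h8]
    congr 1
    push_cast
    ring
  have hfreq : ∃ᶠ z in 𝓝[≠] I, Gf b β z = 0 := by
    have ht : Tendsto (fun t : ℝ => I - (t : ℂ)) (𝓝[≠] 0) (𝓝[≠] I) := by
      apply tendsto_nhdsWithin_of_tendsto_nhds_of_eventually_within
      · have h3 : Continuous (fun t : ℝ => I - (t : ℂ)) := by fun_prop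
        have h4 := h3.tendsto 0
        rw [ofReal_zero, sub_zero] at h4
        exact h4.mono_left nhdsWithin_le_nhds
      · filter_upwards [self_mem_nhdsWithin] with t ht
        intro h
        apply ht
        have h5 : I - (t : ℂ) = I := h
        have h6 : (t : ℂ) = 0 := by
          have := sub_eq_self.1 h5
          exact this
        exact ofReal_eq_zero.1 h6
    exact ht.frequently (Eventually.frequently (Eventually.of_forall hline))
  have hI : I ∈ ball (0 : ℂ) 2 := by
    rw [mem_ball, dist_zero_right, norm_I]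
    norm_num
  have hana : AnalyticOnNhd ℂ (Gf b β) (ball 0 2) :=
    (Gf_diff hb β).analyticOnNhd isOpen_ball
  have hzero := hana.eqOn_zero_of_preconnected_of_frequently_eq_zero
    (convex_ball (0 : ℂ) 2).isPreconnected hI hfreq
  have h9 : Gf b β 0 = 0 := hzero (mem_ball_self (by norm_num))
  have h10 : Gf b β 0 = theta b 0 := by
    rw [Gf, theta]
    refine tsum_congr fun m => ?_
    have h11 : dotz m.1 0 = 0 := by simp [dotz]
    rw [h11]
    simp
  rw [h10, theta_zero_eq] at h9
  exact hP0.ne' (ofReal_eq_zero.1 h9)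

end Pool.Agent.SV
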