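import Pool.Agent.Helper53.SV.Reg
import Pool.Agent.Helper53.SV.TH1
import Pool.Agent.Helper53.SV.TH2
import Pool.Agent.Helper53.SV.TH3
import Pool.Agent.Helper53.SV.PDa
import Pool.Agent.Helper53.SV.PDb
import Pool.Agent.Helper53.SV.K1a
import Pool.Agent.Helper53.SV.K1b

/-!
# The kernels from theta series (SV-K1)
-/

set_option autoImplicit false

open Complex Filter Topology Metric
open scoped ComplexConjugate

namespace Pool.Agent.SV

variable {N : ℕ}

theorem negDef_b (c : Config N) (D : FunData c) : NegDef D.b :=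
  negDef_of_flux D.hb fun v k hv hk => flux_sign c D v hv k hk

theorem k1_reg_const (c : Config N) (A : ℂ) : Reg c (fun _ => A) A :=
  ⟨differentiableOn_const _, continuousOn_const, tendsto_const_nhds⟩

theorem k1_phi_ne {c : Config N} (D : FunData c) (j : Fin N) {w : ℂ} (hw : w ∈ Far c) :
    phi D j w ≠ 0 := by
  refine mul_ne_zero ?_ (exp_ne_zero _)
  intro h
  have h1 := hw j
  rw [h, norm_zero] at h1
  have := c.hr j
  linarith

theorem k1_Phi_ne {c : Config N} (D : FunData c) (m : Fin N → ℤ) {w : ℂ} (hw : w ∈ Far c) :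
    Phi D m w ≠ 0 :=
  Finset.prod_ne_zero_iff.2 fun j _ => zpow_ne_zero _ (k1_phi_ne D j hw)

theorem k1_norm_Phi {c : Config N} (D : FunData c) (m : Fin N → ℤ) {w : ℂ} (hw : w ∈ Far c) :
    ‖Phi D m w‖ = Real.exp (dotz m (fun j => Real.log ‖phi D j w‖)) := by
  rw [Phi, norm_prod, dotz, Real.exp_sum]
  refine Finset.prod_congr rfl fun j _ => ?_
  have h : 0 < ‖phi D j w‖ := norm_pos_iff.2 (k1_phi_ne D j hw)
  rw [norm_zpow, ← Real.rpow_intCast, Real.rpow_def_of_pos h, mul_comm]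

theorem k1_dotz_le (m : Fin N → ℤ) (x : Fin N → ℝ) :
    |dotz m x| ≤ (∑ j, |x j|) * absz m := by
  rw [dotz, absz, Finset.mul_sum]
  refine (Finset.abs_sum_le_sum_abs _ _).trans (Finset.sum_le_sum fun j _ => ?_)
  rw [abs_mul, mul_comm]
  refine mul_le_mul_of_nonneg_right ?_ (abs_nonneg _)
  exact Finset.single_le_sum (f := fun j => |x j|) (fun j _ => abs_nonneg _) (Finset.mem_univ j)

theorem k1_coef (b : Fin N → Fin N → ℝ) (β : Fin N → ℝ) (m : Fin N → ℤ) :
    ‖exp ((qz b m : ℝ) + (dotz m β : ℝ) * I)‖ = Real.exp (qz b m) := by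
  rw [Complex.norm_exp]
  simp

/-- the multiplier of the Szego type kernel -/
noncomputable def kQ {c : Config N} (D : FunData c) (w z : ℂ) : ℂ :=
  exp ((-1) * D.e z + (-1) * D.mu w z + conj (D.e w + D.lam w w))

/-- the multiplier of the Garabedian type kernel -/
noncomputable def kP {c : Config N} (D : FunData c) (w z : ℂ) : ℂ :=
  exp ((-1) * D.e z + (-1) * D.lam w z + (D.e w + D.lam w w))

/-- series of the Szego type kernel -/
noncomputable def kS {c : Config N} (D : FunData c) (w : ℂ) (β : Fin N → ℝ) (z : ℂ) : ℂ :=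
  ∑' m : Lam N (-1), (exp ((qz D.b m.1 : ℝ) + (dotz m.1 β : ℝ) * I)
        * conj (Phi D m.1 w)) * Phi D m.1 z

/-- series of the Garabedian type kernel -/
noncomputable def kH {c : Config N} (D : FunData c) (w : ℂ) (β : Fin N → ℝ) (z : ℂ) : ℂ :=
  ∑' m : Lam N 0, (exp ((qz D.b m.1 : ℝ) + (dotz m.1 β : ℝ) * I)
          * (Phi D m.1 w)⁻¹) * Phi D m.1 z

theorem k1_kS_reg {c : Config N} (D : FunData c) {w : ℂ} (hw : w ∈ Far c) (β : Fin N → ℝ) :
    Reg c (kS D w β) 0 := by
  refine (series_reg c D (negDef_b c D)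
    (fun m => exp ((qz D.b m : ℝ) + (dotz m β : ℝ) * I) * conj (Phi D m w))
    (∑ j, |Real.log ‖phi D j w‖|) ?_).2
  intro m
  rw [norm_mul, k1_coef, RCLike.norm_conj, k1_norm_Phi D m hw, ← Real.exp_add]
  refine Real.exp_le_exp.2 (add_le_add le_rfl ((le_abs_self _).trans (k1_dotz_le _ _)))

theorem k1_kH_reg {c : Config N} (D : FunData c) {w : ℂ} (hw : w ∈ Far c) (β : Fin N → ℝ) :
    ∃ A, Reg c (kH D w β) A := by
  refine (series_reg c D (negDef_b c D)
    (fun m => exp ((qz D.b m : ℝ) + (dotz m β : ℝ) * I) * (Phi D m w)⁻¹)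
    (∑ j, |Real.log ‖phi D j w‖|) ?_).1
  intro m
  rw [norm_mul, k1_coef, norm_inv, k1_norm_Phi D m hw, ← Real.exp_neg, ← Real.exp_add]
  refine Real.exp_le_exp.2 (add_le_add le_rfl ((neg_le_abs _).trans (k1_dotz_le _ _)))

theorem k1_kH_self {c : Config N} (D : FunData c) {w : ℂ} (hw : w ∈ Far c) (β : Fin N → ℝ) :
    kH D w β w = theta D.b β := by
  rw [kH, theta]
  refine tsum_congr fun m => ?_
  rw [mul_assoc, inv_mul_cancel₀ (k1_Phi_ne D m.1 hw), mul_one]

theorem k1_kS_self {c : Config N} (D : FunData c) {w : ℂ} (hw : w ∈ Far c) (β : Fin N → ℝ) :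
    kS D w β w = ∑' m : Lam N (-1), exp (((qz D.b m.1 +
      dotz m.1 (fun j => 2 * Real.log ‖phi D j w‖) : ℝ) : ℂ) + (dotz m.1 β : ℝ) * I) := by
  rw [kS]
  refine tsum_congr fun m => ?_
  have h1 : conj (Phi D m.1 w) * Phi D m.1 w =
      exp ((dotz m.1 (fun j => 2 * Real.log ‖phi D j w‖) : ℝ) : ℂ) := by
    rw [Complex.conj_mul', k1_norm_Phi D m.1 hw, ← ofReal_pow, ← Real.exp_nat_mul, ← ofReal_exp]
    congr 2
    simp only [dotz, Finset.mul_sum]
    refine Finset.sum_congr rfl fun j _ => ?_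
    push_cast
    ring
  rw [mul_assoc, h1, ← exp_add]
  congr 1
  push_cast
  ring

/-- the exponential identity on the circles -/
theorem k1_bd {c : Config N} (D : FunData c) {w : ℂ} (hw : w ∈ Far c) (i : Fin N) {z : ℂ}
    (hz : ‖z - c.p i‖ = c.r i) :
    conj (kQ D w z) * (Real.exp (- D.b i i / 2) * (phi D i z / phi D i w))
      = - (((z - c.p i) / c.r i) * (kP D w z / (z - w))) := by
  have hr := c.hr i
  have hrc : (c.r i : ℂ) ≠ 0 := ofReal_ne_zero.2 hr.ne'
  have hwp : w - c.p i ≠ 0 := by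
    intro h
    have h1 := hw i
    rw [h, norm_zero] at h1
    linarith
  have hwz : z - w ≠ 0 := by
    intro h
    have h1 := hw i
    rw [← sub_eq_zero.1 h, hz] at h1
    linarith
  have hpw : c.p i - w ≠ 0 := by
    rw [← neg_sub]
    exact neg_ne_zero.2 hwp
  -- the constant
  have hb : ((Real.exp (- D.b i i / 2) : ℝ) : ℂ) = exp (-((D.E i z).re : ℂ)) / c.r i := by
    rw [← D.bdE i i z hz, hz]
    have h1 : -(2 * (D.E i z).re + 2 * Real.log (c.r i)) / 2
        = -(D.E i z).re - Real.log (c.r i) := by ring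
    rw [h1, Real.exp_sub, Real.exp_log hr, ofReal_div, ofReal_exp, ofReal_neg]
  have hE : exp (D.E i z) = exp ((D.E i z).re : ℂ) * exp (conj (D.e z) - D.e z) := by
    rw [← exp_add]
    congr 1
    apply Complex.ext
    · simp
    · have h2 := D.bde i z hz
      simp only [add_im, ofReal_im, sub_im, conj_im]
      linarith
  have hlm := D.bdlm w hw i z hz
  have hQ : conj (kQ D w z) = exp (-conj (D.e z) - conj (D.mu w z) + (D.e w + D.lam w w)) := by
    rw [kQ, ← exp_conj]
    congr 1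
    simp only [map_add, map_mul, map_neg, map_one, conj_conj]
    ring
  have hP : kP D w z = exp (-conj (D.e z) - conj (D.mu w z) + (D.e w + D.lam w w)) *
      (exp (conj (D.e z) - D.e z) * exp (conj (D.mu w z) - D.lam w z)) := by
    rw [kP, ← exp_add, ← exp_add]
    congr 1
    ring
  rw [hQ, hP, hb, phi, phi, hE, hlm, exp_neg, exp_neg]
  have e1 := exp_ne_zero ((D.E i z).re : ℂ)
  have e2 := exp_ne_zero (D.E i w)
  field_simp
  rw [← neg_sub w (c.p i)]
  field_simp

/-- `theta_kernel`, given the functions from the word part -/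
theorem theta_kernel_of {c : Config N} (D : FunData c) (hN : 0 < N) {w : ℂ} (hw : w ∈ Far c) :
    ∃ S l : (Fin N → ℝ) → ℂ → ℂ, (∀ β, IsKer c β w (S β) (l β)) ∧
      (∀ β, ‖S β w‖ ≤ ‖S 0 w‖) ∧ S 0 w ≠ 0 := by
  have hneg := negDef_b c D
  have hwO := Far_subset_Om c hw
  -- regularity of the multipliers
  have hQR : Reg c (kQ D w) (exp ((-1) * 0 + (-1) * 0 + conj (D.e w + D.lam w w))) :=
    ((D.he.const_mul (-1)).add ((D.hmu w hw).const_mul (-1))).add (k1_reg_const c _) |>.exp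
  have hPR : Reg c (kP D w) (exp ((-1) * 0 + (-1) * 0 + (D.e w + D.lam w w))) :=
    ((D.he.const_mul (-1)).add ((D.hlam w hw).const_mul (-1))).add (k1_reg_const c _) |>.exp
  have hth : ∀ β, theta D.b β ≠ 0 := by
    intro β
    obtain ⟨t, ht, h⟩ := theta_pos hneg β
    rw [h]
    exact ofReal_ne_zero.2 ht.ne'
  have hthc : ∀ β, conj (theta D.b β) = theta D.b β := by
    intro β
    obtain ⟨t, ht, h⟩ := theta_pos hneg β
    rw [h, conj_ofReal]
  refine ⟨fun β z => (theta D.b β)⁻¹ * (kQ D w z * kS D w β z),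
    fun β => dslope (fun z => (theta D.b β)⁻¹ * (kP D w z * kH D w β z)) w, ?_, ?_, ?_⟩
  · intro β
    obtain ⟨A, hA⟩ := k1_kH_reg D hw β
    refine ⟨?_, ?_, ?_⟩
    · have h1 := (hQR.mul (k1_kS_reg D hw β)).const_mul (theta D.b β)⁻¹
      simpa using h1
    · exact ((hPR.mul hA).const_mul _).dslope hwO
    · intro i z hz
      have hzw : z ≠ w := by
        intro h
        have h1 := hw i
        rw [← h, hz] at h1
        have := c.hr i
        linarith
      have hzw' : z - w ≠ 0 := sub_ne_zero.2 hzw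
      have hHw : (theta D.b β)⁻¹ * (kP D w w * kH D w β w) = 1 := by
        rw [k1_kH_self D hw, kP]
        have h2 : (-1) * D.e w + (-1) * D.lam w w + (D.e w + D.lam w w) = 0 := by ring
        rw [h2, exp_zero, one_mul, inv_mul_cancel₀ (hth β)]
      have hL : Lf w (dslope (fun z => (theta D.b β)⁻¹ * (kP D w z * kH D w β z)) w) z =
          (theta D.b β)⁻¹ * (kP D w z * kH D w β z) / (z - w) := by
        rw [Lf, dslope_of_ne _ hzw, slope_def_field, hHw]
        field_simp
        ring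
      have hs := series_bd c D β hw i z hz
      rw [hL, map_mul, map_mul, map_inv₀, hthc]
      change (theta D.b β)⁻¹ * (conj (kQ D w z) * conj (kS D w β z)) = _
      have hs' : conj (kS D w β z) = exp (β i * I) * Real.exp (- D.b i i / 2) *
        (phi D i z / phi D i w) * kH D w β z := hs
      rw [hs']
      have hb := k1_bd D hw i hz
      calc _ = (theta D.b β)⁻¹ * exp (β i * I) * kH D w β z *
            (conj (kQ D w z) * (Real.exp (- D.b i i / 2) * (phi D i z / phi D i w))) := by ring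
        _ = _ := by
            rw [hb]
            field_simp
  · intro β
    dsimp only
    rw [norm_mul, norm_mul, norm_mul, norm_mul, k1_kS_self D hw, k1_kS_self D hw, norm_inv,
      norm_inv]
    have h1 := theta_ineq hneg β (fun j => 2 * Real.log ‖phi D j w‖)
    have h2 : ‖∑' m : Lam N (-1), exp (((qz D.b m.1 +
        dotz m.1 (fun j => 2 * Real.log ‖phi D j w‖) : ℝ) : ℂ) +
          (dotz m.1 (0 : Fin N → ℝ) : ℝ) * I)‖ =
        ∑' m : Lam N (-1), Real.exp (qz D.b m.1 +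
          dotz m.1 (fun j => 2 * Real.log ‖phi D j w‖)) := by
      have h3 : ∀ m : Lam N (-1), exp (((qz D.b m.1 +
        dotz m.1 (fun j => 2 * Real.log ‖phi D j w‖) : ℝ) : ℂ) +
          (dotz m.1 (0 : Fin N → ℝ) : ℝ) * I) = ((Real.exp (qz D.b m.1 +
          dotz m.1 (fun j => 2 * Real.log ‖phi D j w‖)) : ℝ) : ℂ) := by
        intro m
        have h4 : dotz m.1 (0 : Fin N → ℝ) = 0 := by simp [dotz]
        rw [h4, ofReal_zero, zero_mul, add_zero, ofReal_exp]
      simp only [h3]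
      rw [← ofReal_tsum, norm_real, Real.norm_of_nonneg]
      exact tsum_nonneg fun m => (Real.exp_pos _).le
    rw [h2]
    have h5 : 0 < ‖theta D.b β‖ := norm_pos_iff.2 (hth β)
    have h6 : 0 < ‖theta D.b 0‖ := norm_pos_iff.2 (hth 0)
    have h7 : ‖∑' m : Lam N (-1), exp (((qz D.b m.1 +
        dotz m.1 (fun j => 2 * Real.log ‖phi D j w‖) : ℝ) : ℂ) + (dotz m.1 β : ℝ) * I)‖ *
          ‖theta D.b β‖⁻¹ ≤ (∑' m : Lam N (-1), Real.exp (qz D.b m.1 +
          dotz m.1 (fun j => 2 * Real.log ‖phi D j w‖))) * ‖theta D.b 0‖⁻¹ := by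
      rw [← div_eq_mul_inv, ← div_eq_mul_inv, div_le_div_iff₀ h5 h6, mul_comm (tsum _)]
      exact h1
    calc _ = ‖kQ D w w‖ * (‖∑' m : Lam N (-1), exp (((qz D.b m.1 +
        dotz m.1 (fun j => 2 * Real.log ‖phi D j w‖) : ℝ) : ℂ) + (dotz m.1 β : ℝ) * I)‖ *
          ‖theta D.b β‖⁻¹) := by ring
      _ ≤ ‖kQ D w w‖ * ((∑' m : Lam N (-1), Real.exp (qz D.b m.1 +
          dotz m.1 (fun j => 2 * Real.log ‖phi D j w‖))) * ‖theta D.b 0‖⁻¹) :=
        mul_le_mul_of_nonneg_left h7 (norm_nonneg _)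
      _ = _ := by ring
  · dsimp only
    refine mul_ne_zero (inv_ne_zero (hth 0)) (mul_ne_zero (exp_ne_zero _) ?_)
    rw [k1_kS_self D hw]
    have h3 : ∀ m : Lam N (-1), exp (((qz D.b m.1 +
        dotz m.1 (fun j => 2 * Real.log ‖phi D j w‖) : ℝ) : ℂ) +
          (dotz m.1 (0 : Fin N → ℝ) : ℝ) * I) = ((Real.exp (qz D.b m.1 +
          dotz m.1 (fun j => 2 * Real.log ‖phi D j w‖)) : ℝ) : ℂ) := by
      intro m
      have h4 : dotz m.1 (0 : Fin N → ℝ) = 0 := by simp [dotz]
      rw [h4, ofReal_zero, zero_mul, add_zero, ofReal_exp]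
    simp only [h3]
    rw [← ofReal_tsum]
    refine ofReal_ne_zero.2 (ne_of_gt ?_)
    have hsum : Summable (fun m : Lam N (-1) => Real.exp (qz D.b m.1 +
          dotz m.1 (fun j => 2 * Real.log ‖phi D j w‖))) := by
      refine Summable.of_nonneg_of_le (fun m => (Real.exp_pos _).le) (fun m => ?_)
        (theta_summable hneg (-1) (∑ j, |2 * Real.log ‖phi D j w‖|))
      exact Real.exp_le_exp.2 (add_le_add le_rfl ((le_abs_self _).trans (k1_dotz_le _ _)))
    have m0 : Lam N (-1) := ⟨fun j => if j = ⟨0, hN⟩ then -1 else 0, by simp⟩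
    exact hsum.tsum_pos (fun m => (Real.exp_pos _).le) m0 (Real.exp_pos _)

end Pool.Agent.SV
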