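import Pool.Agent.Helper53.SV.Reg

/-!
# K2: the multiplicative function
-/

set_option autoImplicit false

open Complex Filter Topology Metric
open scoped ComplexConjugate

namespace Pool.Agent.SV

variable {N : ℕ}

theorem k2_phase {Y : ℂ} (hY : Y ≠ 0) :
    Y / conj Y = Complex.exp (- (((-2 * Y.arg : ℝ) : ℂ) * I)) := by
  have h1 : Y = (‖Y‖ : ℂ) * Complex.exp (Y.arg * I) := (Complex.norm_mul_exp_arg_mul_I Y).symm
  have h2 : conj Y = (‖Y‖ : ℂ) * Complex.exp (-(Y.arg * I)) := by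
    conv_lhs => rw [h1]
    rw [map_mul, Complex.conj_ofReal, ← Complex.exp_conj, map_mul, Complex.conj_ofReal,
      Complex.conj_I]
    congr 2
    ring
  have h3 : (‖Y‖ : ℂ) ≠ 0 := by
    exact_mod_cast (norm_pos_iff.2 hY).ne'
  rw [h2]
  conv_lhs => rw [h1]
  rw [norm_mul, Complex.norm_real, norm_norm, Complex.norm_exp_ofReal_mul_I, mul_one,
    mul_div_mul_left _ _ h3, ← Complex.exp_sub]
  congr 1
  have h4 : ((‖Y‖ : ℂ) * Complex.exp (Y.arg * I)).arg = Y.arg := by rw [← h1]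
  try rw [h4]
  push_cast
  ring

theorem k2_far_ne (c : Config N) {a : ℂ} (ha : a ∈ Far c) (k : Fin N) {z : ℂ}
    (hz : ‖z - c.p k‖ = c.r k) : z - a ≠ 0 ∧ c.p k - a ≠ 0 := by
  have h1 := ha k
  have h2 := c.hr k
  constructor
  · intro h
    rw [sub_eq_zero] at h
    rw [← h, hz] at h1
    linarith
  · intro h
    rw [sub_eq_zero] at h
    rw [← h, sub_self, norm_zero] at h1
    linarith

theorem exists_R (c : Config N) (D : FunData c) {a b : ℂ} (ha : a ∈ Far c) (hb : b ∈ Far c) :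
    ∃ (R : ℂ → ℂ) (β : Fin N → ℝ), Reg c R 1 ∧ (∀ z ∈ Omc c, R z ≠ 0) ∧
      ∀ k z, ‖z - c.p k‖ = c.r k →
        conj ((z - a) / (z - b) * R z) = exp (- (β k * I)) * ((z - a) / (z - b) * R z) := by
  have hf := ((D.hlam a ha).sub (D.hlam b hb)).add ((D.hmu a ha).sub (D.hmu b hb))
  have hR := hf.exp
  rw [sub_zero, add_zero, Complex.exp_zero] at hR
  refine ⟨_, fun k => -2 * ((c.p k - b) / (c.p k - a) * exp (D.E k b - D.E k a)).arg, hR,
    fun z _ => Complex.exp_ne_zero _, ?_⟩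
  intro k z hz
  obtain ⟨hza, hpa⟩ := k2_far_ne c ha k hz
  obtain ⟨hzb, hpb⟩ := k2_far_ne c hb k hz
  set Y : ℂ := (c.p k - b) / (c.p k - a) * exp (D.E k b - D.E k a) with hY
  have hY0 : Y ≠ 0 := mul_ne_zero (div_ne_zero hpb hpa) (Complex.exp_ne_zero _)
  rw [← k2_phase hY0]
  have hA := D.bdlm a ha k z hz
  have hB := D.bdlm b hb k z hz
  have hA' : conj (exp (conj (D.mu a z) - D.lam a z)) =
      conj ((z - a) / (c.p k - a) * exp (- D.E k a)) := by rw [hA]
  have hB' : conj (exp (conj (D.mu b z) - D.lam b z)) =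
      conj ((z - b) / (c.p k - b) * exp (- D.E k b)) := by rw [hB]
  set F : ℂ := exp (D.lam a z - D.lam b z + (D.mu a z - D.mu b z)) with hF
  -- conj F in terms of F
  have h1 : conj F * (conj ((z - a) / (c.p k - a) * exp (- D.E k a)) *
      ((z - b) / (c.p k - b) * exp (- D.E k b))) =
      F * ((z - a) / (c.p k - a) * exp (- D.E k a) *
        conj ((z - b) / (c.p k - b) * exp (- D.E k b))) := by
    rw [← hA, ← hB, hF]
    simp only [← Complex.exp_conj, ← Complex.exp_add, map_add, map_sub, Complex.conj_conj]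
    congr 1
    ring
  have hca : conj (z - a) ≠ 0 := (map_ne_zero _).2 hza
  have hcb : conj (z - b) ≠ 0 := (map_ne_zero _).2 hzb
  have hcpa : conj (c.p k - a) ≠ 0 := (map_ne_zero _).2 hpa
  have hcpb : conj (c.p k - b) ≠ 0 := (map_ne_zero _).2 hpb
  have ea := Complex.exp_ne_zero (D.E k a)
  have eb := Complex.exp_ne_zero (D.E k b)
  have cea : conj (exp (D.E k a)) ≠ 0 := (map_ne_zero _).2 ea
  have ceb : conj (exp (D.E k b)) ≠ 0 := (map_ne_zero _).2 eb
  simp only [map_mul, map_div₀, Complex.exp_neg, map_inv₀] at h1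
  rw [hY]
  simp only [map_mul, map_div₀, Complex.exp_sub]
  rw [div_mul_eq_mul_div, div_eq_iff hcb]
  field_simp at h1 ⊢
  linear_combination h1

end Pool.Agent.SV
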