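import Pool.Agent.Helper53.SV.H2
import Pool.Agent.Helper53.SV.K1
import Pool.Agent.Helper53.SV.K2
import Pool.Agent.Helper53.SV.CN

/-!
SV-F2: the quantity `|L|^2 - |S|^2` of a kernel pair is positive. The function data `D` is an
explicit hypothesis.
-/

set_option autoImplicit false

open Complex Filter Topology Metric
open scoped ComplexConjugate

namespace Pool.Agent.SV

variable {N : ℕ}

private lemma f2_tau (c : Config N) {k : Fin N} {z : ℂ} (hz : ‖z - c.p k‖ = c.r k) :
    ((z - c.p k) / c.r k) * conj ((z - c.p k) / c.r k) = 1 := by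
  have h2 := c.hr k
  rw [Complex.mul_conj, Complex.normSq_eq_norm_sq, norm_div, hz, Complex.norm_real,
    Real.norm_eq_abs, abs_of_pos h2, div_self h2.ne']
  simp

private lemma f2_circle_ne (c : Config N) {b : ℂ} (hb : b ∈ Far c) {k : Fin N} {z : ℂ}
    (hz : ‖z - c.p k‖ = c.r k) : z ≠ b := by
  rintro rfl
  have h1 := hb k
  have h2 := c.hr k
  linarith

/-- a regular function multiplied by `z - b` plus a constant is regular -/
private lemma f2_reg {c : Config N} {f : ℂ → ℂ} (hf : Reg c f 0) (b y : ℂ) :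
    ∃ A, Reg c (fun z => (z - b) * f z + y) A := by
  obtain ⟨A, hA⟩ := hf.exists_coeff
  refine ⟨A - b * 0 + y, ?_, ?_, ?_⟩
  · exact (((differentiable_id.sub_const b).differentiableOn).mul hf.diff).add_const y
  · exact (((continuous_id.sub continuous_const).continuousOn).mul hf.cont).add
      continuousOn_const
  · have h1 : (fun z => (z - b) * f z + y) = fun z => z * f z - b * f z + y := by
      funext z; ring
    rw [h1]
    exact (hA.sub (hf.lim.const_mul b)).add_const y

private lemma f2_inv {c : Config N} {R : ℂ → ℂ} (hR : Reg c R 1) (hR0 : ∀ z ∈ Omc c, R z ≠ 0) :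
    Reg c (fun z => (R z)⁻¹) 1 := by
  refine ⟨?_, ?_, ?_⟩
  · exact hR.diff.inv fun z hz => hR0 z (Om_subset_Omc c hz)
  · exact hR.cont.inv₀ hR0
  · have := hR.lim.inv₀ one_ne_zero
    rwa [inv_one] at this

theorem D_ne_zero_of (c : Config N) (D : FunData c) (hN : 0 < N) {a b : ℂ} (ha : a ∈ Far c)
    (hb : b ∈ Far c) (hab : a ≠ b) {Sb lb : ℂ → ℂ} (hKb : IsKer c 0 b Sb lb) :
    ‖Lf b lb a‖ ≠ ‖Sb a‖ := by
  intro hEq
  have hab' : a - b ≠ 0 := sub_ne_zero.2 hab
  have haO := Far_subset_Om c ha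
  have hbO := Far_subset_Om c hb
  -- the kernel vector
  obtain ⟨x, y, hxy, e1, e2⟩ : ∃ x y : ℂ, ¬ (x = 0 ∧ y = 0) ∧ x * Sb a + y * Lf b lb a = 0 ∧
      conj x * Lf b lb a + conj y * Sb a = 0 := by
    by_cases hL : Lf b lb a = 0
    · have hS : Sb a = 0 := by
        rw [hL, norm_zero] at hEq
        exact norm_eq_zero.1 hEq.symm
      exact ⟨1, 0, by simp, by simp [hS], by simp [hL]⟩
    · refine ⟨Lf b lb a, - Sb a, fun h => hL h.1, by ring, ?_⟩
      have h1 : conj (Lf b lb a) * Lf b lb a = conj (Sb a) * Sb a := by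
        rw [← Complex.normSq_eq_conj_mul_self, ← Complex.normSq_eq_conj_mul_self,
          Complex.normSq_eq_norm_sq, Complex.normSq_eq_norm_sq, hEq]
      rw [map_neg]
      linear_combination h1
  obtain ⟨R, β, hR, hR0, hRb⟩ := exists_R c D ha hb
  obtain ⟨S, l, hK, -, -⟩ := theta_kernel_of D hN hb
  have hRi := f2_inv hR hR0
  -- the two functions
  have hf1 : Reg c (fun z => x * Sb z + y * lb z) 0 := by
    have := (hKb.hS.const_mul x).add (hKb.hl.const_mul y)
    simpa using this
  have hf2 : Reg c (fun z => conj x * lb z + conj y * Sb z) 0 := by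
    have := (hKb.hl.const_mul (conj x)).add (hKb.hS.const_mul (conj y))
    simpa using this
  obtain ⟨A1, hh1⟩ := f2_reg hf1 b y
  obtain ⟨A2, hh2⟩ := f2_reg hf2 b (conj x)
  set h1 : ℂ → ℂ := fun z => (z - b) * (x * Sb z + y * lb z) + y with hh1d
  set h2 : ℂ → ℂ := fun z => (z - b) * (conj x * lb z + conj y * Sb z) + conj x with hh2d
  have h1a : h1 a = 0 := by
    have : h1 a = (a - b) * (x * Sb a + y * Lf b lb a) := by
      simp only [hh1d, Lf]
      field_simp
      ring
    rw [this, e1, mul_zero]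
  have h2a : h2 a = 0 := by
    have : h2 a = (a - b) * (conj x * Lf b lb a + conj y * Sb a) := by
      simp only [hh2d, Lf]
      field_simp
      ring
    rw [this, e2, mul_zero]
  have hX : Reg c (fun z => (R z)⁻¹ * dslope h1 a z) 0 := by
    have := hRi.mul (hh1.dslope haO)
    simpa using this
  have hY : Reg c (fun z => (R z)⁻¹ * dslope h2 a z) 0 := by
    have := hRi.mul (hh2.dslope haO)
    simpa using this
  have hds1 : ∀ z, z ≠ a → dslope h1 a z = h1 z / (z - a) := by
    intro z hz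
    rw [dslope_of_ne _ hz, slope_def_field, h1a, sub_zero]
  have hds2 : ∀ z, z ≠ a → dslope h2 a z = h2 z / (z - a) := by
    intro z hz
    rw [dslope_of_ne _ hz, slope_def_field, h2a, sub_zero]
  -- boundary relations
  have hexp0 : ∀ k : Fin N, exp ((((0 : Fin N → ℝ) k : ℝ) : ℂ) * I) = 1 := by
    intro k; simp
  have hboth : ∀ k z, ‖z - c.p k‖ = c.r k →
      conj ((R z)⁻¹ * dslope h1 a z)
        = - exp (β k * I) * ((z - c.p k) / c.r k) * ((R z)⁻¹ * dslope h2 a z) ∧
      conj ((R z)⁻¹ * dslope h2 a z)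
        = - exp (β k * I) * ((z - c.p k) / c.r k) * ((R z)⁻¹ * dslope h1 a z) := by
    intro k z hz
    have hza := f2_circle_ne c ha hz
    have hzb := f2_circle_ne c hb hz
    have hza' : z - a ≠ 0 := sub_ne_zero.2 hza
    have hzb' : z - b ≠ 0 := sub_ne_zero.2 hzb
    have hRz : R z ≠ 0 := hR0 z (circle_subset_Omc c k hz)
    have ht := f2_tau c hz
    set τ : ℂ := (z - c.p k) / c.r k with hτ
    have b1 : conj (Sb z) = - τ * Lf b lb z := by
      have := hKb.bd k z hz
      rw [hexp0] at this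
      rw [this]; ring
    have b3 : conj (Lf b lb z) = - τ * Sb z := by
      have h5 : Sb z = - conj τ * conj (Lf b lb z) := by
        have := congrArg conj b1
        rwa [Complex.conj_conj, map_mul, map_neg] at this
      rw [h5]
      linear_combination (-conj (Lf b lb z)) * ht
    have b4 := hRb k z hz
    set M : ℂ := (z - a) / (z - b) * R z with hM
    have hM0 : M ≠ 0 := mul_ne_zero (div_ne_zero hza' hzb') hRz
    have hX1 : (R z)⁻¹ * dslope h1 a z = (x * Sb z + y * Lf b lb z) / M := by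
      rw [hds1 z hza, hM, hh1d]
      simp only [Lf]
      field_simp
      ring
    have hY1 : (R z)⁻¹ * dslope h2 a z = (conj x * Lf b lb z + conj y * Sb z) / M := by
      rw [hds2 z hza, hM, hh2d]
      simp only [Lf]
      field_simp
      ring
    have hE : exp (β k * I) * exp (-(β k * I)) = 1 := by
      rw [← Complex.exp_add, add_neg_cancel, Complex.exp_zero]
    have hE0 : exp (-(β k * I)) ≠ 0 := Complex.exp_ne_zero _
    rw [hX1, hY1, map_div₀, map_div₀, b4]
    constructor
    · rw [map_add, map_mul, map_mul, b1, b3, div_eq_iff (mul_ne_zero hE0 hM0)]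
      have : -exp (β k * I) * τ * ((conj x * Lf b lb z + conj y * Sb z) / M) *
          (exp (-(β k * I)) * M)
          = -τ * (conj x * Lf b lb z + conj y * Sb z) * (exp (β k * I) * exp (-(β k * I))) := by
        field_simp
      rw [this, hE]
      ring
    · rw [map_add, map_mul, map_mul, b1, b3, Complex.conj_conj, Complex.conj_conj,
        div_eq_iff (mul_ne_zero hE0 hM0)]
      have : -exp (β k * I) * τ * ((x * Sb z + y * Lf b lb z) / M) *
          (exp (-(β k * I)) * M)
          = -τ * (x * Sb z + y * Lf b lb z) * (exp (β k * I) * exp (-(β k * I))) := by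
        field_simp
      rw [this, hE]
      ring
  have hXb := twisted_unique c hX hY (fun k z hz => (hboth k z hz).1) hbO (hK (-β))
  have hYb := twisted_unique c hY hX (fun k z hz => (hboth k z hz).2) hbO (hK (-β))
  have hRbn : (R b)⁻¹ ≠ 0 := inv_ne_zero (hR0 b (Om_subset_Omc c hbO))
  have hba : b - a ≠ 0 := sub_ne_zero.2 hab.symm
  apply hxy
  constructor
  · have h3 := (mul_eq_zero.1 hYb).resolve_left hRbn
    rw [hds2 b hab.symm, div_eq_zero_iff] at h3
    have h4 := h3.resolve_right hba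
    have h5 : h2 b = conj x := by simp [hh2d]
    rw [h5] at h4
    exact (map_eq_zero _).1 h4
  · have h3 := (mul_eq_zero.1 hXb).resolve_left hRbn
    rw [hds1 b hab.symm, div_eq_zero_iff] at h3
    have h4 := h3.resolve_right hba
    have h5 : h1 b = y := by simp [hh1d]
    rw [h5] at h4
    exact h4

theorem D_pos_of (c : Config N) (D : FunData c) (hN : 0 < N) {a b : ℂ} (ha : a ∈ Far c)
    (hb : b ∈ Far c) (hab : a ≠ b) {Sb lb : ℂ → ℂ} (hKb : IsKer c 0 b Sb lb) :
    ‖Sb a‖ < ‖Lf b lb a‖ := by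
  by_contra hcon
  push Not at hcon
  set g : ℂ → ℝ := fun z => ‖Lf b lb z‖ - ‖Sb z‖ with hg
  have hsub : Far c \ {b} ⊆ Omc c := fun z hz => Om_subset_Omc c (Far_subset_Om c hz.1)
  have hcont : ContinuousOn g (Far c \ {b}) := by
    refine (ContinuousOn.norm ?_).sub (hKb.hS.cont.mono hsub).norm
    unfold Lf
    refine ContinuousOn.add ?_ (hKb.hl.cont.mono hsub)
    refine ContinuousOn.inv₀ ((continuous_id.sub continuous_const).continuousOn) ?_
    intro z hz
    exact sub_ne_zero.2 hz.2
  obtain ⟨M1, hM1, hM1b⟩ := hKb.hS.bounded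
  obtain ⟨M2, hM2, hM2b⟩ := hKb.hl.bounded
  have hev1 : ∀ᶠ z in 𝓝[≠] b, z ∈ Far c := by
    refine eventually_nhdsWithin_of_eventually_nhds ?_
    have h1 : ∀ k : Fin N, ∀ᶠ z in 𝓝 b, 32 * c.r k < ‖z - c.p k‖ := by
      intro k
      have hc : ContinuousAt (fun z : ℂ => ‖z - c.p k‖) b := by fun_prop
      exact hc.eventually_const_lt (hb k)
    exact Filter.eventually_all.2 h1
  have hev2 : ∀ᶠ z in 𝓝[≠] b, M1 + M2 < ‖(z - b)⁻¹‖ := by
    have h1 : Tendsto (fun z : ℂ => z - b) (𝓝[≠] b) (𝓝[≠] 0) := by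
      refine tendsto_nhdsWithin_iff.2 ⟨?_, ?_⟩
      · have : Tendsto (fun z : ℂ => z - b) (𝓝 b) (𝓝 (b - b)) :=
          (continuous_id.sub continuous_const).tendsto b
        rw [sub_self] at this
        exact this.mono_left nhdsWithin_le_nhds
      · filter_upwards [self_mem_nhdsWithin] with z hz
        exact sub_ne_zero.2 hz
    have h2 := (tendsto_norm_inv_nhdsNE_zero_atTop (α := ℂ)).comp h1
    exact h2.eventually_gt_atTop (M1 + M2)
  have hev3 : ∀ᶠ z in 𝓝[≠] b, z ≠ b := self_mem_nhdsWithin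
  obtain ⟨a', ⟨h1, h2⟩, h3⟩ := ((hev1.and hev2).and hev3).exists
  have ha'O : a' ∈ Omc c := Om_subset_Omc c (Far_subset_Om c h1)
  have hga' : 0 < g a' := by
    have h4 : ‖(a' - b)⁻¹‖ ≤ ‖Lf b lb a'‖ + ‖lb a'‖ := by
      have : (a' - b)⁻¹ = Lf b lb a' - lb a' := by simp [Lf]
      rw [this]
      exact norm_sub_le _ _
    have h5 := hM1b a' ha'O
    have h6 := hM2b a' ha'O
    simp only [hg]
    linarith
  have hga : g a ≤ 0 := by
    simp only [hg]
    linarith
  have hivt := (far_connected c b).intermediate_value (⟨ha, hab⟩ : a ∈ Far c \ {b})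
    (⟨h1, h3⟩ : a' ∈ Far c \ {b}) hcont
  obtain ⟨z, hz, hz0⟩ := hivt ⟨hga, hga'.le⟩
  refine D_ne_zero_of c D hN hz.1 hb hz.2 hKb ?_
  simp only [hg] at hz0
  linarith

end Pool.Agent.SV
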