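import Pool.Agent.Helper53.SV.Words
import Pool.Agent.Helper53.SV.K1

/-!
# The kernels for all phases
-/

set_option autoImplicit false

open Complex Filter Topology Metric
open scoped ComplexConjugate

namespace Pool.Agent.SV

variable {N : ℕ}

theorem theta_kernel (c : Config N) (hN : 0 < N) {w : ℂ} (hw : w ∈ Far c) :
    ∃ S l : (Fin N → ℝ) → ℂ → ℂ, (∀ β, IsKer c β w (S β) (l β)) ∧
      (∀ β, ‖S β w‖ ≤ ‖S 0 w‖) ∧ S 0 w ≠ 0 := by
  obtain ⟨D⟩ := words_main c
  exact theta_kernel_of D hN hw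

end Pool.Agent.SV
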