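import Pool.Agent.Helper53.SV.F1
import Pool.Agent.Helper53.SV.F2
import Pool.Agent.Helper53.SV.H4
import Pool.Agent.Helper53.SV.K2
import Pool.Agent.Helper53.SV.ThetaKernel

/-!
# P1_main: kernels on a dilute circle domain
-/

set_option autoImplicit false

open Complex Filter Topology Metric
open scoped ComplexConjugate

namespace Pool.Agent.SV

variable {N : ℕ}

/-- the algebra behind the inequality -/
theorem f3_algebra {k12 k13 k23 l12 l13 l23 x y s t : ℂ} (hD : ‖k12‖ < ‖l12‖)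
    (h1 : k13 + x * k12 + y * l12 = 0) (h2 : l13 + conj x * l12 + conj y * k12 = 0)
    (h3 : t + x * conj k23 - y * l23 = s) (hs : ‖s‖ ≤ t.re) :
    D2 k12 k13 k23 l12 l13 l23 ≤ 0 := by
  have hDpos : 0 < ‖l12‖ ^ 2 - ‖k12‖ ^ 2 := by
    have h0 := norm_nonneg k12
    nlinarith
  have h2' : conj l13 + x * conj l12 + y * conj k12 = 0 := by
    have := congrArg conj h2
    simpa using this
  have e1 : l12 * conj l12 = ((‖l12‖ ^ 2 : ℝ) : ℂ) := by
    rw [Complex.mul_conj, Complex.normSq_eq_norm_sq]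
  have e2 : k12 * conj k12 = ((‖k12‖ ^ 2 : ℝ) : ℂ) := by
    rw [Complex.mul_conj, Complex.normSq_eq_norm_sq]
  have hx : ((‖l12‖ ^ 2 - ‖k12‖ ^ 2 : ℝ) : ℂ) * x = k13 * conj k12 - l12 * conj l13 := by
    rw [Complex.ofReal_sub, ← e1, ← e2]
    linear_combination (-(conj k12)) * h1 + l12 * h2'
  have hy : ((‖l12‖ ^ 2 - ‖k12‖ ^ 2 : ℝ) : ℂ) * y = k12 * conj l13 - k13 * conj l12 := by
    rw [Complex.ofReal_sub, ← e1, ← e2]
    linear_combination (conj l12) * h1 - k12 * h2'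
  have hmain : ((‖l12‖ ^ 2 - ‖k12‖ ^ 2 : ℝ) : ℂ) * s = ((‖l12‖ ^ 2 - ‖k12‖ ^ 2 : ℝ) : ℂ) * t
      + (k13 * conj k12 - l12 * conj l13) * conj k23
      - (k12 * conj l13 - k13 * conj l12) * l23 := by
    rw [← h3, ← hx, ← hy]
    ring
  have hre := congrArg Complex.re hmain
  have hconj : ((k12 * conj l13 - k13 * conj l12) * l23).re
      = ((conj k12 * l13 - conj k13 * l12) * conj l23).re := by
    rw [← Complex.conj_re ((k12 * conj l13 - k13 * conj l12) * l23)]
    simp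
  have hD2 : D2 k12 k13 k23 l12 l13 l23
      = (‖l12‖ ^ 2 - ‖k12‖ ^ 2) * (s.re - t.re) := by
    rw [Complex.re_ofReal_mul, Complex.sub_re, Complex.add_re, Complex.re_ofReal_mul, hconj] at hre
    unfold D2
    rw [Complex.sub_re]
    have e3 : (l12 * conj k13 - conj k12 * l13) * conj l23
        = - ((conj k12 * l13 - conj k13 * l12) * conj l23) := by ring
    have e4 : (l12 * conj l13 - conj k12 * k13) * conj k23
        = - ((k13 * conj k12 - l12 * conj l13) * conj k23) := by ring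
    rw [e3, e4, Complex.neg_re, Complex.neg_re]
    linarith
  rw [hD2]
  have h5 : s.re ≤ t.re := (Complex.re_le_norm s).trans hs
  exact mul_nonpos_of_nonneg_of_nonpos hDpos.le (by linarith)

theorem D_pos (c : Config N) (hN : 0 < N) {a b : ℂ} (ha : a ∈ Far c) (hb : b ∈ Far c)
    (hab : a ≠ b) {Sb lb : ℂ → ℂ} (hKb : IsKer c 0 b Sb lb) : ‖Sb a‖ < ‖Lf b lb a‖ := by
  obtain ⟨D⟩ := words_main c
  exact D_pos_of c D hN ha hb hab hKb

theorem P1_main (c : Config N) : ∃ S l : ℂ → ℂ → ℂ,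
    (∀ w ∈ Far c, IsKer c 0 w (S w) (l w)) ∧
    (∀ a ∈ Far c, ∀ b ∈ Far c, a ≠ b → ‖S b a‖ < ‖Lf b (l b) a‖) ∧
    (∀ a ∈ Far c, ∀ b ∈ Far c, ∀ w ∈ Far c, a ≠ b → a ≠ w → b ≠ w →
      D2 (S b a) (S w a) (S w b) (Lf b (l b) a) (Lf w (l w) a) (Lf w (l w) b) ≤ 0) := by
  rcases Nat.eq_zero_or_pos N with hN | hN
  · subst hN
    have h0 : Reg c (fun _ => 0) 0 := k1_reg_const c 0
    refine ⟨fun _ _ => 0, fun _ _ => 0, ?_, ?_, ?_⟩
    · intro w _
      exact ⟨h0, h0, fun k => k.elim0⟩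
    · intro a _ b _ hab
      simp only [Lf, norm_zero, add_zero, norm_inv, inv_pos, norm_pos_iff]
      exact sub_ne_zero.2 hab
    · intro a _ b _ w _ _ _ _
      simp [D2]
  · obtain ⟨D⟩ := words_main c
    have hker : ∀ w : ℂ, ∃ S l : (Fin N → ℝ) → ℂ → ℂ, w ∈ Far c →
        (∀ β, IsKer c β w (S β) (l β)) ∧ (∀ β, ‖S β w‖ ≤ ‖S 0 w‖) ∧ S 0 w ≠ 0 := by
      intro w
      by_cases hw : w ∈ Far c
      · obtain ⟨S, l, h⟩ := theta_kernel c hN hw
        exact ⟨S, l, fun _ => h⟩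
      · exact ⟨fun _ _ => 0, fun _ _ => 0, fun h => absurd h hw⟩
    choose S l hSl using hker
    refine ⟨fun w => S w 0, fun w => l w 0, ?_, ?_, ?_⟩
    · intro w hw
      exact (hSl w hw).1 0
    · intro a ha b hb hab
      exact D_pos_of c D hN ha hb hab ((hSl b hb).1 0)
    · intro a ha b hb w hw hab haw hbw
      obtain ⟨R, β, hR, hR0, hRb⟩ := exists_R c D ha hb
      have hKb := (hSl b hb).1 0
      have hKw := (hSl w hw).1 0
      have hKβ := (hSl w hw).1 β
      obtain ⟨x, y, s, hs, h1, h2, h3⟩ := det_identity c ha hb hw hab haw hbw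
        (fun z hz => ⟨S z 0, l z 0, (hSl z hz).1 0⟩) hR hR0 hRb hKb hKw hKβ
      have hbO : b ∈ Om c := Far_subset_Om c hb
      have hwO : w ∈ Om c := Far_subset_Om c hw
      have hherm : S b 0 w = conj (S w 0 b) := ker_herm c hwO hbO hKw hKb
      have hanti : l b 0 w = - l w 0 b := ker_antisymm c hwO hbO hKw hKb
      have hLf : Lf b (l b 0) w = - Lf w (l w 0) b := by
        unfold Lf
        rw [hanti]
        have : (w - b)⁻¹ = - (b - w)⁻¹ := by rw [← neg_sub b w, inv_neg]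
        rw [this]
        ring
      have hdiag : S w 0 w = (nsq c (S w 0) : ℂ) := ker_diag c hwO hKw
      have hnorm : ‖S w 0 w‖ = (S w 0 w).re := by
        rw [hdiag, Complex.norm_real, Complex.ofReal_re, Real.norm_of_nonneg (h4_nsq_nonneg c _)]
      refine f3_algebra (x := x) (y := y) (s := s) (t := S w 0 w)
        (D_pos_of c D hN ha hb hab hKb) h1 h2 ?_ ?_
      · rw [← h3, hherm, hLf]
        ring
      · rw [hs, ← hnorm]
        exact (hSl w hw).2.1 β

end Pool.Agent.SV
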