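import Pool.Agent.Helper53.SV.Defs

/-!
# The discrete model: definitions

Finitely many points `p q` with weights `r q`; the kernels `dS`, `dL` of the finite antisymmetric
system (Foldy-Lax approximation of the Szegő kernels of the complement of small discs).
-/

set_option autoImplicit false

open Complex Filter Topology Metric
open scoped ComplexConjugate

namespace Pool.Agent.SV

variable {ι : Type*} [DecidableEq ι]

/-- The solution of the finite system with source `b`. -/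
structure DSol (p : ι → ℂ) (r : ι → ℝ) (J : Finset ι) (b : ℂ) (l s : ι → ℂ) : Prop where
  hl : ∀ q ∈ J, l q = (p q - b)⁻¹ - ∑ m ∈ J.erase q, r m * conj (s m) / (p q - p m)
  hs : ∀ q ∈ J, s q = - ∑ m ∈ J.erase q, r m * conj (l m) / (p q - p m)

open Classical in
/-- a chosen solution -/
noncomputable def dsol (p : ι → ℂ) (r : ι → ℝ) (J : Finset ι) (b : ℂ) : (ι → ℂ) × (ι → ℂ) :=
  if h : ∃ x : (ι → ℂ) × (ι → ℂ), DSol p r J b x.1 x.2 then h.choose else 0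

/-- discrete Szegő kernel -/
noncomputable def dS (p : ι → ℂ) (r : ι → ℝ) (J : Finset ι) (a b : ℂ) : ℂ :=
  - ∑ m ∈ J, r m * conj ((dsol p r J b).1 m) / (a - p m)

/-- discrete Garabedian kernel -/
noncomputable def dL (p : ι → ℂ) (r : ι → ℝ) (J : Finset ι) (a b : ℂ) : ℂ :=
  (a - b)⁻¹ - ∑ m ∈ J, r m * conj ((dsol p r J b).2 m) / (a - p m)

/-- `∑ r m / |a - p m|²` -/
noncomputable def sg (p : ι → ℂ) (r : ι → ℝ) (J : Finset ι) (a : ℂ) : ℝ :=
  ∑ m ∈ J, r m / ‖a - p m‖ ^ 2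

/-- `|L|² - |S|²` in the discrete model -/
noncomputable def dD (p : ι → ℂ) (r : ι → ℝ) (J : Finset ι) (a b : ℂ) : ℝ :=
  ‖dL p r J a b‖ ^ 2 - ‖dS p r J a b‖ ^ 2

/-- the effective weight of the point `i` -/
noncomputable def kap (p : ι → ℂ) (r : ι → ℝ) (J : Finset ι) (i : ι) : ℝ :=
  r i / (1 + r i * (dS p r J (p i) (p i)).re)

/-- dilute families of points with weights -/
structure Dil (p : ι → ℂ) (r : ι → ℝ) (I : Finset ι) (w : ℂ) (δ A B Θ : ℝ) : Prop where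
  δ_pos : 0 < δ
  δ_le : δ ≤ 1
  A_pos : 0 < A
  B_pos : 0 < B
  Θ_ge : 1 ≤ Θ
  r_pos : ∀ i ∈ I, 0 < r i
  r_le : ∀ i ∈ I, r i ≤ A * δ ^ 2
  sep : ∀ i ∈ I, ∀ j ∈ I, i ≠ j → δ ≤ ‖p i - p j‖
  theta : ∀ i ∈ I, sg p r (I.erase i) (p i) ≤ Θ
  thetaw : sg p r I w ≤ Θ
  sum : ∑ i ∈ I, r i ≤ B
  hw : ∀ i ∈ I, 1 ≤ ‖w - p i‖
  small1 : 128 * A * δ ≤ 1
  small2 : 8 * A * Θ * δ ^ 2 ≤ 1

/-- enumeration of a finite set -/
noncomputable def enum (J : Finset ι) (k : Fin J.card) : ι := (J.equivFin.symm k : ι)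

/-- grid points with `k` interlaced classes -/
noncomputable def gp (k : ℕ) (h : ℝ) (x : Fin k × ℤ × ℤ) : ℂ :=
  ⟨h * ((x.2.1 : ℝ) + (x.1 : ℝ) / k), h * (x.2.2 : ℝ)⟩

/-- the radii of the grid discs -/
noncomputable def gr (k : ℕ) (ρ : Fin k → ℂ → ℝ) (h : ℝ) (x : Fin k × ℤ × ℤ) : ℝ :=
  ρ x.1 (gp k h x) * h ^ 2

end Pool.Agent.SV
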