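import Pool.Agent.Helper53.SV.DDefs

/-!
# D1: existence and uniqueness for the finite antisymmetric system
-/

set_option autoImplicit false

open Complex Filter Topology Metric
open scoped ComplexConjugate

namespace Pool.Agent.SV

variable {ι : Type*} [DecidableEq ι]

theorem d1_sum_erase (p : ι → ℂ) (r : ι → ℝ) (J : Finset ι) (u : ι → ℂ) (q : ι) :
    ∑ m ∈ J.erase q, (r m : ℂ) * conj (u m) / (p q - p m) =
      ∑ m ∈ J, (r m : ℂ) * conj (u m) / (p q - p m) :=
  Finset.sum_erase _ (by rw [sub_self, div_zero])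

/-- the homogeneous system has only the trivial solution -/
theorem d1_hom {p : ι → ℂ} {r : ι → ℝ} {J : Finset ι} (hr : ∀ i ∈ J, 0 < r i) {l s : ι → ℂ}
    (hl : ∀ q ∈ J, l q = - ∑ m ∈ J, (r m : ℂ) * conj (s m) / (p q - p m))
    (hs : ∀ q ∈ J, s q = - ∑ m ∈ J, (r m : ℂ) * conj (l m) / (p q - p m)) :
    ∀ q ∈ J, l q = 0 ∧ s q = 0 := by
  have h1 : ∑ q ∈ J, (r q : ℂ) * (l q * conj (l q)) =
      - ∑ q ∈ J, ∑ m ∈ J, (r q : ℂ) * r m * conj (s m) * conj (l q) / (p q - p m) := by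
    rw [← Finset.sum_neg_distrib]
    refine Finset.sum_congr rfl fun q hq => ?_
    nth_rewrite 1 [hl q hq]
    rw [neg_mul, mul_neg, Finset.sum_mul, Finset.mul_sum]
    congr 1
    refine Finset.sum_congr rfl fun m _ => ?_
    ring
  have h2 : ∑ q ∈ J, (r q : ℂ) * (s q * conj (s q)) =
      ∑ q ∈ J, ∑ m ∈ J, (r q : ℂ) * r m * conj (s m) * conj (l q) / (p q - p m) := by
    rw [Finset.sum_comm]
    refine Finset.sum_congr rfl fun q hq => ?_
    nth_rewrite 1 [hs q hq]
    rw [neg_mul, mul_neg, Finset.sum_mul, Finset.mul_sum, ← Finset.sum_neg_distrib]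
    refine Finset.sum_congr rfl fun m _ => ?_
    rw [← neg_sub (p q) (p m), div_neg]
    ring
  have h3 : ∑ q ∈ J, (r q * ‖l q‖ ^ 2 + r q * ‖s q‖ ^ 2) = 0 := by
    have h4 : ((∑ q ∈ J, (r q * ‖l q‖ ^ 2 + r q * ‖s q‖ ^ 2) : ℝ) : ℂ) = 0 := by
      push_cast
      rw [Finset.sum_add_distrib]
      have e1 : ∀ q, (r q : ℂ) * (‖l q‖ : ℂ) ^ 2 = (r q : ℂ) * (l q * conj (l q)) := by
        intro q; rw [Complex.mul_conj']
      have e2 : ∀ q, (r q : ℂ) * (‖s q‖ : ℂ) ^ 2 = (r q : ℂ) * (s q * conj (s q)) := by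
        intro q; rw [Complex.mul_conj']
      simp only [e1, e2]
      rw [h1, h2, neg_add_cancel]
    exact_mod_cast h4
  have hnn : ∀ q ∈ J, 0 ≤ r q * ‖l q‖ ^ 2 + r q * ‖s q‖ ^ 2 := fun q hq => by
    have := (hr q hq).le
    positivity
  intro q hq
  have h5 := (Finset.sum_eq_zero_iff_of_nonneg hnn).1 h3 q hq
  have h6 := hr q hq
  have h7 : ‖l q‖ ^ 2 = 0 := by
    have : 0 ≤ ‖l q‖ ^ 2 := by positivity
    have : 0 ≤ ‖s q‖ ^ 2 := by positivity
    nlinarith
  have h8 : ‖s q‖ ^ 2 = 0 := by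
    have : 0 ≤ ‖l q‖ ^ 2 := by positivity
    have : 0 ≤ ‖s q‖ ^ 2 := by positivity
    nlinarith
  exact ⟨norm_eq_zero.1 (pow_eq_zero_iff (by norm_num : (2 : ℕ) ≠ 0) |>.1 h7),
    norm_eq_zero.1 (pow_eq_zero_iff (by norm_num : (2 : ℕ) ≠ 0) |>.1 h8)⟩

theorem dsol_unique {p : ι → ℂ} {r : ι → ℝ} {J : Finset ι} {b : ℂ}
    (hp : ∀ i ∈ J, ∀ j ∈ J, i ≠ j → p i ≠ p j) (hr : ∀ i ∈ J, 0 < r i) {l s l' s' : ι → ℂ}
    (h : DSol p r J b l s) (h' : DSol p r J b l' s') : ∀ q ∈ J, l q = l' q ∧ s q = s' q := by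
  have key := d1_hom (p := p) (J := J) hr (l := l - l') (s := s - s')
    (fun q hq => by
      rw [Pi.sub_apply, h.hl q hq, h'.hl q hq, d1_sum_erase, d1_sum_erase]
      rw [sub_sub_sub_cancel_left, ← Finset.sum_sub_distrib, ← Finset.sum_neg_distrib]
      refine Finset.sum_congr rfl fun m _ => ?_
      rw [Pi.sub_apply, map_sub]
      ring)
    (fun q hq => by
      rw [Pi.sub_apply, h.hs q hq, h'.hs q hq, d1_sum_erase, d1_sum_erase]
      rw [neg_sub_neg, ← Finset.sum_sub_distrib, ← Finset.sum_neg_distrib]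
      refine Finset.sum_congr rfl fun m _ => ?_
      rw [Pi.sub_apply, map_sub]
      ring)
  intro q hq
  obtain ⟨h1, h2⟩ := key q hq
  exact ⟨sub_eq_zero.1 h1, sub_eq_zero.1 h2⟩

/-- the real linear map of the system -/
noncomputable def d1T (p : ι → ℂ) (r : ι → ℝ) (J : Finset ι) :
    ((J → ℂ) × (J → ℂ)) →ₗ[ℝ] ((J → ℂ) × (J → ℂ)) where
  toFun x := (fun q => x.1 q + ∑ m : J, (r m : ℂ) * conj (x.2 m) / (p q - p m),
    fun q => x.2 q + ∑ m : J, (r m : ℂ) * conj (x.1 m) / (p q - p m))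
  map_add' x y := by
    apply Prod.ext <;> funext q
    · simp only [Prod.fst_add, Prod.snd_add, Pi.add_apply, map_add]
      have : ∀ m : J, (r m : ℂ) * (conj (x.2 m) + conj (y.2 m)) / (p q - p m) =
          (r m : ℂ) * conj (x.2 m) / (p q - p m) + (r m : ℂ) * conj (y.2 m) / (p q - p m) :=
        fun m => by ring
      rw [Finset.sum_congr rfl fun m _ => this m, Finset.sum_add_distrib]
      ring
    · simp only [Prod.fst_add, Prod.snd_add, Pi.add_apply, map_add]
      have : ∀ m : J, (r m : ℂ) * (conj (x.1 m) + conj (y.1 m)) / (p q - p m) =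
          (r m : ℂ) * conj (x.1 m) / (p q - p m) + (r m : ℂ) * conj (y.1 m) / (p q - p m) :=
        fun m => by ring
      rw [Finset.sum_congr rfl fun m _ => this m, Finset.sum_add_distrib]
      ring
  map_smul' c x := by
    apply Prod.ext <;> funext q
    · simp only [Prod.smul_fst, Prod.smul_snd, Pi.smul_apply, RingHom.id_apply, Complex.real_smul,
        map_mul, Complex.conj_ofReal]
      rw [mul_add, Finset.mul_sum]
      congr 1
      refine Finset.sum_congr rfl fun m _ => ?_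
      ring
    · simp only [Prod.smul_fst, Prod.smul_snd, Pi.smul_apply, RingHom.id_apply, Complex.real_smul,
        map_mul, Complex.conj_ofReal]
      rw [mul_add, Finset.mul_sum]
      congr 1
      refine Finset.sum_congr rfl fun m _ => ?_
      ring

theorem d1_exists {p : ι → ℂ} {r : ι → ℝ} {J : Finset ι} (b : ℂ) (hr : ∀ i ∈ J, 0 < r i) :
    ∃ x : (ι → ℂ) × (ι → ℂ), DSol p r J b x.1 x.2 := by
  have hinj : Function.Injective (d1T p r J) := by
    rw [injective_iff_map_eq_zero]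
    rintro ⟨l, s⟩ h
    have h1 : ∀ q : J, l q + ∑ m : J, (r m : ℂ) * conj (s m) / (p q - p m) = 0 :=
      fun q => congrFun (congrArg Prod.fst h) q
    have h2 : ∀ q : J, s q + ∑ m : J, (r m : ℂ) * conj (l m) / (p q - p m) = 0 :=
      fun q => congrFun (congrArg Prod.snd h) q
    have key := d1_hom (p := p) (J := J) hr
      (l := fun q => if hq : q ∈ J then l ⟨q, hq⟩ else 0)
      (s := fun q => if hq : q ∈ J then s ⟨q, hq⟩ else 0)
      (fun q hq => by
        have := h1 ⟨q, hq⟩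
        rw [dif_pos hq, eq_neg_iff_add_eq_zero, ← this, ← Finset.sum_coe_sort J]
        congr 1
        refine Finset.sum_congr rfl fun m _ => ?_
        rw [dif_pos m.2])
      (fun q hq => by
        have := h2 ⟨q, hq⟩
        rw [dif_pos hq, eq_neg_iff_add_eq_zero, ← this, ← Finset.sum_coe_sort J]
        congr 1
        refine Finset.sum_congr rfl fun m _ => ?_
        rw [dif_pos m.2])
    apply Prod.ext <;> funext q
    · have := (key q q.2).1
      rw [dif_pos q.2] at this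
      exact this
    · have := (key q q.2).2
      rw [dif_pos q.2] at this
      exact this
  have hsurj : Function.Surjective (d1T p r J) := LinearMap.injective_iff_surjective.1 hinj
  obtain ⟨⟨l, s⟩, h⟩ := hsurj (fun q => (p q - b)⁻¹, 0)
  have h1 : ∀ q : J, l q + ∑ m : J, (r m : ℂ) * conj (s m) / (p q - p m) = (p q - b)⁻¹ :=
    fun q => congrFun (congrArg Prod.fst h) q
  have h2 : ∀ q : J, s q + ∑ m : J, (r m : ℂ) * conj (l m) / (p q - p m) = 0 :=
    fun q => congrFun (congrArg Prod.snd h) q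
  refine ⟨(fun q => if hq : q ∈ J then l ⟨q, hq⟩ else 0,
    fun q => if hq : q ∈ J then s ⟨q, hq⟩ else 0), fun q hq => ?_, fun q hq => ?_⟩
  · have := h1 ⟨q, hq⟩
    rw [d1_sum_erase]
    change (if hq : q ∈ J then l ⟨q, hq⟩ else 0) = _
    rw [dif_pos hq, eq_sub_iff_add_eq, ← this, ← Finset.sum_coe_sort J]
    congr 1
    refine Finset.sum_congr rfl fun m _ => ?_
    change _ * conj (if hq : (m : ι) ∈ J then s ⟨m, hq⟩ else 0) / _ = _
    rw [dif_pos m.2]
  · have := h2 ⟨q, hq⟩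
    rw [d1_sum_erase]
    change (if hq : q ∈ J then s ⟨q, hq⟩ else 0) = _
    rw [dif_pos hq, eq_neg_iff_add_eq_zero]
    refine Eq.trans ?_ this
    rw [← Finset.sum_coe_sort J]
    congr 1
    refine Finset.sum_congr rfl fun m _ => ?_
    change _ * conj (if hq : (m : ι) ∈ J then l ⟨m, hq⟩ else 0) / _ = _
    rw [dif_pos m.2]

theorem dsol_spec {p : ι → ℂ} {r : ι → ℝ} {J : Finset ι} (b : ℂ)
    (hp : ∀ i ∈ J, ∀ j ∈ J, i ≠ j → p i ≠ p j) (hr : ∀ i ∈ J, 0 < r i) :
    DSol p r J b (dsol p r J b).1 (dsol p r J b).2 := by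
  have h := d1_exists (p := p) b hr
  unfold dsol
  rw [dif_pos h]
  exact h.choose_spec

end Pool.Agent.SV
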