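import Pool.Agent.Helper53.SV.D1

/-!
# D2: symmetries and bounds of the discrete kernels
-/

set_option autoImplicit false

open Complex Filter Topology Metric
open scoped ComplexConjugate

namespace Pool.Agent.SV

variable {ι : Type*} [DecidableEq ι]

/-- the weighted pairing -/
private noncomputable def d2P (r : ι → ℝ) (J : Finset ι) (u v : ι → ℂ) : ℂ :=
  ∑ q ∈ J, r q * u q * conj (v q)

/-- the conjugate linear operator of the system -/
private noncomputable def d2C (p : ι → ℂ) (r : ι → ℝ) (J : Finset ι) (u : ι → ℂ) (q : ι) : ℂ :=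
  ∑ m ∈ J.erase q, r m * conj (u m) / (p q - p m)

omit [DecidableEq ι] in
private theorem d2P_conj (r : ι → ℝ) (J : Finset ι) (u v : ι → ℂ) :
    conj (d2P r J u v) = d2P r J v u := by
  unfold d2P
  rw [map_sum]
  refine Finset.sum_congr rfl fun q _ => ?_
  simp only [map_mul, Complex.conj_conj, Complex.conj_ofReal]
  ring

private theorem d2C_antisymm (p : ι → ℂ) (r : ι → ℝ) (J : Finset ι) (u v : ι → ℂ) :
    d2P r J (d2C p r J u) v = - d2P r J (d2C p r J v) u := by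
  unfold d2P d2C
  have h1 : ∀ a b : ι → ℂ, (∑ q ∈ J, (r q : ℂ) * (∑ m ∈ J.erase q, r m * conj (a m) / (p q - p m)) *
      conj (b q)) = ∑ q ∈ J, ∑ m ∈ J, if m = q then 0 else
        (r q : ℂ) * r m * conj (a m) * conj (b q) / (p q - p m) := by
    intro a b
    refine Finset.sum_congr rfl fun q hq => ?_
    rw [Finset.mul_sum, Finset.sum_mul]
    rw [← Finset.add_sum_erase J _ hq]
    simp only [if_true]
    rw [zero_add]
    refine Finset.sum_congr rfl fun m hm => ?_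
    rw [if_neg (Finset.ne_of_mem_erase hm)]
    ring
  rw [h1, h1, Finset.sum_comm, ← Finset.sum_neg_distrib]
  refine Finset.sum_congr rfl fun q _ => ?_
  rw [← Finset.sum_neg_distrib]
  refine Finset.sum_congr rfl fun m _ => ?_
  by_cases h : q = m
  · subst h
    simp
  · rw [if_neg h, if_neg (Ne.symm h)]
    have h2 : p q - p m = -(p m - p q) := by ring
    rw [h2, div_neg, neg_neg]
    ring

omit [DecidableEq ι] in
private theorem d2P_congr {r : ι → ℝ} {J : Finset ι} {u u' v v' : ι → ℂ}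
    (h : ∀ q ∈ J, u q = u' q) (h' : ∀ q ∈ J, v q = v' q) : d2P r J u v = d2P r J u' v' := by
  unfold d2P
  refine Finset.sum_congr rfl fun q hq => ?_
  rw [h q hq, h' q hq]

omit [DecidableEq ι] in
private theorem d2P_add_left (r : ι → ℝ) (J : Finset ι) (u u' v : ι → ℂ) :
    d2P r J (fun q => u q + u' q) v = d2P r J u v + d2P r J u' v := by
  unfold d2P
  rw [← Finset.sum_add_distrib]
  refine Finset.sum_congr rfl fun q _ => ?_
  ring

omit [DecidableEq ι] in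
private theorem d2P_neg_left (r : ι → ℝ) (J : Finset ι) (u v : ι → ℂ) :
    d2P r J (fun q => - u q) v = - d2P r J u v := by
  unfold d2P
  rw [← Finset.sum_neg_distrib]
  refine Finset.sum_congr rfl fun q _ => ?_
  ring

omit [DecidableEq ι] in
private theorem d2P_cs {r : ι → ℝ} {J : Finset ι} (hr : ∀ i ∈ J, 0 < r i) (u v : ι → ℂ) :
    ‖d2P r J u v‖ ^ 2 ≤ (∑ q ∈ J, r q * ‖u q‖ ^ 2) * (∑ q ∈ J, r q * ‖v q‖ ^ 2) := by
  have h1 : ‖d2P r J u v‖ ≤ ∑ q ∈ J, (Real.sqrt (r q) * ‖u q‖) * (Real.sqrt (r q) * ‖v q‖) := by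
    unfold d2P
    refine (norm_sum_le _ _).trans (le_of_eq ?_)
    refine Finset.sum_congr rfl fun q hq => ?_
    have h2 : Real.sqrt (r q) * Real.sqrt (r q) = r q := Real.mul_self_sqrt (hr q hq).le
    rw [norm_mul, norm_mul, RCLike.norm_conj, Complex.norm_real, Real.norm_of_nonneg (hr q hq).le]
    calc r q * ‖u q‖ * ‖v q‖ = (Real.sqrt (r q) * Real.sqrt (r q)) * ‖u q‖ * ‖v q‖ := by rw [h2]
      _ = _ := by ring
  have h3 := Finset.sum_mul_sq_le_sq_mul_sq J (fun q => Real.sqrt (r q) * ‖u q‖)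
    (fun q => Real.sqrt (r q) * ‖v q‖)
  have h4 : ∀ w : ι → ℂ, ∑ q ∈ J, (Real.sqrt (r q) * ‖w q‖) ^ 2 = ∑ q ∈ J, r q * ‖w q‖ ^ 2 := by
    intro w
    refine Finset.sum_congr rfl fun q hq => ?_
    rw [mul_pow, Real.sq_sqrt (hr q hq).le]
  rw [h4, h4] at h3
  refine (pow_le_pow_left₀ (norm_nonneg _) h1 2).trans h3

omit [DecidableEq ι] in
private theorem d2P_self (r : ι → ℝ) (J : Finset ι) (u : ι → ℂ) :
    d2P r J u u = ((∑ q ∈ J, r q * ‖u q‖ ^ 2 : ℝ) : ℂ) := by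
  unfold d2P
  rw [Complex.ofReal_sum]
  refine Finset.sum_congr rfl fun q _ => ?_
  rw [mul_assoc, Complex.mul_conj, Complex.normSq_eq_norm_sq]
  push_cast
  ring

/-- the source vector -/
private noncomputable def d2E (p : ι → ℂ) (a : ℂ) (q : ι) : ℂ := (p q - a)⁻¹

private theorem d2_dS (p : ι → ℂ) (r : ι → ℝ) (J : Finset ι) (a b : ℂ) :
    dS p r J a b = d2P r J (d2E p a) (dsol p r J b).1 := by
  unfold dS d2P d2E
  rw [← Finset.sum_neg_distrib]
  refine Finset.sum_congr rfl fun q _ => ?_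
  have h : a - p q = -(p q - a) := by ring
  rw [h, div_neg, neg_neg, div_eq_mul_inv]
  ring

private theorem d2_dL (p : ι → ℂ) (r : ι → ℝ) (J : Finset ι) (a b : ℂ) :
    dL p r J a b = (a - b)⁻¹ + d2P r J (d2E p a) (dsol p r J b).2 := by
  unfold dL d2P d2E
  rw [sub_eq_add_neg, ← Finset.sum_neg_distrib]
  congr 1
  refine Finset.sum_congr rfl fun q _ => ?_
  have h : a - p q = -(p q - a) := by ring
  rw [h, div_neg, neg_neg, div_eq_mul_inv]
  ring

private theorem d2_source {p : ι → ℂ} {r : ι → ℝ} {J : Finset ι} {a : ℂ} {l s : ι → ℂ}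
    (h : DSol p r J a l s) : ∀ q ∈ J, d2E p a q = l q + d2C p r J s q := by
  intro q hq
  rw [h.hl q hq]
  unfold d2E d2C
  ring

private theorem d2_s {p : ι → ℂ} {r : ι → ℝ} {J : Finset ι} {a : ℂ} {l s : ι → ℂ}
    (h : DSol p r J a l s) : ∀ q ∈ J, s q = - d2C p r J l q := h.hs

private theorem d2_e_l {p : ι → ℂ} {r : ι → ℝ} {J : Finset ι} {a b : ℂ} {l s l' s' : ι → ℂ}
    (h : DSol p r J a l s) (h' : DSol p r J b l' s') :
    d2P r J (d2E p a) l' = d2P r J l l' + d2P r J s' s := by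
  rw [d2P_congr (v := l') (v' := l') (d2_source h) (fun _ _ => rfl), d2P_add_left,
    d2C_antisymm, d2P_congr (u := s') (v := s) (v' := s) (d2_s h') (fun _ _ => rfl), d2P_neg_left]

private theorem d2_e_s {p : ι → ℂ} {r : ι → ℝ} {J : Finset ι} {a b : ℂ} {l s l' s' : ι → ℂ}
    (h : DSol p r J a l s) (h' : DSol p r J b l' s') :
    d2P r J (d2E p a) s' = - d2P r J (d2E p b) s := by
  -- `P(l, s') = - P(l', s)`
  have h1 : d2P r J l s' = - d2P r J l' s := by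
    have h2 : d2P r J l s' = - conj (d2P r J (d2C p r J l') l) := by
      rw [← d2P_conj, d2P_congr (u := s') (v := l) (v' := l) (d2_s h') (fun _ _ => rfl),
        d2P_neg_left, map_neg]
    have h3 : d2P r J l' s = - conj (d2P r J (d2C p r J l) l') := by
      rw [← d2P_conj, d2P_congr (u := s) (v := l') (v' := l') (d2_s h) (fun _ _ => rfl),
        d2P_neg_left, map_neg]
    rw [h2, h3, d2C_antisymm p r J l' l, map_neg]
  have h4 : d2P r J (d2E p a) s' = d2P r J l s' + d2P r J (d2C p r J s) s' := by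
    rw [d2P_congr (v := s') (v' := s') (d2_source h) (fun _ _ => rfl), d2P_add_left]
  have h5 : d2P r J (d2E p b) s = d2P r J l' s + d2P r J (d2C p r J s') s := by
    rw [d2P_congr (v := s) (v' := s) (d2_source h') (fun _ _ => rfl), d2P_add_left]
  rw [h4, h5, d2C_antisymm p r J s s', h1]
  ring

theorem dS_herm {p : ι → ℂ} {r : ι → ℝ} {J : Finset ι} {a b : ℂ}
    (hp : ∀ i ∈ J, ∀ j ∈ J, i ≠ j → p i ≠ p j) (hr : ∀ i ∈ J, 0 < r i)
    (ha : ∀ i ∈ J, a ≠ p i) (hb : ∀ i ∈ J, b ≠ p i) :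
    dS p r J a b = conj (dS p r J b a) := by
  have h1 := dsol_spec a hp hr
  have h2 := dsol_spec b hp hr
  rw [d2_dS, d2_dS, d2_e_l h1 h2, d2_e_l h2 h1, map_add, d2P_conj, d2P_conj]

theorem dL_antisymm {p : ι → ℂ} {r : ι → ℝ} {J : Finset ι} {a b : ℂ}
    (hp : ∀ i ∈ J, ∀ j ∈ J, i ≠ j → p i ≠ p j) (hr : ∀ i ∈ J, 0 < r i)
    (ha : ∀ i ∈ J, a ≠ p i) (hb : ∀ i ∈ J, b ≠ p i) :
    dL p r J b a = - dL p r J a b := by
  have h1 := dsol_spec a hp hr
  have h2 := dsol_spec b hp hr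
  rw [d2_dL, d2_dL, d2_e_s h2 h1]
  have h : b - a = -(a - b) := by ring
  rw [h, inv_neg]
  ring

theorem dsol_norm {p : ι → ℂ} {r : ι → ℝ} {J : Finset ι} {b : ℂ}
    (hp : ∀ i ∈ J, ∀ j ∈ J, i ≠ j → p i ≠ p j) (hr : ∀ i ∈ J, 0 < r i)
    (hb : ∀ i ∈ J, b ≠ p i) :
    ∑ m ∈ J, r m * ‖(dsol p r J b).1 m‖ ^ 2 + ∑ m ∈ J, r m * ‖(dsol p r J b).2 m‖ ^ 2
      = (dS p r J b b).re := by
  have h1 := dsol_spec b hp hr
  rw [d2_dS, d2_e_l h1 h1, d2P_self, d2P_self, ← Complex.ofReal_add, Complex.ofReal_re]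

omit [DecidableEq ι] in
private theorem d2_sg (p : ι → ℂ) (r : ι → ℝ) (J : Finset ι) (a : ℂ) :
    ∑ q ∈ J, r q * ‖d2E p a q‖ ^ 2 = ∑ m ∈ J, r m / ‖a - p m‖ ^ 2 := by
  refine Finset.sum_congr rfl fun q _ => ?_
  unfold d2E
  rw [norm_inv, norm_sub_rev, inv_pow, div_eq_mul_inv]

theorem dS_diag_le {p : ι → ℂ} {r : ι → ℝ} {J : Finset ι} {b : ℂ}
    (hp : ∀ i ∈ J, ∀ j ∈ J, i ≠ j → p i ≠ p j) (hr : ∀ i ∈ J, 0 < r i)
    (hb : ∀ i ∈ J, b ≠ p i) :
    0 ≤ (dS p r J b b).re ∧ (dS p r J b b).re ≤ sg p r J b := by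
  have h1 := dsol_norm hp hr hb
  set X := (dS p r J b b).re with hX
  have hl : 0 ≤ ∑ m ∈ J, r m * ‖(dsol p r J b).1 m‖ ^ 2 :=
    Finset.sum_nonneg fun m hm => mul_nonneg (hr m hm).le (by positivity)
  have hs : 0 ≤ ∑ m ∈ J, r m * ‖(dsol p r J b).2 m‖ ^ 2 :=
    Finset.sum_nonneg fun m hm => mul_nonneg (hr m hm).le (by positivity)
  have hX0 : 0 ≤ X := by rw [← h1]; exact add_nonneg hl hs
  refine ⟨hX0, ?_⟩
  have h2 : X ^ 2 ≤ sg p r J b * X := by
    have h3 := d2P_cs hr (d2E p b) (dsol p r J b).1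
    rw [← d2_dS, d2_sg] at h3
    have h4 : X ^ 2 ≤ ‖dS p r J b b‖ ^ 2 := by
      have := Complex.abs_re_le_norm (dS p r J b b)
      rw [← sq_abs X]
      exact pow_le_pow_left₀ (abs_nonneg _) this 2
    have h5 : 0 ≤ sg p r J b := Finset.sum_nonneg fun m hm =>
      div_nonneg (hr m hm).le (by positivity)
    calc X ^ 2 ≤ _ := h4
      _ ≤ _ := h3
      _ ≤ sg p r J b * X := by
        refine mul_le_mul_of_nonneg_left ?_ h5
        rw [← h1]
        linarith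
  rcases hX0.eq_or_lt with h0 | h0
  · rw [← h0]
    exact Finset.sum_nonneg fun m hm => div_nonneg (hr m hm).le (by positivity)
  · rw [sq] at h2
    exact le_of_mul_le_mul_right h2 h0

theorem dS_bound {p : ι → ℂ} {r : ι → ℝ} {J : Finset ι} {a b : ℂ}
    (hp : ∀ i ∈ J, ∀ j ∈ J, i ≠ j → p i ≠ p j) (hr : ∀ i ∈ J, 0 < r i)
    (ha : ∀ i ∈ J, a ≠ p i) (hb : ∀ i ∈ J, b ≠ p i) :
    ‖dS p r J a b‖ ^ 2 ≤ sg p r J a * sg p r J b := by
  have h1 := dsol_norm hp hr hb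
  have h2 := (dS_diag_le hp hr hb).2
  have hs : 0 ≤ ∑ m ∈ J, r m * ‖(dsol p r J b).2 m‖ ^ 2 :=
    Finset.sum_nonneg fun m hm => mul_nonneg (hr m hm).le (by positivity)
  have h5 : 0 ≤ sg p r J a := Finset.sum_nonneg fun m hm =>
    div_nonneg (hr m hm).le (by positivity)
  have h3 := d2P_cs hr (d2E p a) (dsol p r J b).1
  rw [← d2_dS, d2_sg] at h3
  refine h3.trans (mul_le_mul_of_nonneg_left ?_ h5)
  linarith

theorem dL_bound {p : ι → ℂ} {r : ι → ℝ} {J : Finset ι} {a b : ℂ}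
    (hp : ∀ i ∈ J, ∀ j ∈ J, i ≠ j → p i ≠ p j) (hr : ∀ i ∈ J, 0 < r i)
    (ha : ∀ i ∈ J, a ≠ p i) (hb : ∀ i ∈ J, b ≠ p i) :
    ‖dL p r J a b - (a - b)⁻¹‖ ^ 2 ≤ sg p r J a * sg p r J b := by
  have h1 := dsol_norm hp hr hb
  have h2 := (dS_diag_le hp hr hb).2
  have hl : 0 ≤ ∑ m ∈ J, r m * ‖(dsol p r J b).1 m‖ ^ 2 :=
    Finset.sum_nonneg fun m hm => mul_nonneg (hr m hm).le (by positivity)
  have h5 : 0 ≤ sg p r J a := Finset.sum_nonneg fun m hm =>
    div_nonneg (hr m hm).le (by positivity)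
  have h3 := d2P_cs hr (d2E p a) (dsol p r J b).2
  have h4 : dL p r J a b - (a - b)⁻¹ = d2P r J (d2E p a) (dsol p r J b).2 := by
    rw [d2_dL]; ring
  rw [h4]
  rw [d2_sg] at h3
  refine h3.trans (mul_le_mul_of_nonneg_left ?_ h5)
  linarith

end Pool.Agent.SV
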