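import Pool.Agent.Helper53.SV.D2

/-!
# D3: adding a point to the discrete system
-/

set_option autoImplicit false

open Complex Filter Topology Metric
open scoped ComplexConjugate

namespace Pool.Agent.SV

variable {ι : Type*} [DecidableEq ι]

/-- the `l`-part of the candidate solution -/
private noncomputable def d3L (r : ι → ℝ) (i : ι) (c d : ℂ) (lb li si : ι → ℂ) (m : ι) : ℂ :=
  if m = i then - conj d / r i else lb m + conj c * li m + conj d * si m

/-- the `s`-part of the candidate solution -/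
private noncomputable def d3S (r : ι → ℝ) (i : ι) (c d : ℂ) (sb li si : ι → ℂ) (m : ι) : ℂ :=
  if m = i then - c / r i else sb m + c * si m + d * li m

private theorem d3_sumL (p : ι → ℂ) (r : ι → ℝ) {i : ι} (hri : r i ≠ 0) (c d : ℂ)
    (lb li si : ι → ℂ) (T : Finset ι) (hT : i ∉ T) (z : ℂ) :
    ∑ m ∈ insert i T, r m * conj (d3L r i c d lb li si m) / (z - p m) =
      - d / (z - p i) + (∑ m ∈ T, r m * conj (lb m) / (z - p m) +
        c * ∑ m ∈ T, r m * conj (li m) / (z - p m) +
        d * ∑ m ∈ T, r m * conj (si m) / (z - p m)) := by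
  rw [Finset.sum_insert hT]
  congr 1
  · unfold d3L
    rw [if_pos rfl]
    simp only [map_div₀, map_neg, Complex.conj_conj, Complex.conj_ofReal]
    have : (r i : ℂ) ≠ 0 := by exact_mod_cast hri
    field_simp
  · rw [Finset.mul_sum, Finset.mul_sum, ← Finset.sum_add_distrib, ← Finset.sum_add_distrib]
    refine Finset.sum_congr rfl fun m hm => ?_
    have hmi : m ≠ i := fun h => hT (h ▸ hm)
    unfold d3L
    rw [if_neg hmi]
    simp only [map_add, map_mul, Complex.conj_conj]
    ring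

private theorem d3_sumS (p : ι → ℂ) (r : ι → ℝ) {i : ι} (hri : r i ≠ 0) (c d : ℂ)
    (sb li si : ι → ℂ) (T : Finset ι) (hT : i ∉ T) (z : ℂ) :
    ∑ m ∈ insert i T, r m * conj (d3S r i c d sb li si m) / (z - p m) =
      - conj c / (z - p i) + (∑ m ∈ T, r m * conj (sb m) / (z - p m) +
        conj c * ∑ m ∈ T, r m * conj (si m) / (z - p m) +
        conj d * ∑ m ∈ T, r m * conj (li m) / (z - p m)) := by
  rw [Finset.sum_insert hT]
  congr 1
  · unfold d3S
    rw [if_pos rfl]
    simp only [map_div₀, map_neg, Complex.conj_ofReal]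
    have : (r i : ℂ) ≠ 0 := by exact_mod_cast hri
    field_simp
  · rw [Finset.mul_sum, Finset.mul_sum, ← Finset.sum_add_distrib, ← Finset.sum_add_distrib]
    refine Finset.sum_congr rfl fun m hm => ?_
    have hmi : m ≠ i := fun h => hT (h ▸ hm)
    unfold d3S
    rw [if_neg hmi]
    simp only [map_add, map_mul]
    ring

/-- the sum over `J` of the candidate at a point -/
private theorem d3_sumL' (p : ι → ℂ) (r : ι → ℝ) {i : ι} (c d : ℂ)
    (lb li si : ι → ℂ) (T : Finset ι) (hT : i ∉ T) (z : ℂ) :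
    ∑ m ∈ T, r m * conj (d3L r i c d lb li si m) / (z - p m) =
      ∑ m ∈ T, r m * conj (lb m) / (z - p m) +
        c * ∑ m ∈ T, r m * conj (li m) / (z - p m) +
        d * ∑ m ∈ T, r m * conj (si m) / (z - p m) := by
  rw [Finset.mul_sum, Finset.mul_sum, ← Finset.sum_add_distrib, ← Finset.sum_add_distrib]
  refine Finset.sum_congr rfl fun m hm => ?_
  have hmi : m ≠ i := fun h => hT (h ▸ hm)
  unfold d3L
  rw [if_neg hmi]
  simp only [map_add, map_mul, Complex.conj_conj]
  ring

private theorem d3_sumS' (p : ι → ℂ) (r : ι → ℝ) {i : ι} (c d : ℂ)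
    (sb li si : ι → ℂ) (T : Finset ι) (hT : i ∉ T) (z : ℂ) :
    ∑ m ∈ T, r m * conj (d3S r i c d sb li si m) / (z - p m) =
      ∑ m ∈ T, r m * conj (sb m) / (z - p m) +
        conj c * ∑ m ∈ T, r m * conj (si m) / (z - p m) +
        conj d * ∑ m ∈ T, r m * conj (li m) / (z - p m) := by
  rw [Finset.mul_sum, Finset.mul_sum, ← Finset.sum_add_distrib, ← Finset.sum_add_distrib]
  refine Finset.sum_congr rfl fun m hm => ?_
  have hmi : m ≠ i := fun h => hT (h ▸ hm)
  unfold d3S
  rw [if_neg hmi]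
  simp only [map_add, map_mul]
  ring

/-- the candidate solves the enlarged system -/
private theorem d3_dsol {p : ι → ℂ} {r : ι → ℝ} {J : Finset ι} {i : ι} {b : ℂ} (hi : i ∉ J)
    (hp : ∀ x ∈ insert i J, ∀ y ∈ insert i J, x ≠ y → p x ≠ p y)
    (hr : ∀ x ∈ insert i J, 0 < r x) {c d : ℂ}
    (hc : c = - (kap p r J i : ℂ) * dS p r J (p i) b)
    (hd : conj d = - (kap p r J i : ℂ) * dL p r J (p i) b) :
    DSol p r (insert i J) b
      (d3L r i c d (dsol p r J b).1 (dsol p r J (p i)).1 (dsol p r J (p i)).2)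
      (d3S r i c d (dsol p r J b).2 (dsol p r J (p i)).1 (dsol p r J (p i)).2) := by
  have hpJ : ∀ x ∈ J, ∀ y ∈ J, x ≠ y → p x ≠ p y := fun x hx y hy =>
    hp x (Finset.mem_insert_of_mem hx) y (Finset.mem_insert_of_mem hy)
  have hrJ : ∀ x ∈ J, 0 < r x := fun x hx => hr x (Finset.mem_insert_of_mem hx)
  have hri : 0 < r i := hr i (Finset.mem_insert_self _ _)
  have hpi : ∀ x ∈ J, p i ≠ p x := fun x hx => hp i (Finset.mem_insert_self _ _) x
    (Finset.mem_insert_of_mem hx) (fun h => hi (h ▸ hx))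
  have h1 := dsol_spec b hpJ hrJ
  have h2 := dsol_spec (p i) hpJ hrJ
  -- the diagonal values
  have hLii : ∑ m ∈ J, r m * conj ((dsol p r J (p i)).2 m) / (p i - p m) = 0 := by
    have h3 := dL_antisymm hpJ hrJ hpi hpi
    have h4 : dL p r J (p i) (p i) = 0 := by linear_combination h3 / 2
    unfold dL at h4
    rw [sub_self, inv_zero, zero_sub, neg_eq_zero] at h4
    exact h4
  have hSre : ((dS p r J (p i) (p i)).re : ℂ) = dS p r J (p i) (p i) := by
    have h3 := dS_herm hpJ hrJ hpi hpi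
    exact (Complex.conj_eq_iff_re.mp h3.symm)
  have hS0 := (dS_diag_le hpJ hrJ hpi).1
  have hden : (1 : ℂ) + r i * dS p r J (p i) (p i) ≠ 0 := by
    rw [← hSre]
    have : (0 : ℝ) < 1 + r i * (dS p r J (p i) (p i)).re := by positivity
    exact_mod_cast this.ne'
  have hkap : (kap p r J i : ℂ) = r i / (1 + r i * dS p r J (p i) (p i)) := by
    unfold kap
    push_cast
    rw [hSre]
  have hri' : (r i : ℂ) ≠ 0 := by exact_mod_cast hri.ne'
  have hSsum : ∑ m ∈ J, r m * conj ((dsol p r J (p i)).1 m) / (p i - p m) =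
      - dS p r J (p i) (p i) := by
    unfold dS
    rw [neg_neg]
  have hSb : ∑ m ∈ J, r m * conj ((dsol p r J b).1 m) / (p i - p m) = - dS p r J (p i) b := by
    unfold dS
    rw [neg_neg]
  have hLb : ∑ m ∈ J, r m * conj ((dsol p r J b).2 m) / (p i - p m) =
      (p i - b)⁻¹ - dL p r J (p i) b := by
    unfold dL
    ring
  refine ⟨fun q hq => ?_, fun q hq => ?_⟩
  · by_cases hqi : q = i
    · subst hqi
      rw [Finset.erase_insert hi, d3_sumS' p r c d _ _ _ J hi, hLii, hSsum, hLb]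
      unfold d3L
      rw [if_pos rfl, hd, hkap]
      field_simp
      ring
    · have hqJ : q ∈ J := (Finset.mem_insert.mp hq).resolve_left hqi
      have hne : i ≠ q := Ne.symm hqi
      rw [Finset.erase_insert_of_ne hne, d3_sumS p r hri.ne' c d _ _ _ _
        (fun h => hi (Finset.mem_of_mem_erase h))]
      have e1 := h1.hl q hqJ
      have e2 := h2.hl q hqJ
      have e3 := h2.hs q hqJ
      unfold d3L
      rw [if_neg hqi]
      rw [div_eq_mul_inv (-conj c)]
      linear_combination e1 + conj c * e2 + conj d * e3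
  · by_cases hqi : q = i
    · subst hqi
      rw [Finset.erase_insert hi, d3_sumL' p r c d _ _ _ J hi, hLii, hSsum, hSb]
      unfold d3S
      rw [if_pos rfl, hc, hkap]
      field_simp
      ring
    · have hqJ : q ∈ J := (Finset.mem_insert.mp hq).resolve_left hqi
      have hne : i ≠ q := Ne.symm hqi
      rw [Finset.erase_insert_of_ne hne, d3_sumL p r hri.ne' c d _ _ _ _
        (fun h => hi (Finset.mem_of_mem_erase h))]
      have e1 := h1.hs q hqJ
      have e2 := h2.hs q hqJ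
      have e3 := h2.hl q hqJ
      unfold d3S
      rw [if_neg hqi]
      rw [div_eq_mul_inv (-d)]
      linear_combination e1 + c * e2 + d * e3

theorem dS_insert {p : ι → ℂ} {r : ι → ℝ} {J : Finset ι} {i : ι} {a b : ℂ} (hi : i ∉ J)
    (hp : ∀ x ∈ insert i J, ∀ y ∈ insert i J, x ≠ y → p x ≠ p y)
    (hr : ∀ x ∈ insert i J, 0 < r x)
    (ha : ∀ x ∈ insert i J, a ≠ p x) (hb : ∀ x ∈ insert i J, b ≠ p x) :
    dS p r (insert i J) a b = dS p r J a b - kap p r J i *
      (dS p r J a (p i) * dS p r J (p i) b - dL p r J a (p i) * conj (dL p r J b (p i))) := by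
  have hpJ : ∀ x ∈ J, ∀ y ∈ J, x ≠ y → p x ≠ p y := fun x hx y hy =>
    hp x (Finset.mem_insert_of_mem hx) y (Finset.mem_insert_of_mem hy)
  have hrJ : ∀ x ∈ J, 0 < r x := fun x hx => hr x (Finset.mem_insert_of_mem hx)
  have hri : 0 < r i := hr i (Finset.mem_insert_self _ _)
  have hpi : ∀ x ∈ J, p i ≠ p x := fun x hx => hp i (Finset.mem_insert_self _ _) x
    (Finset.mem_insert_of_mem hx) (fun h => hi (h ▸ hx))
  have hbJ : ∀ x ∈ J, b ≠ p x := fun x hx => hb x (Finset.mem_insert_of_mem hx)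
  set c : ℂ := - (kap p r J i : ℂ) * dS p r J (p i) b with hc
  set d : ℂ := conj (- (kap p r J i : ℂ) * dL p r J (p i) b) with hd
  have hd' : conj d = - (kap p r J i : ℂ) * dL p r J (p i) b := by
    rw [hd, Complex.conj_conj]
  have hsol := d3_dsol hi hp hr hc hd'
  have hu := dsol_unique hp hr (dsol_spec b hp hr) hsol
  have h3 : dS p r (insert i J) a b =
      - ∑ m ∈ insert i J, r m * conj (d3L r i c d (dsol p r J b).1 (dsol p r J (p i)).1
        (dsol p r J (p i)).2 m) / (a - p m) := by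
    unfold dS
    rw [neg_inj]
    refine Finset.sum_congr rfl fun m hm => ?_
    rw [(hu m hm).1]
  rw [h3, d3_sumL p r hri.ne' c d _ _ _ _ hi]
  have h4 : dS p r J a b = - ∑ m ∈ J, r m * conj ((dsol p r J b).1 m) / (a - p m) := rfl
  have h5 : dS p r J a (p i) = - ∑ m ∈ J, r m * conj ((dsol p r J (p i)).1 m) / (a - p m) := rfl
  have h6 : dL p r J a (p i) = (a - p i)⁻¹ -
      ∑ m ∈ J, r m * conj ((dsol p r J (p i)).2 m) / (a - p m) := rfl
  have h7 : dL p r J b (p i) = - dL p r J (p i) b := dL_antisymm hpJ hrJ hpi hbJ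
  have h8 : d = - (kap p r J i : ℂ) * conj (dL p r J (p i) b) := by
    rw [hd, map_mul, map_neg, Complex.conj_ofReal]
  rw [h7, map_neg, div_eq_mul_inv]
  have h9 : -(-d * (a - p i)⁻¹ + (∑ m ∈ J, r m * conj ((dsol p r J b).1 m) / (a - p m) +
      c * ∑ m ∈ J, r m * conj ((dsol p r J (p i)).1 m) / (a - p m) +
      d * ∑ m ∈ J, r m * conj ((dsol p r J (p i)).2 m) / (a - p m))) =
      dS p r J a b + c * dS p r J a (p i) + d * dL p r J a (p i) := by
    rw [h4, h5, h6]
    ring
  rw [h9, h8, hc]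
  ring

theorem dL_insert {p : ι → ℂ} {r : ι → ℝ} {J : Finset ι} {i : ι} {a b : ℂ} (hi : i ∉ J)
    (hp : ∀ x ∈ insert i J, ∀ y ∈ insert i J, x ≠ y → p x ≠ p y)
    (hr : ∀ x ∈ insert i J, 0 < r x)
    (ha : ∀ x ∈ insert i J, a ≠ p x) (hb : ∀ x ∈ insert i J, b ≠ p x) :
    dL p r (insert i J) a b = dL p r J a b - kap p r J i *
      (dS p r J b (p i) * dL p r J a (p i) - dL p r J b (p i) * dS p r J a (p i)) := by
  have hpJ : ∀ x ∈ J, ∀ y ∈ J, x ≠ y → p x ≠ p y := fun x hx y hy =>
    hp x (Finset.mem_insert_of_mem hx) y (Finset.mem_insert_of_mem hy)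
  have hrJ : ∀ x ∈ J, 0 < r x := fun x hx => hr x (Finset.mem_insert_of_mem hx)
  have hri : 0 < r i := hr i (Finset.mem_insert_self _ _)
  have hpi : ∀ x ∈ J, p i ≠ p x := fun x hx => hp i (Finset.mem_insert_self _ _) x
    (Finset.mem_insert_of_mem hx) (fun h => hi (h ▸ hx))
  have hbJ : ∀ x ∈ J, b ≠ p x := fun x hx => hb x (Finset.mem_insert_of_mem hx)
  set c : ℂ := - (kap p r J i : ℂ) * dS p r J (p i) b with hc
  set d : ℂ := conj (- (kap p r J i : ℂ) * dL p r J (p i) b) with hd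
  have hd' : conj d = - (kap p r J i : ℂ) * dL p r J (p i) b := by
    rw [hd, Complex.conj_conj]
  have hsol := d3_dsol hi hp hr hc hd'
  have hu := dsol_unique hp hr (dsol_spec b hp hr) hsol
  have h3 : dL p r (insert i J) a b = (a - b)⁻¹ -
      ∑ m ∈ insert i J, r m * conj (d3S r i c d (dsol p r J b).2 (dsol p r J (p i)).1
        (dsol p r J (p i)).2 m) / (a - p m) := by
    unfold dL
    rw [sub_right_inj]
    refine Finset.sum_congr rfl fun m hm => ?_
    rw [(hu m hm).2]
  rw [h3, d3_sumS p r hri.ne' c d _ _ _ _ hi]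
  have h4 : dL p r J a b = (a - b)⁻¹ -
      ∑ m ∈ J, r m * conj ((dsol p r J b).2 m) / (a - p m) := rfl
  have h5 : dS p r J a (p i) = - ∑ m ∈ J, r m * conj ((dsol p r J (p i)).1 m) / (a - p m) := rfl
  have h6 : dL p r J a (p i) = (a - p i)⁻¹ -
      ∑ m ∈ J, r m * conj ((dsol p r J (p i)).2 m) / (a - p m) := rfl
  have h7 : dL p r J b (p i) = - dL p r J (p i) b := dL_antisymm hpJ hrJ hpi hbJ
  have h8 : conj c = - (kap p r J i : ℂ) * dS p r J b (p i) := by
    rw [hc, map_mul, map_neg, Complex.conj_ofReal, dS_herm hpJ hrJ hbJ hpi]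
  rw [h7, div_eq_mul_inv]
  have h9 : (a - b)⁻¹ - (-conj c * (a - p i)⁻¹ +
      (∑ m ∈ J, r m * conj ((dsol p r J b).2 m) / (a - p m) +
      conj c * ∑ m ∈ J, r m * conj ((dsol p r J (p i)).2 m) / (a - p m) +
      conj d * ∑ m ∈ J, r m * conj ((dsol p r J (p i)).1 m) / (a - p m))) =
      dL p r J a b + conj c * dL p r J a (p i) + conj d * dS p r J a (p i) := by
    rw [h4, h5, h6]
    ring
  rw [h9, h8, hd']
  ring

end Pool.Agent.SV
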