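import Pool.Agent.Helper53.SV.D2
import Pool.Agent.Helper53.SV.H4

/-!
# Comparison of the discrete kernels with the kernels of the circle domain (SV-D5)
-/

set_option autoImplicit false

open Complex Filter Topology Metric
open scoped ComplexConjugate

namespace Pool.Agent.SV

/-- the bound for the mismatch on the circle `k` -/
noncomputable def mis {N : ℕ} (c : Config N) (b : ℂ) (k : Fin N) : ℝ :=
  4 * c.r k * Real.sqrt (sg c.p c.r Finset.univ b)
      * Real.sqrt (∑ m ∈ Finset.univ.erase k, c.r m / ‖c.p k - c.p m‖ ^ 4)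
    + 4 * c.r k / ‖c.p k - b‖ ^ 2

variable {N : ℕ}

theorem d5_ne (c : Config N) : ∀ i ∈ (Finset.univ : Finset (Fin N)), ∀ j ∈ (Finset.univ : Finset (Fin N)),
    i ≠ j → c.p i ≠ c.p j := by
  intro i _ j _ hij h
  have h1 := c.sep i j hij
  have h2 := c.hr i
  have h3 := c.hr j
  rw [h, sub_self, norm_zero] at h1
  linarith

theorem d5_far (c : Config N) {b : ℂ} (hb : b ∈ Far c) : ∀ i ∈ (Finset.univ : Finset (Fin N)),
    b ≠ c.p i := by
  intro i _ h
  have h1 := hb i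
  have h2 := c.hr i
  rw [h, sub_self, norm_zero] at h1
  linarith

theorem d5_reg_inv (c : Config N) (m : Fin N) : Reg c (fun z => (z - c.p m)⁻¹) 0 := by
  have hne : ∀ z ∈ Omc c, z - c.p m ≠ 0 := by
    intro z hz h
    have h1 := hz m
    have h2 := c.hr m
    rw [h, norm_zero] at h1
    linarith
  refine ⟨?_, ?_, ?_⟩
  · intro z hz
    have h1 : DifferentiableAt ℂ (fun z : ℂ => (z - c.p m)⁻¹) z :=
      DifferentiableAt.inv (by fun_prop) (hne z (Om_subset_Omc c hz))
    exact h1.differentiableWithinAt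
  · exact ContinuousOn.inv₀ (by fun_prop) hne
  · have h1 : Tendsto (fun z : ℂ => z - c.p m) (cocompact ℂ) (cocompact ℂ) :=
      (Homeomorph.subRight (c.p m)).isClosedEmbedding.tendsto_cocompact
    exact (tendsto_inv₀_cobounded (α := ℂ)).comp (by rwa [Metric.cobounded_eq_cocompact])

theorem d5_reg_sum (c : Config N) (x : Fin N → ℂ) :
    Reg c (fun z => - ∑ m, c.r m * conj (x m) / (z - c.p m)) 0 := by
  have h : ∀ s : Finset (Fin N),
      Reg c (fun z => ∑ m ∈ s, c.r m * conj (x m) / (z - c.p m)) 0 := by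
    intro s
    induction s using Finset.induction_on with
    | empty =>
      simp only [Finset.sum_empty]
      exact ⟨differentiableOn_const _, continuousOn_const, tendsto_const_nhds⟩
    | insert m s hm ih =>
      have h1 := ((d5_reg_inv c m).const_mul (c.r m * conj (x m))).add ih
      simp only [mul_zero, add_zero] at h1
      refine h1.congr fun z _ => ?_
      rw [Finset.sum_insert hm, div_eq_mul_inv]
  have h1 := (h Finset.univ).const_mul (-1)
  simp only [mul_zero] at h1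
  exact h1.congr fun z _ => by ring

/-- the difference of Cauchy kernels at a point of the circle `k` and at its centre -/
theorem d5_inv_diff (c : Config N) {k m : Fin N} (hkm : k ≠ m) {z : ℂ}
    (hz : ‖z - c.p k‖ = c.r k) :
    ‖(z - c.p m)⁻¹ - (c.p k - c.p m)⁻¹‖ ≤ 2 * c.r k / ‖c.p k - c.p m‖ ^ 2 := by
  have h1 := c.sep k m hkm
  have h2 := c.hr k
  have h3 := c.hr m
  have hd : 0 < ‖c.p k - c.p m‖ := by linarith
  have h4 : ‖c.p k - c.p m‖ ≤ ‖z - c.p k‖ + ‖z - c.p m‖ := by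
    have h5 : c.p k - c.p m = (z - c.p m) - (z - c.p k) := by ring
    rw [h5]
    exact (norm_sub_le _ _).trans (by rw [add_comm])
  have h5 : ‖c.p k - c.p m‖ / 2 ≤ ‖z - c.p m‖ := by linarith
  have hz0 : z - c.p m ≠ 0 := by
    intro h
    rw [h, norm_zero] at h5
    linarith
  have hd0 : c.p k - c.p m ≠ 0 := norm_pos_iff.1 hd
  have h6 : (z - c.p m)⁻¹ - (c.p k - c.p m)⁻¹ = -(z - c.p k) / ((z - c.p m) * (c.p k - c.p m)) := by
    field_simp
    ring
  rw [h6, norm_div, norm_neg, hz, norm_mul]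
  rw [div_le_div_iff₀ (by positivity) (by positivity)]
  nlinarith [mul_le_mul_of_nonneg_left h5 (mul_pos h2 hd).le]

theorem d5_inv_diff_b (c : Config N) {b : ℂ} (hb : b ∈ Far c) {k : Fin N} {z : ℂ}
    (hz : ‖z - c.p k‖ = c.r k) :
    ‖(z - b)⁻¹ - (c.p k - b)⁻¹‖ ≤ 4 * c.r k / ‖c.p k - b‖ ^ 2 := by
  have h1 := hb k
  rw [← norm_neg, neg_sub] at h1
  have h2 := c.hr k
  have hd : 0 < ‖c.p k - b‖ := by linarith
  have h4 : ‖c.p k - b‖ ≤ ‖z - c.p k‖ + ‖z - b‖ := by
    have h5 : c.p k - b = (z - b) - (z - c.p k) := by ring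
    rw [h5]
    exact (norm_sub_le _ _).trans (by rw [add_comm])
  have h5 : ‖c.p k - b‖ / 2 ≤ ‖z - b‖ := by linarith
  have hz0 : z - b ≠ 0 := by
    intro h
    rw [h, norm_zero] at h5
    linarith
  have hd0 : c.p k - b ≠ 0 := norm_pos_iff.1 hd
  have h6 : (z - b)⁻¹ - (c.p k - b)⁻¹ = -(z - c.p k) / ((z - b) * (c.p k - b)) := by
    field_simp
    ring
  rw [h6, norm_div, norm_neg, hz, norm_mul]
  rw [div_le_div_iff₀ (by positivity) (by positivity)]
  nlinarith [mul_le_mul_of_nonneg_left h5 (mul_pos h2 hd).le, mul_pos h2 (mul_pos hd hd)]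

/-- Cauchy-Schwarz for the regular part -/
theorem d5_sum_diff (c : Config N) {k : Fin N} {z : ℂ} (hz : ‖z - c.p k‖ = c.r k)
    (x : Fin N → ℂ) {Q : ℝ} (hx : ∑ m, c.r m * ‖x m‖ ^ 2 ≤ Q) :
    ‖∑ m ∈ Finset.univ.erase k, c.r m * conj (x m) / (z - c.p m)
        - ∑ m ∈ Finset.univ.erase k, c.r m * conj (x m) / (c.p k - c.p m)‖
      ≤ 2 * c.r k * Real.sqrt Q
        * Real.sqrt (∑ m ∈ Finset.univ.erase k, c.r m / ‖c.p k - c.p m‖ ^ 4) := by
  have hrk := c.hr k
  rw [← Finset.sum_sub_distrib]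
  have h1 : ‖∑ m ∈ Finset.univ.erase k, (c.r m * conj (x m) / (z - c.p m)
        - c.r m * conj (x m) / (c.p k - c.p m))‖
      ≤ ∑ m ∈ Finset.univ.erase k, (2 * c.r k) *
        ((Real.sqrt (c.r m) * ‖x m‖) * (Real.sqrt (c.r m) / ‖c.p k - c.p m‖ ^ 2)) := by
    refine (norm_sum_le _ _).trans (Finset.sum_le_sum fun m hm => ?_)
    have hkm : k ≠ m := (Finset.ne_of_mem_erase hm).symm
    have h2 := d5_inv_diff c hkm hz
    have hrm := c.hr m
    have h3 : (c.r m : ℂ) * conj (x m) / (z - c.p m) - c.r m * conj (x m) / (c.p k - c.p m)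
        = c.r m * conj (x m) * ((z - c.p m)⁻¹ - (c.p k - c.p m)⁻¹) := by
      rw [div_eq_mul_inv, div_eq_mul_inv]; ring
    rw [h3, norm_mul, norm_mul, norm_real, Real.norm_of_nonneg hrm.le, norm_conj]
    have h4 : Real.sqrt (c.r m) * Real.sqrt (c.r m) = c.r m := Real.mul_self_sqrt hrm.le
    calc c.r m * ‖x m‖ * ‖(z - c.p m)⁻¹ - (c.p k - c.p m)⁻¹‖
        ≤ c.r m * ‖x m‖ * (2 * c.r k / ‖c.p k - c.p m‖ ^ 2) :=
          mul_le_mul_of_nonneg_left h2 (by positivity)
      _ = (Real.sqrt (c.r m) * Real.sqrt (c.r m)) * ‖x m‖ * (2 * c.r k / ‖c.p k - c.p m‖ ^ 2) := by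
          rw [h4]
      _ = _ := by ring
  refine h1.trans ?_
  rw [← Finset.mul_sum, mul_assoc (2 * c.r k) (Real.sqrt Q)]
  refine mul_le_mul_of_nonneg_left ?_ (by linarith)
  refine (Real.sum_mul_le_sqrt_mul_sqrt _ _ _).trans ?_
  refine mul_le_mul (Real.sqrt_le_sqrt ?_) (Real.sqrt_le_sqrt ?_) (Real.sqrt_nonneg _)
    (Real.sqrt_nonneg _)
  · refine le_trans ?_ hx
    refine (Finset.sum_le_sum fun m _ => ?_).trans
      (Finset.sum_le_sum_of_subset_of_nonneg (Finset.subset_univ _) fun m _ _ =>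
        mul_nonneg (c.hr m).le (sq_nonneg ‖x m‖))
    rw [mul_pow, Real.sq_sqrt (c.hr m).le]
  · refine Finset.sum_le_sum fun m _ => ?_
    rw [div_pow, Real.sq_sqrt (c.hr m).le, ← pow_mul]

/-- the mismatch of the discrete kernels on the circle `k` -/
theorem d5_mismatch (c : Config N) {b : ℂ} (hb : b ∈ Far c) {k : Fin N} {z : ℂ}
    (hz : ‖z - c.p k‖ = c.r k) :
    ‖conj (dS c.p c.r Finset.univ z b) + (z - c.p k) / c.r k * dL c.p c.r Finset.univ z b‖
      ≤ mis c b k := by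
  have hrk := c.hr k
  have hrk' : (c.r k : ℂ) ≠ 0 := by exact_mod_cast hrk.ne'
  have hD := dsol_spec b (d5_ne c) (fun i _ => c.hr i)
  have hN := dsol_norm (d5_ne c) (fun i _ => c.hr i) (d5_far c hb)
  have hle := (dS_diag_le (d5_ne c) (fun i _ => c.hr i) (d5_far c hb)).2
  set l := (dsol c.p c.r Finset.univ b).1 with hl
  set s := (dsol c.p c.r Finset.univ b).2 with hs
  have hQl : ∑ m, c.r m * ‖l m‖ ^ 2 ≤ sg c.p c.r Finset.univ b := by
    have : 0 ≤ ∑ m, c.r m * ‖s m‖ ^ 2 :=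
      Finset.sum_nonneg fun m _ => mul_nonneg (c.hr m).le (sq_nonneg _)
    linarith
  have hQs : ∑ m, c.r m * ‖s m‖ ^ 2 ≤ sg c.p c.r Finset.univ b := by
    have : 0 ≤ ∑ m, c.r m * ‖l m‖ ^ 2 :=
      Finset.sum_nonneg fun m _ => mul_nonneg (c.hr m).le (sq_nonneg _)
    linarith
  have e1 := d5_sum_diff c hz l hQl
  have e2 := d5_sum_diff c hz s hQs
  have e3 := d5_inv_diff_b c hb hz
  have hlk := hD.hl k (Finset.mem_univ k)
  have hsk := hD.hs k (Finset.mem_univ k)
  have hz0 : z - c.p k ≠ 0 := by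
    intro h
    rw [h, norm_zero] at hz
    linarith
  have ht := h2_tau c hz
  set t : ℂ := (z - c.p k) / c.r k with ht'
  have htn : ‖t‖ = 1 := by
    rw [ht', norm_div, hz, norm_real, Real.norm_of_nonneg hrk.le, div_self hrk.ne']
  have hzt : z - c.p k = c.r k * t := by
    rw [ht']; field_simp
  have ht0 : t ≠ 0 := by
    intro h
    rw [h, norm_zero] at htn
    norm_num at htn
  set Az := ∑ m ∈ Finset.univ.erase k, c.r m * conj (l m) / (z - c.p m) with hAz
  set Ap := ∑ m ∈ Finset.univ.erase k, c.r m * conj (l m) / (c.p k - c.p m) with hAp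
  set Bz := ∑ m ∈ Finset.univ.erase k, c.r m * conj (s m) / (z - c.p m) with hBz
  set Bp := ∑ m ∈ Finset.univ.erase k, c.r m * conj (s m) / (c.p k - c.p m) with hBp
  have hinv : ∀ x : ℂ, c.r k * x / (z - c.p k) = x * conj t := by
    intro x
    rw [hzt, mul_div_mul_left _ _ hrk', div_eq_iff ht0]
    linear_combination (-x) * ht
  have hS : dS c.p c.r Finset.univ z b = -(conj (l k) * conj t + Az) := by
    unfold dS
    rw [← Finset.add_sum_erase _ _ (Finset.mem_univ k), hinv]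
  have hL : dL c.p c.r Finset.univ z b = (z - b)⁻¹ - (conj (s k) * conj t + Bz) := by
    unfold dL
    rw [← Finset.add_sum_erase _ _ (Finset.mem_univ k), hinv]
  have hkey : conj (dS c.p c.r Finset.univ z b) + t * dL c.p c.r Finset.univ z b
      = t * ((z - b)⁻¹ - (c.p k - b)⁻¹) - t * (Bz - Bp) - conj (Az - Ap) := by
    have hsk' : conj (s k) = - conj Ap := by rw [hsk, map_neg]
    rw [hS, hL, hsk', map_neg, map_add, map_mul, conj_conj, conj_conj, hlk, map_sub]
    linear_combination (conj Ap) * ht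
  rw [hkey]
  have n1 : ‖t * ((z - b)⁻¹ - (c.p k - b)⁻¹)‖ ≤ 4 * c.r k / ‖c.p k - b‖ ^ 2 := by
    rw [norm_mul, htn, one_mul]; exact e3
  have n2 : ‖t * (Bz - Bp)‖ ≤ 2 * c.r k * Real.sqrt (sg c.p c.r Finset.univ b)
      * Real.sqrt (∑ m ∈ Finset.univ.erase k, c.r m / ‖c.p k - c.p m‖ ^ 4) := by
    rw [norm_mul, htn, one_mul]; exact e2
  have n3 : ‖conj (Az - Ap)‖ ≤ 2 * c.r k * Real.sqrt (sg c.p c.r Finset.univ b)
      * Real.sqrt (∑ m ∈ Finset.univ.erase k, c.r m / ‖c.p k - c.p m‖ ^ 4) := by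
    rw [norm_conj]; exact e1
  have n4 := norm_sub_le (t * ((z - b)⁻¹ - (c.p k - b)⁻¹) - t * (Bz - Bp)) (conj (Az - Ap))
  have n5 := norm_sub_le (t * ((z - b)⁻¹ - (c.p k - b)⁻¹)) (t * (Bz - Bp))
  unfold mis
  linarith

theorem d5_avg_add {f g : ℂ → ℝ} {p : ℂ} {r : ℝ} (hf : CircleIntegrable f p r)
    (hg : CircleIntegrable g p r) :
    Real.circleAverage (fun z => f z + g z) p r
      = Real.circleAverage f p r + Real.circleAverage g p r :=
  Real.circleAverage_fun_add hf hg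

/-- the norm identity for a pair of regular functions with small mismatch -/
theorem d5_pair (c : Config N) {X Y : ℂ → ℂ} (hX : Reg c X 0) (hY : Reg c Y 0) {e : Fin N → ℝ}
    (he : ∀ k z, ‖z - c.p k‖ = c.r k → ‖conj (X z) + (z - c.p k) / c.r k * Y z‖ ≤ e k) :
    nsq c X + nsq c Y ≤ ∑ k, c.r k * e k ^ 2 := by
  have h0 := pair_zero c hX hY
  have h1 : ∀ k, (∮ z in C(c.p k, c.r k), X z * Y z) = 2 * Real.pi * I *
      (c.r k * Real.circleAverage (fun z => (z - c.p k) / c.r k * (X z * Y z)) (c.p k) (c.r k)) :=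
    fun k => h2_circ_eq_avg (c.p k) (c.hr k).ne' _
  rw [Finset.sum_congr rfl fun k _ => h1 k, ← Finset.mul_sum] at h0
  have h2 := (mul_eq_zero.1 h0).resolve_left two_pi_I_ne_zero
  have cX := hX.h4cont
  have cY := hY.h4cont
  have cT : ∀ k, ContinuousOn (fun z => (z - c.p k) / c.r k * (X z * Y z))
      (sphere (c.p k) (c.r k)) := by
    intro k
    refine ContinuousOn.mul ?_ ((cX k).mul (cY k))
    fun_prop
  have h3 : ∑ k, c.r k * Real.circleAverage
      (fun z => ((z - c.p k) / c.r k * (X z * Y z)).re) (c.p k) (c.r k) = 0 := by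
    have h4 := congrArg Complex.re h2
    rw [Complex.re_sum, Complex.zero_re] at h4
    rw [← h4]
    refine Finset.sum_congr rfl fun k _ => ?_
    rw [Complex.re_ofReal_mul]
    congr 1
    have h5 := (Complex.reCLM.circleAverage_comp_comm ((cT k).circleIntegrable (c.hr k).le))
    exact h5
  have h6 : ∀ k, Real.circleAverage (fun z => ‖X z‖ ^ 2) (c.p k) (c.r k)
      + Real.circleAverage (fun z => ‖Y z‖ ^ 2) (c.p k) (c.r k)
      + 2 * Real.circleAverage (fun z => ((z - c.p k) / c.r k * (X z * Y z)).re) (c.p k) (c.r k)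
      ≤ e k ^ 2 := by
    intro k
    have hrk := c.hr k
    have i1 : CircleIntegrable (fun z => ‖X z‖ ^ 2) (c.p k) (c.r k) :=
      ((cX k).norm.pow 2).circleIntegrable hrk.le
    have i2 : CircleIntegrable (fun z => ‖Y z‖ ^ 2) (c.p k) (c.r k) :=
      ((cY k).norm.pow 2).circleIntegrable hrk.le
    have i3 : CircleIntegrable (fun z => 2 * ((z - c.p k) / c.r k * (X z * Y z)).re)
        (c.p k) (c.r k) :=
      (continuousOn_const.mul (Complex.continuous_re.comp_continuousOn (cT k))).circleIntegrable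
        hrk.le
    have h7 : 2 * Real.circleAverage (fun z => ((z - c.p k) / c.r k * (X z * Y z)).re)
        (c.p k) (c.r k)
        = Real.circleAverage (fun z => 2 * ((z - c.p k) / c.r k * (X z * Y z)).re)
        (c.p k) (c.r k) := by
      rw [← smul_eq_mul, ← Real.circleAverage_fun_smul]
      simp only [smul_eq_mul]
    have i12 : CircleIntegrable (fun z => ‖X z‖ ^ 2 + ‖Y z‖ ^ 2) (c.p k) (c.r k) := i1.add i2
    have i123 : CircleIntegrable (fun z => ‖X z‖ ^ 2 + ‖Y z‖ ^ 2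
        + 2 * ((z - c.p k) / c.r k * (X z * Y z)).re) (c.p k) (c.r k) := i12.add i3
    rw [h7, ← d5_avg_add i1 i2, ← d5_avg_add i12 i3]
    refine Real.circleAverage_mono_on_of_le_circle i123 ?_
    intro z hz
    rw [abs_of_pos hrk, mem_sphere_iff_norm] at hz
    have h8 := he k z hz
    have ht := h2_tau c hz
    set t : ℂ := (z - c.p k) / c.r k with ht'
    have h9 : ‖X z‖ ^ 2 + ‖Y z‖ ^ 2 + 2 * (t * (X z * Y z)).re = ‖conj (X z) + t * Y z‖ ^ 2 := by
      have e1 : ∀ x : ℂ, ((‖x‖ ^ 2 : ℝ) : ℂ) = x * conj x := by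
        intro x
        rw [mul_conj, normSq_eq_norm_sq]
      have e2 : ((‖X z‖ ^ 2 + ‖Y z‖ ^ 2 + 2 * (t * (X z * Y z)).re : ℝ) : ℂ)
          = ((‖conj (X z) + t * Y z‖ ^ 2 : ℝ) : ℂ) := by
        rw [e1, ofReal_add, ofReal_add, e1, e1, ← add_conj]
        simp only [map_add, map_mul, conj_conj]
        linear_combination (-(Y z * conj (Y z))) * ht
      exact_mod_cast e2
    rw [h9]
    exact pow_le_pow_left₀ (norm_nonneg _) h8 2
  have h10 : ∑ k, c.r k * (Real.circleAverage (fun z => ‖X z‖ ^ 2) (c.p k) (c.r k)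
      + Real.circleAverage (fun z => ‖Y z‖ ^ 2) (c.p k) (c.r k)
      + 2 * Real.circleAverage (fun z => ((z - c.p k) / c.r k * (X z * Y z)).re) (c.p k) (c.r k))
      ≤ ∑ k, c.r k * e k ^ 2 :=
    Finset.sum_le_sum fun k _ => mul_le_mul_of_nonneg_left (h6 k) (c.hr k).le
  have h11 : ∑ k, c.r k * (Real.circleAverage (fun z => ‖X z‖ ^ 2) (c.p k) (c.r k)
      + Real.circleAverage (fun z => ‖Y z‖ ^ 2) (c.p k) (c.r k)
      + 2 * Real.circleAverage (fun z => ((z - c.p k) / c.r k * (X z * Y z)).re) (c.p k) (c.r k))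
      = nsq c X + nsq c Y + 2 * ∑ k, c.r k * Real.circleAverage
      (fun z => ((z - c.p k) / c.r k * (X z * Y z)).re) (c.p k) (c.r k) := by
    unfold nsq
    rw [Finset.mul_sum, ← Finset.sum_add_distrib, ← Finset.sum_add_distrib]
    refine Finset.sum_congr rfl fun k _ => ?_
    ring
  rw [h11, h3, mul_zero, add_zero] at h10
  exact h10

theorem d5_reg_zero (c : Config N) : Reg c (fun _ => (0 : ℂ)) 0 :=
  ⟨differentiableOn_const _, continuousOn_const, tendsto_const_nhds⟩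

theorem d5_diag_le (c : Config N) {a : ℂ} (ha : a ∈ Far c) {Sa la : ℂ → ℂ}
    (hKa : IsKer c 0 a Sa la) : (Sa a).re ≤ 4 * sg c.p c.r Finset.univ a := by
  have h1 := ker_le c (Far_subset_Om c ha) hKa (d5_reg_zero c)
  refine h1.trans ?_
  unfold nsq sg
  rw [Finset.mul_sum]
  refine Finset.sum_le_sum fun k _ => ?_
  have hrk := c.hr k
  have hk := ha k
  have hd : 0 < ‖a - c.p k‖ := by linarith
  have h2 : Real.circleAverage (fun z => ‖Lf a (fun _ => (0 : ℂ)) z‖ ^ 2) (c.p k) (c.r k)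
      ≤ 4 / ‖a - c.p k‖ ^ 2 := by
    have hc := h4_cont_Lf c (Far_subset_Om c ha) (d5_reg_zero c) k
    refine Real.circleAverage_mono_on_of_le_circle ((hc.norm.pow 2).circleIntegrable hrk.le) ?_
    intro z hz
    rw [abs_of_pos hrk, mem_sphere_iff_norm] at hz
    have h4 : ‖a - c.p k‖ ≤ ‖z - a‖ + ‖z - c.p k‖ := by
      have h5 : a - c.p k = (z - c.p k) - (z - a) := by ring
      rw [h5]
      exact (norm_sub_le _ _).trans (by rw [add_comm])
    have h5 : ‖a - c.p k‖ / 2 ≤ ‖z - a‖ := by linarith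
    simp only [Lf, add_zero, norm_inv]
    have h6 : ‖z - a‖⁻¹ ≤ 2 / ‖a - c.p k‖ := by
      rw [inv_le_comm₀ (by linarith) (by positivity), inv_div]
      exact h5
    calc ‖z - a‖⁻¹ ^ 2 ≤ (2 / ‖a - c.p k‖) ^ 2 := pow_le_pow_left₀ (by positivity) h6 2
      _ = 4 / ‖a - c.p k‖ ^ 2 := by rw [div_pow]; norm_num
  calc c.r k * Real.circleAverage (fun z => ‖Lf a (fun _ => (0 : ℂ)) z‖ ^ 2) (c.p k) (c.r k)
      ≤ c.r k * (4 / ‖a - c.p k‖ ^ 2) := mul_le_mul_of_nonneg_left h2 hrk.le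
    _ = 4 * (c.r k / ‖a - c.p k‖ ^ 2) := by ring

theorem circ_compare {N : ℕ} (c : Config N) {a b : ℂ} (ha : a ∈ Far c) (hb : b ∈ Far c)
    {Sa la Sb lb : ℂ → ℂ} (hKa : IsKer c 0 a Sa la) (hKb : IsKer c 0 b Sb lb) :
    ‖Sb a - dS c.p c.r Finset.univ a b‖ ^ 2
        ≤ 4 * sg c.p c.r Finset.univ a * ∑ k, c.r k * mis c b k ^ 2 ∧
      ‖Lf b lb a - dL c.p c.r Finset.univ a b‖ ^ 2
        ≤ 16 * sg c.p c.r Finset.univ a * ∑ k, c.r k * mis c b k ^ 2 := by
  set X : ℂ → ℂ := fun z => dS c.p c.r Finset.univ z b - Sb z with hXdef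
  set g : ℂ → ℂ := fun z => - ∑ m, c.r m * conj ((dsol c.p c.r Finset.univ b).2 m) / (z - c.p m)
    with hg
  set Y : ℂ → ℂ := fun z => g z - lb z with hYdef
  have hX : Reg c X 0 := by
    have := (d5_reg_sum c (dsol c.p c.r Finset.univ b).1).sub hKb.hS
    rw [sub_zero] at this
    exact this
  have hY : Reg c Y 0 := by
    have := (d5_reg_sum c (dsol c.p c.r Finset.univ b).2).sub hKb.hl
    rw [sub_zero] at this
    exact this
  have hLg : ∀ z, dL c.p c.r Finset.univ z b = (z - b)⁻¹ + g z := by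
    intro z
    rw [hg]
    unfold dL
    ring
  have hP := d5_pair c hX hY (e := fun k => mis c b k) (fun k z hz => by
    have h1 := d5_mismatch c hb hz
    have h2 := h4_phase_zero c hKb hz
    have h3 : conj (X z) + (z - c.p k) / c.r k * Y z
        = conj (dS c.p c.r Finset.univ z b) + (z - c.p k) / c.r k * dL c.p c.r Finset.univ z b := by
      rw [hLg z]
      simp only [hXdef, hYdef, map_sub, h2, Lf]
      ring
    rw [h3]
    exact h1)
  have hX0 := h4_nsq_nonneg c X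
  have hY0 := h4_nsq_nonneg c Y
  set e2 := ∑ k, c.r k * mis c b k ^ 2 with he2
  have haO := Far_subset_Om c ha
  have hSa := d5_diag_le c ha hKa
  have hSa0 : 0 ≤ (Sa a).re := by
    rw [ker_diag c haO hKa, ofReal_re]
    exact h4_nsq_nonneg c Sa
  have p1 := ker_point c haO hKa hX
  have p2 := ker_point c haO hKa hY
  have q1 : ‖X a‖ ^ 2 ≤ 4 * sg c.p c.r Finset.univ a * e2 :=
    p1.trans (mul_le_mul hSa (by linarith) hX0 (hSa0.trans hSa))
  have q2 : ‖Y a‖ ^ 2 ≤ 4 * sg c.p c.r Finset.univ a * e2 :=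
    p2.trans (mul_le_mul hSa (by linarith) hY0 (hSa0.trans hSa))
  constructor
  · rw [norm_sub_rev]
    exact q1
  · have h4 : Lf b lb a - dL c.p c.r Finset.univ a b = -(Y a) := by
      rw [hLg a]
      simp only [Lf, hYdef]
      ring
    rw [h4, norm_neg]
    have h5 : 0 ≤ 4 * sg c.p c.r Finset.univ a * e2 := (sq_nonneg _).trans q2
    linarith

end Pool.Agent.SV
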