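import Mathlib

/-!
# Dilute circle domains: definitions

`Config N` is a configuration of `N` discs which are far from each other compared to their radii.
`Om c` is the domain outside of the closed discs, `Omc c` is its closure and `Far c` is the set of
points which are far from all discs.
-/

set_option autoImplicit false

open Complex Filter Topology Metric
open scoped ComplexConjugate

namespace Pool.Agent.SV

/-- A dilute configuration of discs. -/
structure Config (N : ℕ) where
  /-- the centres -/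
  p : Fin N → ℂ
  /-- the radii -/
  r : Fin N → ℝ
  hr : ∀ i, 0 < r i
  sep : ∀ i j, i ≠ j → 64 * (r i + r j) ≤ ‖p i - p j‖
  /-- the contraction constant -/
  q : ℝ
  hq : q < 1
  small : ∀ i, ∑ j ∈ Finset.univ.erase i, 4 * r i * r j / ‖p i - p j‖ ^ 2 ≤ q

variable {N : ℕ}

/-- The open domain outside of the closed discs. -/
def Om (c : Config N) : Set ℂ := {z | ∀ k, c.r k < ‖z - c.p k‖}

/-- The closed domain outside of the open discs. -/
def Omc (c : Config N) : Set ℂ := {z | ∀ k, c.r k ≤ ‖z - c.p k‖}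

/-- The points which are far from all discs. -/
def Far (c : Config N) : Set ℂ := {z | ∀ k, 32 * c.r k < ‖z - c.p k‖}

/-- `f` is holomorphic on the domain, continuous on its closure and tends to `A` at infinity. -/
structure Reg (c : Config N) (f : ℂ → ℂ) (A : ℂ) : Prop where
  diff : DifferentiableOn ℂ f (Om c)
  cont : ContinuousOn f (Omc c)
  lim : Tendsto f (cocompact ℂ) (𝓝 A)

/-- `1 / (z - w) + l z` -/
noncomputable def Lf (w : ℂ) (l : ℂ → ℂ) (z : ℂ) : ℂ := (z - w)⁻¹ + l z

/-- `(S, Lf w l)` is the kernel pair with source `w` and boundary phases `β`. -/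
structure IsKer (c : Config N) (β : Fin N → ℝ) (w : ℂ) (S l : ℂ → ℂ) : Prop where
  hS : Reg c S 0
  hl : Reg c l 0
  bd : ∀ k, ∀ z, ‖z - c.p k‖ = c.r k →
    conj (S z) = - exp (β k * I) * ((z - c.p k) / c.r k) * Lf w l z

/-- The functions which are obtained as sums over reduced words in the reflections. -/
structure FunData (c : Config N) where
  /-- `(z - p j) * exp (E j z)` has constant modulus on every circle -/
  E : Fin N → ℂ → ℂ
  /-- correction -/
  e : ℂ → ℂ
  /-- sum over even words -/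
  lam : ℂ → ℂ → ℂ
  /-- sum over odd words -/
  mu : ℂ → ℂ → ℂ
  /-- the boundary values of `2 log |φ_j|` -/
  b : Fin N → Fin N → ℝ
  hE : ∀ j, Reg c (E j) 0
  he : Reg c e 0
  hlam : ∀ w ∈ Far c, Reg c (lam w) 0
  hmu : ∀ w ∈ Far c, Reg c (mu w) 0
  hb : ∀ j k, b j k = b k j
  bdE : ∀ j k z, ‖z - c.p k‖ = c.r k → 2 * (E j z).re + 2 * Real.log ‖z - c.p j‖ = b j k
  bde : ∀ i z, ‖z - c.p i‖ = c.r i → (E i z).im = -2 * (e z).im
  bdlm : ∀ w ∈ Far c, ∀ i z, ‖z - c.p i‖ = c.r i →
    exp (conj (mu w z) - lam w z) = (z - w) / (c.p i - w) * exp (- E i w)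

/-- `φ_j(z) = (z - p_j) exp (E_j(z))` -/
noncomputable def phi {c : Config N} (D : FunData c) (j : Fin N) (z : ℂ) : ℂ :=
  (z - c.p j) * exp (D.E j z)

/-- `Φ_m(z) = ∏ φ_j(z) ^ m_j` -/
noncomputable def Phi {c : Config N} (D : FunData c) (m : Fin N → ℤ) (z : ℂ) : ℂ :=
  ∏ j, phi D j z ^ m j

/-- The quadratic form `½ ∑ b_jk v_j v_k`. -/
noncomputable def qf (b : Fin N → Fin N → ℝ) (v : Fin N → ℝ) : ℝ :=
  (∑ j, ∑ k, v j * v k * b j k) / 2

/-- Integer vectors with sum `s`. -/
abbrev Lam (N : ℕ) (s : ℤ) : Type := {m : Fin N → ℤ // ∑ j, m j = s}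

/-- The quadratic form on integer vectors. -/
noncomputable def qz (b : Fin N → Fin N → ℝ) (m : Fin N → ℤ) : ℝ := qf b (fun j => (m j : ℝ))

/-- pairing of an integer vector with a real vector -/
noncomputable def dotz (m : Fin N → ℤ) (x : Fin N → ℝ) : ℝ := ∑ j, (m j : ℝ) * x j

/-- `∑ |m_j|` -/
noncomputable def absz (m : Fin N → ℤ) : ℝ := ∑ j, |(m j : ℝ)|

/-- negative definiteness on neutral real vectors -/
def NegDef (b : Fin N → Fin N → ℝ) : Prop :=
  ∃ κ : ℝ, 0 < κ ∧ ∀ v : Fin N → ℝ, ∑ j, v j = 0 → qf b v ≤ - κ * ∑ j, v j ^ 2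

/-- the theta series over neutral integer vectors -/
noncomputable def theta (b : Fin N → Fin N → ℝ) (β : Fin N → ℝ) : ℂ :=
  ∑' m : Lam N 0, exp ((qz b m.1 : ℝ) + (dotz m.1 β : ℝ) * I)

/-- the square of the norm of a function on the boundary: `(1/2π) ∫ |f|² |dz|` -/
noncomputable def nsq (c : Config N) (f : ℂ → ℂ) : ℝ :=
  ∑ k, c.r k * Real.circleAverage (fun z => ‖f z‖ ^ 2) (c.p k) (c.r k)

/-- the expression of the frozen statement, for values `k12, k13, k23, l12, l13, l23` -/
noncomputable def D2 (k12 k13 k23 l12 l13 l23 : ℂ) : ℝ :=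
  ((l12 * conj k13 - conj k12 * l13) * conj l23 - (l12 * conj l13 - conj k12 * k13) * conj k23).re

end Pool.Agent.SV
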