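import Pool.Agent.Helper53.SV.H2

/-!
The determinant identity for the kernels of a dilute circle domain.
-/

set_option autoImplicit false

open Complex Filter Topology Metric
open scoped ComplexConjugate

namespace Pool.Agent.SV

variable {N : ℕ}

/-- partial fraction of `(z - a) / (z - b) * f z` -/
private lemma pf1 (f : ℂ → ℂ) {a b z : ℂ} (hzb : z ≠ b) :
    (z - a) / (z - b) * f z = f z + (b - a) * dslope f b z + (b - a) * f b * (z - b)⁻¹ := by
  have h : z - b ≠ 0 := sub_ne_zero.mpr hzb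
  rw [dslope_of_ne _ hzb, slope_def_field]
  field_simp
  ring

private lemma pf2 (f : ℂ → ℂ) {b z : ℂ} (hzb : z ≠ b) :
    f z * (z - b)⁻¹ = dslope f b z + f b * (z - b)⁻¹ := by
  have h : z - b ≠ 0 := sub_ne_zero.mpr hzb
  rw [dslope_of_ne _ hzb, slope_def_field]
  field_simp
  ring

private lemma circle_ne (c : Config N) {b : ℂ} (hb : b ∈ Far c) {k : Fin N} {z : ℂ}
    (hz : ‖z - c.p k‖ = c.r k) : z ≠ b := by
  rintro rfl
  have h1 := hb k
  have h2 := c.hr k
  linarith

private lemma tau_conj (c : Config N) {k : Fin N} {z : ℂ} (hz : ‖z - c.p k‖ = c.r k) :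
    ((z - c.p k) / c.r k) * conj ((z - c.p k) / c.r k) = 1 := by
  have h2 := c.hr k
  rw [Complex.mul_conj, Complex.normSq_eq_norm_sq, norm_div, hz, Complex.norm_real,
    Real.norm_eq_abs, abs_of_pos h2, div_self h2.ne']
  simp

/-- conjugate pair -/
private lemma flip_pair {t x y : ℂ} (ht : t * conj t = 1) (h : conj x = - t * y) :
    conj y = - t * x := by
  have h1 : x = - conj t * conj y := by
    have := congrArg conj h
    rwa [Complex.conj_conj, map_mul, map_neg] at this
  rw [h1]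
  linear_combination (-conj y) * ht

/-- The fundamental determinant identity. -/
theorem det_identity (c : Config N) {a b w : ℂ} (ha : a ∈ Far c) (hb : b ∈ Far c)
    (hw : w ∈ Far c) (hab : a ≠ b) (haw : a ≠ w) (hbw : b ≠ w)
    (hex : ∀ z ∈ Far c, ∃ S l, IsKer c 0 z S l)
    {R : ℂ → ℂ} {β : Fin N → ℝ} (hR : Reg c R 1) (hR0 : ∀ z ∈ Omc c, R z ≠ 0)
    (hRb : ∀ k z, ‖z - c.p k‖ = c.r k →
        conj ((z - a) / (z - b) * R z) = exp (- (β k * I)) * ((z - a) / (z - b) * R z))
    {Sb lb Sw lw Sβ lβ : ℂ → ℂ} (hKb : IsKer c 0 b Sb lb) (hKw : IsKer c 0 w Sw lw)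
    (hKβ : IsKer c β w Sβ lβ) :
    ∃ x y s : ℂ, ‖s‖ = ‖Sβ w‖ ∧ Sw a + x * Sb a + y * Lf b lb a = 0 ∧
      Lf w lw a + conj x * Lf b lb a + conj y * Sb a = 0 ∧
      Sw w + x * Sb w + y * Lf b lb w = s := by
  have hbO := Far_subset_Om c hb
  have hwO := Far_subset_Om c hw
  have hwa : w - a ≠ 0 := sub_ne_zero.mpr haw.symm
  have hwb : w - b ≠ 0 := sub_ne_zero.mpr hbw.symm
  have hbw' : b - w ≠ 0 := sub_ne_zero.mpr hbw
  have hRw0 : R w ≠ 0 := hR0 w (Om_subset_Omc c hwO)
  set h : ℂ → ℂ := fun z => R z * Sβ z with hh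
  set k1 : ℂ → ℂ := fun z => R z * lβ z with hk1
  set Rw : ℂ := (w - a) / (w - b) * R w with hRw
  have hRwne : Rw ≠ 0 := mul_ne_zero (div_ne_zero hwa hwb) hRw0
  have hcRw : conj Rw ≠ 0 := (map_ne_zero _).mpr hRwne
  set α : ℂ := (b - a) / (b - w) with hα
  set γ : ℂ := (w - a) / (w - b) with hγ
  set xx : ℂ := (α * R b + (b - a) * k1 b) / Rw with hxx
  set y : ℂ := (b - a) * h b / conj Rw with hy
  have hhReg : Reg c h 0 := by
    have := hR.mul hKβ.hS
    rwa [mul_zero] at this
  have hkReg : Reg c k1 0 := by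
    have := hR.mul hKβ.hl
    rwa [mul_zero] at this
  -- the two functions
  set X : ℂ → ℂ := fun z => (conj Rw)⁻¹ * (h z + (b - a) * dslope h b z)
    - Sw z - conj xx * Sb z - y * lb z with hX
  set Y : ℂ → ℂ := fun z => Rw⁻¹ * (k1 z + (b - a) * dslope k1 b z + α * dslope R b z
    + γ * dslope R w z) - lw z - xx * lb z - conj y * Sb z with hY
  have hXR : Reg c X 0 := by
    have h1 := (((hhReg.add ((hhReg.dslope hbO).const_mul (b - a))).const_mul (conj Rw)⁻¹).sub
      hKw.hS).sub (hKb.hS.const_mul (conj xx)) |>.sub (hKb.hl.const_mul y)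
    simpa using h1
  have hYR : Reg c Y 0 := by
    have h1 := ((((((hkReg.add ((hkReg.dslope hbO).const_mul (b - a))).add
      ((hR.dslope hbO).const_mul α)).add ((hR.dslope hwO).const_mul γ)).const_mul Rw⁻¹).sub
      hKw.hl).sub (hKb.hl.const_mul xx)).sub (hKb.hS.const_mul (conj y))
    simpa using h1
  have hXz : ∀ z, z ≠ b → X z = (conj Rw)⁻¹ * ((z - a) / (z - b) * h z)
      - Sw z - conj xx * Sb z - y * Lf b lb z := by
    intro z hzb
    rw [pf1 h hzb, hX]
    simp only [Lf]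
    rw [hy]
    field_simp
    ring
  have hYz : ∀ z, z ≠ b → z ≠ w → Y z = Rw⁻¹ * ((z - a) / (z - b) * R z * Lf w lβ z)
      - Lf w lw z - xx * Lf b lb z - conj y * Sb z := by
    intro z hzb hzw
    have hz1 : z - b ≠ 0 := sub_ne_zero.mpr hzb
    have hz2 : z - w ≠ 0 := sub_ne_zero.mpr hzw
    have e1 : (z - a) / (z - b) * R z * Lf w lβ z
        = (z - a) / (z - b) * k1 z + (α * (R z * (z - b)⁻¹) + γ * (R z * (z - w)⁻¹)) := by
      simp only [Lf, hk1, hα, hγ]
      field_simp
      ring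
    rw [e1, pf1 k1 hzb, pf2 R hzb, pf2 R hzw, hY]
    simp only [Lf]
    have e2 : Rw * xx = α * R b + (b - a) * k1 b := by
      rw [hxx]; field_simp
    have e3 : Rw = γ * R w := by rw [hRw, hγ]
    have e4 : Rw⁻¹ * Rw = 1 := inv_mul_cancel₀ hRwne
    clear_value Rw α γ xx y h k1
    linear_combination ((z - b)⁻¹ * Rw⁻¹) * e2 - (xx * (z - b)⁻¹ + (z - w)⁻¹) * e4
      + ((z - w)⁻¹ * Rw⁻¹) * e3
  -- boundary relation
  have hexp0 : ∀ k : Fin N, exp ((((0 : Fin N → ℝ) k : ℝ) : ℂ) * I) = 1 := by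
    intro k; simp
  have hbd : ∀ k z, ‖z - c.p k‖ = c.r k → conj (X z) = - ((z - c.p k) / c.r k) * Y z := by
    intro k z hz
    have hzb := circle_ne c hb hz
    have hzw := circle_ne c hw hz
    have ht := tau_conj c hz
    set τ : ℂ := (z - c.p k) / c.r k with hτ
    rw [hXz z hzb, hYz z hzb hzw]
    have b1 : conj (Sb z) = - τ * Lf b lb z := by
      have := hKb.bd k z hz
      rw [hexp0] at this
      rw [this]; ring
    have b2 : conj (Sw z) = - τ * Lf w lw z := by
      have := hKw.bd k z hz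
      rw [hexp0] at this
      rw [this]; ring
    have b3 : conj (Lf b lb z) = - τ * Sb z := flip_pair ht b1
    have b4 := hRb k z hz
    have b5 := hKβ.bd k z hz
    have b6 : conj ((z - a) / (z - b) * h z) = - τ * ((z - a) / (z - b) * R z * Lf w lβ z) := by
      have e0 : (z - a) / (z - b) * h z = ((z - a) / (z - b) * R z) * Sβ z := by
        rw [hh]; ring
      rw [e0, map_mul, b4, b5]
      have e1 : exp (-(↑(β k) * I)) * exp (↑(β k) * I) = 1 := by
        rw [← Complex.exp_add]; simp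
      linear_combination (- τ * ((z - a) / (z - b) * R z * Lf w lβ z)) * e1
    simp only [map_sub, map_mul, map_inv₀, Complex.conj_conj]
    simp only [map_mul] at b6
    rw [b1, b2, b3]
    linear_combination Rw⁻¹ * b6
  have hX0 : ∀ z ∈ Far c, X z = 0 := by
    intro z hz
    obtain ⟨S, l, hK⟩ := hex z hz
    refine twisted_unique c hXR hYR (β := 0) (fun k z hz => ?_) (Far_subset_Om c hz) (S := S)
      (l := l) (by rw [neg_zero]; exact hK)
    rw [hexp0, hbd k z hz]; ring
  have hY0 : ∀ z ∈ Far c, Y z = 0 := by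
    intro z hz
    obtain ⟨S, l, hK⟩ := hex z hz
    refine twisted_unique c hYR hXR (β := 0) (fun k z hz => ?_) (Far_subset_Om c hz) (S := S)
      (l := l) (by rw [neg_zero]; exact hK)
    rw [hexp0, flip_pair (tau_conj c hz) (hbd k z hz)]; ring
  refine ⟨conj xx, y, (conj Rw)⁻¹ * (Rw * Sβ w), ?_, ?_, ?_, ?_⟩
  · rw [norm_mul, norm_mul, norm_inv, Complex.norm_conj, ← mul_assoc,
      inv_mul_cancel₀ (norm_ne_zero_iff.mpr hRwne), one_mul]
  · have h1 := hX0 a ha
    rw [hXz a hab] at h1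
    simp only [sub_self, zero_div, zero_mul, mul_zero] at h1
    linear_combination - h1
  · have h1 := hY0 a ha
    rw [hYz a hab haw] at h1
    simp only [sub_self, zero_div, zero_mul, mul_zero] at h1
    rw [Complex.conj_conj]
    linear_combination - h1
  · have h1 := hX0 w hw
    rw [hXz w hbw.symm] at h1
    have e1 : (w - a) / (w - b) * h w = Rw * Sβ w := by
      rw [hRw, hh]; ring
    rw [e1] at h1
    linear_combination - h1

end Pool.Agent.SV
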