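import Pool.Agent.Helper53.SV.Defs

/-!
# Algebra of regular functions (SV-REG)
-/

set_option autoImplicit false

open Complex Filter Topology Metric
open scoped ComplexConjugate

namespace Pool.Agent.SV

variable {N : ℕ}

theorem isOpen_Om (c : Config N) : IsOpen (Om c) := by
  have h : Om c = ⋂ k, {z : ℂ | c.r k < ‖z - c.p k‖} := by
    ext z; simp [Om]
  rw [h]
  refine isOpen_iInter_of_finite fun k => ?_
  exact isOpen_lt continuous_const (by fun_prop)

theorem isClosed_Omc (c : Config N) : IsClosed (Omc c) := by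
  have h : Omc c = ⋂ k, {z : ℂ | c.r k ≤ ‖z - c.p k‖} := by
    ext z; simp [Omc]
  rw [h]
  refine isClosed_iInter fun k => ?_
  exact isClosed_le continuous_const (by fun_prop)

theorem Om_subset_Omc (c : Config N) : Om c ⊆ Omc c := fun _ hz k => (hz k).le

theorem Far_subset_Om (c : Config N) : Far c ⊆ Om c := fun z hz k => by
  have h1 := hz k; have h2 := c.hr k; linarith

theorem eventually_Omc (c : Config N) : ∀ᶠ z in cocompact ℂ, z ∈ Omc c := by
  have h : ∀ᶠ z in cocompact ℂ, ∀ k, c.r k ≤ ‖z - c.p k‖ := by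
    rw [eventually_all]
    intro k
    have h1 : ∀ᶠ z in cocompact ℂ, c.r k + ‖c.p k‖ ≤ ‖z‖ :=
      (tendsto_norm_cocompact_atTop (E := ℂ)).eventually_ge_atTop _
    filter_upwards [h1] with z hz
    have h2 := norm_sub_norm_le z (c.p k)
    linarith
  exact h

theorem circle_subset_Omc (c : Config N) (i : Fin N) {z : ℂ} (hz : ‖z - c.p i‖ = c.r i) :
    z ∈ Omc c := by
  intro k
  by_cases hk : k = i
  · subst hk; exact hz.ge
  · have h1 := c.sep k i hk
    have h2 := c.hr i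
    have h3 := c.hr k
    have h4 : ‖c.p k - c.p i‖ ≤ ‖z - c.p i‖ + ‖z - c.p k‖ := by
      have h5 : c.p k - c.p i = (z - c.p i) - (z - c.p k) := by ring
      rw [h5]; exact norm_sub_le _ _
    linarith

theorem Reg.add {c : Config N} {f g : ℂ → ℂ} {A B : ℂ} (hf : Reg c f A) (hg : Reg c g B) :
    Reg c (fun z => f z + g z) (A + B) :=
  ⟨hf.diff.add hg.diff, hf.cont.add hg.cont, hf.lim.add hg.lim⟩

theorem Reg.sub {c : Config N} {f g : ℂ → ℂ} {A B : ℂ} (hf : Reg c f A) (hg : Reg c g B) :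
    Reg c (fun z => f z - g z) (A - B) :=
  ⟨hf.diff.sub hg.diff, hf.cont.sub hg.cont, hf.lim.sub hg.lim⟩

theorem Reg.mul {c : Config N} {f g : ℂ → ℂ} {A B : ℂ} (hf : Reg c f A) (hg : Reg c g B) :
    Reg c (fun z => f z * g z) (A * B) :=
  ⟨hf.diff.mul hg.diff, hf.cont.mul hg.cont, hf.lim.mul hg.lim⟩

theorem Reg.const_mul {c : Config N} {f : ℂ → ℂ} {A : ℂ} (a : ℂ) (hf : Reg c f A) :
    Reg c (fun z => a * f z) (a * A) :=
  ⟨hf.diff.const_mul a, continuousOn_const.mul hf.cont, hf.lim.const_mul a⟩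

theorem Reg.exp {c : Config N} {f : ℂ → ℂ} {A : ℂ} (hf : Reg c f A) :
    Reg c (fun z => exp (f z)) (exp A) :=
  ⟨hf.diff.cexp, hf.cont.cexp, (continuous_exp.tendsto A).comp hf.lim⟩

theorem Reg.bounded {c : Config N} {f : ℂ → ℂ} {A : ℂ} (hf : Reg c f A) :
    ∃ M : ℝ, 0 < M ∧ ∀ z ∈ Omc c, ‖f z‖ ≤ M := by
  have h1 : ∀ᶠ z in cocompact ℂ, ‖f z‖ < ‖A‖ + 1 :=
    hf.lim.norm.eventually_lt_const (by linarith)
  obtain ⟨K, hK, hKs⟩ := mem_cocompact.1 h1
  have hc : IsCompact (K ∩ Omc c) := hK.inter_right (isClosed_Omc c)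
  obtain ⟨C, hC⟩ := hc.exists_bound_of_continuousOn (hf.cont.mono Set.inter_subset_right)
  refine ⟨max C (‖A‖ + 1), lt_of_lt_of_le (by positivity) (le_max_right _ _), ?_⟩
  intro z hz
  by_cases hzK : z ∈ K
  · exact (hC z ⟨hzK, hz⟩).trans (le_max_left _ _)
  · have h2 : ‖f z‖ < ‖A‖ + 1 := hKs hzK
    exact h2.le.trans (le_max_right _ _)

/-- divided difference at a point of the open domain -/
theorem Reg.dslope {c : Config N} {f : ℂ → ℂ} {A : ℂ} (hf : Reg c f A) {w : ℂ} (hw : w ∈ Om c) :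
    Reg c (dslope f w) 0 := by
  have hn : Om c ∈ 𝓝 w := (isOpen_Om c).mem_nhds hw
  have hn' : Omc c ∈ 𝓝 w := mem_of_superset hn (Om_subset_Omc c)
  refine ⟨(differentiableOn_dslope hn).2 hf.diff,
    (continuousOn_dslope hn').2 ⟨hf.cont, hf.diff.differentiableAt hn⟩, ?_⟩
  have h1 : Tendsto (fun z : ℂ => z - w) (cocompact ℂ) (cocompact ℂ) := by
    have := (Homeomorph.subRight w).isClosedEmbedding.tendsto_cocompact
    exact this
  have h2 : Tendsto (fun z : ℂ => (z - w)⁻¹) (cocompact ℂ) (𝓝 0) :=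
    (tendsto_inv₀_cobounded (α := ℂ)).comp (by rwa [Metric.cobounded_eq_cocompact])
  have h3 : Tendsto (fun z : ℂ => (z - w)⁻¹ * (f z - f w)) (cocompact ℂ) (𝓝 (0 * (A - f w))) :=
    h2.mul (hf.lim.sub_const _)
  rw [zero_mul] at h3
  refine h3.congr' ?_
  have h4 : ∀ᶠ z in cocompact ℂ, z ≠ w := by
    have := (isCompact_singleton (x := w)).compl_mem_cocompact
    exact this
  filter_upwards [h4] with z hz
  rw [dslope_of_ne _ hz, slope_def_field, div_eq_inv_mul]

theorem Reg.congr {c : Config N} {f g : ℂ → ℂ} {A : ℂ} (hf : Reg c f A)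
    (h : ∀ z ∈ Omc c, g z = f z) : Reg c g A := by
  refine ⟨hf.diff.congr fun z hz => h z (Om_subset_Omc c hz), hf.cont.congr h, ?_⟩
  refine hf.lim.congr' ?_
  filter_upwards [eventually_Omc c] with z hz
  exact (h z hz).symm

/-- uniformly summable series of regular functions -/
theorem Reg.tsum {c : Config N} {ι : Type*} {f : ι → ℂ → ℂ} {A : ι → ℂ} {u : ι → ℝ}
    (hu : Summable u) (hf : ∀ i, Reg c (f i) (A i)) (hb : ∀ i, ∀ z ∈ Omc c, ‖f i z‖ ≤ u i) :
    Reg c (fun z => ∑' i, f i z) (∑' i, A i) := by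
  refine ⟨?_, ?_, ?_⟩
  · exact differentiableOn_tsum_of_summable_norm hu (fun i => (hf i).diff) (isOpen_Om c)
      fun i w hw => hb i w (Om_subset_Omc c hw)
  · exact continuousOn_tsum (fun i => (hf i).cont) hu fun i z hz => hb i z hz
  · refine tendsto_tsum_of_dominated_convergence hu (fun i => (hf i).lim) ?_
    filter_upwards [eventually_Omc c] with z hz i
    exact hb i z hz

end Pool.Agent.SV
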