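import Pool.Agent.Helper53.SV.WDefs

/-!
# W1: vectors and reflections
-/

set_option autoImplicit false

open Complex Filter Topology Metric
open scoped ComplexConjugate

namespace Pool.Agent.SV

variable {N : ℕ}

theorem w1_r_ne (c : Config N) (i : Fin N) : (c.r i : ℂ) ≠ 0 := by
  exact_mod_cast (c.hr i).ne'

theorem J_J (c : Config N) (i : Fin N) (v : ℂ × ℂ) : J c i (J c i v) = v := by
  have hr := w1_r_ne c i
  unfold J
  ext
  · simp only [map_div₀, map_sub, map_add, map_mul, map_pow, Complex.conj_conj,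
      Complex.conj_ofReal]
    field_simp
    ring
  · simp only [map_div₀, map_sub, map_add, map_mul, map_pow, Complex.conj_conj,
      Complex.conj_ofReal]
    field_simp
    ring

theorem J_smul (c : Config N) (i : Fin N) (a : ℂ) (v : ℂ × ℂ) :
    J c i (a • v) = conj a • J c i v := by
  unfold J
  ext
  · simp only [Prod.smul_fst, Prod.smul_snd, smul_eq_mul, map_mul]
    ring
  · simp only [Prod.smul_fst, Prod.smul_snd, smul_eq_mul, map_mul]
    ring

theorem J_ne_zero (c : Config N) (i : Fin N) {v : ℂ × ℂ} (hv : v ≠ 0) : J c i v ≠ 0 := by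
  intro h
  apply hv
  rw [← J_J c i v, h]
  have := J_smul c i 0 (0 : ℂ × ℂ)
  simpa using this

theorem det2_J (c : Config N) (i : Fin N) (u v : ℂ × ℂ) :
    det2 (J c i u) (J c i v) = - conj (det2 u v) := by
  have hr := w1_r_ne c i
  unfold det2 J
  simp only [map_sub, map_mul]
  field_simp
  ring

theorem J_circle (c : Config N) (i : Fin N) {z : ℂ} (hz : ‖z - c.p i‖ = c.r i) :
    J c i (vec z) = (conj (z - c.p i) / c.r i) • vec z := by
  have h1 : (z - c.p i) * conj (z - c.p i) = (c.r i : ℂ) ^ 2 := by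
    rw [Complex.mul_conj, Complex.normSq_eq_norm_sq, hz]
    push_cast
    ring
  unfold J vec
  ext
  · simp only [Prod.smul_fst, smul_eq_mul, map_one, mul_one]
    rw [← h1]
    simp only [map_sub]
    ring
  · simp only [Prod.smul_snd, smul_eq_mul, map_one, mul_one, map_sub]

theorem J_vinf (c : Config N) (i : Fin N) :
    J c i vinf = ((c.r i : ℂ)⁻¹) • vec (c.p i) := by
  unfold J vinf vec
  ext
  · simp only [Prod.smul_fst, smul_eq_mul, map_one, map_zero, mul_zero, sub_zero, mul_one,
      add_zero]
    ring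
  · simp only [Prod.smul_snd, smul_eq_mul, map_one, map_zero, mul_zero, sub_zero, mul_one]
    ring

theorem J_center (c : Config N) (i : Fin N) :
    J c i (vec (c.p i)) = ((c.r i : ℂ)) • vinf := by
  have hr := w1_r_ne c i
  unfold J vinf vec
  ext
  · simp only [Prod.smul_fst, smul_eq_mul, map_one, mul_one, sub_self, mul_zero, zero_add]
    field_simp
  · simp only [Prod.smul_snd, smul_eq_mul, map_one, mul_one, sub_self, mul_zero, zero_div]

theorem act_nil (c : Config N) (v : ℂ × ℂ) : act c [] v = v := rfl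

theorem act_cons (c : Config N) (i : Fin N) (l : List (Fin N)) (v : ℂ × ℂ) :
    act c (i :: l) v = J c i (act c l v) := rfl

theorem act_append (c : Config N) (l l' : List (Fin N)) (v : ℂ × ℂ) :
    act c (l ++ l') v = act c l (act c l' v) := by
  unfold act
  rw [List.foldr_append]

theorem act_reverse (c : Config N) (l : List (Fin N)) (v : ℂ × ℂ) :
    act c l.reverse (act c l v) = v := by
  induction l generalizing v with
  | nil => rfl
  | cons i l ih =>
    rw [List.reverse_cons, act_append, act_cons, act_cons, act_nil, J_J, ih]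

theorem w1_even_cons (i : Fin N) (l : List (Fin N)) :
    Even (i :: l).length ↔ Odd l.length := by
  rw [List.length_cons, Nat.even_add_one, Nat.not_even_iff_odd]

theorem w1_odd_cons (i : Fin N) (l : List (Fin N)) :
    Odd (i :: l).length ↔ Even l.length := by
  rw [List.length_cons, Nat.odd_add_one, Nat.not_odd_iff_even]

theorem w1_act_smul (c : Config N) (l : List (Fin N)) (a : ℂ) (v : ℂ × ℂ) :
    (Even l.length → act c l (a • v) = a • act c l v) ∧
    (Odd l.length → act c l (a • v) = conj a • act c l v) := by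
  induction l with
  | nil => exact ⟨fun _ => rfl, fun h => by simp at h⟩
  | cons i l ih =>
    rw [w1_even_cons, w1_odd_cons]
    refine ⟨fun h => ?_, fun h => ?_⟩
    · rw [act_cons, act_cons, ih.2 h, J_smul, Complex.conj_conj]
    · rw [act_cons, act_cons, ih.1 h, J_smul]

theorem act_smul_even (c : Config N) {l : List (Fin N)} (hl : Even l.length) (a : ℂ) (v : ℂ × ℂ) :
    act c l (a • v) = a • act c l v := (w1_act_smul c l a v).1 hl

theorem act_smul_odd (c : Config N) {l : List (Fin N)} (hl : Odd l.length) (a : ℂ) (v : ℂ × ℂ) :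
    act c l (a • v) = conj a • act c l v := (w1_act_smul c l a v).2 hl

theorem act_ne_zero (c : Config N) (l : List (Fin N)) {v : ℂ × ℂ} (hv : v ≠ 0) :
    act c l v ≠ 0 := by
  induction l with
  | nil => exact hv
  | cons i l ih =>
    rw [act_cons]
    exact J_ne_zero c i ih

theorem w1_linear (c : Config N) (l : List (Fin N)) :
    (Even l.length →
      ∃ α β γ δ : ℂ, ∀ v : ℂ × ℂ, act c l v = (α * v.1 + β * v.2, γ * v.1 + δ * v.2)) ∧
    (Odd l.length →
      ∃ α β γ δ : ℂ, ∀ v : ℂ × ℂ, act c l v =
        (α * conj v.1 + β * conj v.2, γ * conj v.1 + δ * conj v.2)) := by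
  induction l with
  | nil =>
    refine ⟨fun _ => ⟨1, 0, 0, 1, fun v => ?_⟩, fun h => by simp at h⟩
    rw [act_nil]
    ext <;> simp
  | cons i l ih =>
    rw [w1_even_cons, w1_odd_cons]
    have hr := w1_r_ne c i
    refine ⟨fun h => ?_, fun h => ?_⟩
    · obtain ⟨α, β, γ, δ, hv⟩ := ih.2 h
      refine ⟨(c.p i * (conj α - conj (c.p i) * conj γ) + (c.r i : ℂ) ^ 2 * conj γ) / c.r i,
        (c.p i * (conj β - conj (c.p i) * conj δ) + (c.r i : ℂ) ^ 2 * conj δ) / c.r i,
        (conj α - conj (c.p i) * conj γ) / c.r i, (conj β - conj (c.p i) * conj δ) / c.r i,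
        fun v => ?_⟩
      rw [act_cons, hv]
      unfold J
      ext
      · simp only [map_add, map_mul, Complex.conj_conj]
        field_simp
        ring
      · simp only [map_add, map_mul, Complex.conj_conj]
        field_simp
        ring
    · obtain ⟨α, β, γ, δ, hv⟩ := ih.1 h
      refine ⟨(c.p i * (conj α - conj (c.p i) * conj γ) + (c.r i : ℂ) ^ 2 * conj γ) / c.r i,
        (c.p i * (conj β - conj (c.p i) * conj δ) + (c.r i : ℂ) ^ 2 * conj δ) / c.r i,
        (conj α - conj (c.p i) * conj γ) / c.r i, (conj β - conj (c.p i) * conj δ) / c.r i,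
        fun v => ?_⟩
      rw [act_cons, hv]
      unfold J
      ext
      · simp only [map_add, map_mul]
        field_simp
        ring
      · simp only [map_add, map_mul]
        field_simp
        ring

/-- even words act linearly -/
theorem act_even_linear (c : Config N) {l : List (Fin N)} (hl : Even l.length) :
    ∃ α β γ δ : ℂ, ∀ v : ℂ × ℂ, act c l v = (α * v.1 + β * v.2, γ * v.1 + δ * v.2) :=
  (w1_linear c l).1 hl

theorem w1_det2 (c : Config N) (l : List (Fin N)) (u v : ℂ × ℂ) :
    (Even l.length → det2 (act c l u) (act c l v) = det2 u v) ∧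
    (Odd l.length → det2 (act c l u) (act c l v) = - conj (det2 u v)) := by
  induction l with
  | nil => exact ⟨fun _ => rfl, fun h => by simp at h⟩
  | cons i l ih =>
    rw [w1_even_cons, w1_odd_cons]
    refine ⟨fun h => ?_, fun h => ?_⟩
    · rw [act_cons, act_cons, det2_J, ih.2 h, map_neg, Complex.conj_conj, neg_neg]
    · rw [act_cons, act_cons, det2_J, ih.1 h]

theorem det2_act_even (c : Config N) {l : List (Fin N)} (hl : Even l.length) (u v : ℂ × ℂ) :
    det2 (act c l u) (act c l v) = det2 u v := (w1_det2 c l u v).1 hl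

theorem det2_act_odd (c : Config N) {l : List (Fin N)} (hl : Odd l.length) (u v : ℂ × ℂ) :
    det2 (act c l u) (act c l v) = - conj (det2 u v) := (w1_det2 c l u v).2 hl

theorem w1_det2_smul (a b : ℂ × ℂ) (s t : ℂ) : det2 (s • a) (t • b) = s * t * det2 a b := by
  unfold det2
  simp only [Prod.smul_fst, Prod.smul_snd, smul_eq_mul]
  ring

/-- scaling invariance in each slot -/
theorem cr_smul (a b x y : ℂ × ℂ) {s t u v : ℂ} (hs : s ≠ 0) (ht : t ≠ 0) (hu : u ≠ 0)
    (hv : v ≠ 0) : cr (s • a) (t • b) (u • x) (v • y) = cr a b x y := by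
  unfold cr
  rw [w1_det2_smul, w1_det2_smul, w1_det2_smul, w1_det2_smul]
  have h : s * t * u * v ≠ 0 := mul_ne_zero (mul_ne_zero (mul_ne_zero hs ht) hu) hv
  rw [show s * u * det2 a x * (t * v * det2 b y) = (s * t * u * v) * (det2 a x * det2 b y) by ring,
    show s * v * det2 a y * (t * u * det2 b x) = (s * t * u * v) * (det2 a y * det2 b x) by ring,
    mul_div_mul_left _ _ h]

theorem w1_det2_swap (u v : ℂ × ℂ) : det2 u v = - det2 v u := by
  unfold det2
  ring

theorem cr_symm (a b x y : ℂ × ℂ) : cr x y a b = cr a b x y := by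
  unfold cr
  rw [w1_det2_swap x a, w1_det2_swap y b, w1_det2_swap x b, w1_det2_swap y a]
  rw [neg_mul_neg, neg_mul_neg, mul_comm (det2 b x)]

theorem cr_act_even (c : Config N) {l : List (Fin N)} (hl : Even l.length) (a b x y : ℂ × ℂ) :
    cr (act c l a) (act c l b) (act c l x) (act c l y) = cr a b x y := by
  unfold cr
  simp only [det2_act_even c hl]

theorem cr_act_odd (c : Config N) {l : List (Fin N)} (hl : Odd l.length) (a b x y : ℂ × ℂ) :
    cr (act c l a) (act c l b) (act c l x) (act c l y) = conj (cr a b x y) := by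
  unfold cr
  simp only [det2_act_odd c hl, neg_mul_neg, map_div₀, map_mul]

theorem cr_mul_left (a b d x y : ℂ × ℂ) (h1 : det2 b x ≠ 0) (h2 : det2 b y ≠ 0) :
    cr a b x y * cr b d x y = cr a d x y := by
  unfold cr
  rw [div_mul_div_comm, show det2 a x * det2 b y * (det2 b x * det2 d y) =
    (det2 b x * det2 b y) * (det2 a x * det2 d y) by ring,
    show det2 a y * det2 b x * (det2 b y * det2 d x) =
    (det2 b x * det2 b y) * (det2 a y * det2 d x) by ring,
    mul_div_mul_left _ _ (mul_ne_zero h1 h2)]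

theorem cr_mul_right (a b x y t : ℂ × ℂ) (h1 : det2 a y ≠ 0) (h2 : det2 b y ≠ 0) :
    cr a b x y * cr a b y t = cr a b x t := by
  unfold cr
  rw [div_mul_div_comm, show det2 a x * det2 b y * (det2 a y * det2 b t) =
    (det2 a y * det2 b y) * (det2 a x * det2 b t) by ring,
    show det2 a y * det2 b x * (det2 a t * det2 b y) =
    (det2 a y * det2 b y) * (det2 a t * det2 b x) by ring,
    mul_div_mul_left _ _ (mul_ne_zero h1 h2)]

theorem cr_inv_left (a b x y : ℂ × ℂ) : cr b a x y = (cr a b x y)⁻¹ := by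
  unfold cr
  rw [inv_div, mul_comm (det2 b x), mul_comm (det2 b y)]

theorem cr_inv_right (a b x y : ℂ × ℂ) : cr a b y x = (cr a b x y)⁻¹ := by
  unfold cr
  rw [inv_div]

/-- finite points against infinity -/
theorem cr_vec_vinf (z : ℂ) {x y : ℂ × ℂ} (hx : x.2 ≠ 0) (hy : y.2 ≠ 0) :
    cr (vec z) vinf x y = (z - pt x) / (z - pt y) := by
  unfold cr det2 vec vinf pt
  simp only [one_mul, zero_mul, sub_zero]
  rw [show z - x.1 / x.2 = (z * x.2 - x.1) / x.2 by field_simp,
    show z - y.1 / y.2 = (z * y.2 - y.1) / y.2 by field_simp, div_div_div_eq]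
  ring

end Pool.Agent.SV
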