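import Pool.Agent.Helper53.SV.W1

/-!
# W2: words
-/

set_option autoImplicit false

open Complex Filter Topology Metric
open scoped ComplexConjugate

namespace Pool.Agent.SV

variable {N : ℕ}

theorem lmul_cons (i j : Fin N) (l : List (Fin N)) :
    lmul i (j :: l) = if i = j then l else i :: j :: l := rfl

theorem lmul_chain (i : Fin N) {l : List (Fin N)} (hl : l.IsChain (· ≠ ·)) :
    (lmul i l).IsChain (· ≠ ·) := by
  cases l with
  | nil => simp [lmul]
  | cons j l =>
    rw [lmul_cons]
    split_ifs with h
    · exact hl.tail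
    · rw [List.isChain_cons_cons]
      exact ⟨h, hl⟩

theorem lmul_lmul (i : Fin N) {l : List (Fin N)} (hl : l.IsChain (· ≠ ·)) :
    lmul i (lmul i l) = l := by
  cases l with
  | nil => simp [lmul]
  | cons j l =>
    unfold lmul
    by_cases h : i = j
    · subst h
      simp only [if_true]
      cases l with
      | nil => rfl
      | cons k l =>
        rw [List.isChain_cons_cons] at hl
        simp only [hl.1, if_false]
    · simp only [h, if_false, if_true]

theorem act_lmul (c : Config N) (i : Fin N) (l : List (Fin N)) (v : ℂ × ℂ) :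
    act c (lmul i l) v = J c i (act c l v) := by
  cases l with
  | nil => rfl
  | cons j l =>
    rw [lmul_cons]
    split_ifs with h
    · subst h
      rw [act_cons, J_J]
    · rfl

theorem even_lmul (i : Fin N) (l : List (Fin N)) :
    Even (lmul i l).length ↔ ¬ Even l.length := by
  cases l with
  | nil => simp [lmul]
  | cons j l =>
    rw [lmul_cons]
    split_ifs with h
    · rw [List.length_cons, Nat.even_add_one, not_not]
    · rw [List.length_cons, Nat.even_add_one]

theorem w2_reverse_chain {l : List (Fin N)} (hl : l.IsChain (· ≠ ·)) :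
    l.reverse.IsChain (· ≠ ·) := by
  rw [List.isChain_reverse]
  exact hl.imp fun a b h => h.symm

/-- left multiplication by a letter, as a permutation of the reduced words -/
theorem exists_lm (i : Fin N) : ∃ e : Wd N ≃ Wd N, ∀ l, (e l).1 = lmul i l.1 :=
  ⟨⟨fun l => ⟨lmul i l.1, lmul_chain i l.2⟩, fun l => ⟨lmul i l.1, lmul_chain i l.2⟩,
    fun l => Subtype.ext (lmul_lmul i l.2), fun l => Subtype.ext (lmul_lmul i l.2)⟩,
    fun _ => rfl⟩

/-- inversion -/
theorem exists_inv : ∃ e : Wd N ≃ Wd N, ∀ l, (e l).1 = l.1.reverse :=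
  ⟨⟨fun l => ⟨l.1.reverse, w2_reverse_chain l.2⟩, fun l => ⟨l.1.reverse, w2_reverse_chain l.2⟩,
    fun l => Subtype.ext (List.reverse_reverse l.1),
    fun l => Subtype.ext (List.reverse_reverse l.1)⟩, fun _ => rfl⟩

/-- the action of the reverse word is inverse to the action -/
theorem act_act_reverse (c : Config N) (l : List (Fin N)) (v : ℂ × ℂ) :
    act c l (act c l.reverse v) = v := by
  have := act_reverse c l.reverse v
  rwa [List.reverse_reverse] at this

theorem w2_act_inj (c : Config N) (l : List (Fin N)) {u v : ℂ × ℂ}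
    (h : act c l u = act c l v) : u = v := by
  rw [← act_reverse c l u, h, act_reverse]

/-- right multiplication by a letter -/
theorem exists_rm (i : Fin N) :
    ∃ e : Wd N ≃ Wd N, (∀ l, (e l).1 = (lmul i l.1.reverse).reverse) ∧
      (∀ (c : Config N) (l : Wd N) (v : ℂ × ℂ), act c (e l).1 v = act c l.1 (J c i v)) ∧
      (∀ l, Even (e l).1.length ↔ ¬ Even l.1.length) := by
  obtain ⟨e1, h1⟩ := exists_lm i
  obtain ⟨e2, h2⟩ := exists_inv (N := N)
  have h3 : ∀ l, ((e2.trans (e1.trans e2)) l).1 = (lmul i l.1.reverse).reverse := by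
    intro l
    simp only [Equiv.trans_apply]
    rw [h2, h1, h2]
  refine ⟨e2.trans (e1.trans e2), h3, ?_, ?_⟩
  · intro c l v
    rw [h3]
    apply w2_act_inj c (lmul i l.1.reverse)
    rw [act_act_reverse, act_lmul, act_reverse, J_J]
  · intro l
    rw [h3, List.length_reverse, even_lmul, List.length_reverse]

end Pool.Agent.SV
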