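import Pool.Agent.Helper53.SV.W1

/-!
# SV-W3: positions and distance estimates for words
-/

set_option autoImplicit false

open Complex Filter Topology Metric
open scoped ComplexConjugate

namespace Pool.Agent.SV

variable {N : ℕ}

theorem outV_of_inV' (c : Config N) {i j : Fin N} (hij : i ≠ j) {v : ℂ × ℂ} (h : InV' c j v) :
    OutV c i v := by
  obtain ⟨h1, h2⟩ := h
  refine ⟨fun h0 => h1 (by rw [h0]; rfl), ?_⟩
  have h3 := c.sep i j hij
  have h4 : ‖c.p i - c.p j‖ * ‖v.2‖ ≤ ‖v.1 - c.p i * v.2‖ + ‖v.1 - c.p j * v.2‖ := by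
    rw [← norm_mul]
    have e : (c.p i - c.p j) * v.2 = (v.1 - c.p j * v.2) - (v.1 - c.p i * v.2) := by ring
    rw [e]
    have := norm_sub_le (v.1 - c.p j * v.2) (v.1 - c.p i * v.2)
    linarith
  have h5 := mul_le_mul_of_nonneg_right h3 (norm_nonneg v.2)
  have h6 := c.hr i
  have h7 := c.hr j
  have h8 := norm_nonneg v.2
  have h9 : 0 ≤ c.r i * ‖v.2‖ := by positivity
  have h10 : 0 ≤ c.r j * ‖v.2‖ := by positivity
  nlinarith

theorem inV'_of_inV (c : Config N) {i : Fin N} {v : ℂ × ℂ} (h : InV c i v) : InV' c i v := by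
  refine ⟨h.1, ?_⟩
  have h1 := h.2
  have h2 := norm_nonneg (v.1 - c.p i * v.2)
  linarith

private theorem J_snd (c : Config N) (i : Fin N) (v : ℂ × ℂ) :
    (J c i v).2 = conj (v.1 - c.p i * v.2) / c.r i := by
  unfold J
  simp only [map_sub, map_mul]

private theorem J_diff (c : Config N) (i : Fin N) (v : ℂ × ℂ) :
    (J c i v).1 - c.p i * (J c i v).2 = c.r i * conj v.2 := by
  have h := w1_r_ne c i
  unfold J
  field_simp
  ring

private theorem norm_J_snd (c : Config N) (i : Fin N) (v : ℂ × ℂ) :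
    ‖(J c i v).2‖ = ‖v.1 - c.p i * v.2‖ / c.r i := by
  rw [J_snd, norm_div, RCLike.norm_conj, Complex.norm_real, Real.norm_of_nonneg (c.hr i).le]

private theorem norm_J_diff (c : Config N) (i : Fin N) (v : ℂ × ℂ) :
    ‖(J c i v).1 - c.p i * (J c i v).2‖ = c.r i * ‖v.2‖ := by
  rw [J_diff, norm_mul, RCLike.norm_conj, Complex.norm_real, Real.norm_of_nonneg (c.hr i).le]

theorem inV_J (c : Config N) {i : Fin N} {v : ℂ × ℂ} (h : OutV c i v) : InV c i (J c i v) := by
  obtain ⟨h1, h2⟩ := h
  have hr := c.hr i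
  have hpos : 0 < ‖v.1 - c.p i * v.2‖ := by
    rcases (norm_nonneg (v.1 - c.p i * v.2)).lt_or_eq with h3 | h3
    · exact h3
    · exfalso
      rw [← h3] at h2
      have h4 := norm_nonneg v.2
      have h5 : ‖v.2‖ = 0 := by nlinarith
      have h6 : v.2 = 0 := norm_eq_zero.1 h5
      have h7 : v.1 - c.p i * v.2 = 0 := norm_eq_zero.1 h3.symm
      rw [h6, mul_zero, sub_zero] at h7
      exact h1 (Prod.ext h7 h6)
  refine ⟨?_, ?_⟩
  · rw [← norm_pos_iff, norm_J_snd]
    positivity
  · rw [norm_J_diff, norm_J_snd, mul_div_cancel₀ _ hr.ne']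
    linarith

theorem inV'_J (c : Config N) {i : Fin N} {z : ℂ} (h : c.r i ≤ ‖z - c.p i‖) :
    InV' c i (J c i (vec z)) := by
  have hr := c.hr i
  have e : ‖(vec z).1 - c.p i * (vec z).2‖ = ‖z - c.p i‖ := by
    unfold vec
    rw [mul_one]
  refine ⟨?_, ?_⟩
  · rw [← norm_pos_iff, norm_J_snd, e]
    have : 0 < ‖z - c.p i‖ := lt_of_lt_of_le hr h
    positivity
  · rw [norm_J_diff, norm_J_snd, mul_div_cancel₀ _ hr.ne', e]
    have : ‖(vec z).2‖ = 1 := by
      unfold vec
      exact norm_one
    rw [this, mul_one]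
    exact h

theorem outV_vinf (c : Config N) (i : Fin N) : OutV c i vinf := by
  unfold OutV vinf
  refine ⟨fun h => one_ne_zero (congrArg Prod.fst h), ?_⟩
  simp

private theorem vec_ne_zero (z : ℂ) : vec z ≠ 0 := fun h => one_ne_zero (congrArg Prod.snd h)

theorem outV_center (c : Config N) {i j : Fin N} (hij : i ≠ j) : OutV c i (vec (c.p j)) := by
  refine ⟨vec_ne_zero _, ?_⟩
  have h1 := c.sep j i hij.symm
  have h2 := c.hr i
  have h3 := c.hr j
  unfold vec
  simp only [norm_one, mul_one]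
  linarith

theorem outV_far (c : Config N) {w : ℂ} (hw : w ∈ Far c) (i : Fin N) : OutV c i (vec w) := by
  refine ⟨vec_ne_zero _, ?_⟩
  have h1 := hw i
  have h2 := c.hr i
  unfold vec
  simp only [norm_one, mul_one]
  linarith

/-- `v` is admissible for all nonempty words -/
def Adm1 (c : Config N) (v : ℂ × ℂ) : Prop := ∀ i, OutV c i v

/-- `v` is admissible for all words of length at least two -/
def Adm2 (c : Config N) (v : ℂ × ℂ) : Prop :=
  v ≠ 0 ∧ ∀ i k, i ≠ k → OutV c i (J c k v)

theorem Adm1.adm2 {c : Config N} {v : ℂ × ℂ} (h : Adm1 c v) (hv : v ≠ 0) : Adm2 c v :=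
  ⟨hv, fun _ k hik => outV_of_inV' c hik (inV'_of_inV c (inV_J c (h k)))⟩

theorem adm2_center (c : Config N) (j : Fin N) : Adm2 c (vec (c.p j)) := by
  refine ⟨vec_ne_zero _, fun i k hik => ?_⟩
  by_cases hk : k = j
  · subst hk
    rw [J_center]
    have hr : (c.r k : ℂ) ≠ 0 := w1_r_ne c k
    refine ⟨fun h => hr ?_, ?_⟩
    · have := congrArg Prod.fst h
      simpa [vinf] using this
    · simp [vinf]
  · exact outV_of_inV' c hik (inV'_of_inV c (inV_J c (outV_center c hk)))

theorem adm2_vec (c : Config N) {z : ℂ} (hz : z ∈ Omc c) : Adm2 c (vec z) :=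
  ⟨vec_ne_zero _, fun _ k hik => outV_of_inV' c hik (inV'_J c (hz k))⟩

/-- position for nonempty words -/
theorem pos1 (c : Config N) {v : ℂ × ℂ} (hv : Adm1 c v) (i : Fin N) (l : List (Fin N))
    (hl : (i :: l).IsChain (· ≠ ·)) : InV c i (act c (i :: l) v) := by
  induction l generalizing i with
  | nil =>
    rw [act_cons, act_nil]
    exact inV_J c (hv i)
  | cons j l ih =>
    rw [act_cons]
    rw [List.isChain_cons_cons] at hl
    exact inV_J c (outV_of_inV' c hl.1 (inV'_of_inV c (ih j hl.2)))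

/-- position for words of length at least two -/
theorem pos2 (c : Config N) {v : ℂ × ℂ} (hv : Adm2 c v) (i k : Fin N) (l : List (Fin N))
    (hl : (i :: k :: l).IsChain (· ≠ ·)) : InV c i (act c (i :: k :: l) v) := by
  induction l generalizing i k with
  | nil =>
    rw [act_cons, act_cons, act_nil]
    rw [List.isChain_cons_cons] at hl
    exact inV_J c (hv.2 i k hl.1)
  | cons j l ih =>
    rw [act_cons]
    rw [List.isChain_cons_cons] at hl
    exact inV_J c (outV_of_inV' c hl.1 (inV'_of_inV c (ih k j hl.2)))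

private theorem pt_J (c : Config N) (i : Fin N) (u : ℂ × ℂ) (hu : u.2 ≠ 0)
    (hu' : pt u - c.p i ≠ 0) :
    pt (J c i u) = c.p i + (c.r i : ℂ) ^ 2 / conj (pt u - c.p i) := by
  have hr := w1_r_ne c i
  have h1 : u.1 - c.p i * u.2 = (pt u - c.p i) * u.2 := by
    unfold pt
    field_simp
  have h2 : conj (pt u - c.p i) ≠ 0 := (map_ne_zero _).2 hu'
  have h3 : conj u.2 ≠ 0 := (map_ne_zero _).2 hu
  have h4 : (J c i u).2 = conj (pt u - c.p i) * conj u.2 / c.r i := by
    rw [J_snd, h1, map_mul]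
  have h5 : (J c i u).1 = c.p i * (J c i u).2 + c.r i * conj u.2 := by
    rw [← J_diff c i u]
    ring
  have h6 : (J c i u).2 ≠ 0 := by
    rw [h4]
    exact div_ne_zero (mul_ne_zero h2 h3) hr
  unfold pt at h2 h4 ⊢
  rw [h5, add_div, mul_div_cancel_right₀ _ h6, h4]
  field_simp

private theorem pt_dist (c : Config N) {j : Fin N} {u : ℂ × ℂ} (hu : InV' c j u) :
    ‖pt u - c.p j‖ ≤ c.r j := by
  have h1 : 0 < ‖u.2‖ := norm_pos_iff.2 hu.1
  have h2 : pt u - c.p j = (u.1 - c.p j * u.2) / u.2 := by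
    unfold pt
    rw [sub_div, mul_div_cancel_right₀ _ hu.1]
  rw [h2, norm_div, div_le_iff₀ h1]
  exact hu.2

/-- one step of the distance estimate -/
theorem dist_step (c : Config N) {i j : Fin N} (hij : i ≠ j) {u v : ℂ × ℂ} (hu : InV' c j u)
    (hv : InV' c j v) : ‖pt (J c i u) - pt (J c i v)‖
      ≤ 4 * c.r i ^ 2 / ‖c.p i - c.p j‖ ^ 2 * ‖pt u - pt v‖ := by
  have hsep := c.sep i j hij
  have hri := c.hr i
  have hrj := c.hr j
  set d := ‖c.p i - c.p j‖ with hd
  have hd0 : 0 < d := by linarith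
  have key : ∀ w : ℂ × ℂ, InV' c j w → d / 2 ≤ ‖pt w - c.p i‖ := by
    intro w hw
    have h1 := pt_dist c hw
    have h2 : d ≤ ‖pt w - c.p i‖ + ‖pt w - c.p j‖ := by
      have e : c.p i - c.p j = (pt w - c.p j) - (pt w - c.p i) := by ring
      rw [hd, e]
      have := norm_sub_le (pt w - c.p j) (pt w - c.p i)
      linarith
    linarith
  have hu1 := key u hu
  have hv1 := key v hv
  have hu2 : 0 < ‖pt u - c.p i‖ := by linarith
  have hv2 : 0 < ‖pt v - c.p i‖ := by linarith
  have hu3 : pt u - c.p i ≠ 0 := norm_pos_iff.1 hu2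
  have hv3 : pt v - c.p i ≠ 0 := norm_pos_iff.1 hv2
  rw [pt_J c i u hu.1 hu3, pt_J c i v hv.1 hv3]
  have hu4 : conj (pt u - c.p i) ≠ 0 := (map_ne_zero _).2 hu3
  have hv4 : conj (pt v - c.p i) ≠ 0 := (map_ne_zero _).2 hv3
  have e1 : c.p i + (c.r i : ℂ) ^ 2 / conj (pt u - c.p i) -
      (c.p i + (c.r i : ℂ) ^ 2 / conj (pt v - c.p i)) =
      (c.r i : ℂ) ^ 2 * conj (pt v - pt u) / (conj (pt u - c.p i) * conj (pt v - c.p i)) := by
    have e2 : conj (pt v - pt u) = conj (pt v - c.p i) - conj (pt u - c.p i) := by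
      rw [← map_sub]
      congr 1
      ring
    rw [e2]
    field_simp
    ring
  rw [e1, norm_div, norm_mul, norm_mul, norm_pow, RCLike.norm_conj, RCLike.norm_conj,
    RCLike.norm_conj, Complex.norm_real, Real.norm_of_nonneg hri.le, norm_sub_rev (pt v) (pt u)]
  have h5 : d ^ 2 / 4 ≤ ‖pt u - c.p i‖ * ‖pt v - c.p i‖ := by nlinarith
  have h6 : 0 < ‖pt u - c.p i‖ * ‖pt v - c.p i‖ := by positivity
  rw [div_mul_eq_mul_div, div_le_div_iff₀ h6 (by positivity)]
  have h7 : 0 ≤ c.r i ^ 2 * ‖pt u - pt v‖ := by positivity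
  nlinarith [mul_le_mul_of_nonneg_left h5 h7]

theorem wtW_nonneg (c : Config N) (l : List (Fin N)) : 0 ≤ wtW c l := by
  induction l with
  | nil => exact zero_le_one
  | cons i l ih =>
    cases l with
    | nil => exact zero_le_one
    | cons j l =>
      change 0 ≤ (if i = j then 0 else 4 * c.r i * c.r j / ‖c.p i - c.p j‖ ^ 2) * wtW c (j :: l)
      refine mul_nonneg ?_ ih
      split_ifs
      · exact le_rfl
      · have h1 := c.hr i
        have h2 := c.hr j
        positivity

private theorem wtW_factor_le (c : Config N) (i j : Fin N) :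
    (if i = j then 0 else 4 * c.r i * c.r j / ‖c.p i - c.p j‖ ^ 2) ≤ 1 := by
  split_ifs with h
  · exact zero_le_one
  · have h1 := c.sep i j h
    have h2 := c.hr i
    have h3 := c.hr j
    have h4 : 0 < ‖c.p i - c.p j‖ := by linarith
    rw [div_le_one (by positivity)]
    nlinarith [mul_pos h2 h3, sq_nonneg (c.r i - c.r j)]

private theorem wtW_factor_nonneg (c : Config N) (i j : Fin N) :
    0 ≤ (if i = j then 0 else 4 * c.r i * c.r j / ‖c.p i - c.p j‖ ^ 2) := by
  split_ifs
  · exact le_rfl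
  · have h1 := c.hr i
    have h2 := c.hr j
    positivity

theorem wtW_le_dropLast (c : Config N) (l : List (Fin N)) : wtW c l ≤ wtW c l.dropLast := by
  induction l with
  | nil => exact le_rfl
  | cons i l ih =>
    cases l with
    | nil => exact le_rfl
    | cons j l =>
      cases l with
      | nil =>
        change (if i = j then 0 else 4 * c.r i * c.r j / ‖c.p i - c.p j‖ ^ 2) * 1 ≤ 1
        rw [mul_one]
        exact wtW_factor_le c i j
      | cons k l =>
        change (if i = j then 0 else 4 * c.r i * c.r j / ‖c.p i - c.p j‖ ^ 2) * wtW c (j :: k :: l) ≤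
          (if i = j then 0 else 4 * c.r i * c.r j / ‖c.p i - c.p j‖ ^ 2) *
            wtW c (j :: (k :: l).dropLast)
        exact mul_le_mul_of_nonneg_left ih (wtW_factor_nonneg c i j)

/-- position from the last letter -/
private theorem pos_last (c : Config N) {u : ℂ × ℂ} (i : Fin N) (l : List (Fin N)) (k : Fin N)
    (hk : (i :: l).getLast? = some k) (hl : (i :: l).IsChain (· ≠ ·))
    (hu : InV' c k (J c k u)) : InV' c i (act c (i :: l) u) := by
  induction l generalizing i with
  | nil =>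
    rw [List.getLast?_singleton, Option.some_inj] at hk
    subst hk
    rw [act_cons, act_nil]
    exact hu
  | cons j l ih =>
    rw [act_cons]
    rw [List.isChain_cons_cons] at hl
    rw [List.getLast?_cons_cons] at hk
    exact inV'_of_inV c (inV_J c (outV_of_inV' c hl.1 (ih j hk hl.2)))

/-- the distance estimate for words: `u, v` are in the disc of the last letter after one step -/
theorem dist_word (c : Config N) {u v : ℂ × ℂ} (i : Fin N) (l : List (Fin N)) (k : Fin N)
    (hk : (i :: l).getLast? = some k) (hl : (i :: l).IsChain (· ≠ ·))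
    (hu : InV' c k (J c k u)) (hv : InV' c k (J c k v)) :
    ‖pt (act c (i :: l) u) - pt (act c (i :: l) v)‖ ≤ 2 * c.r i * wtW c (i :: l) := by
  induction l generalizing i with
  | nil =>
    have h1 := pt_dist c (pos_last c i [] k hk hl hu)
    have h2 := pt_dist c (pos_last c i [] k hk hl hv)
    have h3 : wtW c [i] = 1 := rfl
    rw [h3, mul_one]
    have e : pt (act c [i] u) - pt (act c [i] v) = (pt (act c [i] u) - c.p i) -
      (pt (act c [i] v) - c.p i) := by ring
    rw [e]
    have := norm_sub_le (pt (act c [i] u) - c.p i) (pt (act c [i] v) - c.p i)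
    linarith
  | cons j l ih =>
    have hl' := hl
    have hk' := hk
    rw [List.isChain_cons_cons] at hl'
    rw [List.getLast?_cons_cons] at hk'
    have h1 := ih j hk' hl'.2
    have h2 := dist_step c hl'.1 (pos_last c j l k hk' hl'.2 hu) (pos_last c j l k hk' hl'.2 hv)
    rw [act_cons c i, act_cons c i]
    refine h2.trans ?_
    have h3 : wtW c (i :: j :: l) = 4 * c.r i * c.r j / ‖c.p i - c.p j‖ ^ 2 * wtW c (j :: l) := by
      change (if i = j then 0 else 4 * c.r i * c.r j / ‖c.p i - c.p j‖ ^ 2) * wtW c (j :: l) = _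
      rw [if_neg hl'.1]
    rw [h3]
    have hri := c.hr i
    have h4 : 0 ≤ 4 * c.r i ^ 2 / ‖c.p i - c.p j‖ ^ 2 := by positivity
    refine (mul_le_mul_of_nonneg_left h1 h4).trans (le_of_eq ?_)
    ring

/-- distance for `w` far and infinity, all nonempty words -/
theorem dist_far (c : Config N) {w : ℂ} (hw : w ∈ Far c) (i : Fin N) (l : List (Fin N))
    (hl : (i :: l).IsChain (· ≠ ·)) :
    ‖pt (act c (i :: l) (vec w)) - pt (act c (i :: l) vinf)‖
      ≤ 2 * c.r i * wtW c (i :: l).dropLast := by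
  obtain ⟨k, hk⟩ : ∃ k, (i :: l).getLast? = some k := ⟨_, List.getLast?_cons⟩
  refine (dist_word c i l k hk hl (inV'_of_inV c (inV_J c (outV_far c hw k)))
    (inV'_of_inV c (inV_J c (outV_vinf c k)))).trans ?_
  have := c.hr i
  exact mul_le_mul_of_nonneg_left (wtW_le_dropLast c _) (by positivity)

private theorem pt_smul (a : ℂ) (ha : a ≠ 0) (v : ℂ × ℂ) : pt (a • v) = pt v := by
  unfold pt
  change a * v.1 / (a * v.2) = v.1 / v.2
  rw [mul_div_mul_left _ _ ha]

private theorem pt_act_smul (c : Config N) (l : List (Fin N)) (a : ℂ) (ha : a ≠ 0) (v : ℂ × ℂ) :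
    pt (act c l (a • v)) = pt (act c l v) := by
  rcases Nat.even_or_odd l.length with h | h
  · rw [act_smul_even c h, pt_smul a ha]
  · rw [act_smul_odd c h, pt_smul _ ((map_ne_zero _).2 ha)]

/-- distance for centres and infinity, words of length at least two -/
theorem dist_center (c : Config N) (j i k : Fin N) (l : List (Fin N))
    (hl : (i :: k :: l).IsChain (· ≠ ·)) :
    ‖pt (act c (i :: k :: l) (vec (c.p j))) - pt (act c (i :: k :: l) vinf)‖
      ≤ 2 * c.r i * wtW c (i :: k :: l).dropLast := by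
  have hri := c.hr i
  obtain ⟨m, hm⟩ : ∃ m, (i :: k :: l).getLast? = some m := ⟨_, List.getLast?_cons⟩
  by_cases hmj : m = j
  · subst hmj
    have hsplit : (i :: k :: l) = (i :: k :: l).dropLast ++ [m] := by
      have h1 := List.dropLast_append_getLast? m hm
      exact h1.symm
    have hdl : (i :: k :: l).dropLast = i :: (k :: l).dropLast := rfl
    have hchain : (i :: (k :: l).dropLast).IsChain (· ≠ ·) := by
      rw [hsplit, hdl] at hl
      exact hl.left_of_append
    obtain ⟨m', hm'⟩ : ∃ m', (i :: (k :: l).dropLast).getLast? = some m' :=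
      ⟨_, List.getLast?_cons⟩
    have hmm : m' ≠ m := by
      rw [hsplit, hdl] at hl
      have := List.isChain_append.1 hl
      exact this.2.2 m' hm' m rfl
    rw [hsplit, act_append, act_append, act_cons, act_nil, act_cons, act_nil, J_center, J_vinf,
      pt_act_smul c _ _ (w1_r_ne c m), pt_act_smul c _ _ (inv_ne_zero (w1_r_ne c m)), ← hsplit, hdl]
    exact dist_word c i _ m' hm' hchain (inV'_of_inV c (inV_J c (outV_vinf c m')))
      (inV'_of_inV c (inV_J c (outV_center c hmm)))
  · refine (dist_word c i (k :: l) m hm hl (inV'_of_inV c (inV_J c (outV_center c hmj)))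
      (inV'_of_inV c (inV_J c (outV_vinf c m)))).trans ?_
    exact mul_le_mul_of_nonneg_left (wtW_le_dropLast c _) (by positivity)

/-- distance for points of the closed domain and infinity, words of length at least two -/
theorem dist_omc (c : Config N) {z : ℂ} (hz : z ∈ Omc c) (i k : Fin N) (l : List (Fin N))
    (hl : (i :: k :: l).IsChain (· ≠ ·)) :
    ‖pt (act c (i :: k :: l) vinf) - pt (act c (i :: k :: l) (vec z))‖
      ≤ 2 * c.r i * wtW c (i :: k :: l).dropLast := by
  obtain ⟨m, hm⟩ : ∃ m, (i :: k :: l).getLast? = some m := ⟨_, List.getLast?_cons⟩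
  have hri := c.hr i
  refine (dist_word c i (k :: l) m hm hl (inV'_of_inV c (inV_J c (outV_vinf c m)))
    (inV'_J c (hz m))).trans ?_
  exact mul_le_mul_of_nonneg_left (wtW_le_dropLast c _) (by positivity)

end Pool.Agent.SV
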