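import Pool.Agent.Helper53.SV.WDefs

/-!
# Summability of the weights of words
-/

set_option autoImplicit false

open Complex Filter Topology Metric
open scoped ComplexConjugate

namespace Pool.Agent.SV

variable {N : ℕ}

/-- the lists of length at most `M` -/
private def w4L (N : ℕ) : ℕ → Finset (List (Fin N))
  | 0 => {[]}
  | M + 1 => insert [] ((Finset.univ ×ˢ w4L N M).image (fun x : Fin N × List (Fin N) => x.1 :: x.2))

private theorem w4_mem (M : ℕ) : ∀ l : List (Fin N), l.length ≤ M → l ∈ w4L N M := by
  induction M with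
  | zero =>
    intro l hl
    have : l = [] := List.length_eq_zero_iff.mp (by omega)
    subst this
    simp [w4L]
  | succ M ih =>
    intro l hl
    cases l with
    | nil => simp [w4L]
    | cons i l =>
      have h1 : l ∈ w4L N M := ih l (by simpa using hl)
      unfold w4L
      rw [Finset.mem_insert]
      right
      rw [Finset.mem_image]
      exact ⟨(i, l), Finset.mem_product.mpr ⟨Finset.mem_univ _, h1⟩, rfl⟩

private theorem w4_sum (M : ℕ) (g : List (Fin N) → ℝ) : ∑ l ∈ w4L N (M + 1), g l =
    g [] + ∑ i, ∑ l ∈ w4L N M, g (i :: l) := by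
  have hn : ([] : List (Fin N)) ∉ (Finset.univ ×ˢ w4L N M).image
      (fun x : Fin N × List (Fin N) => x.1 :: x.2) := by
    rw [Finset.mem_image]
    rintro ⟨x, -, hx⟩
    exact absurd hx (by simp)
  change ∑ l ∈ insert [] ((Finset.univ ×ˢ w4L N M).image
      (fun x : Fin N × List (Fin N) => x.1 :: x.2)), g l = _
  rw [Finset.sum_insert hn, Finset.sum_image, Finset.sum_product]
  rintro ⟨i, l⟩ - ⟨j, l'⟩ - h
  simpa using h

private theorem w4_wt_nonneg (c : Config N) (l : List (Fin N)) : 0 ≤ wtW c l := by
  induction l with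
  | nil => simp [wtW]
  | cons i l ih =>
    cases l with
    | nil => simp [wtW]
    | cons j l =>
      have h1 := c.hr i
      have h2 := c.hr j
      simp only [wtW]
      apply mul_nonneg _ ih
      split_ifs <;> positivity

private theorem w4_row (c : Config N) (i : Fin N) :
    ∑ j, (if i = j then 0 else 4 * c.r i * c.r j / ‖c.p i - c.p j‖ ^ 2) ≤ c.q := by
  refine le_trans (le_of_eq ?_) (c.small i)
  rw [← Finset.sum_erase_add Finset.univ _ (Finset.mem_univ i), if_pos rfl, add_zero]
  apply Finset.sum_congr rfl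
  intro j hj
  rw [if_neg (Finset.ne_of_mem_erase hj).symm]

private theorem w4_q (c : Config N) (i : Fin N) : 0 ≤ c.q := by
  refine le_trans ?_ (c.small i)
  apply Finset.sum_nonneg
  intro j _
  have h1 := c.hr i
  have h2 := c.hr j
  positivity

private theorem w4_B (c : Config N) (M : ℕ) : ∀ i : Fin N,
    ∑ l ∈ w4L N M, wtW c (i :: l) ≤ (1 - c.q)⁻¹ := by
  have hq := c.hq
  have h1 : 0 < 1 - c.q := by linarith
  induction M with
  | zero =>
    intro i
    have hq0 := w4_q c i
    simp only [w4L, Finset.sum_singleton, wtW]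
    rw [le_inv_comm₀ one_pos h1, inv_one]
    linarith
  | succ M ih =>
    intro i
    have hq0 := w4_q c i
    rw [w4_sum]
    have e1 : ∑ j, ∑ l ∈ w4L N M, wtW c (i :: j :: l) ≤ c.q * (1 - c.q)⁻¹ := by
      calc ∑ j, ∑ l ∈ w4L N M, wtW c (i :: j :: l) =
          ∑ j, (if i = j then 0 else 4 * c.r i * c.r j / ‖c.p i - c.p j‖ ^ 2) *
            ∑ l ∈ w4L N M, wtW c (j :: l) := by
            apply Finset.sum_congr rfl
            intro j _
            rw [Finset.mul_sum]
            rfl
        _ ≤ ∑ j, (if i = j then 0 else 4 * c.r i * c.r j / ‖c.p i - c.p j‖ ^ 2) *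
            (1 - c.q)⁻¹ := by
            apply Finset.sum_le_sum
            intro j _
            apply mul_le_mul_of_nonneg_left (ih j)
            have h1 := c.hr i
            have h2 := c.hr j
            split_ifs <;> positivity
        _ = (∑ j, (if i = j then 0 else 4 * c.r i * c.r j / ‖c.p i - c.p j‖ ^ 2)) *
            (1 - c.q)⁻¹ := by rw [Finset.sum_mul]
        _ ≤ c.q * (1 - c.q)⁻¹ :=
            mul_le_mul_of_nonneg_right (w4_row c i) (by positivity)
    have e2 : wtW c [i] = 1 := rfl
    have e3 : (1 - c.q)⁻¹ = 1 + c.q * (1 - c.q)⁻¹ := by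
      field_simp
      ring
    rw [e2, e3]
    linarith

theorem wtW_summable (c : Config N) : Summable (fun l : List (Fin N) => wtW c l) := by
  have hq := c.hq
  have h1 : 0 < 1 - c.q := by linarith
  apply summable_of_sum_le (c := 1 + N * (1 - c.q)⁻¹) (w4_wt_nonneg c)
  intro u
  obtain ⟨M, hM⟩ : ∃ M, ∀ l ∈ u, l.length ≤ M :=
    ⟨u.sup List.length, fun l hl => Finset.le_sup (f := List.length) hl⟩
  have h2 : u ⊆ w4L N (M + 1) := fun l hl => w4_mem _ l ((hM l hl).trans (Nat.le_succ M))
  calc ∑ l ∈ u, wtW c l ≤ ∑ l ∈ w4L N (M + 1), wtW c l :=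
        Finset.sum_le_sum_of_subset_of_nonneg h2 fun l _ _ => w4_wt_nonneg c l
    _ = 1 + ∑ i, ∑ l ∈ w4L N M, wtW c (i :: l) := by rw [w4_sum]; rfl
    _ ≤ 1 + ∑ _i : Fin N, (1 - c.q)⁻¹ := by
        gcongr with i _
        exact w4_B c M i
    _ = 1 + N * (1 - c.q)⁻¹ := by
        rw [Finset.sum_const, Finset.card_univ, Fintype.card_fin, nsmul_eq_mul]

theorem wtW_dropLast_summable (c : Config N) :
    Summable (fun l : Wd N => wtW c l.1.dropLast) := by
  have h1 : Summable (fun _ : Option (Fin N) => (1 : ℝ)) := (hasSum_fintype _).summable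
  have h2 : Summable (fun x : List (Fin N) × Option (Fin N) => wtW c x.1 * 1) :=
    (wtW_summable c).mul_of_nonneg h1 (w4_wt_nonneg c) (fun _ => zero_le_one)
  have hinj : Function.Injective (fun l : List (Fin N) => (l.dropLast, l.getLast?)) := by
    intro l l' h
    simp only [Prod.mk.injEq] at h
    rcases List.eq_nil_or_concat l with hl | ⟨a, x, hl⟩
    · rcases List.eq_nil_or_concat l' with hl' | ⟨a', x', hl'⟩
      · rw [hl, hl']
      · rw [hl, hl'] at h
        simp at h
    · rcases List.eq_nil_or_concat l' with hl' | ⟨a', x', hl'⟩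
      · rw [hl, hl'] at h
        simp at h
      · rw [hl, hl'] at h ⊢
        simp only [List.concat_eq_append, List.dropLast_concat, List.getLast?_concat,
          Option.some.injEq] at h
        rw [h.1, h.2]
  have h3 := h2.comp_injective hinj
  have h4 : Summable (fun l : List (Fin N) => wtW c l.dropLast) := by
    refine h3.congr fun l => ?_
    simp
  exact h4.comp_injective Subtype.val_injective

end Pool.Agent.SV
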