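import Pool.Agent.Helper53.SV.W3

/-!
# W5: the terms of the sums
-/

set_option autoImplicit false

open Complex Filter Topology Metric
open scoped ComplexConjugate

namespace Pool.Agent.SV

variable {N : ℕ}

theorem w5_log_mul_of_re {x y : ℂ} (hx : 0 < x.re) (hy : 0 < y.re) :
    log (x * y) = log x + log y := by
  have hx0 : x ≠ 0 := fun h => by rw [h] at hx; simp at hx
  have hy0 : y ≠ 0 := fun h => by rw [h] at hy; simp at hy
  have h1 := abs_lt.mp (abs_arg_lt_pi_div_two_iff.mpr (Or.inl hx))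
  have h2 := abs_lt.mp (abs_arg_lt_pi_div_two_iff.mpr (Or.inl hy))
  rw [log_mul_eq_add_log_iff hx0 hy0]
  constructor
  · linarith [h1.1, h2.1]
  · linarith [h1.2, h2.2]

/-- `x` is close to `1` -/
def Near1 (x : ℂ) : Prop := ‖x - 1‖ ≤ 1 / 4

theorem w5_re_pos {x : ℂ} (hx : Near1 x) : 0 < x.re := by
  have h1 := abs_re_le_norm (x - 1)
  have h2 : ‖x - 1‖ ≤ 1 / 4 := hx
  rw [sub_re, one_re] at h1
  have h3 := (abs_le.mp (h1.trans h2)).1
  linarith

theorem Near1.mem_slitPlane {x : ℂ} (hx : Near1 x) : x ∈ slitPlane := by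
  rw [mem_slitPlane_iff]
  exact Or.inl (w5_re_pos hx)

theorem Near1.ne_zero {x : ℂ} (hx : Near1 x) : x ≠ 0 := slitPlane_ne_zero hx.mem_slitPlane

theorem Near1.log_mul {x y : ℂ} (hx : Near1 x) (hy : Near1 y) :
    log (x * y) = log x + log y := w5_log_mul_of_re (w5_re_pos hx) (w5_re_pos hy)

theorem Near1.log_inv {x : ℂ} (hx : Near1 x) : log x⁻¹ = - log x :=
  Complex.log_inv x (slitPlane_arg_ne_pi hx.mem_slitPlane)

theorem Near1.log_div {x y : ℂ} (hx : Near1 x) (hy : Near1 y) :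
    log (x / y) = log x - log y := by
  have h1 : 0 < (y⁻¹).re := by
    rw [inv_re]
    exact div_pos (w5_re_pos hy) (normSq_pos.mpr hy.ne_zero)
  rw [div_eq_mul_inv, w5_log_mul_of_re (w5_re_pos hx) h1, hy.log_inv, sub_eq_add_neg]

theorem Near1.log_conj {x : ℂ} (hx : Near1 x) : log (conj x) = conj (log x) :=
  Complex.log_conj x (slitPlane_arg_ne_pi hx.mem_slitPlane)

theorem Near1.conj {x : ℂ} (hx : Near1 x) : Near1 (conj x) := by
  have h1 : (starRingEnd ℂ) x - 1 = (starRingEnd ℂ) (x - 1) := by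
    rw [map_sub, map_one]
  show ‖(starRingEnd ℂ) x - 1‖ ≤ 1 / 4
  rw [h1, norm_conj]
  exact hx

theorem w5_pt_sub (v : ℂ × ℂ) (hv : v.2 ≠ 0) (p : ℂ) : pt v - p = (v.1 - p * v.2) / v.2 := by
  unfold pt
  field_simp

theorem w5_inV_pt (c : Config N) {i : Fin N} {v : ℂ × ℂ} (h : InV c i v) :
    ‖pt v - c.p i‖ ≤ c.r i / 16 := by
  obtain ⟨h1, h2⟩ := h
  have h3 : 0 < ‖v.2‖ := norm_pos_iff.mpr h1
  rw [w5_pt_sub v h1, norm_div, div_le_iff₀ h3]
  linarith

/-- the cross ratio of a point of the closed domain, infinity, and two points well inside of the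
same disc -/
theorem near_term (c : Config N) {z : ℂ} (hz : z ∈ Omc c) {i : Fin N} {x y : ℂ × ℂ}
    (hx : InV c i x) (hy : InV c i y) : Near1 (cr (vec z) vinf x y) ∧
      ‖log (cr (vec z) vinf x y)‖ ≤ 4 * ‖pt x - pt y‖ / ‖z - c.p i‖ := by
  rw [cr_vec_vinf z hx.1 hy.1]
  have hr := c.hr i
  have hz' : c.r i ≤ ‖z - c.p i‖ := hz i
  have hx' := w5_inV_pt c hx
  have hy' := w5_inV_pt c hy
  have hρ : 0 < ‖z - c.p i‖ := hr.trans_le hz'
  have h1 : 15 / 16 * ‖z - c.p i‖ ≤ ‖z - pt y‖ := by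
    have h2 : ‖z - c.p i‖ ≤ ‖z - pt y‖ + ‖pt y - c.p i‖ := by
      have : z - c.p i = (z - pt y) + (pt y - c.p i) := by ring
      rw [this]
      exact norm_add_le _ _
    linarith
  have h0 : 0 < ‖z - pt y‖ := by
    have : 0 < 15 / 16 * ‖z - c.p i‖ := by positivity
    linarith
  have hne : z - pt y ≠ 0 := norm_pos_iff.mp h0
  have h3 : (z - pt x) / (z - pt y) = 1 + (pt y - pt x) / (z - pt y) := by
    field_simp
    ring
  have h4 : ‖(pt y - pt x) / (z - pt y)‖ ≤ 16 / 15 * ‖pt x - pt y‖ / ‖z - c.p i‖ := by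
    rw [norm_div, norm_sub_rev (pt y) (pt x), div_le_div_iff₀ h0 hρ]
    have := norm_nonneg (pt x - pt y)
    nlinarith
  have h5 : ‖pt x - pt y‖ ≤ c.r i / 8 := by
    have : pt x - pt y = (pt x - c.p i) - (pt y - c.p i) := by ring
    rw [this]
    exact (norm_sub_le _ _).trans (by linarith)
  have h6 : 16 / 15 * ‖pt x - pt y‖ / ‖z - c.p i‖ ≤ 1 / 4 := by
    rw [div_le_iff₀ hρ]
    linarith
  constructor
  · show ‖(z - pt x) / (z - pt y) - 1‖ ≤ 1 / 4
    rw [h3, add_sub_cancel_left]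
    exact h4.trans h6
  · rw [h3]
    refine (norm_log_one_add_half_le_self (by linarith)).trans ?_
    calc 3 / 2 * ‖(pt y - pt x) / (z - pt y)‖
        ≤ 3 / 2 * (16 / 15 * ‖pt x - pt y‖ / ‖z - c.p i‖) := by linarith
      _ = (8 / 5 * ‖pt x - pt y‖) / ‖z - c.p i‖ := by ring
      _ ≤ 4 * ‖pt x - pt y‖ / ‖z - c.p i‖ := by
          apply div_le_div_of_nonneg_right _ hρ.le
          have := norm_nonneg (pt x - pt y)
          linarith

theorem w5_cons {l : List (Fin N)} (hl : l ≠ []) : ∃ i l', l = i :: l' := by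
  cases l with
  | nil => exact absurd rfl hl
  | cons i l' => exact ⟨i, l', rfl⟩

theorem w5_cons2 {l : List (Fin N)} (hl : Even l.length ∧ l ≠ []) : ∃ i k l', l = i :: k :: l' := by
  cases l with
  | nil => exact absurd rfl hl.2
  | cons i l' =>
    cases l' with
    | nil =>
      have := hl.1
      simp at this
    | cons k l'' => exact ⟨i, k, l'', rfl⟩

theorem w5_adm1_vinf (c : Config N) : Adm1 c vinf := fun i => outV_vinf c i

theorem w5_adm1_far (c : Config N) {w : ℂ} (hw : w ∈ Far c) : Adm1 c (vec w) :=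
  fun i => outV_far c hw i

/-- all terms in the sums are logarithms of numbers which are close to `1` -/
theorem near_E (c : Config N) (j : Fin N) {z : ℂ} (hz : z ∈ Omc c) (l : Wd N)
    (hl : Even l.1.length ∧ l.1 ≠ []) :
    Near1 (cr (vec z) vinf (act c l.1 (vec (c.p j))) (act c l.1 vinf)) := by
  obtain ⟨l, hc⟩ := l
  obtain ⟨i, k, l', rfl⟩ := w5_cons2 hl
  exact (near_term c hz (pos2 c (adm2_center c j) i k l' hc)
    (pos1 c (w5_adm1_vinf c) i (k :: l') hc)).1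

theorem near_L (c : Config N) {w : ℂ} (hw : w ∈ Far c) {z : ℂ} (hz : z ∈ Omc c) (l : Wd N)
    (hl : l.1 ≠ []) :
    Near1 (cr (vec z) vinf (act c l.1 (vec w)) (act c l.1 vinf)) := by
  obtain ⟨l, hc⟩ := l
  obtain ⟨i, l', rfl⟩ := w5_cons hl
  exact (near_term c hz (pos1 c (w5_adm1_far c hw) i l' hc)
    (pos1 c (w5_adm1_vinf c) i l' hc)).1

theorem near_e (c : Config N) {z : ℂ} (hz : z ∈ Omc c) (l : Wd N)
    (hl : Even l.1.length ∧ l.1 ≠ []) :
    Near1 (cr (vec z) vinf (act c l.1 vinf) (act c l.1 (vec z))) := by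
  obtain ⟨l, hc⟩ := l
  obtain ⟨i, k, l', rfl⟩ := w5_cons2 hl
  exact (near_term c hz (pos1 c (w5_adm1_vinf c) i (k :: l') hc)
    (pos2 c (adm2_vec c hz) i k l' hc)).1

theorem w5_bound (c : Config N) {z : ℂ} (hz : z ∈ Omc c) {i : Fin N} {x y : ℂ × ℂ}
    (hx : InV c i x) (hy : InV c i y) {w : ℝ} (hw : ‖pt x - pt y‖ ≤ 2 * c.r i * w)
    (hw0 : 0 ≤ w) : ‖log (cr (vec z) vinf x y)‖ ≤ 8 * w := by
  refine (near_term c hz hx hy).2.trans ?_
  have hr := c.hr i
  have hz' : c.r i ≤ ‖z - c.p i‖ := hz i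
  rw [div_le_iff₀ (hr.trans_le hz')]
  calc 4 * ‖pt x - pt y‖ ≤ 4 * (2 * c.r i * w) := by linarith
    _ = 8 * w * c.r i := by ring
    _ ≤ 8 * w * ‖z - c.p i‖ := mul_le_mul_of_nonneg_left hz' (by positivity)

theorem w5_zero (c : Config N) (l : List (Fin N)) : ‖(0 : ℂ)‖ ≤ 8 * wtW c l := by
  rw [norm_zero]
  have := wtW_nonneg c l
  linarith

theorem fE_bound (c : Config N) (j : Fin N) {z : ℂ} (hz : z ∈ Omc c) (l : Wd N) :
    ‖fE c j z l‖ ≤ 8 * wtW c l.1.dropLast := by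
  unfold fE
  split_ifs with hl
  · obtain ⟨l, hc⟩ := l
    obtain ⟨i, k, l', rfl⟩ := w5_cons2 hl
    exact w5_bound c hz (pos2 c (adm2_center c j) i k l' hc)
      (pos1 c (w5_adm1_vinf c) i (k :: l') hc) (dist_center c j i k l' hc) (wtW_nonneg c _)
  · exact w5_zero c _

theorem fL_bound (c : Config N) {w : ℂ} (hw : w ∈ Far c) {z : ℂ} (hz : z ∈ Omc c) (l : Wd N) :
    ‖fL c w z l‖ ≤ 8 * wtW c l.1.dropLast := by
  unfold fL
  split_ifs with hl
  · obtain ⟨l, hc⟩ := l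
    obtain ⟨i, l', rfl⟩ := w5_cons hl.2
    exact w5_bound c hz (pos1 c (w5_adm1_far c hw) i l' hc)
      (pos1 c (w5_adm1_vinf c) i l' hc) (dist_far c hw i l' hc) (wtW_nonneg c _)
  · exact w5_zero c _

theorem fM_bound (c : Config N) {w : ℂ} (hw : w ∈ Far c) {z : ℂ} (hz : z ∈ Omc c) (l : Wd N) :
    ‖fM c w z l‖ ≤ 8 * wtW c l.1.dropLast := by
  unfold fM
  split_ifs with hl
  · obtain ⟨l, hc⟩ := l
    obtain ⟨i, l', rfl⟩ := w5_cons (l := l) (by
      rintro rfl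
      simp at hl)
    exact w5_bound c hz (pos1 c (w5_adm1_far c hw) i l' hc)
      (pos1 c (w5_adm1_vinf c) i l' hc) (dist_far c hw i l' hc) (wtW_nonneg c _)
  · exact w5_zero c _

theorem fe_bound (c : Config N) {z : ℂ} (hz : z ∈ Omc c) (l : Wd N) :
    ‖fe c z l‖ ≤ 8 * wtW c l.1.dropLast := by
  unfold fe
  split_ifs with hl
  · obtain ⟨l, hc⟩ := l
    obtain ⟨i, k, l', rfl⟩ := w5_cons2 hl
    exact w5_bound c hz (pos1 c (w5_adm1_vinf c) i (k :: l') hc)
      (pos2 c (adm2_vec c hz) i k l' hc) (dist_omc c hz i k l' hc) (wtW_nonneg c _)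
  · exact w5_zero c _

end Pool.Agent.SV
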