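import Pool.Agent.Helper53.SV.Reg
import Pool.Agent.Helper53.SV.W1
import Pool.Agent.Helper53.SV.W3
import Pool.Agent.Helper53.SV.W5

/-!
# Regularity of the terms of the sums over words (SV-W6)
-/

set_option autoImplicit false

open Complex Filter Topology Metric
open scoped ComplexConjugate

namespace Pool.Agent.SV

variable {N : ℕ}

theorem w6_reg_zero (c : Config N) : Reg c (fun _ => 0) 0 :=
  ⟨differentiableOn_const _, continuousOn_const, tendsto_const_nhds⟩

theorem reg_tsum (c : Config N) {f : ℂ → Wd N → ℂ} {u : Wd N → ℝ} (hu : Summable u)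
    (hf : ∀ l, Reg c (fun z => f z l) 0) (hb : ∀ z ∈ Omc c, ∀ l, ‖f z l‖ ≤ u l) :
    Reg c (fun z => ∑' l, f z l) 0 := by
  have h := Reg.tsum (f := fun l z => f z l) (A := fun _ => 0) hu hf fun l z hz => hb z hz l
  simpa using h

/-- points well inside of a disc -/
theorem w6_inV {c : Config N} {i : Fin N} {y : ℂ × ℂ} (hy : InV c i y) :
    ‖pt y - c.p i‖ ≤ c.r i / 16 := by
  obtain ⟨h1, h2⟩ := hy
  have h3 : pt y - c.p i = (y.1 - c.p i * y.2) / y.2 := by
    rw [pt]
    field_simp
  have h4 : 0 < ‖y.2‖ := norm_pos_iff.2 h1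
  rw [h3, norm_div, div_le_iff₀ h4]
  linarith

theorem w6_ne {c : Config N} {i : Fin N} {y : ℂ × ℂ} (hy : InV c i y) {z : ℂ} (hz : z ∈ Omc c) :
    z - pt y ≠ 0 := by
  intro h
  have h1 := hz i
  have h2 := w6_inV hy
  have h3 := c.hr i
  rw [sub_eq_zero.1 h] at h1
  linarith

theorem w6_tendsto_inv (a : ℂ) : Tendsto (fun z : ℂ => ‖z - a‖⁻¹) (cocompact ℂ) (𝓝 0) := by
  have h1 : Tendsto (fun z : ℂ => ‖z - a‖) (cocompact ℂ) atTop := by
    have h2 : Tendsto (fun z : ℂ => ‖z‖ - ‖a‖) (cocompact ℂ) atTop :=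
      tendsto_atTop_add_const_right _ (-‖a‖) (tendsto_norm_cocompact_atTop (E := ℂ))
    exact tendsto_atTop_mono (fun z => norm_sub_norm_le z a) h2
  exact tendsto_inv_atTop_zero.comp h1

theorem w6_log_reg (c : Config N) {i : Fin N} {x y : ℂ × ℂ} (hx : InV c i x) (hy : InV c i y) :
    Reg c (fun z => log (cr (vec z) vinf x y)) 0 := by
  have h0 : ∀ z, cr (vec z) vinf x y = (z - pt x) / (z - pt y) := fun z =>
    cr_vec_vinf z hx.1 hy.1
  have hn : ∀ z ∈ Omc c, Near1 ((z - pt x) / (z - pt y)) := by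
    intro z hz
    rw [← h0 z]
    exact (near_term c hz hx hy).1
  simp only [h0]
  refine ⟨?_, ?_, ?_⟩
  · intro z hz
    have hz' := Om_subset_Omc c hz
    refine DifferentiableAt.differentiableWithinAt ?_
    have hd : DifferentiableAt ℂ (fun z : ℂ => (z - pt x) / (z - pt y)) z :=
      (differentiableAt_id.sub_const _).div (differentiableAt_id.sub_const _) (w6_ne hy hz')
    exact hd.clog (hn z hz').mem_slitPlane
  · intro z hz
    refine ContinuousWithinAt.clog ?_ (hn z hz).mem_slitPlane
    exact (continuousWithinAt_id.sub continuousWithinAt_const).div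
      (continuousWithinAt_id.sub continuousWithinAt_const) (w6_ne hy hz)
  · have h1 : Tendsto (fun z : ℂ => (z - pt y)⁻¹) (cocompact ℂ) (𝓝 0) := by
      rw [tendsto_zero_iff_norm_tendsto_zero]
      simpa only [norm_inv] using w6_tendsto_inv (pt y)
    have h2 : Tendsto (fun z : ℂ => 1 + (pt y - pt x) * (z - pt y)⁻¹) (cocompact ℂ) (𝓝 1) := by
      have h3 := (h1.const_mul (pt y - pt x)).const_add 1
      simpa using h3
    have h4 : Tendsto (fun z : ℂ => (z - pt x) / (z - pt y)) (cocompact ℂ) (𝓝 1) := by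
      refine h2.congr' ?_
      filter_upwards [eventually_Omc c] with z hz
      have h5 := w6_ne hy hz
      field_simp
      ring
    have h6 := h4.clog (by simp [slitPlane])
    simpa using h6

/-- a nonempty even reduced word has at least two letters -/
theorem w6_two {l : List (Fin N)} (h1 : Even l.length) (h2 : l ≠ []) :
    ∃ i k l', l = i :: k :: l' := by
  rcases l with _ | ⟨i, _ | ⟨k, l'⟩⟩
  · exact absurd rfl h2
  · simp at h1
  · exact ⟨i, k, l', rfl⟩

theorem w6_one {l : List (Fin N)} (h2 : Odd l.length) : ∃ i l', l = i :: l' := by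
  rcases l with _ | ⟨i, l'⟩
  · simp at h2
  · exact ⟨i, l', rfl⟩

theorem w6_adm_vinf (c : Config N) : Adm1 c vinf := fun i => outV_vinf c i

theorem w6_adm2_vinf (c : Config N) : Adm2 c vinf :=
  Adm1.adm2 (w6_adm_vinf c) (by simp [vinf])

theorem w6_adm_far (c : Config N) {w : ℂ} (hw : w ∈ Far c) : Adm1 c (vec w) :=
  fun i => outV_far c hw i

theorem fE_reg (c : Config N) (j : Fin N) (l : Wd N) : Reg c (fun z => fE c j z l) 0 := by
  by_cases h : Even l.1.length ∧ l.1 ≠ []
  · simp only [fE, if_pos h]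
    obtain ⟨i, k, l', hl⟩ := w6_two h.1 h.2
    have hc := l.2
    rw [hl] at hc ⊢
    exact w6_log_reg c (pos2 c (adm2_center c j) i k l' hc) (pos2 c (w6_adm2_vinf c) i k l' hc)
  · simp only [fE, if_neg h]
    exact w6_reg_zero c

theorem fL_reg (c : Config N) {w : ℂ} (hw : w ∈ Far c) (l : Wd N) :
    Reg c (fun z => fL c w z l) 0 := by
  by_cases h : Even l.1.length ∧ l.1 ≠ []
  · simp only [fL, if_pos h]
    obtain ⟨i, k, l', hl⟩ := w6_two h.1 h.2
    have hc := l.2
    rw [hl] at hc ⊢
    exact w6_log_reg c (pos1 c (w6_adm_far c hw) i _ hc) (pos1 c (w6_adm_vinf c) i _ hc)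
  · simp only [fL, if_neg h]
    exact w6_reg_zero c

theorem fM_reg (c : Config N) {w : ℂ} (hw : w ∈ Far c) (l : Wd N) :
    Reg c (fun z => fM c w z l) 0 := by
  by_cases h : Odd l.1.length
  · simp only [fM, if_pos h]
    obtain ⟨i, l', hl⟩ := w6_one h
    have hc := l.2
    rw [hl] at hc ⊢
    exact w6_log_reg c (pos1 c (w6_adm_far c hw) i _ hc) (pos1 c (w6_adm_vinf c) i _ hc)
  · simp only [fM, if_neg h]
    exact w6_reg_zero c

theorem fe_reg (c : Config N) (l : Wd N) : Reg c (fun z => fe c z l) 0 := by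
  by_cases h : Even l.1.length ∧ l.1 ≠ []
  · simp only [fe, if_pos h]
    obtain ⟨α, β, γ, δ, hact⟩ := act_even_linear c h.1
    obtain ⟨i, k, l', hl⟩ := w6_two h.1 h.2
    have hc : (i :: k :: l').IsChain (· ≠ ·) := hl ▸ l.2
    have hin1 : InV c i (act c l.1 vinf) := by
      rw [hl]
      exact pos2 c (w6_adm2_vinf c) i k l' hc
    have hin2 : ∀ z ∈ Omc c, InV c i (act c l.1 (vec z)) := by
      intro z hz
      rw [hl]
      exact pos2 c (adm2_vec c hz) i k l' hc
    have hn : ∀ z ∈ Omc c, Near1 (cr (vec z) vinf (act c l.1 vinf) (act c l.1 (vec z))) :=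
      fun z hz => (near_term c hz hin1 (hin2 z hz)).1
    have hform : ∀ z, cr (vec z) vinf (act c l.1 vinf) (act c l.1 (vec z)) =
        (z * γ - α) * (γ * z + δ) / ((z * (γ * z + δ) - (α * z + β)) * γ) := by
      intro z
      rw [hact, hact]
      simp [cr, det2, vec, vinf]
    have hγ : γ ≠ 0 := by
      have h1 := hin1.1
      rw [hact] at h1
      simpa [vinf] using h1
    have hden : ∀ z ∈ Omc c, z * (γ * z + δ) - (α * z + β) ≠ 0 := by
      intro z hz h0
      have h1 := (hin2 z hz).1
      have h2 := w6_ne (hin2 z hz) hz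
      rw [hact] at h1 h2
      simp only [vec, pt, mul_one] at h1 h2
      apply h2
      rw [sub_eq_zero, eq_div_iff h1]
      linear_combination h0
    refine ⟨?_, ?_, ?_⟩
    · intro z hz
      have hz' := Om_subset_Omc c hz
      have h1 := (hn z hz').mem_slitPlane
      refine DifferentiableAt.differentiableWithinAt ?_
      refine DifferentiableAt.clog ?_ h1
      simp only [hform]
      refine DifferentiableAt.div (by fun_prop) (by fun_prop) ?_
      exact mul_ne_zero (hden z hz') hγ
    · intro z hz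
      have h1 := (hn z hz).mem_slitPlane
      refine ContinuousAt.continuousWithinAt ?_
      refine ContinuousAt.clog ?_ h1
      simp only [hform]
      refine ContinuousAt.div (by fun_prop) (by fun_prop) ?_
      exact mul_ne_zero (hden z hz) hγ
    · rw [tendsto_zero_iff_norm_tendsto_zero]
      have h1 : Tendsto (fun z : ℂ => c.r i * ‖z - c.p i‖⁻¹) (cocompact ℂ) (𝓝 0) := by
        simpa using (w6_tendsto_inv (c.p i)).const_mul (c.r i)
      refine squeeze_zero' (Eventually.of_forall fun z => norm_nonneg _) ?_ h1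
      filter_upwards [eventually_Omc c] with z hz
      have h2 := (near_term c hz hin1 (hin2 z hz)).2
      have h3 : ‖pt (act c l.1 vinf) - pt (act c l.1 (vec z))‖ ≤ c.r i / 8 := by
        have h4 := w6_inV hin1
        have h5 := w6_inV (hin2 z hz)
        have h6 := norm_sub_le_norm_sub_add_norm_sub (pt (act c l.1 vinf)) (c.p i)
          (pt (act c l.1 (vec z)))
        rw [norm_sub_rev (c.p i)] at h6
        linarith
      have h7 : 0 < ‖z - c.p i‖ := lt_of_lt_of_le (c.hr i) (hz i)
      calc _ ≤ 4 * ‖pt (act c l.1 vinf) - pt (act c l.1 (vec z))‖ / ‖z - c.p i‖ := h2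
        _ ≤ c.r i * ‖z - c.p i‖⁻¹ := by
          rw [div_eq_mul_inv]
          refine mul_le_mul_of_nonneg_right ?_ (inv_nonneg.2 h7.le)
          have := c.hr i
          linarith
  · simp only [fe, if_neg h]
    exact w6_reg_zero c

end Pool.Agent.SV
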