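import Pool.Agent.Helper53.SV.W2
import Pool.Agent.Helper53.SV.W4
import Pool.Agent.Helper53.SV.W5

/-!
# W7: boundary identity for `lam` and `mu`
-/

set_option autoImplicit false

open Complex Filter Topology Metric
open scoped ComplexConjugate

namespace Pool.Agent.SV

variable {N : ℕ}

theorem w7_far_omc (c : Config N) {w : ℂ} (hw : w ∈ Far c) : w ∈ Omc c := by
  intro k
  have h1 := hw k
  have h2 := c.hr k
  linarith

/-- reflection of a cross ratio based at a point of the circle -/
theorem w7_reflect (c : Config N) (i : Fin N) {z : ℂ} (hz : ‖z - c.p i‖ = c.r i) (x y : ℂ × ℂ) :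
    conj (cr (vec z) vinf (J c i x) (J c i y)) = cr (vec z) (vec (c.p i)) x y := by
  have h1 := cr_act_odd c (l := [i]) (by simp) (vec z) vinf (J c i x) (J c i y)
  have h2 : ∀ v, act c [i] v = J c i v := fun v => rfl
  rw [h2, h2, h2, h2, J_J, J_J, J_circle c i hz, J_vinf] at h1
  rw [← h1]
  have hr : (c.r i : ℂ) ≠ 0 := w1_r_ne c i
  have hzi : z - c.p i ≠ 0 := by
    intro h
    rw [h, norm_zero] at hz
    exact (c.hr i).ne hz
  have h3 : conj (z - c.p i) / (c.r i : ℂ) ≠ 0 :=
    div_ne_zero ((map_ne_zero _).2 hzi) hr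
  have h4 := cr_smul (vec z) (vec (c.p i)) x y h3 (inv_ne_zero hr) one_ne_zero one_ne_zero
  rw [one_smul, one_smul] at h4
  exact h4

theorem w7_det_ne {a b x y : ℂ × ℂ} (h : cr a b x y ≠ 0) :
    det2 a x ≠ 0 ∧ det2 b y ≠ 0 ∧ det2 a y ≠ 0 ∧ det2 b x ≠ 0 := by
  unfold cr at h
  rw [div_ne_zero_iff, mul_ne_zero_iff, mul_ne_zero_iff] at h
  exact ⟨h.1.1, h.1.2, h.2.1, h.2.2⟩

/-- moving an even word to the other side -/
theorem w7_move (c : Config N) {l : List (Fin N)} (hl : Even l.length) (a b x y : ℂ × ℂ) :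
    cr a b (act c l x) (act c l y) = cr x y (act c l.reverse a) (act c l.reverse b) := by
  have h1 := cr_act_even c (l := l.reverse) (by simpa using hl) a b (act c l x) (act c l y)
  rw [act_reverse, act_reverse] at h1
  rw [← h1, cr_symm]

theorem w7_term (c : Config N) {w : ℂ} (hw : w ∈ Far c) (i : Fin N) {z : ℂ}
    (hz : ‖z - c.p i‖ = c.r i) (hzo : z ∈ Omc c) (V U V' : Wd N) (hU : U.1 = lmul i V.1)
    (hV' : V'.1 = V.1.reverse) :
    conj (fM c w z U) - fL c w z V
      = (if V.1 = [] then log ((z - w) / (c.p i - w)) else 0) - fE c i w V' := by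
  by_cases hV : Even V.1.length
  · have hUodd : Odd U.1.length := by
      rw [hU, ← Nat.not_even_iff_odd, even_lmul, not_not]
      exact hV
    have hUne : U.1 ≠ [] := by
      intro h
      rw [h] at hUodd
      simp at hUodd
    have hn := near_L c hw hzo U hUne
    have hA : conj (cr (vec z) vinf (act c U.1 (vec w)) (act c U.1 vinf)) =
        cr (vec z) (vec (c.p i)) (act c V.1 (vec w)) (act c V.1 vinf) := by
      rw [hU, act_lmul, act_lmul, w7_reflect c i hz]
    have hfM : conj (fM c w z U) =
        log (cr (vec z) (vec (c.p i)) (act c V.1 (vec w)) (act c V.1 vinf)) := by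
      unfold fM
      rw [if_pos hUodd, ← hn.log_conj, hA]
    have hnA : Near1 (cr (vec z) (vec (c.p i)) (act c V.1 (vec w)) (act c V.1 vinf)) := by
      rw [← hA]
      exact hn.conj
    rcases eq_or_ne V.1 [] with hVe | hVe
    · rw [hfM, if_pos hVe]
      unfold fL fE
      rw [if_neg (by rintro ⟨_, h⟩; exact h hVe), if_neg (by
        rintro ⟨_, h⟩
        rw [hV', hVe] at h
        exact h rfl)]
      rw [hVe]
      have e1 : cr (vec z) (vec (c.p i)) (act c [] (vec w)) (act c [] vinf) =
          (z - w) / (c.p i - w) := by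
        have e2 : ∀ v, act c [] v = v := fun v => rfl
        rw [e2, e2]
        unfold cr det2 vec vinf
        simp only
        rw [show (z * 0 - 1 * 1) * (c.p i * 1 - 1 * w) = -(c.p i - w) by ring,
          show (z * 1 - 1 * w) * (c.p i * 0 - 1 * 1) = -(z - w) by ring, neg_div_neg_eq]
      rw [e1]
    · rw [hfM, if_neg hVe]
      have hVc : Even V.1.length ∧ V.1 ≠ [] := ⟨hV, hVe⟩
      have hV'c : Even V'.1.length ∧ V'.1 ≠ [] := by
        rw [hV']
        exact ⟨by simpa using hV, by simpa using hVe⟩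
      unfold fL fE
      rw [if_pos hVc, if_pos hV'c]
      have hnz := near_L c hw hzo V hVe
      have hnB := near_E c i (w7_far_omc c hw) V' hV'c
      have hB : cr (vec (c.p i)) vinf (act c V.1 (vec w)) (act c V.1 vinf) =
          cr (vec w) vinf (act c V'.1 (vec (c.p i))) (act c V'.1 vinf) := by
        rw [w7_move c hV, hV']
      have hd := w7_det_ne hnA.ne_zero
      have hmul := cr_mul_left (vec z) (vec (c.p i)) vinf (act c V.1 (vec w)) (act c V.1 vinf)
        hd.2.2.2 hd.2.1
      rw [hB] at hmul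
      rw [← hmul, hnA.log_mul hnB]
      ring
  · have hUev : ¬ Odd U.1.length := by
      rw [hU, Nat.not_odd_iff_even, even_lmul]
      exact hV
    have hVe : V.1 ≠ [] := by
      intro h
      rw [h] at hV
      exact hV (by simp)
    unfold fM fL fE
    rw [if_neg hUev, if_neg (by rintro ⟨h, _⟩; exact hV h), if_neg hVe, if_neg (by
      rintro ⟨h, _⟩
      rw [hV'] at h
      exact hV (by simpa using h))]
    simp

theorem word_I1 (c : Config N) {w : ℂ} (hw : w ∈ Far c) (i : Fin N) {z : ℂ}
    (hz : ‖z - c.p i‖ = c.r i) (hzo : z ∈ Omc c) :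
    conj (∑' l, fM c w z l) - ∑' l, fL c w z l
      = log ((z - w) / (c.p i - w)) - ∑' l, fE c i w l := by
  classical
  obtain ⟨e, he⟩ := exists_lm (N := N) i
  obtain ⟨v, hv⟩ := exists_inv (N := N)
  have hS : Summable (fun l : Wd N => 8 * wtW c l.1.dropLast) :=
    (wtW_dropLast_summable c).mul_left 8
  have hSM : Summable (fun l => fM c w z l) :=
    Summable.of_norm_bounded hS (fun l => fM_bound c hw hzo l)
  have hSL : Summable (fun l => fL c w z l) :=
    Summable.of_norm_bounded hS (fun l => fL_bound c hw hzo l)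
  have hSE : Summable (fun l => fE c i w l) :=
    Summable.of_norm_bounded hS (fun l => fE_bound c i (w7_far_omc c hw) l)
  have hSM' : Summable (fun l => conj (fM c w z l)) :=
    Summable.of_norm_bounded hS (fun l => by
      rw [RCLike.norm_conj]
      exact fM_bound c hw hzo l)
  have h1 : conj (∑' l, fM c w z l) = ∑' l, conj (fM c w z (e l)) := by
    rw [Complex.conj_tsum, e.tsum_eq (fun l => conj (fM c w z l))]
  have h2 : ∑' l, fE c i w l = ∑' l, fE c i w (v l) := (v.tsum_eq (fun l => fE c i w l)).symm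
  have hSMe : Summable (fun l => conj (fM c w z (e l))) :=
    (e.summable_iff (f := fun l => conj (fM c w z l))).2 hSM'
  have hSEv : Summable (fun l => fE c i w (v l)) :=
    (v.summable_iff (f := fun l => fE c i w l)).2 hSE
  have h3 : ∀ l : Wd N, conj (fM c w z (e l)) - fL c w z l
      = (if l.1 = [] then log ((z - w) / (c.p i - w)) else 0) - fE c i w (v l) := fun l =>
    w7_term c hw i hz hzo l (e l) (v l) (he l) (hv l)
  have h4 : HasSum (fun l : Wd N => if l.1 = [] then log ((z - w) / (c.p i - w)) else 0)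
      (log ((z - w) / (c.p i - w))) := by
    have h5 := hasSum_ite_eq (⟨[], List.isChain_nil⟩ : Wd N) (log ((z - w) / (c.p i - w)))
    have h6 : (fun l : Wd N => if l.1 = [] then log ((z - w) / (c.p i - w)) else 0) =
        fun l : Wd N => if l = ⟨[], List.isChain_nil⟩ then log ((z - w) / (c.p i - w)) else 0 := by
      funext l
      rcases eq_or_ne l.1 [] with h | h
      · rw [if_pos h, if_pos (Subtype.ext h)]
      · rw [if_neg h, if_neg (fun h' => h (congrArg Subtype.val h'))]
    rw [h6]
    exact h5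
  rw [h1, h2, ← hSMe.tsum_sub hSL, ← h4.tsum_eq, ← h4.summable.tsum_sub hSEv]
  exact tsum_congr h3

end Pool.Agent.SV
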