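import Pool.Agent.Helper53.SV.W2
import Pool.Agent.Helper53.SV.W4
import Pool.Agent.Helper53.SV.W5

/-!
# W8: boundary identities `word_I2`, `word_I3`
-/

set_option autoImplicit false

open Complex Filter Topology Metric
open scoped ComplexConjugate

namespace Pool.Agent.SV

variable {N : ℕ}

/-- nontrivial even words -/
abbrev w8P (V : Wd N) : Prop := Even V.1.length ∧ V.1 ≠ []

/-- conjugation by a letter, as a permutation of the reduced words -/
theorem w8_sigma (i : Fin N) : ∃ e : Wd N ≃ Wd N,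
    (∀ (c : Config N) (l : Wd N) (v : ℂ × ℂ), act c (e l).1 v = J c i (act c l.1 (J c i v))) ∧
    (∀ l, Even (e l).1.length ↔ Even l.1.length) ∧ (∀ l, w8P (e l) ↔ w8P l) := by
  obtain ⟨e1, h1⟩ := exists_lm i
  obtain ⟨e2, h2, h3, h4⟩ := exists_rm i
  have heven : ∀ l, Even ((e2.trans e1) l).1.length ↔ Even l.1.length := by
    intro l
    rw [Equiv.trans_apply, h1, even_lmul, h4, not_not]
  have hnil : ∀ l, ((e2.trans e1) l).1 = [] ↔ l.1 = [] := by
    have h0 : ((e2.trans e1) ⟨[], List.isChain_nil⟩).1 = [] := by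
      rw [Equiv.trans_apply, h1, h2]
      simp [lmul]
    intro l
    constructor
    · intro h
      have h5 : (e2.trans e1) l = (e2.trans e1) ⟨[], List.isChain_nil⟩ := by
        apply Subtype.ext
        rw [h, h0]
      have h6 := (e2.trans e1).injective h5
      rw [h6]
    · intro h
      have h5 : l = ⟨[], List.isChain_nil⟩ := Subtype.ext h
      rw [h5]
      exact h0
  refine ⟨e2.trans e1, ?_, heven, ?_⟩
  · intro c l v
    rw [Equiv.trans_apply, h1, act_lmul, h3]
  · intro l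
    unfold w8P
    rw [heven, Ne, hnil]

theorem w8_det_vinf (x : ℂ × ℂ) : det2 vinf x = x.2 := by
  unfold det2 vinf
  simp

theorem w8_det_vec (z : ℂ) (x : ℂ × ℂ) : det2 (vec z) x = z * x.2 - x.1 := by
  unfold det2 vec
  simp

theorem w8_det_ne (c : Config N) {z : ℂ} (hz : z ∈ Omc c) {k : Fin N} {x : ℂ × ℂ}
    (hx : InV c k x) : det2 (vec z) x ≠ 0 := by
  rw [w8_det_vec]
  intro h
  have h1 := hz k
  have h2 := c.hr k
  have h3 : (z - c.p k) * x.2 = x.1 - c.p k * x.2 := by
    linear_combination h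
  have h4 : ‖z - c.p k‖ * ‖x.2‖ = ‖x.1 - c.p k * x.2‖ := by
    rw [← norm_mul, h3]
  have h5 := hx.2
  have h6 : 0 < ‖x.2‖ := norm_pos_iff.2 hx.1
  rw [← h4] at h5
  have h7 : c.r k * ‖x.2‖ ≤ ‖z - c.p k‖ * ‖x.2‖ := mul_le_mul_of_nonneg_right h1 h6.le
  have h8 : 0 < c.r k * ‖x.2‖ := mul_pos h2 h6
  linarith

theorem w8_shape (l : List (Fin N)) (h1 : Even l.length) (h2 : l ≠ []) :
    ∃ k m l', l = k :: m :: l' := by
  cases l with
  | nil => exact absurd rfl h2
  | cons k l =>
    cases l with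
    | nil => simp at h1
    | cons m l => exact ⟨k, m, l, rfl⟩

/-- positions of the images of the centres, of infinity and of points of the domain -/
theorem w8_pos (c : Config N) (V : Wd N) (hV : w8P V) : ∃ k : Fin N,
    (∀ j, InV c k (act c V.1 (vec (c.p j)))) ∧ InV c k (act c V.1 vinf) ∧
    ∀ z ∈ Omc c, InV c k (act c V.1 (vec z)) := by
  obtain ⟨k, m, l, hl⟩ := w8_shape V.1 hV.1 hV.2
  have hc := V.2
  rw [hl] at hc
  rw [hl]
  refine ⟨k, fun j => ?_, ?_, fun z hz => ?_⟩
  · exact pos2 c (adm2_center c j) k m l hc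
  · exact pos2 c (Adm1.adm2 (fun i => outV_vinf c i) (by simp [vinf])) k m l hc
  · exact pos2 c (adm2_vec c hz) k m l hc

/-- the terms -/
noncomputable def w8T1 (c : Config N) (i : Fin N) (z : ℂ) (V : Wd N) : ℂ :=
  cr (vec z) vinf (act c V.1 (vec (c.p i))) (act c V.1 vinf)

noncomputable def w8T6 (c : Config N) (z : ℂ) (V : Wd N) : ℂ :=
  cr (vec z) vinf (act c V.1 vinf) (act c V.1 (vec z))

noncomputable def w8T10 (c : Config N) (i : Fin N) (z : ℂ) (V : Wd N) : ℂ :=
  cr (vec z) (vec (c.p i)) (act c V.1 (vec (c.p i))) (act c V.1 vinf)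

noncomputable def w8T7 (c : Config N) (i : Fin N) (z : ℂ) (V : Wd N) : ℂ :=
  cr (vec z) (vec (c.p i)) (act c V.1 (vec (c.p i))) (act c V.1 (vec z))

section circle

variable (c : Config N) (i : Fin N) {z : ℂ} (hz : ‖z - c.p i‖ = c.r i)
include hz

theorem w8_lam_ne : conj (z - c.p i) / (c.r i : ℂ) ≠ 0 := by
  have h1 := c.hr i
  refine div_ne_zero ?_ (w1_r_ne c i)
  intro h2
  have h3 : z - c.p i = 0 := by
    rw [← Complex.conj_conj (z - c.p i), h2, map_zero]
  rw [h3, norm_zero] at hz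
  linarith

/-- (a) -/
theorem w8_a (e : Wd N → Wd N)
    (he : ∀ (l : Wd N) (v : ℂ × ℂ), act c (e l).1 v = J c i (act c l.1 (J c i v)))
    (hee : ∀ l, Even (e l).1.length ↔ Even l.1.length) (V : Wd N) (hV : Even V.1.length) :
    conj (w8T6 c z V) = w8T7 c i z (e V) := by
  have hr := w1_r_ne c i
  have hlam := w8_lam_ne c i hz
  have h1 : ∀ v, J c i (act c V.1 v) = act c (e V).1 (J c i v) := by
    intro v
    rw [he, J_J]
  have hev := (hee V).2 hV
  have h2 := cr_act_odd c (l := [i]) (by simp) (vec z) vinf (act c V.1 vinf) (act c V.1 (vec z))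
  simp only [act_cons, act_nil] at h2
  unfold w8T6 w8T7
  rw [← h2, h1, h1, J_circle c i hz, J_vinf, act_smul_even c hev, act_smul_even c hev,
    cr_smul _ _ _ _ hlam (inv_ne_zero hr) (inv_ne_zero hr) hlam]

/-- (c) -/
theorem w8_c (e : Wd N → Wd N)
    (he : ∀ (l : Wd N) (v : ℂ × ℂ), act c (e l).1 v = J c i (act c l.1 (J c i v)))
    (hee : ∀ l, Even (e l).1.length ↔ Even l.1.length) (V : Wd N) (hV : Even V.1.length) :
    conj (w8T1 c i z V) = (w8T10 c i z (e V))⁻¹ := by
  have hr := w1_r_ne c i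
  have hlam := w8_lam_ne c i hz
  have h1 : ∀ v, J c i (act c V.1 v) = act c (e V).1 (J c i v) := by
    intro v
    rw [he, J_J]
  have hev := (hee V).2 hV
  have h2 := cr_act_odd c (l := [i]) (by simp) (vec z) vinf (act c V.1 (vec (c.p i)))
    (act c V.1 vinf)
  simp only [act_cons, act_nil] at h2
  unfold w8T1 w8T10
  rw [← h2, h1, h1, J_circle c i hz, J_vinf, J_center, act_smul_even c hev,
    act_smul_even c hev, cr_smul _ _ _ _ hlam (inv_ne_zero hr) hr (inv_ne_zero hr),
    cr_inv_right]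

end circle

/-- (b) -/
theorem w8_b (c : Config N) (i : Fin N) {z : ℂ} (hz : z ∈ Omc c) (V W : Wd N) (hV : w8P V)
    (hW : ∀ v, act c W.1 (act c V.1 v) = v) (hWe : Even W.1.length) :
    w8T7 c i z V = w8T1 c i z V * w8T6 c z V * w8T10 c i z W := by
  obtain ⟨k, h1, h2, h3⟩ := w8_pos c V hV
  unfold w8T7 w8T1 w8T6 w8T10
  rw [cr_mul_right _ _ _ _ _ (w8_det_ne c hz h2) (by rw [w8_det_vinf]; exact h2.1)]
  have h4 : cr (vec z) (vec (c.p i)) (act c W.1 (vec (c.p i))) (act c W.1 vinf) =
      cr vinf (vec (c.p i)) (act c V.1 (vec (c.p i))) (act c V.1 (vec z)) := by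
    have h5 := cr_act_even c hWe (vec (c.p i)) vinf (act c V.1 (vec z)) (act c V.1 (vec (c.p i)))
    rw [hW, hW] at h5
    rw [← cr_symm, h5, cr_inv_left (vec (c.p i)) vinf, cr_inv_right _ _ (act c V.1 (vec z)),
      inv_inv]
  rw [h4, cr_mul_left _ _ _ _ _ (by rw [w8_det_vinf]; exact (h1 i).1)
    (by rw [w8_det_vinf]; exact (h3 z hz).1)]

theorem w8_fE (c : Config N) (i : Fin N) (z : ℂ) (V : Wd N) :
    fE c i z V = if w8P V then log (w8T1 c i z V) else 0 := rfl

theorem w8_fe (c : Config N) (z : ℂ) (V : Wd N) :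
    fe c z V = if w8P V then log (w8T6 c z V) else 0 := rfl

theorem w8_sum_fE (c : Config N) (j : Fin N) {z : ℂ} (hz : z ∈ Omc c) :
    Summable (fun l => fE c j z l) := by
  refine Summable.of_norm_bounded ((wtW_dropLast_summable c).mul_left 8) fun l => ?_
  exact fE_bound c j hz l

theorem w8_sum_fe (c : Config N) {z : ℂ} (hz : z ∈ Omc c) :
    Summable (fun l => fe c z l) := by
  refine Summable.of_norm_bounded ((wtW_dropLast_summable c).mul_left 8) fun l => ?_
  exact fe_bound c hz l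

theorem w8_summable_conj {f : Wd N → ℂ} (hf : Summable f) : Summable (fun l => conj (f l)) :=
  hf.map Complex.conjCLE Complex.conjCLE.continuous

/-- the conjugate of a sum -/
theorem w8_conj_tsum (f : Wd N → ℂ) : conj (∑' l, f l) = ∑' l, conj (f l) := by
  exact (Complex.conjCLE.map_tsum (f := f))

theorem word_I2 (c : Config N) (i : Fin N) {z : ℂ}
    (hz : ‖z - c.p i‖ = c.r i) (hzo : z ∈ Omc c) :
    (∑' l, fE c i z l).im = - (∑' l, fe c z l).im := by
  obtain ⟨e, he, hee, heP⟩ := w8_sigma i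
  obtain ⟨ι, hι⟩ := exists_inv (N := N)
  have hιP : ∀ l, w8P (ι l) ↔ w8P l := by
    intro l
    unfold w8P
    rw [hι, List.length_reverse, Ne, List.reverse_eq_nil_iff]
  have hτP : ∀ l, w8P (e.symm l) ↔ w8P l := by
    intro l
    rw [← heP, Equiv.apply_symm_apply]
  have hτe : ∀ l : Wd N, Even (e.symm l).1.length ↔ Even l.1.length := by
    intro l
    rw [← hee, Equiv.apply_symm_apply]
  have key : ∀ V, conj (fe c z (e.symm V)) + conj (fE c i z (e.symm (ι V))) =
      fE c i z V + fe c z V := by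
    intro V
    rw [w8_fe, w8_fE, w8_fE, w8_fe]
    by_cases hV : w8P V
    · have hW := (hιP V).2 hV
      have h1 := (hτP V).2 hV
      have h2 := (hτP (ι V)).2 hW
      rw [if_pos hV, if_pos hV, if_pos h1, if_pos h2]
      have n1 : Near1 (w8T6 c z (e.symm V)) := near_e c hzo _ h1
      have n2 : Near1 (w8T1 c i z (e.symm (ι V))) := near_E c i hzo _ h2
      have n3 : Near1 (w8T1 c i z V) := near_E c i hzo V hV
      have n4 : Near1 (w8T6 c z V) := near_e c hzo V hV
      rw [← n1.log_conj, ← n2.log_conj, ← n1.conj.log_mul n2.conj, ← n3.log_mul n4]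
      congr 1
      have h3 := w8_a c i hz e (he c) hee (e.symm V) h1.1
      have h4 := w8_c c i hz e (he c) hee (e.symm (ι V)) h2.1
      rw [Equiv.apply_symm_apply] at h3 h4
      have h5 := n2.conj.ne_zero
      rw [h4] at h5
      have h6 : w8T10 c i z (ι V) ≠ 0 := fun h => h5 (by rw [h, inv_zero])
      rw [h3, h4, w8_b c i hzo V (ι V) hV (fun v => by rw [hι, act_reverse]) hW.1,
        mul_assoc, mul_inv_cancel₀ h6, mul_one]
    · rw [if_neg hV, if_neg hV, if_neg (fun h => hV ((hτP V).1 h)),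
        if_neg (fun h => hV ((hιP V).1 ((hτP _).1 h)))]
      simp
  have hs1 := w8_sum_fE c i hzo
  have hs2 := w8_sum_fe c hzo
  have hs3 := w8_summable_conj hs1
  have hs4 := w8_summable_conj hs2
  have hs5 : Summable (fun V => conj (fe c z (e.symm V))) :=
    (e.symm.summable_iff (f := fun V => conj (fe c z V))).2 hs4
  have hs6 : Summable (fun V => conj (fE c i z (e.symm (ι V)))) :=
    ((ι.trans e.symm).summable_iff (f := fun V => conj (fE c i z V))).2 hs3
  have t1 : ∑' V, conj (fe c z (e.symm V)) = conj (∑' V, fe c z V) := by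
    rw [w8_conj_tsum]
    exact e.symm.tsum_eq (fun V => conj (fe c z V))
  have t2 : ∑' V, conj (fE c i z (e.symm (ι V))) = conj (∑' V, fE c i z V) := by
    rw [w8_conj_tsum]
    exact (ι.trans e.symm).tsum_eq (fun V => conj (fE c i z V))
  have h1 : ∑' V, (conj (fe c z (e.symm V)) + conj (fE c i z (e.symm (ι V)))) =
      ∑' V, (fE c i z V + fe c z V) := tsum_congr key
  rw [hs1.tsum_add hs2, hs5.tsum_add hs6, t1, t2] at h1
  have h2 := congrArg Complex.im h1
  simp only [Complex.add_im, Complex.conj_im] at h2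
  linarith

open Classical in
/-- the constants -/
theorem word_I3 (c : Config N) (i : Fin N) :
    ∃ b : ℝ, ∀ z, ‖z - c.p i‖ = c.r i → z ∈ Omc c → 2 * (∑' l, fE c i z l).re = b := by
  obtain ⟨e, he, hee, heP⟩ := w8_sigma i
  have hτP : ∀ l, w8P (e.symm l) ↔ w8P l := by
    intro l
    rw [← heP, Equiv.apply_symm_apply]
  refine ⟨(∑' V : Wd N, if w8P V then log (cr (vec (c.p i)) vinf (act c V.1 (vec (c.p i)))
    (act c V.1 vinf)) else 0).re, fun z hz hzo => ?_⟩
  have key : ∀ V : Wd N, fE c i z V + conj (fE c i z (e.symm V)) =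
      if w8P V then log (cr (vec (c.p i)) vinf (act c V.1 (vec (c.p i)))
        (act c V.1 vinf)) else 0 := by
    intro V
    rw [w8_fE, w8_fE]
    by_cases hV : w8P V
    · have h1 := (hτP V).2 hV
      rw [if_pos hV, if_pos hV, if_pos h1]
      have n1 : Near1 (w8T1 c i z (e.symm V)) := near_E c i hzo _ h1
      have n3 : Near1 (w8T1 c i z V) := near_E c i hzo V hV
      rw [← n1.log_conj, ← n3.log_mul n1.conj]
      congr 1
      have h4 := w8_c c i hz e (he c) hee (e.symm V) h1.1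
      rw [Equiv.apply_symm_apply] at h4
      obtain ⟨k, g1, g2, g3⟩ := w8_pos c V hV
      rw [h4, mul_comm]
      unfold w8T10 w8T1
      rw [← cr_inv_left, cr_mul_left _ _ _ _ _ (w8_det_ne c hzo (g1 i)) (w8_det_ne c hzo g2)]
    · rw [if_neg hV, if_neg hV, if_neg (fun h => hV ((hτP V).1 h))]
      simp
  have hs1 := w8_sum_fE c i hzo
  have hs3 := w8_summable_conj hs1
  have hs5 : Summable (fun V => conj (fE c i z (e.symm V))) :=
    (e.symm.summable_iff (f := fun V => conj (fE c i z V))).2 hs3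
  have t1 : ∑' V, conj (fE c i z (e.symm V)) = conj (∑' V, fE c i z V) := by
    rw [w8_conj_tsum]
    exact e.symm.tsum_eq (fun V => conj (fE c i z V))
  have h1 : ∑' V, (fE c i z V + conj (fE c i z (e.symm V))) =
      ∑' V : Wd N, if w8P V then log (cr (vec (c.p i)) vinf (act c V.1 (vec (c.p i)))
        (act c V.1 vinf)) else 0 := tsum_congr key
  rw [hs1.tsum_add hs5, t1] at h1
  rw [← h1]
  simp only [Complex.add_re, Complex.conj_re]
  ring

end Pool.Agent.SV
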