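import Pool.Agent.Helper53.SV.W1
import Pool.Agent.Helper53.SV.W2
import Pool.Agent.Helper53.SV.W4
import Pool.Agent.Helper53.SV.W5

/-!
# The symmetry of the boundary values

`word_I4`: the boundary values of `2 log |φ_j|` on the circle `k` and of `2 log |φ_k|` on the
circle `j` are constant and agree.
-/

set_option autoImplicit false

open Complex Filter Topology Metric
open scoped ComplexConjugate

namespace Pool.Agent.SV

variable {N : ℕ}

/-- conjugation of a cross ratio by the reflection in a circle through `z` -/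
theorem w9_conj_cr (c : Config N) (k : Fin N) {z : ℂ} (hz : ‖z - c.p k‖ = c.r k) (x y : ℂ × ℂ) :
    conj (cr (vec z) vinf x y) = cr (vec z) (vec (c.p k)) (J c k x) (J c k y) := by
  have hr : (c.r k : ℂ) ≠ 0 := by exact_mod_cast (c.hr k).ne'
  have hzk : z - c.p k ≠ 0 := by
    intro h
    rw [h, norm_zero] at hz
    exact (c.hr k).ne hz
  have hs : conj (z - c.p k) / (c.r k : ℂ) ≠ 0 := by
    apply div_ne_zero _ hr
    rwa [Ne, map_eq_zero]
  have h1 := cr_act_odd c (l := [k]) odd_one (vec z) vinf x y
  rw [← h1]
  change cr (J c k (vec z)) (J c k vinf) (J c k x) (J c k y) = _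
  rw [J_circle c k hz, J_vinf]
  have h2 := cr_smul (vec z) (vec (c.p k)) (J c k x) (J c k y) hs (inv_ne_zero hr) one_ne_zero
    one_ne_zero
  rw [one_smul, one_smul] at h2
  exact h2

/-- the terms of the symmetric sum -/
noncomputable def w9B (c : Config N) (j k : Fin N) (l : Wd N) : ℂ :=
  if Even l.1.length ∧ l.1 ≠ [] ∧ l.1 ≠ [k, j] then
    log (cr (vec (c.p k)) vinf (act c l.1 (vec (c.p j))) (act c l.1 vinf)) else 0

theorem w9B_symm (c : Config N) (j k : Fin N) :
    ∑' l, w9B c j k l = ∑' l, w9B c k j l := by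
  obtain ⟨e, he⟩ := exists_inv (N := N)
  rw [← e.tsum_eq]
  congr 1
  ext l
  unfold w9B
  rw [he l]
  have h1 : (l.1.reverse ≠ [k, j]) ↔ l.1 ≠ [j, k] := by
    rw [Ne, List.reverse_eq_iff]
    rfl
  simp only [List.length_reverse, h1, Ne, List.reverse_eq_nil_iff]
  split_ifs with h
  · congr 1
    have h2 := cr_act_even c h.1 (vec (c.p k)) vinf (act c l.1.reverse (vec (c.p j)))
      (act c l.1.reverse vinf)
    rw [← h2]
    have h3 : ∀ v, act c l.1 (act c l.1.reverse v) = v := by
      intro v
      have := act_reverse c l.1.reverse v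
      rwa [List.reverse_reverse] at this
    rw [h3, h3, cr_symm]
  · rfl

/-- the key computation -/
theorem w9_main (c : Config N) {j k : Fin N} (hjk : j ≠ k) {z : ℂ} (hz : ‖z - c.p k‖ = c.r k)
    (hzo : z ∈ Omc c) :
    2 * (∑' l, fE c j z l).re + 2 * Real.log ‖z - c.p j‖
      = (∑' l, w9B c j k l).re + 2 * Real.log ‖c.p k - c.p j‖ := by
  obtain ⟨e1, he1⟩ := exists_lm (N := N) k
  obtain ⟨e2, he2, he2a, he2e⟩ := exists_rm (N := N) j
  have hrj : (c.r j : ℂ) ≠ 0 := by exact_mod_cast (c.hr j).ne'
  set e := e1.trans e2 with he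
  have hev : ∀ V : Wd N, Even (e V).1.length ↔ Even V.1.length := by
    intro V
    change Even (e2 (e1 V)).1.length ↔ _
    rw [he2e, he1, even_lmul, not_not]
  have hact : ∀ (V : Wd N) (v : ℂ × ℂ), act c (e V).1 v = J c k (act c V.1 (J c j v)) := by
    intro V v
    change act c (e2 (e1 V)).1 v = _
    rw [he2a, he1, act_lmul]
  have hkj0 : ([k, j] : List (Fin N)).IsChain (· ≠ ·) := by
    simpa using hjk.symm
  have hnil0 : ([] : List (Fin N)).IsChain (· ≠ ·) := List.isChain_nil
  let nl : Wd N := ⟨[], hnil0⟩
  let kj : Wd N := ⟨[k, j], hkj0⟩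
  have hjk' : ¬ j = k := hjk
  have hkj' : ¬ k = j := fun h => hjk h.symm
  have he_nl : e nl = kj := by
    apply Subtype.ext
    change (e2 (e1 nl)).1 = [k, j]
    rw [he2, he1]
    simp [nl, lmul, hjk']
  have he_kj : e kj = nl := by
    apply Subtype.ext
    change (e2 (e1 kj)).1 = []
    rw [he2, he1]
    simp [kj, lmul]
  -- conjugation
  have hconj : ∀ V : Wd N, Even V.1.length →
      conj (cr (vec z) vinf (act c V.1 (vec (c.p j))) (act c V.1 vinf)) =
        (cr (vec z) (vec (c.p k)) (act c (e V).1 (vec (c.p j))) (act c (e V).1 vinf))⁻¹ := by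
    intro V hV
    rw [w9_conj_cr c k hz, ← cr_inv_right]
    have h1 : J c k (act c V.1 (vec (c.p j))) = (c.r j : ℂ) • act c (e V).1 vinf := by
      rw [← act_smul_even c ((hev V).mpr hV), hact, ← J_center, J_J]
    have h2 : J c k (act c V.1 vinf) = ((c.r j : ℂ)⁻¹) • act c (e V).1 (vec (c.p j)) := by
      rw [← act_smul_even c ((hev V).mpr hV), hact, ← J_vinf, J_J]
    rw [h1, h2]
    have h3 := cr_smul (vec z) (vec (c.p k)) (act c (e V).1 vinf) (act c (e V).1 (vec (c.p j)))
      one_ne_zero one_ne_zero hrj (inv_ne_zero hrj)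
    rw [one_smul, one_smul] at h3
    exact h3
  -- the pointwise identity
  have hpt : ∀ U : Wd N, w9B c j k U = fE c j z U + conj (fE c j z (e.symm U))
      - (if U = nl then conj (fE c j z kj) else 0) - (if U = kj then fE c j z kj else 0) := by
    intro U
    obtain ⟨V, rfl⟩ := e.surjective U
    rw [Equiv.symm_apply_apply]
    by_cases h1 : V = kj
    · subst h1
      rw [he_kj]
      have hne : nl ≠ kj := by
        intro h
        have := congrArg Subtype.val h
        simp [nl, kj] at this
      rw [if_pos rfl, if_neg hne]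
      simp [w9B, fE, nl]
    · by_cases h2 : V = nl
      · subst h2
        rw [he_nl]
        have hne : kj ≠ nl := by
          intro h
          have := congrArg Subtype.val h
          simp [nl, kj] at this
        rw [if_neg hne, if_pos rfl]
        have : fE c j z nl = 0 := by simp [fE, nl]
        rw [this]
        simp [w9B, kj]
      · have h3 : e V ≠ nl := by
          intro h
          exact h1 (e.injective (h.trans he_kj.symm))
        have h4 : e V ≠ kj := by
          intro h
          exact h2 (e.injective (h.trans he_nl.symm))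
        rw [if_neg h3, if_neg h4, sub_zero, sub_zero]
        by_cases hV : Even V.1.length
        · have hU : Even (e V).1.length := (hev V).mpr hV
          have h5 : (e V).1 ≠ [] := fun h => h3 (Subtype.ext h)
          have h6 : (e V).1 ≠ [k, j] := fun h => h4 (Subtype.ext h)
          have h7 : V.1 ≠ [] := fun h => h2 (Subtype.ext h)
          have hn1 := near_E c j hzo V ⟨hV, h7⟩
          have hn2 := near_E c j hzo (e V) ⟨hU, h5⟩
          unfold w9B fE
          rw [if_pos ⟨hU, h5, h6⟩, if_pos ⟨hU, h5⟩, if_pos ⟨hV, h7⟩, ← hn1.log_conj,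
            ← hn2.log_mul hn1.conj]
          congr 1
          have hcz : conj (cr (vec z) vinf (act c V.1 (vec (c.p j))) (act c V.1 vinf)) ≠ 0 :=
            hn1.conj.ne_zero
          rw [hconj V hV] at hcz ⊢
          have hY := inv_ne_zero hcz
          rw [inv_inv] at hY
          set x := act c (e V).1 (vec (c.p j)) with hx
          set y := act c (e V).1 vinf with hy
          have hd1 : det2 (vec (c.p k)) x ≠ 0 := by
            intro h
            apply hY
            rw [cr, h, mul_zero, div_zero]
          have hd2 : det2 (vec (c.p k)) y ≠ 0 := by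
            intro h
            apply hY
            rw [cr, h, mul_zero, zero_div]
          rw [← cr_mul_left (vec z) (vec (c.p k)) vinf x y hd1 hd2]
          rw [mul_comm (cr (vec z) (vec (c.p k)) x y), mul_assoc, mul_inv_cancel₀ hY, mul_one]
        · have hU : ¬ Even (e V).1.length := fun h => hV ((hev V).mp h)
          unfold w9B fE
          rw [if_neg (fun h => hU h.1), if_neg (fun h => hU h.1), if_neg (fun h => hV h.1)]
          simp
  -- summation
  have hsum : Summable (fun l => fE c j z l) :=
    Summable.of_norm_bounded ((wtW_dropLast_summable c).mul_left 8) (fun l => fE_bound c j hzo l)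
  have hG := hsum.hasSum
  have hH : HasSum (fun U => conj (fE c j z (e.symm U))) (conj (∑' l, fE c j z l)) := by
    have h1 : HasSum (fun U => fE c j z (e.symm U)) (∑' l, fE c j z l) :=
      (Equiv.hasSum_iff (f := fun l => fE c j z l) e.symm).mpr hG
    exact Complex.hasSum_conj'.mpr h1
  have hB : HasSum (fun U => w9B c j k U) (∑' l, fE c j z l + conj (∑' l, fE c j z l)
      - conj (fE c j z kj) - fE c j z kj) := by
    have h1 := ((hG.add hH).sub (hasSum_ite_eq nl (conj (fE c j z kj)))).sub
      (hasSum_ite_eq kj (fE c j z kj))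
    have h2 : (fun U => w9B c j k U) = fun U => fE c j z U + conj (fE c j z (e.symm U))
      - (if U = nl then conj (fE c j z kj) else 0) - (if U = kj then fE c j z kj else 0) :=
      funext hpt
    rw [h2]
    exact h1
  have hre := congrArg Complex.re hB.tsum_eq
  rw [hre]
  -- the exceptional term
  have hkjlog : (fE c j z kj).re = Real.log ‖c.p k - c.p j‖ - Real.log ‖z - c.p j‖ := by
    have hE : Even kj.1.length := even_two
    have hne : kj.1 ≠ [] := by simp [kj]
    unfold fE
    rw [if_pos ⟨hE, hne⟩, Complex.log_re]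
    have h1 := hconj kj hE
    rw [he_kj] at h1
    have h2 : act c nl.1 (vec (c.p j)) = vec (c.p j) := rfl
    have h3 : act c nl.1 vinf = vinf := rfl
    rw [h2, h3] at h1
    have h4 : cr (vec z) (vec (c.p k)) (vec (c.p j)) vinf = (z - c.p j) / (c.p k - c.p j) := by
      simp only [cr, det2, vec, vinf]
      rw [← neg_div_neg_eq]
      congr 1 <;> ring
    rw [h4] at h1
    have h5 := congrArg norm h1
    rw [Complex.norm_conj, norm_inv, norm_div, inv_div] at h5
    rw [h5, Real.log_div]
    · intro h
      rw [norm_eq_zero, sub_eq_zero] at h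
      have h6 := c.sep k j hjk.symm
      rw [h, sub_self, norm_zero] at h6
      have := c.hr j; have := c.hr k
      linarith
    · have := hzo j
      have := c.hr j
      linarith
  simp only [Complex.sub_re, Complex.add_re, Complex.conj_re, hkjlog]
  ring

theorem word_I4 (c : Config N) {j k : Fin N} (hjk : j ≠ k) :
    ∃ b : ℝ, (∀ z, ‖z - c.p k‖ = c.r k → z ∈ Omc c →
        2 * (∑' l, fE c j z l).re + 2 * Real.log ‖z - c.p j‖ = b) ∧
      (∀ z, ‖z - c.p j‖ = c.r j → z ∈ Omc c →
        2 * (∑' l, fE c k z l).re + 2 * Real.log ‖z - c.p k‖ = b) := by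
  refine ⟨(∑' l, w9B c j k l).re + 2 * Real.log ‖c.p k - c.p j‖, fun z hz hzo =>
    w9_main c hjk hz hzo, fun z hz hzo => ?_⟩
  rw [w9_main c hjk.symm hz hzo, w9B_symm c k j, norm_sub_rev]

end Pool.Agent.SV
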