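import Pool.Agent.Helper53.SV.Defs

/-!
# Reflections, words: definitions

Points of the sphere are represented by vectors in `ℂ × ℂ`; the point `z` is `(z, 1)` and infinity
is `(1, 0)`. The reflection in the circle `i` is the antilinear map `J c i`.
-/

set_option autoImplicit false

open Complex Filter Topology Metric
open scoped ComplexConjugate

namespace Pool.Agent.SV

variable {N : ℕ}

/-- determinant of two vectors -/
def det2 (u v : ℂ × ℂ) : ℂ := u.1 * v.2 - u.2 * v.1

/-- the cross ratio `[a, b; x, y] = (a - x) (b - y) / ((a - y) (b - x))` -/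
noncomputable def cr (a b x y : ℂ × ℂ) : ℂ := det2 a x * det2 b y / (det2 a y * det2 b x)

/-- the vector of a finite point -/
def vec (z : ℂ) : ℂ × ℂ := (z, 1)

/-- the vector of infinity -/
def vinf : ℂ × ℂ := (1, 0)

/-- the point of a vector -/
noncomputable def pt (v : ℂ × ℂ) : ℂ := v.1 / v.2

/-- the reflection in the circle with centre `c.p i` and radius `c.r i` -/
noncomputable def J (c : Config N) (i : Fin N) (v : ℂ × ℂ) : ℂ × ℂ :=
  ((c.p i * (conj v.1 - conj (c.p i) * conj v.2) + (c.r i : ℂ) ^ 2 * conj v.2) / c.r i,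
    (conj v.1 - conj (c.p i) * conj v.2) / c.r i)

/-- action of a word -/
noncomputable def act (c : Config N) (l : List (Fin N)) (v : ℂ × ℂ) : ℂ × ℂ := l.foldr (J c) v

/-- reduced words -/
abbrev Wd (N : ℕ) : Type := {l : List (Fin N) // l.IsChain (· ≠ ·)}

/-- left multiplication of a list by a letter, with reduction -/
def lmul (i : Fin N) : List (Fin N) → List (Fin N)
  | [] => [i]
  | j :: l => if i = j then l else i :: j :: l

/-- `v` is well outside of the disc `i` -/
def OutV (c : Config N) (i : Fin N) (v : ℂ × ℂ) : Prop :=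
  v ≠ 0 ∧ 16 * c.r i * ‖v.2‖ ≤ ‖v.1 - c.p i * v.2‖

/-- `v` is well inside of the disc `i` -/
def InV (c : Config N) (i : Fin N) (v : ℂ × ℂ) : Prop :=
  v.2 ≠ 0 ∧ 16 * ‖v.1 - c.p i * v.2‖ ≤ c.r i * ‖v.2‖

/-- `v` is in the closed disc `i` -/
def InV' (c : Config N) (i : Fin N) (v : ℂ × ℂ) : Prop :=
  v.2 ≠ 0 ∧ ‖v.1 - c.p i * v.2‖ ≤ c.r i * ‖v.2‖

/-- the weight of a list -/
noncomputable def wtW (c : Config N) : List (Fin N) → ℝ
  | [] => 1
  | [_] => 1
  | i :: j :: l => (if i = j then 0 else 4 * c.r i * c.r j / ‖c.p i - c.p j‖ ^ 2) * wtW c (j :: l)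

/-- the radius of the head of a list (`0` for the empty list) -/
noncomputable def hr (c : Config N) : List (Fin N) → ℝ
  | [] => 0
  | i :: _ => c.r i

/-- the sum over nontrivial even words defining `E j` -/
noncomputable def fE (c : Config N) (j : Fin N) (z : ℂ) (l : Wd N) : ℂ :=
  if Even l.1.length ∧ l.1 ≠ [] then
    log (cr (vec z) vinf (act c l.1 (vec (c.p j))) (act c l.1 vinf)) else 0

/-- term of `lam` -/
noncomputable def fL (c : Config N) (w z : ℂ) (l : Wd N) : ℂ :=
  if Even l.1.length ∧ l.1 ≠ [] then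
    log (cr (vec z) vinf (act c l.1 (vec w)) (act c l.1 vinf)) else 0

/-- term of `mu` -/
noncomputable def fM (c : Config N) (w z : ℂ) (l : Wd N) : ℂ :=
  if Odd l.1.length then
    log (cr (vec z) vinf (act c l.1 (vec w)) (act c l.1 vinf)) else 0

/-- term of `2 e` -/
noncomputable def fe (c : Config N) (z : ℂ) (l : Wd N) : ℂ :=
  if Even l.1.length ∧ l.1 ≠ [] then
    log (cr (vec z) vinf (act c l.1 vinf) (act c l.1 (vec z))) else 0

end Pool.Agent.SV
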