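import Pool.Agent.Helper53.SV.W4
import Pool.Agent.Helper53.SV.W6
import Pool.Agent.Helper53.SV.W7
import Pool.Agent.Helper53.SV.W8
import Pool.Agent.Helper53.SV.W9

/-!
# Assembly of the word part
-/

set_option autoImplicit false

open Complex Filter Topology Metric
open scoped ComplexConjugate

namespace Pool.Agent.SV

variable {N : ℕ}

/-- points of a circle are in the closed domain -/
theorem circle_omc (c : Config N) (i : Fin N) {z : ℂ} (hz : ‖z - c.p i‖ = c.r i) :
    z ∈ Omc c := by
  intro k
  by_cases hk : k = i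
  · subst hk; exact hz.ge
  · have h1 := c.sep k i hk
    have h2 : ‖c.p k - c.p i‖ ≤ ‖z - c.p i‖ + ‖z - c.p k‖ := by
      have h3 : c.p k - c.p i = (z - c.p i) - (z - c.p k) := by ring
      rw [h3]; exact norm_sub_le _ _
    have h4 := c.hr k
    have h5 := c.hr i
    nlinarith

theorem words_main (c : Config N) : Nonempty (FunData c) := by
  choose b3 hb3 using fun i => word_I3 c i
  have hex : ∀ j k : Fin N, ∃ b : ℝ, j ≠ k → (∀ z, ‖z - c.p k‖ = c.r k → z ∈ Omc c →
        2 * (∑' l, fE c j z l).re + 2 * Real.log ‖z - c.p j‖ = b) ∧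
      (∀ z, ‖z - c.p j‖ = c.r j → z ∈ Omc c →
        2 * (∑' l, fE c k z l).re + 2 * Real.log ‖z - c.p k‖ = b) := by
    intro j k
    by_cases hjk : j = k
    · exact ⟨0, fun h => absurd hjk h⟩
    · obtain ⟨b, hb⟩ := word_I4 c hjk
      exact ⟨b, fun _ => hb⟩
  choose b4 hb4 using hex
  have hS : ∀ k, ∃ z : ℂ, ‖z - c.p k‖ = c.r k := fun k =>
    ⟨c.p k + c.r k, by
      rw [add_sub_cancel_left, Complex.norm_real, Real.norm_of_nonneg (c.hr k).le]⟩
  have hsum := wtW_dropLast_summable c
  have hsum8 : Summable (fun l : Wd N => 8 * wtW c l.1.dropLast) := hsum.mul_left 8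
  have hfeR : Reg c (fun z => ∑' l, fe c z l) 0 :=
    reg_tsum c hsum8 (fun l => fe_reg c l) fun z hz l => fe_bound c hz l
  refine ⟨{
    E := fun j z => ∑' l, fE c j z l
    e := fun z => (1 / 2 : ℂ) * ∑' l, fe c z l
    lam := fun w z => ∑' l, fL c w z l
    mu := fun w z => ∑' l, fM c w z l
    b := fun j k => if j = k then b3 j + 2 * Real.log (c.r j) else b4 j k
    hE := fun j => reg_tsum c hsum8 (fun l => fE_reg c j l) fun z hz l => fE_bound c j hz l
    he := ⟨hfeR.diff.const_mul _, hfeR.cont.const_smul (1 / 2 : ℂ), by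
      have := hfeR.lim.const_mul (1 / 2 : ℂ); simpa using this⟩
    hlam := fun w hw => reg_tsum c hsum8 (fun l => fL_reg c hw l) fun z hz l => fL_bound c hw hz l
    hmu := fun w hw => reg_tsum c hsum8 (fun l => fM_reg c hw l) fun z hz l => fM_bound c hw hz l
    hb := ?_
    bdE := ?_
    bde := ?_
    bdlm := ?_ }⟩
  · intro j k
    by_cases hjk : j = k
    · subst hjk; rfl
    · have hkj : ¬ k = j := fun h => hjk h.symm
      simp only [hjk, hkj, if_false]
      obtain ⟨z, hz⟩ := hS k
      have h1 := (hb4 j k hjk).1 z hz (circle_omc c k hz)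
      have h2 := (hb4 k j hkj).2 z hz (circle_omc c k hz)
      rw [← h1, ← h2]
  · intro j k z hz
    by_cases hjk : j = k
    · subst hjk
      simp only [if_true]
      rw [hb3 j z hz (circle_omc c j hz), hz]
    · simp only [hjk, if_false]
      exact (hb4 j k hjk).1 z hz (circle_omc c k hz)
  · intro i z hz
    rw [word_I2 c i hz (circle_omc c i hz)]
    have h1 : ((1 / 2 : ℂ) * ∑' l, fe c z l).im = (1 / 2) * (∑' l, fe c z l).im := by
      have : (1 / 2 : ℂ) = ((1 / 2 : ℝ) : ℂ) := by push_cast; rfl
      rw [this, Complex.im_ofReal_mul]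
    rw [h1]; ring
  · intro w hw i z hz
    rw [word_I1 c hw i hz (circle_omc c i hz), Complex.exp_sub, Complex.exp_log, Complex.exp_neg,
      div_eq_mul_inv]
    have hwi : c.p i ≠ w := by
      intro h
      have := hw i
      rw [← h, sub_self, norm_zero] at this
      have := c.hr i
      linarith
    have hzw : z ≠ w := by
      intro h
      have := hw i
      rw [← h, hz] at this
      have := c.hr i
      linarith
    exact div_ne_zero (sub_ne_zero.mpr hzw) (sub_ne_zero.mpr hwi)

end Pool.Agent.SV
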